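import Pool.Agent.M3.Defs

/-!
# Euclidean minimum three-dimensional matching in the plane: the dynamic program takes
polynomial time
-/

namespace Pool.Agent.M3

open Pool.Agent.TM2Lib

section D2
variable {α β γ P : Type} [Enc α] [Enc β] [Enc γ] [Enc P]

/-! ### positions and entries -/

theorem D2_pos {f g : α → ℕ} (hf : UPoly f) (hg : UPoly g) :
    Poly (fun a => (⟨f a, g a⟩ : Pos)) :=
  Poly.comp (g := fun p : Un × Un => (⟨p.1.n, p.2.n⟩ : Pos)) (Poly.of_enc fun _ => rfl)
    (Poly.pair hf hg)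

theorem D2_x {f : α → Pos} (hf : Poly f) : UPoly (fun a => (f a).x) :=
  Poly.fst' (Poly.comp (g := fun p : Pos => ((⟨p.x⟩ : Un), (⟨p.y⟩ : Un)))
    (Poly.of_enc fun _ => rfl) hf)

theorem D2_y {f : α → Pos} (hf : Poly f) : UPoly (fun a => (f a).y) :=
  Poly.snd' (Poly.comp (g := fun p : Pos => ((⟨p.x⟩ : Un), (⟨p.y⟩ : Un)))
    (Poly.of_enc fun _ => rfl) hf)

theorem D2_eq {f g : α → Pos} (hf : Poly f) (hg : Poly g) :
    Poly (fun a => decide (f a = g a)) :=
  ((UPoly.eq (D2_x hf) (D2_x hg)).and (UPoly.eq (D2_y hf) (D2_y hg))).of_eq fun a => by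
    rw [Bool.eq_iff_iff, Bool.and_eq_true, decide_eq_true_iff, decide_eq_true_iff,
      decide_eq_true_iff]
    constructor
    · rintro ⟨h1, h2⟩
      rcases h : f a with ⟨x, y⟩
      rcases h' : g a with ⟨x', y'⟩
      rw [h, h'] at h1 h2
      simp only at h1 h2
      rw [h1, h2]
    · intro h
      rw [h]
      exact ⟨rfl, rfl⟩

theorem D2_ent {c : α → ℕ} {tk : α → List (P × Pos)} {sol : α → List (P × (P × P))}
    (hc : UPoly c) (ht : Poly tk) (hs : Poly sol) :
    Poly (fun a => (⟨c a, tk a, sol a⟩ : Ent P)) :=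
  Poly.comp (g := fun p : Un × (List (P × Pos) × List (P × (P × P))) =>
    (⟨p.1.n, p.2.1, p.2.2⟩ : Ent P)) (Poly.of_enc fun _ => rfl)
    (Poly.pair hc (Poly.pair ht hs))

theorem D2_un {f : α → Ent P} (hf : Poly f) :
    Poly (fun a => ((⟨(f a).c⟩ : Un), ((f a).tk, (f a).sol))) :=
  Poly.comp (g := fun s : Ent P => ((⟨s.c⟩ : Un), (s.tk, s.sol))) (Poly.of_enc fun _ => rfl) hf

theorem D2_c {f : α → Ent P} (hf : Poly f) : UPoly (fun a => (f a).c) := (D2_un hf).fst'
theorem D2_tk {f : α → Ent P} (hf : Poly f) : Poly (fun a => (f a).tk) := (D2_un hf).snd'.fst'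
theorem D2_sol {f : α → Ent P} (hf : Poly f) : Poly (fun a => (f a).sol) :=
  (D2_un hf).snd'.snd'

theorem D2_szpos (z : Pos) : sz z = 2 * z.x + 2 * z.y + 3 := by
  have h : sz z = sz ((⟨z.x⟩ : Un), (⟨z.y⟩ : Un)) := rfl
  rw [h, sz_pair, sz_Un, sz_Un]
  show 2 * z.x + 1 + (2 * z.y + 1) + 1 = _
  omega

theorem D2_szent (s : Ent P) : sz s = 2 * s.c + sz s.tk + sz s.sol + 3 := by
  have h : sz s = sz ((⟨s.c⟩ : Un), (s.tk, s.sol)) := rfl
  rw [h, sz_pair, sz_Un, sz_pair]
  show 2 * s.c + 1 + (sz s.tk + sz s.sol + 1) + 1 = _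
  omega

theorem D2_szlist {l : List β} {b : ℕ} (h : ∀ x ∈ l, sz x ≤ b) :
    sz l ≤ 1 + l.length * (b + 1) := by
  induction l with
  | nil => simp
  | cons a l ih =>
    have h1 := ih fun x hx => h x (List.mem_cons_of_mem _ hx)
    have h2 := h a List.mem_cons_self
    rw [sz_cons, List.length_cons, Nat.succ_mul]
    omega

theorem D2_szperm {l l' : List β} (h : l.Perm l') : sz l = sz l' := by
  induction h with
  | nil => rfl
  | cons a _ ih => rw [sz_cons, sz_cons, ih]
  | swap a b l => rw [sz_cons, sz_cons, sz_cons, sz_cons]; omega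
  | trans _ _ h1 h2 => exact h1.trans h2

/-! ### numerical functions -/

theorem D2_ad {f g : α → ℕ} (hf : UPoly f) (hg : UPoly g) : UPoly (fun a => ad (f a) (g a)) :=
  (hf.sub hg).add (hg.sub hf)

theorem D2_sqrt_eq (n : ℕ) :
    (((List.range n).map Un.mk).filter
      fun u => decide ((u.n + 1) * (u.n + 1) ≤ n)).length = Nat.sqrt n := by
  have h1 : ∀ k, (((List.range k).map Un.mk).filter
      fun u => decide ((u.n + 1) * (u.n + 1) ≤ n)).length = min k (Nat.sqrt n) := by
    intro k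
    induction k with
    | zero => simp
    | succ k ih =>
      rw [List.range_succ, List.map_append, List.filter_append, List.length_append, ih]
      by_cases h : (k + 1) * (k + 1) ≤ n
      · have h2 := Nat.le_sqrt.2 h
        simp only [List.map_cons, List.map_nil, List.filter_cons, h, decide_true, if_true,
          List.filter_nil, List.length_cons, List.length_nil]
        omega
      · have h2 : ¬ (k + 1 ≤ Nat.sqrt n) := fun h3 => h (Nat.le_sqrt.1 h3)
        simp only [List.map_cons, List.map_nil, List.filter_cons, h, decide_false,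
          List.filter_nil, List.length_nil, Bool.false_eq_true, if_false]
        omega
  rw [h1]
  exact min_eq_right (Nat.sqrt_le_self n)

theorem D2_sqrt {f : α → ℕ} (hf : UPoly f) : UPoly (fun a => Nat.sqrt (f a)) := by
  have h := UPoly.length (Poly.filter (h := fun p : α × Un =>
    decide ((p.2.n + 1) * (p.2.n + 1) ≤ f p.1)) (Poly.range hf)
    (UPoly.le (UPoly.mul ((UPoly.n.comp Poly.snd).add (UPoly.const 1))
      ((UPoly.n.comp Poly.snd).add (UPoly.const 1))) (hf.comp Poly.fst)))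
  exact h.of_eq fun a => D2_sqrt_eq (f a)

theorem D2_dh {f g : α → Pos} (hf : Poly f) (hg : Poly g) : UPoly (fun a => dh (f a) (g a)) := by
  have h1 := D2_ad (D2_x hf) (D2_x hg)
  have h2 := D2_ad (D2_y hf) (D2_y hg)
  refine (UPoly.add (D2_sqrt ((h1.mul h1).add (h2.mul h2))) (UPoly.const 3)).of_eq fun a => ?_
  unfold dh
  rw [sq, sq]

theorem D2_tri {f g h : α → Pos} (hf : Poly f) (hg : Poly g) (hh : Poly h) :
    UPoly (fun a => tri (f a) (g a) (h a)) :=
  ((D2_dh hf hg).add (D2_dh hg hh)).add (D2_dh hh hf)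

theorem D2_tr {w : α → ℕ} {f : α → Pos} (hw : UPoly w) (hf : Poly f) :
    Poly (fun a => tr (w a) (f a)) :=
  D2_pos (((D2_x hf).div hw).mul hw) (((D2_y hf).div hw).mul hw)

theorem D2_dh_le {c : ℕ} {z w : Pos} (hx : z.x ≤ c) (hy : z.y ≤ c) (hx' : w.x ≤ c)
    (hy' : w.y ≤ c) : dh z w ≤ 2 * c + 3 := by
  unfold dh
  have h1 : ad z.x w.x ≤ c := by unfold ad; omega
  have h2 : ad z.y w.y ≤ c := by unfold ad; omega
  have h3 : Nat.sqrt (ad z.x w.x ^ 2 + ad z.y w.y ^ 2) ≤ 2 * c := by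
    rw [← Nat.lt_succ_iff, Nat.sqrt_lt']
    have h4 : ad z.x w.x ^ 2 ≤ c ^ 2 := Nat.pow_le_pow_left h1 2
    have h5 : ad z.y w.y ^ 2 ≤ c ^ 2 := Nat.pow_le_pow_left h2 2
    nlinarith
  omega

/-! ### picks -/

omit [Enc β] in
theorem D2_picks_perm {l : List β} : ∀ {a : β} {r : List β}, (a, r) ∈ picks l →
    (a :: r).Perm l := by
  induction l with
  | nil => intro a r h; simp [picks] at h
  | cons b l ih =>
    intro a r h
    rw [picks, List.mem_cons] at h
    rcases h with h | h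
    · rw [Prod.mk.injEq] at h
      rw [h.1, h.2]
    · rw [List.mem_map] at h
      obtain ⟨q, hq, h⟩ := h
      rw [Prod.mk.injEq] at h
      rw [← h.1, ← h.2]
      exact (List.Perm.swap b q.1 q.2).trans ((ih (a := q.1) (r := q.2) hq).cons b)

omit [Enc β] in
theorem D2_picks_length (l : List β) : (picks l).length = l.length := by
  induction l with
  | nil => rfl
  | cons b l ih => rw [picks, List.length_cons, List.length_map, ih, List.length_cons]

theorem D2_picks_sz (l : List β) : sz (picks l) ≤ 1 + sz l * (sz l + 1) := by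
  have h1 : ∀ x ∈ picks l, sz x ≤ sz l := by
    rintro ⟨a, r⟩ h
    have h2 := D2_szperm (D2_picks_perm h)
    rw [sz_cons] at h2
    rw [sz_pair]
    omega
  have h3 := D2_szlist h1
  rw [D2_picks_length] at h3
  have h4 := length_lt_sz l
  have h5 : l.length * (sz l + 1) ≤ sz l * (sz l + 1) := Nat.mul_le_mul_right _ h4.le
  omega

theorem D2_picks {f : α → List β} (hf : Poly f) : Poly (fun a => picks (f a)) := by
  obtain ⟨F, hF⟩ := hf.size
  have key : ∀ l : List β, l.foldr (fun b (s : List β × List (β × List β)) =>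
      (b :: s.1, (b, s.1) :: s.2.map (fun q => (q.1, b :: q.2)))) ([], []) = (l, picks l) := by
    intro l
    induction l with
    | nil => rfl
    | cons b l ih => rw [List.foldr_cons, ih, picks]
  have h := Poly.foldr (f := f) (g := fun _ : α => (([], []) : List β × List (β × List β)))
    (h := fun p : α × ((List β × List (β × List β)) × β) =>
      (p.2.2 :: p.2.1.1, (p.2.2, p.2.1.1) :: p.2.1.2.map (fun q => (q.1, p.2.2 :: q.2))))
    hf (TM2Lib.Poly.const _) ?_ (F + (1 + F * (F + 1)) + 1) ?_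
  · refine h.snd'.of_eq fun a => ?_
    exact congrArg Prod.snd (key (f a))
  · refine Poly.pair (Poly.cons Poly.id.snd'.snd' Poly.id.snd'.fst'.fst')
      (Poly.cons (Poly.pair Poly.id.snd'.snd' Poly.id.snd'.fst'.fst')
        (TM2Lib.Poly.map (h := fun p : (α × ((List β × List (β × List β)) × β)) × (β × List β) =>
          (p.2.1, p.1.2.2 :: p.2.2)) Poly.id.snd'.fst'.snd' ?_))
    exact Poly.pair Poly.id.snd'.fst' (Poly.cons Poly.id.fst'.snd'.snd' Poly.id.snd'.snd')
  · intro a k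
    have h1 := key ((f a).drop k)
    simp only [h1]
    rw [sz_pair]
    have h2 := D2_picks_sz ((f a).drop k)
    have h3 := Poly.sz_drop_le (f a) k
    have h4 := hF a
    have h5 : sz ((f a).drop k) * (sz ((f a).drop k) + 1) ≤
        F.eval (sz a) * (F.eval (sz a) + 1) := Nat.mul_le_mul (by omega) (by omega)
    simp only [Polynomial.eval_add, Polynomial.eval_mul, Polynomial.eval_one]
    omega

/-! ### elementary operations -/

/-- a token and the other tokens -/
abbrev D2_T (P : Type) : Type := (P × Pos) × List (P × Pos)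

/-- inner part of `form` -/
def D2_f3 (q : ((Ent P × D2_T P) × D2_T P) × D2_T P) : Ent P :=
  ⟨q.1.1.1.c + tri q.1.1.2.1.2 q.1.2.1.2 q.2.1.2, q.2.2,
    (q.1.1.2.1.1, (q.1.2.1.1, q.2.1.1)) :: q.1.1.1.sol⟩

/-- inner part of `form` -/
def D2_f2 (q : (Ent P × D2_T P) × D2_T P) : List (Ent P) :=
  (picks q.2.2).map fun d => D2_f3 (q, d)

/-- inner part of `form` -/
def D2_f1 (q : Ent P × D2_T P) : List (Ent P) := (picks q.2.2).flatMap fun b => D2_f2 (q, b)

theorem D2_poly_f3 : Poly (fun q : ((Ent P × D2_T P) × D2_T P) × D2_T P => D2_f3 q) := by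
  unfold D2_f3
  refine D2_ent ?_ Poly.id.snd'.snd' ?_
  · exact (D2_c Poly.id.fst'.fst'.fst').add
      (D2_tri Poly.id.fst'.fst'.snd'.fst'.snd' Poly.id.fst'.snd'.fst'.snd' Poly.id.snd'.fst'.snd')
  · exact (Poly.pair Poly.id.fst'.fst'.snd'.fst'.fst' (Poly.pair Poly.id.fst'.snd'.fst'.fst'
      Poly.id.snd'.fst'.fst')).cons (D2_sol Poly.id.fst'.fst'.fst')

theorem D2_poly_f2 : Poly (fun q : (Ent P × D2_T P) × D2_T P => D2_f2 q) := by
  unfold D2_f2
  exact TM2Lib.Poly.map (D2_picks Poly.id.snd'.snd') D2_poly_f3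

theorem D2_poly_f1 : Poly (fun q : Ent P × D2_T P => D2_f1 q) := by
  unfold D2_f1
  exact Poly.flatMap (D2_picks Poly.id.snd'.snd') D2_poly_f2

theorem D2_form {f : α → Ent P} (hf : Poly f) : Poly (fun a => form (f a)) := by
  have h : Poly (fun s : Ent P => (picks s.tk).flatMap fun a => D2_f1 (s, a)) :=
    Poly.flatMap (D2_picks (D2_tk Poly.id)) D2_poly_f1
  exact Poly.comp (g := fun s : Ent P => form s) (h.of_eq fun s => rfl) hf

theorem D2_trunc {w : α → ℕ} {f : α → Ent P} (hw : UPoly w) (hf : Poly f) :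
    Poly (fun a => trunc (w a) (f a)) := by
  refine TM2Lib.Poly.map (f := fun a : α => picks (f a).tk)
    (h := fun q : α × ((P × Pos) × List (P × Pos)) =>
      (⟨(f q.1).c + 2 * dh q.2.1.2 (tr (w q.1) q.2.1.2),
        (q.2.1.1, tr (w q.1) q.2.1.2) :: q.2.2, (f q.1).sol⟩ : Ent P))
    (D2_picks (D2_tk hf)) ?_
  have h1 : Poly (fun q : α × ((P × Pos) × List (P × Pos)) => tr (w q.1) q.2.1.2) :=
    D2_tr (hw.comp Poly.id.fst') Poly.id.snd'.fst'.snd'
  refine D2_ent ?_ ?_ ?_
  · exact (D2_c (hf.comp Poly.id.fst')).add ((UPoly.const 2).mul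
      (D2_dh Poly.id.snd'.fst'.snd' h1))
  · exact (Poly.pair Poly.id.snd'.fst'.fst' h1).cons Poly.id.snd'.snd'
  · exact D2_sol (hf.comp Poly.id.fst')

theorem D2_ops {w : α → ℕ} {f : α → Ent P} (hw : UPoly w) (hf : Poly f) :
    Poly (fun a => ops (w a) (f a)) :=
  hf.cons ((D2_form hf).append (D2_trunc hw hf))

theorem D2_merge {f : α → Ent P × Ent P} (hf : Poly f) : Poly (fun a => merge (f a)) :=
  D2_ent ((D2_c hf.fst').add (D2_c hf.snd')) ((D2_tk hf.fst').append (D2_tk hf.snd'))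
    ((D2_sol hf.fst').append (D2_sol hf.snd'))

/-- number of occurrences -/
theorem D2_count {f : α → List Pos} {z : α → Pos} (hf : Poly f) (hz : Poly z) :
    UPoly (fun a => ((f a).filter fun u => decide (u = z a)).length) :=
  UPoly.length (Poly.filter (h := fun p : α × Pos => decide (p.2 = z p.1)) hf
    (D2_eq Poly.id.snd' (hz.comp Poly.id.fst')))

theorem D2_same {f g : α → List Pos} (hf : Poly f) (hg : Poly g) :
    Poly (fun a => same (f a) (g a)) := by
  refine Poly.all (f := fun a => f a ++ g a)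
    (h := fun p : α × Pos => decide (((f p.1).filter fun u => decide (u = p.2)).length =
      ((g p.1).filter fun u => decide (u = p.2)).length)) (hf.append hg) ?_
  exact UPoly.eq (D2_count (hf.comp Poly.id.fst') Poly.id.snd')
    (D2_count (hg.comp Poly.id.fst') Poly.id.snd')

omit [Enc P] in
theorem D2_best1_aux (l : List (Ent P)) : ∀ s : List (Ent P), s.length ≤ 1 →
    (l.foldl (fun s a => if s.any (fun b => decide (b.c ≤ a.c)) then s else [a]) s).length ≤ 1 ∧
    ∀ x ∈ l.foldl (fun s a => if s.any (fun b => decide (b.c ≤ a.c)) then s else [a]) s,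
      x ∈ s ∨ x ∈ l := by
  induction l with
  | nil => intro s hs; exact ⟨hs, fun x hx => Or.inl hx⟩
  | cons a l ih =>
    intro s hs
    rw [List.foldl_cons]
    split_ifs with h
    · obtain ⟨h1, h2⟩ := ih s hs
      refine ⟨h1, fun x hx => ?_⟩
      rcases h2 x hx with h3 | h3
      · exact Or.inl h3
      · exact Or.inr (List.mem_cons_of_mem _ h3)
    · obtain ⟨h1, h2⟩ := ih [a] (by simp)
      refine ⟨h1, fun x hx => ?_⟩
      rcases h2 x hx with h3 | h3
      · rw [List.mem_singleton] at h3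
        rw [h3]
        exact Or.inr List.mem_cons_self
      · exact Or.inr (List.mem_cons_of_mem _ h3)

omit [Enc P] in
theorem D2_best1_length (l : List (Ent P)) : (best1 l).length ≤ 1 :=
  (D2_best1_aux l [] (by simp)).1

omit [Enc P] in
theorem D2_best1_mem {l : List (Ent P)} {x : Ent P} (h : x ∈ best1 l) : x ∈ l := by
  rcases (D2_best1_aux l [] (by simp)).2 x h with h1 | h1
  · simp at h1
  · exact h1

theorem D2_best1 {f : α → List (Ent P)} (hf : Poly f) : Poly (fun a => best1 (f a)) := by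
  obtain ⟨F, hF⟩ := hf.size
  refine Poly.foldl (f := f) (g := fun _ : α => ([] : List (Ent P)))
    (h := fun p : α × (List (Ent P) × Ent P) =>
      if p.2.1.any (fun b => decide (b.c ≤ p.2.2.c)) then p.2.1 else [p.2.2])
    hf (TM2Lib.Poly.const _) ?_ (F + 2) ?_
  · refine Poly.ite (Poly.any (f := fun p : α × (List (Ent P) × Ent P) => p.2.1)
      (h := fun q : (α × (List (Ent P) × Ent P)) × Ent P => decide (q.2.c ≤ q.1.2.2.c))
      Poly.id.snd'.fst' ?_) Poly.id.snd'.fst' (Poly.id.snd'.snd'.cons (TM2Lib.Poly.const _))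
    exact UPoly.le (D2_c Poly.id.snd') (D2_c Poly.id.fst'.snd'.snd')
  · intro a k
    obtain ⟨h1, h2⟩ := D2_best1_aux ((f a).take k) [] (by simp)
    simp only [Polynomial.eval_add, Polynomial.eval_ofNat]
    have h3 : ∀ x ∈ ((f a).take k).foldl
        (fun s a => if s.any (fun b => decide (b.c ≤ a.c)) then s else [a]) [],
        sz x ≤ F.eval (sz a) := by
      intro x hx
      rcases h2 x hx with h4 | h4
      · simp at h4
      · exact (Poly.sz_mem_le (List.mem_of_mem_take h4)).trans (hF a)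
    have h4 := D2_szlist h3
    have h5 := Nat.mul_le_mul_right (F.eval (sz a) + 1) h1
    omega

theorem D2_best {K : α → List (List Pos)} {A : α → List (Ent P)} (hK : Poly K) (hA : Poly A) :
    Poly (fun a => best (K a) (A a)) := by
  refine Poly.flatMap (f := K) (h := fun p : α × List Pos =>
    best1 ((A p.1).filter fun s => same (s.tk.map fun a => a.2) p.2)) hK ?_
  refine D2_best1 (Poly.filter (f := fun p : α × List Pos => A p.1)
    (h := fun q : (α × List Pos) × Ent P => same (q.2.tk.map fun a => a.2) q.1.2)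
    (hA.comp Poly.id.fst') ?_)
  refine D2_same (TM2Lib.Poly.map (f := fun q : (α × List Pos) × Ent P => q.2.tk)
    (h := fun r : ((α × List Pos) × Ent P) × (P × Pos) => r.2.2) (D2_tk Poly.id.snd')
    Poly.id.snd'.snd') Poly.id.fst'.snd'

theorem D2_prod {A : α → List β} {B : α → List γ} (hA : Poly A) (hB : Poly B) :
    Poly (fun a => prod (A a) (B a)) := by
  refine Poly.flatMap (f := A) (h := fun p : α × β => (B p.1).map fun b => (p.2, b)) hA ?_
  exact TM2Lib.Poly.map (f := fun p : α × β => B p.1)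
    (h := fun q : (α × β) × γ => (q.1.2, q.2)) (hB.comp Poly.id.fst')
    (Poly.id.fst'.snd'.pair Poly.id.snd')

theorem D2_mergeT {K : α → List (List Pos)} {A B : α → List (Ent P)} (hK : Poly K)
    (hA : Poly A) (hB : Poly B) : Poly (fun a => mergeT (K a) (A a) (B a)) :=
  D2_best hK (TM2Lib.Poly.map (h := fun q : α × (Ent P × Ent P) => merge q.2)
    (D2_prod hA hB) (D2_merge Poly.id.snd'))

theorem D2_stepT {K : α → List (List Pos)} {w : α → ℕ} {A : α → List (Ent P)} (hK : Poly K)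
    (hw : UPoly w) (hA : Poly A) : Poly (fun a => stepT (K a) (w a) (A a)) :=
  D2_best hK (Poly.flatMap (h := fun q : α × Ent P => ops (w q.1) q.2) hA
    (D2_ops (hw.comp Poly.id.fst') Poly.id.snd'))

/-! ### keys -/

theorem D2_replicate {k : α → ℕ} {z : α → Pos} (hk : UPoly k) (hz : Poly z) :
    Poly (fun a => List.replicate (k a) (z a)) := by
  refine (TM2Lib.Poly.map (h := fun p : α × Unit => z p.1) hk.list
    (hz.comp Poly.id.fst')).of_eq fun a => ?_
  rw [un, List.map_replicate]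

theorem D2_cntL {n : α → ℕ} {δ : Type} (L : List δ) (h : δ → α → Pos) (hn : UPoly n)
    (hh : ∀ z, Poly (h z)) : Poly (fun a => cntL (n a) (L.map fun z => h z a)) := by
  induction L with
  | nil => exact TM2Lib.Poly.const _
  | cons z L ih =>
    refine (Poly.flatMap (f := fun a => (List.range (n a + 1)).map Un.mk)
      (h := fun p : α × Un => (cntL (n p.1) (L.map fun z => h z p.1)).map fun r =>
        List.replicate p.2.n (h z p.1) ++ r) (Poly.range (hn.add (UPoly.const 1))) ?_).of_eq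
      fun a => ?_
    · refine TM2Lib.Poly.map (f := fun p : α × Un => cntL (n p.1) (L.map fun z => h z p.1))
        (h := fun q : (α × Un) × List Pos => List.replicate q.1.2.n (h z q.1.1) ++ q.2)
        (ih.comp Poly.id.fst') ?_
      exact (D2_replicate (UPoly.n.comp Poly.id.fst'.snd') ((hh z).comp Poly.id.fst'.fst')).append
        Poly.id.snd'
    · rw [List.map_cons, cntL, List.flatMap_map]

theorem D2_lisL {A : α → List Pos} (hA : Poly A) (m : ℕ) : Poly (fun a => lisL (A a) m) := by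
  induction m with
  | zero => exact TM2Lib.Poly.const _
  | succ m ih =>
    refine Poly.cons (TM2Lib.Poly.const _) (Poly.flatMap (f := A)
      (h := fun p : α × Pos => (lisL (A p.1) m).map fun r => p.2 :: r) hA ?_)
    exact TM2Lib.Poly.map (f := fun p : α × Pos => lisL (A p.1) m)
      (h := fun q : (α × Pos) × List Pos => q.1.2 :: q.2) (ih.comp Poly.id.fst')
      (Poly.id.fst'.snd'.cons Poly.id.snd')

theorem D2_grid {W : α → ℕ} (hW : UPoly W) : Poly (fun a => grid (W a)) := by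
  refine (Poly.flatMap (f := fun a => (List.range (W a)).map Un.mk)
    (h := fun p : α × Un => (List.range (W p.1)).map fun y => (⟨p.2.n, y⟩ : Pos))
    (Poly.range hW) ?_).of_eq fun a => ?_
  · exact Poly.tab (h := fun q : (α × Un) × Un => (⟨q.1.2.n, q.2.n⟩ : Pos))
      (hW.comp Poly.id.fst') (D2_pos (UPoly.n.comp Poly.id.fst'.snd') (UPoly.n.comp Poly.id.snd'))
  · rw [List.flatMap_map, grid]

theorem D2_keys (e M : ℕ) {n W w x0 y0 : α → ℕ} (hn : UPoly n) (hW : UPoly W) (hw : UPoly w)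
    (hx : UPoly x0) (hy : UPoly y0) :
    Poly (fun a => keys e M (n a) (W a) (w a) (x0 a) (y0 a)) := by
  refine Poly.flatMap (f := fun a => cntL (n a) (coarse e (w a) (x0 a) (y0 a)))
    (h := fun p : α × List Pos => (lisL (grid (W p.1)) (4 * M)).map fun b => p.2 ++ b) ?_ ?_
  · exact D2_cntL (grid (2 ^ (e + 1))) (fun z a => ⟨x0 a + z.x * w a, y0 a + z.y * w a⟩) hn
      fun z => D2_pos (hx.add ((UPoly.const _).mul hw)) (hy.add ((UPoly.const _).mul hw))
  · exact TM2Lib.Poly.map (f := fun p : α × List Pos => lisL (grid (W p.1)) (4 * M))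
      (h := fun q : (α × List Pos) × List Pos => q.1.2 ++ q.2)
      ((D2_lisL (D2_grid hW) (4 * M)).comp Poly.id.fst') (Poly.id.fst'.snd'.append Poly.id.snd')

/-! ### size bounds -/

/-- all coordinates are at most `c`, the size is at most `b` -/
def D2_Bd (c b : ℕ) (s : Ent P) : Prop := (∀ a ∈ s.tk, a.2.x ≤ c ∧ a.2.y ≤ c) ∧ sz s ≤ b

theorem D2_Bd_mono {c b b' : ℕ} {s : Ent P} (h : D2_Bd c b s) (hb : b ≤ b') : D2_Bd c b' s :=
  ⟨h.1, h.2.trans hb⟩

theorem D2_Bd_form {c b : ℕ} {s s' : Ent P} (h : D2_Bd c b s) (hs : s' ∈ form s) :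
    D2_Bd c (b + (12 * c + 18)) s' := by
  unfold form at hs
  rw [List.mem_flatMap] at hs
  obtain ⟨a1, h1, hs⟩ := hs
  rw [List.mem_flatMap] at hs
  obtain ⟨a2, h2, hs⟩ := hs
  rw [List.mem_map] at hs
  obtain ⟨a3, h3, rfl⟩ := hs
  have p1 : (a1.1 :: a1.2).Perm s.tk := D2_picks_perm h1
  have p2 : (a2.1 :: a2.2).Perm a1.2 := D2_picks_perm h2
  have p3 : (a3.1 :: a3.2).Perm a2.2 := D2_picks_perm h3
  have z1 := D2_szperm p1
  have z2 := D2_szperm p2
  have z3 := D2_szperm p3
  rw [sz_cons] at z1 z2 z3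
  have m1 : a1.1 ∈ s.tk := p1.subset List.mem_cons_self
  have m2' : a2.1 ∈ a1.2 := p2.subset List.mem_cons_self
  have m2 : a2.1 ∈ s.tk := p1.subset (List.mem_cons_of_mem _ m2')
  have m3' : a3.1 ∈ a1.2 := p2.subset (List.mem_cons_of_mem _ (p3.subset List.mem_cons_self))
  have m3 : a3.1 ∈ s.tk := p1.subset (List.mem_cons_of_mem _ m3')
  have b1 := h.1 _ m1
  have b2 := h.1 _ m2
  have b3 := h.1 _ m3
  have d1 := D2_dh_le b1.1 b1.2 b2.1 b2.2
  have d2 := D2_dh_le b2.1 b2.2 b3.1 b3.2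
  have d3 := D2_dh_le b3.1 b3.2 b1.1 b1.2
  have e1 : sz a1.1 = sz a1.1.1 + sz a1.1.2 + 1 := sz_pair _ _
  have e2 : sz a2.1 = sz a2.1.1 + sz a2.1.2 + 1 := sz_pair _ _
  have e3 : sz a3.1 = sz a3.1.1 + sz a3.1.2 + 1 := sz_pair _ _
  have h0 := h.2
  rw [D2_szent] at h0
  refine ⟨fun a ha => ?_, ?_⟩
  · have ha' : a ∈ a3.2 := ha
    exact h.1 a (p1.subset (List.mem_cons_of_mem _ (p2.subset (List.mem_cons_of_mem _
      (p3.subset (List.mem_cons_of_mem _ ha'))))))
  · rw [D2_szent]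
    simp only [sz_cons, sz_pair, tri]
    omega

theorem D2_Bd_trunc {c b w : ℕ} {s s' : Ent P} (h : D2_Bd c b s) (hs : s' ∈ trunc w s) :
    D2_Bd c (b + (12 * c + 18)) s' := by
  unfold trunc at hs
  rw [List.mem_map] at hs
  obtain ⟨a1, h1, rfl⟩ := hs
  have p1 : (a1.1 :: a1.2).Perm s.tk := D2_picks_perm h1
  have z1 := D2_szperm p1
  rw [sz_cons] at z1
  have m1 : a1.1 ∈ s.tk := p1.subset List.mem_cons_self
  have b1 := h.1 _ m1
  have t1 : (tr w a1.1.2).x ≤ a1.1.2.x := Nat.div_mul_le_self _ _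
  have t2 : (tr w a1.1.2).y ≤ a1.1.2.y := Nat.div_mul_le_self _ _
  have d1 := D2_dh_le b1.1 b1.2 (t1.trans b1.1) (t2.trans b1.2)
  have e1 : sz a1.1 = sz a1.1.1 + sz a1.1.2 + 1 := sz_pair _ _
  have h0 := h.2
  rw [D2_szent] at h0
  refine ⟨fun a ha => ?_, ?_⟩
  · have ha' : a ∈ (a1.1.1, tr w a1.1.2) :: a1.2 := ha
    rcases List.mem_cons.1 ha' with rfl | h2
    · exact ⟨t1.trans b1.1, t2.trans b1.2⟩
    · exact h.1 a (p1.subset (List.mem_cons_of_mem _ h2))
  · rw [D2_szent]
    simp only [sz_cons, sz_pair]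
    rw [D2_szpos] at e1 ⊢
    omega

theorem D2_Bd_ops {c b w : ℕ} {s s' : Ent P} (h : D2_Bd c b s) (hs : s' ∈ ops w s) :
    D2_Bd c (b + (12 * c + 18)) s' := by
  unfold ops at hs
  rcases List.mem_cons.1 hs with rfl | hs
  · exact D2_Bd_mono h (Nat.le_add_right _ _)
  · rcases List.mem_append.1 hs with hs | hs
    · exact D2_Bd_form h hs
    · exact D2_Bd_trunc h hs

theorem D2_Bd_merge {c b b' : ℕ} {s s' : Ent P} (h : D2_Bd c b s) (h' : D2_Bd c b' s') :
    D2_Bd c (b + b') (merge (s, s')) := by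
  refine ⟨fun a ha => ?_, ?_⟩
  · have ha' : a ∈ s.tk ++ s'.tk := ha
    rcases List.mem_append.1 ha' with h1 | h1
    · exact h.1 a h1
    · exact h'.1 a h1
  · have h1 := h.2
    have h2 := h'.2
    rw [D2_szent] at h1 h2 ⊢
    have h3 := Poly.sz_append s.tk s'.tk
    have h4 := Poly.sz_append s.sol s'.sol
    simp only [merge]
    omega

omit [Enc P] in
theorem D2_best_mem {K : List (List Pos)} {A : List (Ent P)} {x : Ent P} (h : x ∈ best K A) :
    x ∈ A := by
  unfold best at h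
  rw [List.mem_flatMap] at h
  obtain ⟨k, _, h⟩ := h
  exact (List.mem_filter.1 (D2_best1_mem h)).1

omit [Enc P] in
theorem D2_best_length (K : List (List Pos)) (A : List (Ent P)) :
    (best K A).length ≤ K.length := by
  unfold best
  induction K with
  | nil => simp
  | cons k K ih =>
    rw [List.flatMap_cons, List.length_append, List.length_cons]
    have := D2_best1_length (A.filter fun s => same (s.tk.map fun a => a.2) k)
    omega

theorem D2_Bd_mergeT {c b b' : ℕ} {K : List (List Pos)} {A B : List (Ent P)}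
    (hA : ∀ x ∈ A, D2_Bd c b x) (hB : ∀ x ∈ B, D2_Bd c b' x) :
    ∀ x ∈ mergeT K A B, D2_Bd c (b + b') x := by
  intro x hx
  have h1 := D2_best_mem hx
  rw [List.mem_map] at h1
  obtain ⟨⟨u, v⟩, huv, rfl⟩ := h1
  unfold prod at huv
  rw [List.mem_flatMap] at huv
  obtain ⟨u', hu', huv⟩ := huv
  rw [List.mem_map] at huv
  obtain ⟨v', hv', huv⟩ := huv
  rw [Prod.mk.injEq] at huv
  obtain ⟨rfl, rfl⟩ := huv
  exact D2_Bd_merge (hA _ hu') (hB _ hv')

theorem D2_Bd_iter {c b w : ℕ} {K : List (List Pos)} {A : List (Ent P)}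
    (hA : ∀ x ∈ A, D2_Bd c b x) : ∀ k : ℕ,
    ∀ x ∈ (stepT K w)^[k] A, D2_Bd c (b + k * (12 * c + 18)) x := by
  intro k
  induction k with
  | zero => intro x hx; simpa using hA x hx
  | succ k ih =>
    intro x hx
    rw [Function.iterate_succ_apply'] at hx
    have h1 := D2_best_mem hx
    rw [List.mem_flatMap] at h1
    obtain ⟨y, hy, hx⟩ := h1
    have h2 := D2_Bd_ops (ih y hy) hx
    refine D2_Bd_mono h2 (le_of_eq ?_)
    ring

omit [Enc P] in
theorem D2_iter_length (K : List (List Pos)) (w : ℕ) (A : List (Ent P)) (k : ℕ) :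
    ((stepT K w)^[k] A).length ≤ max A.length K.length := by
  cases k with
  | zero => exact le_max_left _ _
  | succ k =>
    rw [Function.iterate_succ_apply']
    exact (D2_best_length _ _).trans (le_max_right _ _)

theorem D2_Bd_sz {A : List (Ent P)} {x : Ent P} (h : x ∈ A) : D2_Bd (sz A) (sz A) x := by
  have h1 := Poly.sz_mem_le h
  refine ⟨fun a ha => ?_, h1⟩
  have h2 := Poly.sz_mem_le ha
  have h3 : sz a = sz a.1 + sz a.2 + 1 := sz_pair _ _
  rw [D2_szpos] at h3
  rw [D2_szent] at h1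
  constructor <;> omega

theorem D2_iter_sz (K : List (List Pos)) (w : ℕ) (A : List (Ent P)) (k N : ℕ) (hk : k ≤ N)
    (hK : sz K ≤ N) (hA : sz A ≤ N) :
    sz ((stepT K w)^[k] A) ≤ 1 + N * (N + N * (12 * N + 18) + 1) := by
  have h1 := D2_Bd_iter (K := K) (w := w) (fun x hx => D2_Bd_sz (A := A) hx) k
  have h2 := D2_szlist (fun x hx => (h1 x hx).2)
  have h3 := D2_iter_length K w A k
  have h4 := length_lt_sz A
  have h5 := length_lt_sz K
  have h6 : k * (12 * sz A + 18) ≤ N * (12 * N + 18) := Nat.mul_le_mul hk (by omega)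
  have h7 : ((stepT K w)^[k] A).length * (sz A + k * (12 * sz A + 18) + 1) ≤
      N * (N + N * (12 * N + 18) + 1) := Nat.mul_le_mul (by omega) (by omega)
  omega

/-! ### iteration -/

/-- one step, with its parameters -/
def D2_st (p : List (List Pos) × (Un × List (Ent P))) : List (List Pos) × (Un × List (Ent P)) :=
  (p.1, (p.2.1, stepT p.1 p.2.1.n p.2.2))

omit [Enc P] in
theorem D2_st_iter (K : List (List Pos)) (w : Un) (A : List (Ent P)) (k : ℕ) :
    D2_st^[k] (K, (w, A)) = (K, (w, (stepT K w.n)^[k] A)) := by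
  induction k with
  | zero => rfl
  | succ k ih => rw [Function.iterate_succ_apply', ih, Function.iterate_succ_apply']; rfl

theorem D2_iter {K : α → List (List Pos)} {w n : α → ℕ} {A : α → List (Ent P)} (hK : Poly K)
    (hw : UPoly w) (hn : UPoly n) (hA : Poly A) :
    Poly (fun a => (stepT (K a) (w a))^[n a] (A a)) := by
  have hst : Poly (D2_st (P := P)) :=
    Poly.pair Poly.id.fst' (Poly.pair Poly.id.snd'.fst'
      (D2_stepT Poly.id.fst' (UPoly.n.comp Poly.id.snd'.fst') Poly.id.snd'.snd'))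
  have h1 := Poly.iter (f := fun a => un (n a)) (g := fun a => (K a, ((⟨w a⟩ : Un), A a)))
    (step := D2_st) hn.list (Poly.pair hK (Poly.pair hw hA)) hst
    (2 * Polynomial.X + 3 + Polynomial.X * (Polynomial.X + Polynomial.X *
      (12 * Polynomial.X + 18) + 1)) (by
      intro a k hk
      rw [D2_st_iter]
      rw [un, List.length_replicate] at hk
      simp only [Polynomial.eval_add, Polynomial.eval_mul, Polynomial.eval_X,
        Polynomial.eval_ofNat, Polynomial.eval_one]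
      have h2 := sz_un (n a)
      simp only [sz_pair] at h2 ⊢
      rw [h2]
      have h3 := D2_iter_sz (K a) (w a) (A a) k
        (2 * n a + 1 + (sz (K a) + (sz (⟨w a⟩ : Un) + sz (A a) + 1) + 1)) (by omega) (by omega)
        (by omega)
      omega)
  refine h1.snd'.snd'.of_eq fun a => ?_
  rw [un, List.length_replicate, D2_st_iter]

theorem D2_max1 {f : α → ℕ} (hf : UPoly f) : UPoly (fun a => max 1 (f a)) := by
  refine (UPoly.ite (UPoly.le (UPoly.const 1) hf) hf (UPoly.const 1)).of_eq fun a => ?_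
  by_cases h : 1 ≤ f a
  · simp only [h, decide_true, if_true]
    exact (max_eq_right h).symm
  · simp only [h, decide_false, Bool.false_eq_true, if_false]
    omega

/-- the keys used for a cell -/
def D2_K (e M n W s : ℕ) (z : Pos) : List (List Pos) :=
  keys e M n W (max 1 (s / 2 ^ e)) (z.x * (2 * s)) (z.y * (2 * s))

theorem D2_polyK (e M : ℕ) {n W s : α → ℕ} {z : α → Pos} (hn : UPoly n) (hW : UPoly W)
    (hs : UPoly s) (hz : Poly z) : Poly (fun a => D2_K e M (n a) (W a) (s a) (z a)) :=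
  D2_keys e M hn hW (D2_max1 (hs.div (UPoly.const _)))
    ((D2_x hz).mul ((UPoly.const 2).mul hs)) ((D2_y hz).mul ((UPoly.const 2).mul hs))

theorem D2_non {w : α → ℕ} {l : α → List Pos} (hw : UPoly w) (hl : Poly l) :
    Poly (fun a => non (w a) (l a)) := by
  refine (Poly.filter (h := fun p : α × Pos => !(decide (tr (w p.1) p.2 = p.2))) hl
    (D2_eq (D2_tr (hw.comp Poly.id.fst') Poly.id.snd') Poly.id.snd').not).of_eq fun a => ?_
  unfold non
  refine List.filter_congr fun z _ => ?_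
  simp

theorem D2_proc (e M : ℕ) {n W s : α → ℕ} {z : α → Pos} {A B C D : α → List (Ent P)}
    (hn : UPoly n) (hW : UPoly W) (hs : UPoly s) (hz : Poly z) (hA : Poly A) (hB : Poly B)
    (hC : Poly C) (hD : Poly D) :
    Poly (fun a => proc e M (n a) (W a) (s a) (z a) (A a) (B a) (C a) (D a)) := by
  have hK := D2_polyK e M hn hW hs hz
  have hw : UPoly (fun a => max 1 (2 * s a / 2 ^ e)) :=
    D2_max1 (((UPoly.const 2).mul hs).div (UPoly.const _))
  have h1 := D2_iter hK hw hn (D2_mergeT hK (D2_mergeT hK (D2_mergeT hK hA hB) hC) hD)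
  have h2 := Poly.filter (h := fun p : α × Ent P =>
    decide ((non (max 1 (2 * s p.1 / 2 ^ e)) (p.2.tk.map fun a => a.2)).length ≤ M)) h1
    (UPoly.le (UPoly.length (D2_non (hw.comp Poly.id.fst')
      (TM2Lib.Poly.map (f := fun q : α × Ent P => q.2.tk)
      (h := fun r : (α × Ent P) × (P × Pos) => r.2.2) (D2_tk Poly.id.snd')
      Poly.id.snd'.snd'))) (UPoly.const M))
  exact h2

/-! ### the levels -/

/-- look up a table -/
def D2_look (G : List (Pos × List (Ent P))) (z : Pos) : List (Ent P) :=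
  ((G.filter fun q => decide (q.1 = z)).map fun q => q.2).headD []

/-- the tables of the next level -/
def D2_lev (e M n W s : ℕ) (G : List (Pos × List (Ent P))) : List (Pos × List (Ent P)) :=
  (grid W).map fun z => (z, proc e M n W s z (D2_look G ⟨2 * z.x, 2 * z.y⟩)
    (D2_look G ⟨2 * z.x + 1, 2 * z.y⟩) (D2_look G ⟨2 * z.x, 2 * z.y + 1⟩)
    (D2_look G ⟨2 * z.x + 1, 2 * z.y + 1⟩))

/-- the tables of all levels -/
def D2_G (e M n W : ℕ) (g : List (P × Pos)) : ℕ → List (Pos × List (Ent P))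
  | 0 => (grid W).map fun z => (z, [⟨0, g.filter fun a => decide (a.2 = z), []⟩])
  | t + 1 => D2_lev e M n W (2 ^ t) (D2_G e M n W g t)

omit [Enc P] in
theorem D2_look_map (F : Pos → List (Ent P)) (z : Pos) (l : List Pos) (hz : z ∈ l) :
    D2_look (l.map fun z => (z, F z)) z = F z := by
  induction l with
  | nil => simp at hz
  | cons a l ih =>
    unfold D2_look
    rw [List.map_cons, List.filter_cons]
    by_cases h : a = z
    · subst h
      simp
    · have h1 : z ∈ l := by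
        rcases List.mem_cons.1 hz with h2 | h2
        · exact absurd h2.symm h
        · exact h2
      simp only [h, decide_false, Bool.false_eq_true, if_false]
      exact ih h1

theorem D2_mem_grid {W : ℕ} {z : Pos} (hx : z.x < W) (hy : z.y < W) : z ∈ grid W := by
  unfold grid
  rw [List.mem_flatMap]
  exact ⟨z.x, List.mem_range.2 hx, List.mem_map.2 ⟨z.y, List.mem_range.2 hy, rfl⟩⟩

theorem D2_grid_lt {W : ℕ} {z : Pos} (h : z ∈ grid W) : z.x < W ∧ z.y < W := by
  unfold grid at h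
  rw [List.mem_flatMap] at h
  obtain ⟨x, hx, h⟩ := h
  rw [List.mem_map] at h
  obtain ⟨y, hy, rfl⟩ := h
  exact ⟨List.mem_range.1 hx, List.mem_range.1 hy⟩

theorem D2_grid_length (W : ℕ) : (grid W).length = W * W := by
  unfold grid
  rw [List.length_flatMap]
  simp

omit [Enc P] in
theorem D2_G_look (e M n T : ℕ) (g : List (P × Pos)) : ∀ t ≤ T, ∀ z : Pos,
    z.x < 2 ^ (T - t) → z.y < 2 ^ (T - t) →
    D2_look (D2_G e M n (2 ^ T) g t) z = dp e M n (2 ^ T) g t z := by
  intro t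
  induction t with
  | zero =>
    intro _ z hx hy
    rw [Nat.sub_zero] at hx hy
    rw [D2_G, D2_look_map (fun z => [⟨0, g.filter fun a => decide (a.2 = z), []⟩]) z _
      (D2_mem_grid hx hy), dp]
  | succ t ih =>
    intro ht z hx hy
    have h1 : 2 ^ (T - t) = 2 * 2 ^ (T - (t + 1)) := by
      rw [← pow_succ']
      congr 1
      omega
    have h2 : 2 ^ (T - (t + 1)) ≤ 2 ^ T := Nat.pow_le_pow_right (by omega) (by omega)
    rw [D2_G]
    unfold D2_lev
    rw [D2_look_map (fun z => proc e M n (2 ^ T) (2 ^ t) z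
      (D2_look (D2_G e M n (2 ^ T) g t) ⟨2 * z.x, 2 * z.y⟩)
      (D2_look (D2_G e M n (2 ^ T) g t) ⟨2 * z.x + 1, 2 * z.y⟩)
      (D2_look (D2_G e M n (2 ^ T) g t) ⟨2 * z.x, 2 * z.y + 1⟩)
      (D2_look (D2_G e M n (2 ^ T) g t) ⟨2 * z.x + 1, 2 * z.y + 1⟩)) z _
      (D2_mem_grid (hx.trans_le h2) (hy.trans_le h2)), dp]
    rw [ih (by omega) ⟨2 * z.x, 2 * z.y⟩ (by simp only; omega) (by simp only; omega),
      ih (by omega) ⟨2 * z.x + 1, 2 * z.y⟩ (by simp only; omega) (by simp only; omega),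
      ih (by omega) ⟨2 * z.x, 2 * z.y + 1⟩ (by simp only; omega) (by simp only; omega),
      ih (by omega) ⟨2 * z.x + 1, 2 * z.y + 1⟩ (by simp only; omega) (by simp only; omega)]

theorem D2_polylook {G : α → List (Pos × List (Ent P))} {z : α → Pos} (hG : Poly G)
    (hz : Poly z) : Poly (fun a => D2_look (G a) (z a)) := by
  refine Poly.headD (TM2Lib.Poly.map
    (f := fun a => (G a).filter fun q => decide (q.1 = z a))
    (h := fun p : α × (Pos × List (Ent P)) => p.2.2) ?_ Poly.id.snd'.snd') (TM2Lib.Poly.const _)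
  exact Poly.filter (h := fun p : α × (Pos × List (Ent P)) => decide (p.2.1 = z p.1)) hG
    (D2_eq Poly.id.snd'.fst' (hz.comp Poly.id.fst'))

/-- inner part of `D2_lev` -/
def D2_row (e M : ℕ) (p : ((Un × Un) × (Un × List (Pos × List (Ent P)))) × Pos) :
    Pos × List (Ent P) :=
  (p.2, proc e M p.1.1.1.n p.1.1.2.n p.1.2.1.n p.2 (D2_look p.1.2.2 ⟨2 * p.2.x, 2 * p.2.y⟩)
    (D2_look p.1.2.2 ⟨2 * p.2.x + 1, 2 * p.2.y⟩) (D2_look p.1.2.2 ⟨2 * p.2.x, 2 * p.2.y + 1⟩)
    (D2_look p.1.2.2 ⟨2 * p.2.x + 1, 2 * p.2.y + 1⟩))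

/-- the step from one level to the next -/
def D2_stG (e M : ℕ) (p : (Un × Un) × (Un × List (Pos × List (Ent P)))) :
    (Un × Un) × (Un × List (Pos × List (Ent P))) :=
  (p.1, (⟨2 * p.2.1.n⟩, (grid p.1.2.n).map fun z => D2_row e M (p, z)))

omit [Enc P] in
theorem D2_stG_iter (e M n W : ℕ) (g : List (P × Pos)) (k : ℕ) :
    (D2_stG e M)^[k] ((⟨n⟩, ⟨W⟩), (⟨1⟩, D2_G e M n W g 0)) =
      ((⟨n⟩, ⟨W⟩), (⟨2 ^ k⟩, D2_G e M n W g k)) := by
  induction k with
  | zero => rfl
  | succ k ih =>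
    rw [Function.iterate_succ_apply', ih]
    unfold D2_stG
    have h1 : 2 * 2 ^ k = 2 ^ (k + 1) := (pow_succ' 2 k).symm
    simp only [h1]
    rfl

theorem D2_poly_row (e M : ℕ) : Poly (D2_row (P := P) e M) := by
  have hx : UPoly (fun p : ((Un × Un) × (Un × List (Pos × List (Ent P)))) × Pos => 2 * p.2.x) :=
    (UPoly.const 2).mul (D2_x Poly.id.snd')
  have hy : UPoly (fun p : ((Un × Un) × (Un × List (Pos × List (Ent P)))) × Pos => 2 * p.2.y) :=
    (UPoly.const 2).mul (D2_y Poly.id.snd')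
  have hx' := hx.add (UPoly.const 1)
  have hy' := hy.add (UPoly.const 1)
  exact Poly.pair Poly.id.snd' (D2_proc e M (UPoly.n.comp Poly.id.fst'.fst'.fst')
    (UPoly.n.comp Poly.id.fst'.fst'.snd') (UPoly.n.comp Poly.id.fst'.snd'.fst') Poly.id.snd'
    (D2_polylook Poly.id.fst'.snd'.snd' (D2_pos hx hy))
    (D2_polylook Poly.id.fst'.snd'.snd' (D2_pos hx' hy))
    (D2_polylook Poly.id.fst'.snd'.snd' (D2_pos hx hy'))
    (D2_polylook Poly.id.fst'.snd'.snd' (D2_pos hx' hy')))

theorem D2_poly_stG (e M : ℕ) : Poly (D2_stG (P := P) e M) :=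
  Poly.pair Poly.id.fst' (Poly.pair ((UPoly.const 2).mul (UPoly.n.comp Poly.id.snd'.fst'))
    (TM2Lib.Poly.map (D2_grid (UPoly.n.comp Poly.id.fst'.snd')) (D2_poly_row e M)))

theorem D2_Bd_proc {e M n W s c b : ℕ} {z : Pos} {A B C D : List (Ent P)}
    (hA : ∀ x ∈ A, D2_Bd c b x) (hB : ∀ x ∈ B, D2_Bd c b x) (hC : ∀ x ∈ C, D2_Bd c b x)
    (hD : ∀ x ∈ D, D2_Bd c b x) :
    (∀ x ∈ proc e M n W s z A B C D, D2_Bd c (4 * b + n * (12 * c + 18)) x) ∧
      (proc e M n W s z A B C D).length ≤ (D2_K e M n W s z).length := by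
  constructor
  · intro x hx
    have h1 := (List.mem_filter.1 hx).1
    have h2 := D2_Bd_iter (D2_Bd_mergeT (D2_Bd_mergeT (D2_Bd_mergeT hA hB) hC) hD) n x h1
    exact D2_Bd_mono h2 (le_of_eq (by ring))
  · refine (List.length_filter_le _ _).trans ((D2_iter_length _ _ _ _).trans ?_)
    exact max_le (D2_best_length _ _) le_rfl

omit [Enc P] in
theorem D2_look_mem {G : List (Pos × List (Ent P))} {z : Pos} {x : Ent P}
    (h : x ∈ D2_look G z) : ∃ q ∈ G, x ∈ q.2 := by
  unfold D2_look at h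
  rcases h1 : (G.filter fun q => decide (q.1 = z)) with _ | ⟨q, l⟩
  · rw [h1] at h; simp at h
  · rw [h1] at h
    have h2 : q ∈ G.filter fun q => decide (q.1 = z) := by rw [h1]; exact List.mem_cons_self
    exact ⟨q, (List.mem_filter.1 h2).1, h⟩

theorem D2_Bd_G (e M n W : ℕ) (g : List (P × Pos)) : ∀ t : ℕ, ∀ q ∈ D2_G e M n W g t,
    ∀ x ∈ q.2, D2_Bd (sz (D2_G e M n W g 0)) (4 ^ t * (sz (D2_G e M n W g 0) +
      n * (12 * sz (D2_G e M n W g 0) + 18)) - n * (12 * sz (D2_G e M n W g 0) + 18)) x := by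
  intro t
  induction t with
  | zero =>
    intro q hq x hx
    have h1 := Poly.sz_mem_le hq
    have h2 : sz q = sz q.1 + sz q.2 + 1 := sz_pair _ _
    have h3 := D2_Bd_sz hx
    refine ⟨fun a ha => ?_, ?_⟩
    · have h4 := h3.1 a ha
      omega
    · have h4 := h3.2
      rw [pow_zero, one_mul, Nat.add_sub_cancel]
      omega
  | succ t ih =>
    intro q hq x hx
    rw [D2_G] at hq
    unfold D2_lev at hq
    rw [List.mem_map] at hq
    obtain ⟨z, _, rfl⟩ := hq
    have hl : ∀ z', ∀ x ∈ D2_look (D2_G e M n W g t) z',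
        D2_Bd (sz (D2_G e M n W g 0)) (4 ^ t * (sz (D2_G e M n W g 0) +
          n * (12 * sz (D2_G e M n W g 0) + 18)) - n * (12 * sz (D2_G e M n W g 0) + 18)) x := by
      intro z' x hx
      obtain ⟨q, hq, hx⟩ := D2_look_mem hx
      exact ih q hq x hx
    have h1 := (D2_Bd_proc (e := e) (M := M) (n := n) (W := W) (s := 2 ^ t) (z := z)
      (hl ⟨2 * z.x, 2 * z.y⟩) (hl ⟨2 * z.x + 1, 2 * z.y⟩) (hl ⟨2 * z.x, 2 * z.y + 1⟩)
      (hl ⟨2 * z.x + 1, 2 * z.y + 1⟩)).1 x hx
    refine D2_Bd_mono h1 ?_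
    generalize sz (D2_G e M n W g 0) = S
    generalize n * (12 * S + 18) = X
    have h2 : S + X ≤ 4 ^ t * (S + X) := Nat.le_mul_of_pos_left _ (by positivity)
    have h3 : 4 ^ (t + 1) * (S + X) = 4 * (4 ^ t * (S + X)) := by ring
    omega

theorem D2_level_sz (e M : ℕ) (Q : Polynomial ℕ)
    (hQ : ∀ n W s : ℕ, ∀ z : Pos, sz (D2_K e M n W s z) ≤
      Q.eval (2 * n + 2 * W + 2 * s + 2 * z.x + 2 * z.y + 9))
    (n T : ℕ) (g : List (P × Pos)) (k N : ℕ) (hk : k ≤ T) (hn : n ≤ N) (hW : 2 ^ T ≤ N)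
    (hS : sz (D2_G e M n (2 ^ T) g 0) ≤ N) :
    sz (D2_G e M n (2 ^ T) g k) ≤ N + (1 + N * N * (4 * N + 3 +
      (1 + Q.eval (10 * N + 9) * (N * N * (N + N * (12 * N + 18)) + 1)) + 1 + 1)) := by
  cases k with
  | zero => exact hS.trans (Nat.le_add_right _ _)
  | succ t =>
    refine le_trans ?_ (Nat.le_add_left _ _)
    have hlen : (D2_G e M n (2 ^ T) g (t + 1)).length = 2 ^ T * 2 ^ T := by
      rw [D2_G]
      unfold D2_lev
      rw [List.length_map, D2_grid_length]
    have h4 : 4 ^ (t + 1) ≤ N * N := by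
      have h5 : 4 ^ (t + 1) ≤ 4 ^ T := Nat.pow_le_pow_right (by omega) hk
      have h6 : 4 ^ T = 2 ^ T * 2 ^ T := by
        rw [← mul_pow]
        norm_num
      rw [h6] at h5
      exact h5.trans (Nat.mul_le_mul hW hW)
    have hb := D2_Bd_G e M n (2 ^ T) g (t + 1)
    set S := sz (D2_G e M n (2 ^ T) g 0) with hSdef
    have h7 : n * (12 * S + 18) ≤ N * (12 * N + 18) := Nat.mul_le_mul hn (by omega)
    have h8 : 4 ^ (t + 1) * (S + n * (12 * S + 18)) ≤ N * N * (N + N * (12 * N + 18)) :=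
      Nat.mul_le_mul h4 (by omega)
    have h9 : ∀ q ∈ D2_G e M n (2 ^ T) g (t + 1), sz q ≤ 4 * N + 3 +
        (1 + Q.eval (10 * N + 9) * (N * N * (N + N * (12 * N + 18)) + 1)) + 1 := by
      intro q hq
      have h10 := hb q hq
      have h11 : ∀ x ∈ q.2, sz x ≤ N * N * (N + N * (12 * N + 18)) := by
        intro x hx
        have := (h10 x hx).2
        omega
      have h12 := D2_szlist h11
      rw [D2_G] at hq
      unfold D2_lev at hq
      rw [List.mem_map] at hq
      obtain ⟨z, hz, hq'⟩ := hq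
      have h13 := D2_grid_lt hz
      have h14 : q.2.length ≤ Q.eval (10 * N + 9) := by
        rw [← hq']
        refine ((D2_Bd_proc (b := 4 ^ t * (S + n * (12 * S + 18)) - n * (12 * S + 18)) (c := S)
          ?_ ?_ ?_ ?_).2).trans ?_
        all_goals try
          intro x hx
          obtain ⟨q', hq'', hx⟩ := D2_look_mem hx
          exact D2_Bd_G e M n (2 ^ T) g t q' hq'' x hx
        refine (length_lt_sz _).le.trans ((hQ _ _ _ _).trans (eval_mono _ ?_))
        have h15 : 2 ^ t ≤ 2 ^ T := Nat.pow_le_pow_right (by omega) (by omega)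
        omega
      have h16 : sz q = sz q.1 + sz q.2 + 1 := sz_pair _ _
      have h17 : sz q.1 = 2 * z.x + 2 * z.y + 3 := by rw [← hq', D2_szpos]
      have h18 : q.2.length * (N * N * (N + N * (12 * N + 18)) + 1) ≤
          Q.eval (10 * N + 9) * (N * N * (N + N * (12 * N + 18)) + 1) :=
        Nat.mul_le_mul_right _ h14
      omega
    have h19 := D2_szlist h9
    rw [hlen] at h19
    refine h19.trans ?_
    have h20 := Nat.mul_le_mul_right (4 * N + 3 +
        (1 + Q.eval (10 * N + 9) * (N * N * (N + N * (12 * N + 18)) + 1)) + 1 + 1)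
        (Nat.mul_le_mul hW hW)
    omega

theorem D2_poly_G (e M : ℕ) {n T : α → ℕ} {g : α → List (β × Pos)} (hn : UPoly n)
    (hT : UPoly T) (hW : UPoly (fun a => 2 ^ T a)) (hg : Poly g) :
    Poly (fun a => D2_G e M (n a) (2 ^ T a) (g a) (T a)) := by
  have h0 : Poly (fun a => D2_G e M (n a) (2 ^ T a) (g a) 0) := by
    refine TM2Lib.Poly.map (f := fun a => grid (2 ^ T a))
      (h := fun p : α × Pos => (p.2, [(⟨0, (g p.1).filter fun a => decide (a.2 = p.2), []⟩ :
        Ent β)])) (D2_grid hW) ?_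
    refine Poly.pair Poly.id.snd' (Poly.cons (D2_ent (UPoly.const 0) ?_ (TM2Lib.Poly.const _))
      (TM2Lib.Poly.const _))
    exact Poly.filter (f := fun p : α × Pos => g p.1)
      (h := fun q : (α × Pos) × (β × Pos) => decide (q.2.2 = q.1.2)) (hg.comp Poly.id.fst')
      (D2_eq Poly.id.snd'.snd' Poly.id.fst'.snd')
  have hK : Poly (fun p : Un × (Un × (Un × Pos)) => D2_K e M p.1.n p.2.1.n p.2.2.1.n p.2.2.2) :=
    D2_polyK e M (UPoly.n.comp Poly.id.fst') (UPoly.n.comp Poly.id.snd'.fst')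
      (UPoly.n.comp Poly.id.snd'.snd'.fst') Poly.id.snd'.snd'.snd'
  obtain ⟨Q, hQ⟩ := hK.size
  have hQ' : ∀ n W s : ℕ, ∀ z : Pos, sz (D2_K e M n W s z) ≤
      Q.eval (2 * n + 2 * W + 2 * s + 2 * z.x + 2 * z.y + 9) := by
    intro n W s z
    have h1 := hQ ((⟨n⟩ : Un), ((⟨W⟩ : Un), ((⟨s⟩ : Un), z)))
    simp only [sz_pair, sz_Un, D2_szpos] at h1
    refine h1.trans (eval_mono _ ?_)
    omega
  have h1 := Poly.iter (f := fun a => un (T a))
    (g := fun a => (((⟨n a⟩ : Un), (⟨2 ^ T a⟩ : Un)), ((⟨1⟩ : Un),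
      D2_G e M (n a) (2 ^ T a) (g a) 0)))
    (step := D2_stG e M) hT.list
    (Poly.pair (Poly.pair hn hW) (Poly.pair (TM2Lib.Poly.const (⟨1⟩ : Un)) h0)) (D2_poly_stG e M)
    (6 * Polynomial.X + 6 + (Polynomial.X + (1 + Polynomial.X * Polynomial.X * (4 *
      Polynomial.X + 3 + (1 + Q.comp (10 * Polynomial.X + 9) * (Polynomial.X * Polynomial.X *
      (Polynomial.X + Polynomial.X * (12 * Polynomial.X + 18)) + 1)) + 1 + 1)))) (by
      intro a k hk
      rw [D2_stG_iter]
      rw [un, List.length_replicate] at hk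
      simp only [Polynomial.eval_add, Polynomial.eval_mul, Polynomial.eval_X,
        Polynomial.eval_ofNat, Polynomial.eval_one, Polynomial.eval_comp]
      have h2 := sz_un (T a)
      have h3 : sz (⟨n a⟩ : Un) = 2 * n a + 1 := sz_Un _
      have h4 : sz (⟨2 ^ T a⟩ : Un) = 2 * 2 ^ T a + 1 := sz_Un _
      have h5 : sz (⟨1⟩ : Un) = 3 := sz_Un _
      have h6 : sz (⟨2 ^ k⟩ : Un) = 2 * 2 ^ k + 1 := sz_Un _
      have h7 : 2 ^ k ≤ 2 ^ T a := Nat.pow_le_pow_right (by omega) hk
      simp only [sz_pair, h2, h3, h4, h5, h6]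
      have h8 := D2_level_sz e M Q hQ' (n a) (T a) (g a) k
        (2 * T a + 1 + (2 * n a + 1 + (2 * 2 ^ T a + 1) + 1 + (3 +
          sz (D2_G e M (n a) (2 ^ T a) (g a) 0) + 1) + 1)) hk (by omega) (by omega) (by omega)
      omega)
  refine h1.snd'.snd'.of_eq fun a => ?_
  rw [un, List.length_replicate, D2_stG_iter]

theorem poly_solve {e M : ℕ} {n T : α → ℕ} {g : α → List (β × Pos)} (hn : UPoly n)
    (hT : UPoly T) (hW : UPoly (fun a => 2 ^ T a)) (hg : Poly g) :
    Poly (fun a => solve e M (n a) (T a) (g a)) := by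
  have h1 : Poly (fun a => D2_look (D2_G e M (n a) (2 ^ T a) (g a) (T a)) ⟨0, 0⟩) :=
    D2_polylook (D2_poly_G e M hn hT hW hg) (TM2Lib.Poly.const _)
  have h2 : Poly (fun a => dp e M (n a) (2 ^ T a) (g a) (T a) ⟨0, 0⟩) :=
    h1.of_eq fun a => D2_G_look e M (n a) (T a) (g a) (T a) le_rfl ⟨0, 0⟩
      (by simp) (by simp)
  exact D2_best1 (Poly.filter (h := fun p : α × Ent β => p.2.tk.isEmpty) h2
    (Poly.isEmpty (D2_tk Poly.id.snd')))

end D2

end Pool.Agent.M3
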