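import Pool.Agent.M3.NatPoly
import Pool.Agent.M3.DpPoly

/-!
# The algorithm runs in polynomial time (module D3)
-/

namespace Pool.Agent.M3

open Pool.Agent.TM2Lib

namespace D3

section
variable {α β : Type} [Enc α] [Enc β]

theorem un_toNat : Poly (fun u : Un => u.n) := UPoly.toNat UPoly.n

/-! ### rational numbers -/

theorem poly_neg {f : α → ℤ} (hf : Poly f) : Poly (fun a => decide (f a < 0)) :=
  ((Poly.of_enc (f := fun z : ℤ => (decide (z < 0), z.natAbs)) fun _ => rfl).comp hf).fst'

theorem poly_natAbs {f : α → ℤ} (hf : Poly f) : Poly (fun a => (f a).natAbs) :=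
  ((Poly.of_enc (f := fun z : ℤ => (decide (z < 0), z.natAbs)) fun _ => rfl).comp hf).snd'

theorem poly_num {f : α → ℚ} (hf : Poly f) : Poly (fun a => (f a).num) :=
  ((Poly.of_enc (f := fun q : ℚ => (q.num, q.den)) fun _ => rfl).comp hf).fst'

theorem poly_den {f : α → ℚ} (hf : Poly f) : Poly (fun a => (f a).den) :=
  ((Poly.of_enc (f := fun q : ℚ => (q.num, q.den)) fun _ => rfl).comp hf).snd'

theorem poly_bool_eq {f g : α → Bool} (hf : Poly f) (hg : Poly g) :
    Poly (fun a => decide (f a = g a)) :=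
  (Poly.bne hf hg).not.of_eq fun a => by cases f a <;> cases g a <;> rfl

theorem poly_int_eq {f g : α → ℤ} (hf : Poly f) (hg : Poly g) :
    Poly (fun a => decide (f a = g a)) := by
  refine ((poly_bool_eq (poly_neg hf) (poly_neg hg)).and
    (Poly.nat_eq (poly_natAbs hf) (poly_natAbs hg))).of_eq fun a => ?_
  rw [Bool.eq_iff_iff, Bool.and_eq_true, decide_eq_true_iff, decide_eq_true_iff,
    decide_eq_true_iff, decide_eq_decide]
  omega

theorem poly_rat_eq {f g : α → ℚ} (hf : Poly f) (hg : Poly g) :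
    Poly (fun a => decide (f a = g a)) := by
  refine ((poly_int_eq (poly_num hf) (poly_num hg)).and
    (Poly.nat_eq (poly_den hf) (poly_den hg))).of_eq fun a => ?_
  rw [Bool.eq_iff_iff, Bool.and_eq_true, decide_eq_true_iff, decide_eq_true_iff,
    decide_eq_true_iff]
  exact ⟨fun h => Rat.ext h.1 h.2, fun h => by rw [h]; exact ⟨rfl, rfl⟩⟩

theorem poly_qp_eq {f g : α → QP} (hf : Poly f) (hg : Poly g) :
    Poly (fun a => decide (f a = g a)) := by
  refine ((poly_rat_eq hf.fst' hg.fst').and (poly_rat_eq hf.snd' hg.snd')).of_eq fun a => ?_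
  rw [Bool.eq_iff_iff, Bool.and_eq_true, decide_eq_true_iff, decide_eq_true_iff,
    decide_eq_true_iff, Prod.ext_iff]

/-- `if` with a decidable proposition -/
theorem poly_ite {c : α → Prop} [∀ a, Decidable (c a)] {f g : α → β}
    (hc : Poly (fun a => decide (c a))) (hf : Poly f) (hg : Poly g) :
    Poly (fun a => if c a then f a else g a) :=
  (Poly.ite hc hf hg).of_eq fun a => by
    by_cases h : c a <;> simp [h]

/-! ### scaling -/

theorem poly_dnx {l : α → List QP} {p : α → QP} (hl : Poly l) (hp : Poly p) :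
    Poly (fun a => dnx (l a) (p a)) :=
  poly_prod (h := fun x : α × QP => if x.2 = p x.1 then x.2.2.den else x.2.1.den * x.2.2.den) hl
    (poly_ite (poly_qp_eq Poly.snd (hp.comp Poly.fst)) (poly_den Poly.snd.snd')
      (poly_nat_mul (poly_den Poly.snd.fst') (poly_den Poly.snd.snd')))

theorem poly_dny {l : α → List QP} {p : α → QP} (hl : Poly l) (hp : Poly p) :
    Poly (fun a => dny (l a) (p a)) :=
  poly_prod (h := fun x : α × QP => if x.2 = p x.1 then x.2.1.den else x.2.1.den * x.2.2.den) hl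
    (poly_ite (poly_qp_eq Poly.snd (hp.comp Poly.fst)) (poly_den Poly.snd.fst')
      (poly_nat_mul (poly_den Poly.snd.fst') (poly_den Poly.snd.snd')))

theorem poly_off {l : α → List QP} (hl : Poly l) : Poly (fun a => off (l a)) :=
  poly_sum (h := fun x : α × QP => x.2.1.num.natAbs * dnx (l x.1) x.2 +
      x.2.2.num.natAbs * dny (l x.1) x.2) hl
    (poly_nat_add
      (poly_nat_mul (poly_natAbs (poly_num Poly.snd.fst')) (poly_dnx (hl.comp Poly.fst) Poly.snd))
      (poly_nat_mul (poly_natAbs (poly_num Poly.snd.snd')) (poly_dny (hl.comp Poly.fst) Poly.snd)))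

theorem poly_cx {l : α → List QP} {p : α → QP} (hl : Poly l) (hp : Poly p) :
    Poly (fun a => cx (l a) (p a)) :=
  poly_ite (poly_neg (poly_num hp.fst'))
    (poly_nat_sub (poly_off hl) (poly_nat_mul (poly_natAbs (poly_num hp.fst')) (poly_dnx hl hp)))
    (poly_nat_add (poly_off hl) (poly_nat_mul (poly_natAbs (poly_num hp.fst')) (poly_dnx hl hp)))

theorem poly_cy {l : α → List QP} {p : α → QP} (hl : Poly l) (hp : Poly p) :
    Poly (fun a => cy (l a) (p a)) :=
  poly_ite (poly_neg (poly_num hp.snd'))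
    (poly_nat_sub (poly_off hl) (poly_nat_mul (poly_natAbs (poly_num hp.snd')) (poly_dny hl hp)))
    (poly_nat_add (poly_off hl) (poly_nat_mul (poly_natAbs (poly_num hp.snd')) (poly_dny hl hp)))

theorem upoly_len {l : α → List QP} (hl : Poly l) : UPoly (fun a => len (l a)) :=
  UPoly.size (UPoly.length hl)

theorem upoly_nu (c : Cst) {l : α → List QP} (hl : Poly l) : UPoly (fun a => nu c (l a)) :=
  ((UPoly.const 2).mul (upoly_len hl)).add (UPoly.const c.c)

theorem upoly_lev (c : Cst) {l : α → List QP} (hl : Poly l) : UPoly (fun a => lev c (l a)) :=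
  (((UPoly.const 3).mul (upoly_len hl)).add (UPoly.const c.c)).add (UPoly.const 7)

theorem upoly_pow_lev (c : Cst) {l : α → List QP} (hl : Poly l) :
    UPoly (fun a => 2 ^ lev c (l a)) := by
  have h := upoly_pow2_size (UPoly.length hl)
  refine ((h.mul (h.mul h)).mul (UPoly.const (2 ^ (c.c + 7)))).of_eq fun a => ?_
  unfold lev len
  ring

theorem poly_ux (c : Cst) {l : α → List QP} {k s : α → ℕ} {p : α → QP} (hl : Poly l)
    (hk : UPoly k) (hs : UPoly s) (hp : Poly p) : Poly (fun a => ux c (l a) (k a) (s a) (p a)) :=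
  poly_nat_add (poly_div_pow2 (poly_nat_mul (poly_cx hl hp) (poly_pow2 (upoly_nu c hl))) hk)
    hs.toNat

theorem poly_uy (c : Cst) {l : α → List QP} {k s : α → ℕ} {p : α → QP} (hl : Poly l)
    (hk : UPoly k) (hs : UPoly s) (hp : Poly p) : Poly (fun a => uy c (l a) (k a) (s a) (p a)) :=
  poly_nat_add (poly_div_pow2 (poly_nat_mul (poly_cy hl hp) (poly_pow2 (upoly_nu c hl))) hk)
    hs.toNat

theorem poly_top (c : Cst) {l : α → List QP} {k s t : α → ℕ} {p : α → QP} (hl : Poly l)
    (hk : UPoly k) (hs : UPoly s) (ht : UPoly t) (hp : Poly p) :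
    Poly (fun a => top c (l a) (k a) (s a) (t a) (p a)) :=
  (poly_div_pow2 (poly_ux c hl hk hs hp) (upoly_lev c hl)).pair
    (poly_div_pow2 (poly_uy c hl hk ht hp) (upoly_lev c hl))

theorem upoly_mod {f g : α → ℕ} (hf : Poly f) (hg : UPoly g) (hg2 : UPoly (fun a => 2 ^ g a)) :
    UPoly (fun a => f a % 2 ^ g a) :=
  (upoly_min (poly_mod_pow2 hf hg) hg2).of_eq fun a =>
    min_eq_left (Nat.mod_lt _ (by positivity)).le

theorem poly_pos {f g : α → ℕ} (hf : UPoly f) (hg : UPoly g) :
    Poly (fun a => (⟨f a, g a⟩ : Pos)) :=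
  (Poly.of_enc (f := fun u : Un × Un => (⟨u.1.n, u.2.n⟩ : Pos)) fun _ => rfl).comp
    (Poly.pair hf hg)

theorem poly_rel (c : Cst) {l : α → List QP} {k s t : α → ℕ} {p : α → QP} (hl : Poly l)
    (hk : UPoly k) (hs : UPoly s) (ht : UPoly t) (hp : Poly p) :
    Poly (fun a => rel c (l a) (k a) (s a) (t a) (p a)) :=
  poly_pos (upoly_mod (poly_ux c hl hk hs hp) (upoly_lev c hl) (upoly_pow_lev c hl))
    (upoly_mod (poly_uy c hl hk ht hp) (upoly_lev c hl) (upoly_pow_lev c hl))

theorem poly_pair_eq {f g : α → ℕ × ℕ} (hf : Poly f) (hg : Poly g) :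
    Poly (fun a => decide (f a = g a)) := by
  refine ((Poly.nat_eq hf.fst' hg.fst').and (Poly.nat_eq hf.snd' hg.snd')).of_eq fun a => ?_
  rw [Bool.eq_iff_iff, Bool.and_eq_true, decide_eq_true_iff, decide_eq_true_iff,
    decide_eq_true_iff, Prod.ext_iff]

/-! ### groups -/

theorem poly_group (c : Cst) {l : α → List QP} {k s t : α → ℕ} {q : α → QP} (hl : Poly l)
    (hk : UPoly k) (hs : UPoly s) (ht : UPoly t) (hq : Poly q) :
    Poly (fun a => group c (l a) (k a) (s a) (t a) (q a)) := by
  unfold group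
  refine TM2Lib.Poly.map (h := fun x : α × QP => (x.2, rel c (l x.1) (k x.1) (s x.1) (t x.1) x.2)) ?_ ?_
  · refine Poly.filter (h := fun x : α × QP => decide (top c (l x.1) (k x.1) (s x.1) (t x.1) x.2 =
      top c (l x.1) (k x.1) (s x.1) (t x.1) (q x.1))) hl ?_
    exact poly_pair_eq (poly_top c (hl.comp Poly.fst) (hk.comp Poly.fst) (hs.comp Poly.fst)
      (ht.comp Poly.fst) Poly.snd) (poly_top c (hl.comp Poly.fst) (hk.comp Poly.fst)
      (hs.comp Poly.fst) (ht.comp Poly.fst) (hq.comp Poly.fst))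
  · exact Poly.pair Poly.snd (poly_rel c (hl.comp Poly.fst) (hk.comp Poly.fst) (hs.comp Poly.fst)
      (ht.comp Poly.fst) Poly.snd)

/-! ### representatives -/

theorem poly_heads {l : α → List QP} {f : α → QP → ℕ × ℕ} (hl : Poly l)
    (hf : Poly (fun x : α × QP => f x.1 x.2)) : Poly (fun a => heads (f a) (l a)) := by
  unfold heads
  obtain ⟨F, hF⟩ := hl.size
  refine Poly.foldl_add (h := fun x : α × (List QP × QP) =>
    if x.2.1.any (fun q => decide (f x.1 q = f x.1 x.2.2)) then x.2.1 else x.2.2 :: x.2.1)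
    hl (TM2Lib.Poly.const []) ?_ (F + 1) ?_
  · refine Poly.ite ?_ Poly.snd.fst' (Poly.snd.snd'.cons Poly.snd.fst')
    refine Poly.any (h := fun x : (α × (List QP × QP)) × QP =>
      decide (f x.1.1 x.2 = f x.1.1 x.1.2.2)) Poly.snd.fst' ?_
    exact poly_pair_eq (hf.comp (Poly.fst.fst'.pair Poly.snd))
      (hf.comp (Poly.fst.fst'.pair Poly.fst.snd'.snd'))
  · intro a s b hb
    have h1 := (Poly.sz_mem_le hb).trans (hF a)
    simp only [Polynomial.eval_add, Polynomial.eval_one]
    split_ifs
    · omega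
    · rw [sz_cons]
      omega

theorem poly_mono (G : Polynomial ℕ) {x y : ℕ} (h : x ≤ y) : G.eval x ≤ G.eval y := by
  induction G using Polynomial.induction_on' with
  | add p q hp hq => rw [Polynomial.eval_add, Polynomial.eval_add]; exact Nat.add_le_add hp hq
  | monomial n a =>
    rw [Polynomial.eval_monomial, Polynomial.eval_monomial]
    exact Nat.mul_le_mul_left _ (Nat.pow_le_pow_left h n)

/-! ### entries -/

theorem poly_ent_mk {γ : Type} [Enc γ] {f : α → ℕ} {g : α → List (γ × Pos)}
    {h : α → List (γ × (γ × γ))} (hf : UPoly f) (hg : Poly g) (hh : Poly h) :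
    Poly (fun a => (⟨f a, g a, h a⟩ : Ent γ)) :=
  (Poly.of_enc (f := fun u : Un × (List (γ × Pos) × List (γ × (γ × γ))) =>
    (⟨u.1.n, u.2.1, u.2.2⟩ : Ent γ)) fun _ => rfl).comp (Poly.pair hf (Poly.pair hg hh))

theorem poly_ent {γ : Type} [Enc γ] : Poly (fun s : Ent γ => ((⟨s.c⟩ : Un), (s.tk, s.sol))) :=
  Poly.of_enc fun _ => rfl

theorem upoly_c {γ : Type} [Enc γ] {f : α → Ent γ} (hf : Poly f) : UPoly (fun a => (f a).c) :=
  (poly_ent.comp hf).fst'

theorem poly_tk {γ : Type} [Enc γ] {f : α → Ent γ} (hf : Poly f) : Poly (fun a => (f a).tk) :=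
  (poly_ent.comp hf).snd'.fst'

theorem poly_sol {γ : Type} [Enc γ] {f : α → Ent γ} (hf : Poly f) : Poly (fun a => (f a).sol) :=
  (poly_ent.comp hf).snd'.snd'

theorem poly_merge {γ : Type} [Enc γ] {f : α → Ent γ × Ent γ} (hf : Poly f) :
    Poly (fun a => merge (f a)) :=
  poly_ent_mk ((upoly_c hf.fst').add (upoly_c hf.snd')) ((poly_tk hf.fst').append (poly_tk hf.snd'))
    ((poly_sol hf.fst').append (poly_sol hf.snd'))

theorem sz_append {γ : Type} [Enc γ] (l k : List γ) : sz (l ++ k) + 1 = sz l + sz k := by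
  induction l with
  | nil =>
    have : sz ([] : List γ) = 1 := rfl
    rw [List.nil_append, this]
    omega
  | cons a l ih =>
    rw [List.cons_append, sz_cons, sz_cons]
    omega

theorem sz_ent {γ : Type} [Enc γ] (s : Ent γ) : sz s = 2 * s.c + 1 + (sz s.tk + sz s.sol + 1) + 1 := by
  have h1 : sz s = sz ((⟨s.c⟩ : Un), (s.tk, s.sol)) := rfl
  rw [h1, sz_pair, sz_pair, sz_Un]

theorem sz_merge {γ : Type} [Enc γ] (z : Ent γ × Ent γ) : sz (merge z) ≤ sz z.1 + sz z.2 := by
  have h1 := sz_append z.1.tk z.2.tk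
  have h2 := sz_append z.1.sol z.2.sol
  rw [sz_ent, sz_ent z.1, sz_ent z.2]
  simp only [merge]
  omega

theorem best1_length {γ : Type} (l : List (Ent γ)) : (best1 l).length ≤ 1 := by
  unfold best1
  have key : ∀ (l : List (Ent γ)) (s : List (Ent γ)), s.length ≤ 1 →
      (l.foldl (fun s a => if s.any (fun b => decide (b.c ≤ a.c)) then s else [a]) s).length
        ≤ 1 := by
    intro l
    induction l with
    | nil => intro s hs; exact hs
    | cons a l ih =>
      intro s hs
      rw [List.foldl_cons]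
      apply ih
      split_ifs
      · exact hs
      · simp
  exact key l [] (by simp)

theorem poly_prod' {γ δ : Type} [Enc γ] [Enc δ] {f : α → List γ} {g : α → List δ} (hf : Poly f)
    (hg : Poly g) : Poly (fun a => prod (f a) (g a)) := by
  unfold prod
  refine Poly.flatMap (h := fun x : α × γ => (g x.1).map fun b => (x.2, b)) hf ?_
  exact TM2Lib.Poly.map (h := fun y : (α × γ) × δ => (y.1.2, y.2)) (hg.comp Poly.fst)
    (Poly.fst.snd'.pair Poly.snd)

/-- size of a product of lists with at most one element -/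
theorem prod_small {γ : Type} [Enc γ] (A B : List (Ent γ)) (hA : A.length ≤ 1)
    (hB : B.length ≤ 1) : ((prod A B).map merge).length ≤ 1 ∧
      sz ((prod A B).map merge) ≤ sz A + sz B := by
  have hn : sz ([] : List (Ent γ)) = 1 := rfl
  match A, B with
  | [], B => simp [prod, hn]
  | [a], [] => simp [prod, hn]
  | [a], [b] =>
    have h := sz_merge (a, b)
    simp only [prod, List.flatMap_cons, List.map_cons, List.map_nil, List.flatMap_nil,
      List.append_nil, List.length_cons, List.length_nil, sz_cons, hn]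
    simp only at h
    exact ⟨le_refl _, by omega⟩
  | _ :: _ :: _, _ => simp at hA
  | _, _ :: _ :: _ => simp at hB

/-- repeated products of lists with at most one element -/
theorem poly_foldprod {γ : Type} [Enc γ] {l : α → List β} {X : α → β → List (Ent γ)}
    (hl : Poly l) (hX : Poly (fun x : α × β => X x.1 x.2)) (hX1 : ∀ a b, (X a b).length ≤ 1)
    (i0 : List (Ent γ)) (h0 : i0.length ≤ 1) :
    Poly (fun a => (l a).foldl (fun S q => (prod S (X a q)).map merge) i0) := by
  obtain ⟨F, hF⟩ := hl.size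
  obtain ⟨G, hG⟩ := hX.size
  refine Poly.foldl (h := fun x : α × (List (Ent γ) × β) =>
    (prod x.2.1 (X x.1 x.2.2)).map merge) hl (TM2Lib.Poly.const i0) ?_
      (Polynomial.C (sz i0) + F * G.comp (Polynomial.X + F + 1)) ?_
  · exact TM2Lib.Poly.map (h := fun y : (α × (List (Ent γ) × β)) × (Ent γ × Ent γ) =>
      merge y.2) (poly_prod' Poly.snd.fst' (hX.comp (Poly.fst.pair Poly.snd.snd')))
        (poly_merge Poly.snd)
  · intro a j
    have key : ∀ L : List β, (∀ q ∈ L, q ∈ l a) → ∀ A : List (Ent γ), A.length ≤ 1 →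
        (L.foldl (fun S q => (prod S (X a q)).map merge) A).length ≤ 1 ∧
        sz (L.foldl (fun S q => (prod S (X a q)).map merge) A) ≤
          sz A + L.length * G.eval (sz a + F.eval (sz a) + 1) := by
      intro L
      induction L with
      | nil => intro _ A hA; simpa using hA
      | cons q L ih =>
        intro hL A hA
        rw [List.foldl_cons]
        have h1 := prod_small A (X a q) hA (hX1 a q)
        have h2 := ih (fun q' hq' => hL q' (List.mem_cons_of_mem _ hq')) _ h1.1
        refine ⟨h2.1, h2.2.trans ?_⟩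
        have h3 := hG (a, q)
        have h4 : sz (a, q) ≤ sz a + F.eval (sz a) + 1 := by
          have h5 : sz (a, q) = sz a + sz q + 1 := sz_pair _ _
          have h6 := (Poly.sz_mem_le (hL q (List.mem_cons_self ..))).trans (hF a)
          omega
        have h7 := h3.trans (poly_mono G h4)
        have h8 := h1.2
        simp only at h7
        rw [List.length_cons, add_mul, one_mul]
        omega
    have h9 := (key ((l a).take j) (fun q hq => List.mem_of_mem_take hq) i0 h0).2
    refine h9.trans ?_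
    simp only [Polynomial.eval_add, Polynomial.eval_C, Polynomial.eval_mul, Polynomial.eval_comp,
      Polynomial.eval_X, Polynomial.eval_one]
    have h10 : ((l a).take j).length ≤ F.eval (sz a) := by
      have h11 : ((l a).take j).length ≤ (l a).length := by rw [List.length_take]; exact min_le_right _ _
      have h12 := length_lt_sz (l a)
      have h13 := hF a
      omega
    exact Nat.add_le_add_left (Nat.mul_le_mul_right _ h10) _

theorem poly_shiftSol (c : Cst) {l : α → List QP} {k s t : α → ℕ} (hl : Poly l)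
    (hk : UPoly k) (hs : UPoly s) (ht : UPoly t) :
    Poly (fun a => shiftSol c (l a) (k a) (s a) (t a)) := by
  have hheads : Poly (fun a => heads (top c (l a) (k a) (s a) (t a)) (l a)) :=
    poly_heads hl (poly_top c (hl.comp Poly.fst) (hk.comp Poly.fst) (hs.comp Poly.fst)
      (ht.comp Poly.fst) Poly.snd)
  have hsol : Poly (fun x : α × QP => solve c.e c.M (l x.1).length (lev c (l x.1))
      (group c (l x.1) (k x.1) (s x.1) (t x.1) x.2)) :=
    poly_solve (UPoly.length (hl.comp Poly.fst)) (upoly_lev c (hl.comp Poly.fst))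
      (upoly_pow_lev c (hl.comp Poly.fst)) (poly_group c (hl.comp Poly.fst) (hk.comp Poly.fst)
        (hs.comp Poly.fst) (ht.comp Poly.fst) Poly.snd)
  exact poly_foldprod (X := fun a q => solve c.e c.M (l a).length (lev c (l a))
    (group c (l a) (k a) (s a) (t a) q)) hheads hsol (fun _ _ => best1_length _) [⟨0, [], []⟩]
    (by simp)

/-! ### candidates -/


theorem poly_range_flatMap {γ : Type} [Enc γ] {f : α → ℕ} {h : α × Un → List γ} (hf : UPoly f)
    (hh : Poly h) : Poly (fun a => (List.range (f a)).flatMap fun i => h (a, ⟨i⟩)) :=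
  ((TM2Lib.Poly.tab hf hh).flatten).of_eq fun a => by rw [List.flatMap_def]

/-- the candidates for a fixed scale and a fixed shift -/
def cand3 (c : Cst) (l : List QP) (k s t : ℕ) : List (ℕ × List (QP × (QP × QP))) :=
  (shiftSol c l k s t).map fun e => (2 ^ k * e.c, e.sol)

/-- the candidates for a fixed scale and a fixed first shift -/
def cand2 (c : Cst) (l : List QP) (k s : ℕ) : List (ℕ × List (QP × (QP × QP))) :=
  (List.range (2 ^ lev c l)).flatMap fun t => cand3 c l k s t

/-- the candidates for a fixed scale -/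
def cand1 (c : Cst) (l : List QP) (k : ℕ) : List (ℕ × List (QP × (QP × QP))) :=
  (List.range (2 ^ lev c l)).flatMap fun s => cand2 c l k s

theorem poly_cand3 (c : Cst) {l : α → List QP} {k s t : α → ℕ} (hl : Poly l)
    (hk : UPoly k) (hs : UPoly s) (ht : UPoly t) :
    Poly (fun a => cand3 c (l a) (k a) (s a) (t a)) := by
  unfold cand3
  refine TM2Lib.Poly.map (h := fun y : α × Ent QP => (2 ^ k y.1 * y.2.c, y.2.sol)) ?_ ?_
  · exact poly_shiftSol c hl hk hs ht
  · exact (poly_nat_mul (poly_pow2 (hk.comp Poly.fst))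
      (upoly_c Poly.snd).toNat).pair (poly_sol Poly.snd)

theorem poly_cand2 (c : Cst) {l : α → List QP} {k s : α → ℕ} (hl : Poly l)
    (hk : UPoly k) (hs : UPoly s) : Poly (fun a => cand2 c (l a) (k a) (s a)) :=
  poly_range_flatMap (h := fun x : α × Un => cand3 c (l x.1) (k x.1) (s x.1) x.2.n)
    (upoly_pow_lev c hl) (poly_cand3 c (hl.comp Poly.fst) (hk.comp Poly.fst) (hs.comp Poly.fst)
      (UPoly.n.comp Poly.snd))

theorem poly_cand1 (c : Cst) {l : α → List QP} {k : α → ℕ} (hl : Poly l)
    (hk : UPoly k) : Poly (fun a => cand1 c (l a) (k a)) :=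
  poly_range_flatMap (h := fun x : α × Un => cand2 c (l x.1) (k x.1) x.2.n)
    (upoly_pow_lev c hl) (poly_cand2 c (hl.comp Poly.fst) (hk.comp Poly.fst)
      (UPoly.n.comp Poly.snd))

theorem poly_cands (c : Cst) {l : α → List QP} (hl : Poly l) :
    Poly (fun a => cands c (l a)) := by
  have hK : UPoly (fun a => Nat.size (off (l a) * 2 ^ (nu c (l a) + 1)) + 1) :=
    (upoly_size (poly_nat_mul (poly_off hl) (poly_pow2 ((upoly_nu c hl).add
      (UPoly.const 1))))).add (UPoly.const 1)
  exact poly_range_flatMap (h := fun x : α × Un => cand1 c (l x.1) x.2.n) hK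
    (poly_cand1 c (hl.comp Poly.fst) (UPoly.n.comp Poly.snd))

theorem poly_argmin {γ : Type} [Enc γ] {f : α → List (ℕ × γ)} (hf : Poly f) :
    Poly (fun a => argmin (f a)) := by
  unfold argmin
  obtain ⟨F, hF⟩ := hf.size
  refine Poly.foldl_add (h := fun x : α × (List (ℕ × γ) × (ℕ × γ)) =>
    if x.2.1.any (fun b => decide (b.1 ≤ x.2.2.1)) then x.2.1 else [x.2.2])
    hf (TM2Lib.Poly.const []) ?_ (F + 2) ?_
  · refine Poly.ite ?_ Poly.snd.fst' (Poly.snd.snd'.cons (TM2Lib.Poly.const []))
    refine Poly.any (h := fun x : (α × (List (ℕ × γ) × (ℕ × γ))) × (ℕ × γ) =>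
      decide (x.2.1 ≤ x.1.2.2.1)) Poly.snd.fst' ?_
    exact Poly.nat_le Poly.snd.fst' Poly.fst.snd'.snd'.fst'
  · intro a s b hb
    have h1 := (Poly.sz_mem_le hb).trans (hF a)
    have h2 : sz ([] : List (ℕ × γ)) = 1 := rfl
    simp only [Polynomial.eval_add, Polynomial.eval_ofNat]
    split_ifs
    · omega
    · rw [sz_cons, h2]
      omega

end

end D3

theorem poly_alg (c : Cst) : Poly (alg c) :=
  Poly.flatMap (h := fun x : List QP × (ℕ × List (QP × (QP × QP))) => x.2.2)
    (D3.poly_argmin (D3.poly_cands c Poly.id)) Poly.snd.snd'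

end Pool.Agent.M3
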