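import Pool.Agent.M3.Geo

/-!
# Absolute positions (used by modules C1, C2)
-/

namespace Pool.Agent.M3

/-- absolute position -/
def apos (c : Cst) (l : List QP) (k a b : ℕ) (p : QP) : Pos := ⟨ux c l k a p, uy c l k b p⟩

end Pool.Agent.M3
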