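import Pool.Agent.M3.Keys

/-!
# Completeness of the dynamic program (module B3)
-/

namespace Pool.Agent.M3

open Pool.Agent.TM2Lib

/-! ## widths and cells -/

/-- the width of the coarse grid at level `t` -/
def B3_w (e t : ℕ) : ℕ := 2 ^ (t - e)

theorem B3_w_eq (e t : ℕ) : max 1 (2 ^ t / 2 ^ e) = B3_w e t := by
  unfold B3_w
  rcases le_or_gt e t with h | h
  · rw [Nat.pow_div h (by norm_num)]
    exact max_eq_right Nat.one_le_two_pow
  · have h1 : 2 ^ t / 2 ^ e = 0 := Nat.div_eq_of_lt (Nat.pow_lt_pow_right (by norm_num) h)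
    rw [h1, show t - e = 0 by omega]
    simp

theorem B3_w_pos (e t : ℕ) : 0 < B3_w e t := by unfold B3_w; positivity

theorem B3_w_zero (e : ℕ) : B3_w e 0 = 1 := by simp [B3_w]

theorem B3_w_dvd_succ (e t : ℕ) : B3_w e t ∣ B3_w e (t + 1) := by
  unfold B3_w
  exact Nat.pow_dvd_pow 2 (by omega)

theorem B3_w_dvd {e t s : ℕ} (h : t ≤ s) : B3_w e t ∣ 2 ^ s := by
  unfold B3_w
  exact Nat.pow_dvd_pow 2 (by omega)

/-- real bound of the displacement -/
theorem B3_w_real (e t : ℕ) : ((B3_w e t : ℝ) - 1) ≤ 2 ^ t / 2 ^ e := by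
  unfold B3_w
  rcases le_or_gt e t with h | h
  · have : (2 : ℝ) ^ (t - e) = 2 ^ t / 2 ^ e := by
      rw [pow_sub₀ _ (by norm_num) h]; rfl
    push_cast
    rw [this]
    linarith
  · rw [show t - e = 0 by omega]
    simp only [pow_zero, Nat.cast_one, sub_self]
    positivity

theorem B3_tr_iff {w : ℕ} {z : Pos} : tr w z = z ↔ w ∣ z.x ∧ w ∣ z.y := by
  unfold tr
  constructor
  · intro h
    have h1 : z.x / w * w = z.x := congrArg Pos.x h
    have h2 : z.y / w * w = z.y := congrArg Pos.y h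
    exact ⟨Dvd.intro_left _ h1, Dvd.intro_left _ h2⟩
  · rintro ⟨h1, h2⟩
    rw [Nat.div_mul_cancel h1, Nat.div_mul_cancel h2]

theorem B3_tr_dvd (w : ℕ) (z : Pos) : w ∣ (tr w z).x ∧ w ∣ (tr w z).y :=
  ⟨Dvd.intro_left _ rfl, Dvd.intro_left _ rfl⟩

theorem B3_div_tr {w S a : ℕ} (hw : 0 < w) (h : w ∣ S) : a / w * w / S = a / S := by
  obtain ⟨q, rfl⟩ := h
  rw [mul_comm (a / w) w, Nat.mul_div_mul_left _ _ hw, Nat.div_div_eq_div_mul]

theorem B3_cell_tr {w S : ℕ} (hw : 0 < w) (h : w ∣ S) (z : Pos) : cell S (tr w z) = cell S z := by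
  unfold cell tr
  simp only
  rw [B3_div_tr hw h, B3_div_tr hw h]

theorem B3_tr_le (w : ℕ) (z : Pos) : (tr w z).x ≤ z.x ∧ (tr w z).y ≤ z.y :=
  ⟨Nat.div_mul_le_self _ _, Nat.div_mul_le_self _ _⟩

/-- children of a cell -/
theorem B3_cell_succ (t : ℕ) (p : Pos) : cell (2 ^ (t + 1)) p = cell 2 (cell (2 ^ t) p) := by
  unfold cell
  simp only [pow_succ, Nat.div_div_eq_div_mul]

theorem B3_cell_two (q X : Pos) : cell 2 q = X ↔
    (q = ⟨2 * X.x, 2 * X.y⟩ ∨ q = ⟨2 * X.x + 1, 2 * X.y⟩ ∨ q = ⟨2 * X.x, 2 * X.y + 1⟩ ∨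
      q = ⟨2 * X.x + 1, 2 * X.y + 1⟩) := by
  obtain ⟨a, b⟩ := q
  obtain ⟨c, d⟩ := X
  simp only [cell, Pos.mk.injEq]
  omega

/-! ## positions of the tokens -/

/-- position at level `t` of the point `p` of a triple with label `J` -/
def B3_z (e J : ℕ) (p : Pos) : ℕ → Pos
  | 0 => p
  | t + 1 => if t + 1 < J then tr (B3_w e (t + 1)) (B3_z e J p t) else B3_z e J p t

theorem B3_z_cell (e J : ℕ) (p : Pos) : ∀ t s : ℕ, t ≤ s → cell (2 ^ s) (B3_z e J p t) = cell (2 ^ s) p := by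
  intro t
  induction t with
  | zero => intro s _; rfl
  | succ t ih =>
    intro s hs
    simp only [B3_z]
    split_ifs
    · rw [B3_cell_tr (B3_w_pos _ _) (B3_w_dvd hs), ih s (by omega)]
    · exact ih s (by omega)

theorem B3_z_le (e J : ℕ) (p : Pos) : ∀ t : ℕ, (B3_z e J p t).x ≤ p.x ∧ (B3_z e J p t).y ≤ p.y := by
  intro t
  induction t with
  | zero => exact ⟨le_rfl, le_rfl⟩
  | succ t ih =>
    simp only [B3_z]
    split_ifs
    · have := B3_tr_le (B3_w e (t + 1)) (B3_z e J p t)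
      exact ⟨this.1.trans ih.1, this.2.trans ih.2⟩
    · exact ih

theorem B3_z_aligned (e J : ℕ) (p : Pos) (t : ℕ) (h : t = 0 ∨ t < J) :
    tr (B3_w e t) (B3_z e J p t) = B3_z e J p t := by
  rw [B3_tr_iff]
  cases t with
  | zero => rw [B3_w_zero]; exact ⟨one_dvd _, one_dvd _⟩
  | succ t =>
    have h' : t + 1 < J := by omega
    simp only [B3_z, if_pos h']
    exact B3_tr_dvd _ _

/-! ## distances -/

theorem B3_ed_eq (p q : Pos) : ed p q = ‖((⟨p.x, p.y⟩ : ℂ) - ⟨q.x, q.y⟩)‖ := by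
  rw [Complex.norm_def, Complex.normSq_apply]
  unfold ed
  congr 1
  simp only [Complex.sub_re, Complex.sub_im]
  ring

theorem B3_ed_triangle (p q r : Pos) : ed p r ≤ ed p q + ed q r := by
  simp only [B3_ed_eq]
  exact norm_sub_le_norm_sub_add_norm_sub _ _ _

theorem B3_ed_comm (p q : Pos) : ed p q = ed q p := by
  simp only [B3_ed_eq]
  exact norm_sub_rev _ _

theorem B3_ed_nonneg (p q : Pos) : 0 ≤ ed p q := Real.sqrt_nonneg _

theorem B3_ad_cast (a b : ℕ) : ((ad a b : ℕ) : ℝ) ^ 2 = ((a : ℝ) - b) ^ 2 := by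
  unfold ad
  rcases le_total a b with h | h
  · rw [Nat.sub_eq_zero_of_le h, zero_add, Nat.cast_sub h]; ring
  · rw [Nat.sub_eq_zero_of_le h, add_zero, Nat.cast_sub h]

theorem B3_dh_le (p q : Pos) : (dh p q : ℝ) ≤ ed p q + 3 := by
  unfold dh ed
  push_cast
  have h1 := Real.nat_sqrt_le_real_sqrt (a := ad p.x q.x ^ 2 + ad p.y q.y ^ 2)
  push_cast at h1
  rw [B3_ad_cast, B3_ad_cast] at h1
  linarith

theorem B3_ed_tr (w : ℕ) (hw : 0 < w) (z : Pos) : ed z (tr w z) ≤ 2 * ((w : ℝ) - 1) := by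
  have h1 : ∀ a : ℕ, 0 ≤ (a : ℝ) - ((a / w * w : ℕ) : ℝ) ∧ (a : ℝ) - ((a / w * w : ℕ) : ℝ) ≤ (w : ℝ) - 1 := by
    intro a
    have h2 := Nat.div_add_mod a w
    have h3 := Nat.mod_lt a hw
    have h4 : a / w * w + a % w = a := by rw [mul_comm]; exact h2
    have h5 : (a : ℝ) = ((a / w * w : ℕ) : ℝ) + ((a % w : ℕ) : ℝ) := by exact_mod_cast h4.symm
    have h6 : ((a % w : ℕ) : ℝ) + 1 ≤ w := by exact_mod_cast h3
    constructor
    · have : (0 : ℝ) ≤ ((a % w : ℕ) : ℝ) := Nat.cast_nonneg _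
      linarith
    · linarith
  obtain ⟨hx0, hx1⟩ := h1 z.x
  obtain ⟨hy0, hy1⟩ := h1 z.y
  unfold ed tr
  simp only
  rw [Real.sqrt_le_left (by linarith)]
  set a := (z.x : ℝ) - ((z.x / w * w : ℕ) : ℝ)
  set b := (z.y : ℝ) - ((z.y / w * w : ℕ) : ℝ)
  nlinarith

/-- bound of the accumulated cost of a token -/
noncomputable def B3_mb (e J : ℕ) : ℕ → ℝ
  | 0 => 0
  | t + 1 => B3_mb e J t + if t + 1 < J then 4 * 2 ^ (t + 1) / 2 ^ e + 6 else 0

theorem B3_mb_nonneg (e J : ℕ) : ∀ t, 0 ≤ B3_mb e J t := by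
  intro t
  induction t with
  | zero => exact le_rfl
  | succ t ih =>
    simp only [B3_mb]
    split_ifs
    · positivity
    · linarith

theorem B3_mb_le (e J : ℕ) : ∀ t, B3_mb e J t ≤ 4 * 2 ^ (min (t + 1) J) / 2 ^ e + 6 * t := by
  intro t
  induction t with
  | zero => simp only [B3_mb]; positivity
  | succ t ih =>
    simp only [B3_mb]
    split_ifs with h
    · rw [min_eq_left (by omega)] at ih ⊢
      push_cast
      have : (4 : ℝ) * 2 ^ (t + 1 + 1) / 2 ^ e = 4 * 2 ^ (t + 1) / 2 ^ e + 4 * 2 ^ (t + 1) / 2 ^ e := by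
        rw [pow_succ (2 : ℝ) (t + 1)]; ring
      rw [this]
      linarith
    · rw [min_eq_right (by omega)] at ih ⊢
      push_cast
      linarith

theorem B3_pow_min (t J : ℕ) : (2 : ℝ) ^ (min t J) ≤ 2 ^ J :=
  pow_le_pow_right₀ (by norm_num) (min_le_right _ _)

theorem B3_ed_z (e J : ℕ) (p : Pos) : ∀ t, ed p (B3_z e J p t) ≤ 2 * 2 ^ (min (t + 1) J) / 2 ^ e := by
  intro t
  induction t with
  | zero =>
    simp only [B3_z]
    rw [B3_ed_eq, sub_self, norm_zero]
    positivity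
  | succ t ih =>
    simp only [B3_z]
    split_ifs with h
    · rw [min_eq_left (by omega)] at ih ⊢
      have h1 := B3_ed_triangle p (B3_z e J p t) (tr (B3_w e (t + 1)) (B3_z e J p t))
      have h2 := B3_ed_tr (B3_w e (t + 1)) (B3_w_pos _ _) (B3_z e J p t)
      have h3 := B3_w_real e (t + 1)
      have h4 : (2 : ℝ) * 2 ^ (t + 1 + 1) / 2 ^ e = 2 * 2 ^ (t + 1) / 2 ^ e + 2 * (2 ^ (t + 1) / 2 ^ e) := by
        rw [pow_succ (2 : ℝ) (t + 1)]; ring
      rw [h4]
      linarith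
    · rw [min_eq_right (by omega)] at ih ⊢
      exact ih

/-- cost of forming a triple -/
theorem B3_tri_le (e J t : ℕ) (U : Tri) :
    (tri (B3_z e J U.1 t) (B3_z e J U.2.1 t) (B3_z e J U.2.2 t) : ℝ) ≤ per U + 12 * 2 ^ J / 2 ^ e + 9 := by
  unfold tri per
  push_cast
  have hd : ∀ p, ed p (B3_z e J p t) ≤ 2 * 2 ^ J / 2 ^ e := by
    intro p
    refine (B3_ed_z e J p t).trans ?_
    have := B3_pow_min (t + 1) J
    gcongr
  have hpair : ∀ p q, (dh (B3_z e J p t) (B3_z e J q t) : ℝ) ≤ ed p q + 4 * 2 ^ J / 2 ^ e + 3 := by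
    intro p q
    have h1 := B3_dh_le (B3_z e J p t) (B3_z e J q t)
    have h2 := B3_ed_triangle (B3_z e J p t) p (B3_z e J q t)
    have h3 := B3_ed_triangle p q (B3_z e J q t)
    have h4 := hd p
    have h5 := hd q
    rw [B3_ed_comm] at h4
    have h6 : (4 : ℝ) * 2 ^ J / 2 ^ e = 2 * 2 ^ J / 2 ^ e + 2 * 2 ^ J / 2 ^ e := by ring
    rw [h6]
    linarith
  have h1 := hpair U.1 U.2.1
  have h2 := hpair U.2.1 U.2.2
  have h3 := hpair U.2.2 U.1
  have h4 : (12 : ℝ) * 2 ^ J / 2 ^ e = 4 * 2 ^ J / 2 ^ e + 4 * 2 ^ J / 2 ^ e + 4 * 2 ^ J / 2 ^ e := by ring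
  rw [h4]
  linarith

/-! ## admissible multisets and reachability -/

/-- admissible multisets of positions for the cell `X` of level `t + 1` -/
def B3_Ok (e M n T t : ℕ) (X : Pos) (Z : Multiset Pos) : Prop :=
  (∀ z ∈ Z, cell (2 ^ (t + 1)) z = X ∧ z.x < 2 ^ T ∧ z.y < 2 ^ T) ∧ Z.card ≤ n ∧
    (Z.filter fun z => tr (B3_w e t) z ≠ z).card ≤ 4 * M

/-- the keys of the cell `X` of level `t + 1` -/
def B3_K (e M n T t : ℕ) (X : Pos) : List (List Pos) :=
  keys e M n (2 ^ T) (B3_w e t) (X.x * 2 ^ (t + 1)) (X.y * 2 ^ (t + 1))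

theorem B3_coord {e t a x : ℕ} (h : a / 2 ^ (t + 1) = x) (hd : B3_w e t ∣ a) :
    ∃ i < 2 ^ (e + 1), a = x * 2 ^ (t + 1) + i * B3_w e t := by
  have h1 := Nat.div_add_mod a (2 ^ (t + 1))
  have h2 := Nat.mod_lt a (show 0 < 2 ^ (t + 1) by positivity)
  rw [h] at h1
  have hd2 : B3_w e t ∣ a % 2 ^ (t + 1) := (Nat.dvd_mod_iff (B3_w_dvd (by omega))).2 hd
  obtain ⟨i, hi⟩ := hd2
  refine ⟨i, ?_, ?_⟩
  · have h3 : B3_w e t * i < B3_w e t * 2 ^ (e + 1) := by
      rw [← hi]
      refine h2.trans_le ?_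
      unfold B3_w
      rw [← pow_add]
      exact Nat.pow_le_pow_right (by norm_num) (by omega)
    exact Nat.lt_of_mul_lt_mul_left h3
  · rw [mul_comm i, ← hi, mul_comm x]
    exact h1.symm

theorem B3_Ok.key {e M n T t : ℕ} {X : Pos} {Z : Multiset Pos} (h : B3_Ok e M n T t X Z) :
    ∃ k ∈ B3_K e M n T t X, (k : Multiset Pos) = Z := by
  obtain ⟨h1, h2, h3⟩ := h
  obtain ⟨k, hk, hkp⟩ := mem_keys e M n (2 ^ T) (B3_w e t) (X.x * 2 ^ (t + 1)) (X.y * 2 ^ (t + 1))
    (B3_w_pos e t) Z.toList (by simpa using h2)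
    (fun z hz => (h1 z (by simpa using hz)).2)
    (by
      intro z hz htr
      obtain ⟨hc, -⟩ := h1 z (by simpa using hz)
      rw [B3_tr_iff] at htr
      unfold cell at hc
      obtain ⟨i, hi, hi2⟩ := B3_coord (e := e) (congrArg Pos.x hc) htr.1
      obtain ⟨j, hj, hj2⟩ := B3_coord (e := e) (congrArg Pos.y hc) htr.2
      refine ⟨i, hi, j, hj, ?_⟩
      rw [← hi2, ← hj2])
    (by
      have : (non (B3_w e t) Z.toList).length = (Z.filter fun z => tr (B3_w e t) z ≠ z).card := by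
        unfold non
        conv_rhs => rw [← Multiset.coe_toList Z]
        rw [Multiset.filter_coe, Multiset.coe_card]
      rw [this]
      exact h3)
  refine ⟨k, hk, ?_⟩
  rw [← Multiset.coe_toList Z, Multiset.coe_eq_coe]
  exact hkp

theorem B3_Ok.mono {e M n T t : ℕ} {X : Pos} {Z Z' : Multiset Pos} (h : B3_Ok e M n T t X Z)
    (hle : Z' ≤ Z) : B3_Ok e M n T t X Z' :=
  ⟨fun z hz => h.1 z (Multiset.mem_of_le hle hz), (Multiset.card_le_card hle).trans h.2.1,
    (Multiset.card_le_card (Multiset.filter_le_filter _ hle)).trans h.2.2⟩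

section
variable {P : Type}

/-- `Z` can be obtained from `Z₀` by `k` operations of cost `c` -/
def B3_R (P : Type) (e M n T t : ℕ) (X : Pos) (Z₀ Z : Multiset Pos) (k : ℕ) (c : ℝ) : Prop :=
  B3_Ok e M n T t X Z₀ → (B3_Ok e M n T t X Z ∧ ∀ (A : List (Ent P)) (c₀ : ℝ), Cv A Z₀ c₀ →
    Cv ((stepT (B3_K e M n T t X) (B3_w e (t + 1)))^[k] A) Z (c₀ + c))

variable {e M n T t : ℕ} {X : Pos}

theorem B3_R.refl (Z : Multiset Pos) : B3_R P e M n T t X Z Z 0 0 := by
  intro h
  refine ⟨h, fun A c₀ hA => ?_⟩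
  simpa using hA

theorem B3_R.trans {Z₀ Z₁ Z₂ : Multiset Pos} {k₁ k₂ : ℕ} {c₁ c₂ : ℝ}
    (h₁ : B3_R P e M n T t X Z₀ Z₁ k₁ c₁) (h₂ : B3_R P e M n T t X Z₁ Z₂ k₂ c₂) :
    B3_R P e M n T t X Z₀ Z₂ (k₁ + k₂) (c₁ + c₂) := by
  intro h
  obtain ⟨hok, hA⟩ := h₁ h
  obtain ⟨hok', hA'⟩ := h₂ hok
  refine ⟨hok', fun A c₀ hc => ?_⟩
  rw [add_comm k₁ k₂, Function.iterate_add_apply, ← add_assoc]
  exact hA' _ _ (hA A c₀ hc)

theorem B3_R.cost {Z₀ Z₁ : Multiset Pos} {k : ℕ} {c c' : ℝ}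
    (h : B3_R P e M n T t X Z₀ Z₁ k c) (hc : c ≤ c') : B3_R P e M n T t X Z₀ Z₁ k c' := by
  intro h0
  obtain ⟨hok, hA⟩ := h h0
  exact ⟨hok, fun A c₀ hA0 => (hA A c₀ hA0).mono (by linarith)⟩

theorem B3_R.idle (Z : Multiset Pos) : ∀ k, B3_R P e M n T t X Z Z k 0 := by
  intro k
  induction k with
  | zero => exact B3_R.refl Z
  | succ k ih =>
    intro h
    obtain ⟨_, hA⟩ := ih h
    refine ⟨h, fun A c₀ hA0 => ?_⟩
    rw [Function.iterate_succ_apply']
    exact Cv.idle h.key (hA A c₀ hA0)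

theorem B3_R.pad {Z₀ Z₁ : Multiset Pos} {k k' : ℕ} {c : ℝ}
    (h : B3_R P e M n T t X Z₀ Z₁ k c) (hk : k ≤ k') : B3_R P e M n T t X Z₀ Z₁ k' c := by
  obtain ⟨d, rfl⟩ := Nat.exists_eq_add_of_le hk
  have := h.trans (B3_R.idle (P := P) Z₁ d)
  simpa using this

theorem B3_R.form (z₁ z₂ z₃ : Pos) (Z : Multiset Pos) :
    B3_R P e M n T t X (z₁ ::ₘ z₂ ::ₘ z₃ ::ₘ Z) Z 1 (tri z₁ z₂ z₃) := by
  intro h
  have hle : Z ≤ z₁ ::ₘ z₂ ::ₘ z₃ ::ₘ Z :=
    (Multiset.le_cons_self _ _).trans ((Multiset.le_cons_self _ _).trans (Multiset.le_cons_self _ _))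
  have hok := h.mono hle
  refine ⟨hok, fun A c₀ hA => ?_⟩
  rw [Function.iterate_one]
  exact Cv.form hok.key hA

theorem B3_R.trunc (z : Pos) (Z : Multiset Pos) :
    B3_R P e M n T t X (z ::ₘ Z) (tr (B3_w e (t + 1)) z ::ₘ Z) 1 (2 * dh z (tr (B3_w e (t + 1)) z)) := by
  intro h
  have hal : tr (B3_w e t) (tr (B3_w e (t + 1)) z) = tr (B3_w e (t + 1)) z := by
    rw [B3_tr_iff]
    have := B3_tr_dvd (B3_w e (t + 1)) z
    exact ⟨(B3_w_dvd_succ e t).trans this.1, (B3_w_dvd_succ e t).trans this.2⟩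
  have hok : B3_Ok e M n T t X (tr (B3_w e (t + 1)) z ::ₘ Z) := by
    obtain ⟨h1, h2, h3⟩ := h
    refine ⟨?_, ?_, ?_⟩
    · intro y hy
      rw [Multiset.mem_cons] at hy
      rcases hy with rfl | hy
      · obtain ⟨hc, hx, hy⟩ := h1 z (Multiset.mem_cons_self _ _)
        have hle := B3_tr_le (B3_w e (t + 1)) z
        refine ⟨?_, hle.1.trans_lt hx, hle.2.trans_lt hy⟩
        rw [B3_cell_tr (B3_w_pos _ _) (B3_w_dvd le_rfl)]
        exact hc
      · exact h1 y (Multiset.mem_cons_of_mem hy)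
    · simpa using h2
    · rw [Multiset.filter_cons_of_neg _ (by simpa using hal)]
      refine le_trans (Multiset.card_le_card ?_) h3
      exact Multiset.filter_le_filter _ (Multiset.le_cons_self _ _)
  refine ⟨hok, fun A c₀ hA => ?_⟩
  rw [Function.iterate_one]
  exact Cv.trunc hok.key hA

/-- cost of rounding a token at level `t + 1` -/
theorem B3_trunc_cost (e t : ℕ) (z : Pos) :
    (2 * dh z (tr (B3_w e (t + 1)) z) : ℝ) ≤ 4 * 2 ^ (t + 1) / 2 ^ e + 6 := by
  have h1 := B3_dh_le z (tr (B3_w e (t + 1)) z)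
  have h2 := B3_ed_tr (B3_w e (t + 1)) (B3_w_pos _ _) z
  have h3 := B3_w_real e (t + 1)
  have h4 : (4 : ℝ) * 2 ^ (t + 1) / 2 ^ e = 4 * (2 ^ (t + 1) / 2 ^ e) := by ring
  rw [h4]
  linarith

theorem B3_R.truncs : ∀ (L : List Pos) (Z : Multiset Pos),
    B3_R P e M n T t X ((L : Multiset Pos) + Z) (((L.map (tr (B3_w e (t + 1))) : List Pos) : Multiset Pos) + Z)
      L.length (L.length * (4 * 2 ^ (t + 1) / 2 ^ e + 6)) := by
  intro L
  induction L with
  | nil => intro Z; simpa using B3_R.refl (P := P) Z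
  | cons z L ih =>
    intro Z
    have h1 := (B3_R.trunc (P := P) (e := e) (M := M) (n := n) (T := T) (t := t) (X := X) z
      ((L : Multiset Pos) + Z)).cost (B3_trunc_cost e t z)
    have h2 := ih (tr (B3_w e (t + 1)) z ::ₘ Z)
    rw [Multiset.add_cons, Multiset.add_cons] at h2
    have h3 := h1.trans h2
    rw [← Multiset.cons_add, ← Multiset.cons_add, Multiset.cons_coe, Multiset.cons_coe] at h3
    rw [List.map_cons, List.length_cons, add_comm L.length 1]
    refine h3.cost (le_of_eq ?_)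
    push_cast
    ring

end

/-! ## contributions of the triples -/

/-- the triple is split at level `t` -/
def B3_sp (t : ℕ) (u : LT) : Prop := t = 0 ∨ ¬ In (2 ^ t) u.1

instance (t : ℕ) (u : LT) : Decidable (B3_sp t u) := by unfold B3_sp; infer_instance

theorem B3_In_succ {t : ℕ} {U : Tri} (h : In (2 ^ t) U) : In (2 ^ (t + 1)) U := by
  unfold In at h ⊢
  simp only [B3_cell_succ]
  exact ⟨congrArg _ h.1, congrArg _ h.2⟩

theorem B3_sp_succ {t : ℕ} {u : LT} (h : B3_sp (t + 1) u) : B3_sp t u := by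
  rcases h with h | h
  · omega
  · exact Or.inr fun h2 => h (B3_In_succ h2)

/-- points of the triple in the cell `X` of level `s` -/
def B3_pt (s : ℕ) (X : Pos) (u : LT) : List Pos := (pts u.1).filter fun p => decide (cell (2 ^ s) p = X)

/-- tokens of a triple in the cell `X` of level `s`, at their positions at level `t` -/
def B3_zc (e s t : ℕ) (X : Pos) (u : LT) : Multiset Pos :=
  if B3_sp t u then (((B3_pt s X u).map fun p => B3_z e u.2 p t : List Pos) : Multiset Pos) else 0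

/-- full cost of a triple -/
noncomputable def B3_full (e T : ℕ) (u : LT) : ℝ := per u.1 + 24 / 2 ^ e * 2 ^ u.2 + (30 * T + 21)

/-- cost of a triple in the cell `X` of level `s`, at level `t` -/
noncomputable def B3_cc (e T s t : ℕ) (X : Pos) (u : LT) : ℝ :=
  if B3_sp t u then (B3_pt s X u).length * B3_mb e u.2 t
  else if cell (2 ^ s) u.1.1 = X then B3_full e T u else 0

theorem B3_per_nonneg (U : Tri) : 0 ≤ per U :=
  add_nonneg (add_nonneg (B3_ed_nonneg _ _) (B3_ed_nonneg _ _)) (B3_ed_nonneg _ _)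

theorem B3_full_nonneg (e T : ℕ) (u : LT) : 0 ≤ B3_full e T u := by
  unfold B3_full
  have := B3_per_nonneg u.1
  positivity

theorem B3_all_pts {s : ℕ} {U : Tri} (h : In (2 ^ s) U) {p : Pos} (hp : p ∈ pts U) :
    cell (2 ^ s) p = cell (2 ^ s) U.1 := by
  unfold pts at hp
  simp only [List.mem_cons, List.not_mem_nil, or_false] at hp
  obtain ⟨h1, h2⟩ := h
  rcases hp with rfl | rfl | rfl
  · rfl
  · exact h1.symm
  · rw [h1, h2]

section
variable {P : Type} {e M n T t : ℕ} {X : Pos}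

/-- transition of one triple -/
theorem B3_R.triple (ht : t < T) (u : LT) (R : Multiset Pos) :
    B3_R P e M n T t X (B3_zc e (t + 1) t X u + R) (B3_zc e (t + 1) (t + 1) X u + R)
      (B3_zc e (t + 1) t X u).card (B3_cc e T (t + 1) (t + 1) X u - B3_cc e T (t + 1) t X u) := by
  by_cases h1 : B3_sp (t + 1) u
  · have h0 := B3_sp_succ h1
    unfold B3_zc B3_cc
    rw [if_pos h1, if_pos h0, if_pos h1, if_pos h0]
    by_cases hJ : t + 1 < u.2
    · have h2 := B3_R.truncs (P := P) (e := e) (M := M) (n := n) (T := T) (t := t) (X := X)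
        ((B3_pt (t + 1) X u).map fun p => B3_z e u.2 p t) R
      rw [List.map_map] at h2
      have h3 : (tr (B3_w e (t + 1)) ∘ fun p => B3_z e u.2 p t) = fun p => B3_z e u.2 p (t + 1) := by
        funext p
        simp only [Function.comp, B3_z, if_pos hJ]
      rw [h3] at h2
      rw [Multiset.coe_card]
      refine h2.cost (le_of_eq ?_)
      simp only [B3_mb, if_pos hJ, List.length_map]
      ring
    · have h3 : (fun p => B3_z e u.2 p (t + 1)) = fun p => B3_z e u.2 p t := by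
        funext p
        simp only [B3_z, if_neg hJ]
      rw [h3]
      refine ((B3_R.idle (P := P) _ _)).cost (le_of_eq ?_)
      simp only [B3_mb, if_neg hJ]
      ring
  · have hIn : In (2 ^ (t + 1)) u.1 := by
      by_contra hcon
      exact h1 (Or.inr hcon)
    by_cases h0 : B3_sp t u
    · unfold B3_zc B3_cc
      rw [if_pos h0, if_neg h1, if_pos h0, if_neg h1]
      by_cases hX : cell (2 ^ (t + 1)) u.1.1 = X
      · have hpt : B3_pt (t + 1) X u = pts u.1 := by
          unfold B3_pt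
          rw [List.filter_eq_self]
          intro p hp
          rw [decide_eq_true_eq, B3_all_pts hIn hp, hX]
        rw [hpt, if_pos hX]
        have h2 := B3_R.form (P := P) (e := e) (M := M) (n := n) (T := T) (t := t) (X := X)
          (B3_z e u.2 u.1.1 t) (B3_z e u.2 u.1.2.1 t) (B3_z e u.2 u.1.2.2 t) R
        have h3 : (((pts u.1).map fun p => B3_z e u.2 p t : List Pos) : Multiset Pos) + R
            = B3_z e u.2 u.1.1 t ::ₘ B3_z e u.2 u.1.2.1 t ::ₘ B3_z e u.2 u.1.2.2 t ::ₘ R := by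
          unfold pts
          simp only [List.map_cons, List.map_nil, ← Multiset.cons_coe, Multiset.cons_add,
            Multiset.coe_nil, zero_add]
        rw [h3, zero_add]
        have h4 : (((pts u.1).map fun p => B3_z e u.2 p t : List Pos) : Multiset Pos).card = 3 := by
          simp [pts]
        rw [h4]
        refine (h2.pad (by norm_num)).cost ?_
        have h5 := B3_tri_le e u.2 t u.1
        have h6 := B3_mb_le e u.2 t
        have h7 := B3_pow_min (t + 1) u.2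
        have h8 : (4 : ℝ) * 2 ^ (min (t + 1) u.2) / 2 ^ e ≤ 4 * 2 ^ u.2 / 2 ^ e := by gcongr
        have h9 : ((t : ℕ) : ℝ) ≤ T := by exact_mod_cast ht.le
        unfold B3_full
        have h10 : (24 : ℝ) / 2 ^ e * 2 ^ u.2 = 3 * (4 * 2 ^ u.2 / 2 ^ e) + 12 * 2 ^ u.2 / 2 ^ e := by ring
        rw [h10]
        have h11 : ((pts u.1).length : ℝ) = 3 := by simp [pts]
        rw [h11]
        linarith
      · have hpt : B3_pt (t + 1) X u = [] := by
          unfold B3_pt
          rw [List.filter_eq_nil_iff]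
          intro p hp
          rw [decide_eq_true_eq, B3_all_pts hIn hp]
          exact hX
        rw [hpt, if_neg hX]
        simp only [List.map_nil, Multiset.coe_nil, List.length_nil, Nat.cast_zero, zero_mul, sub_zero,
          Multiset.card_zero]
        exact B3_R.refl _
    · unfold B3_zc B3_cc
      rw [if_neg h0, if_neg h1, if_neg h0, if_neg h1, sub_self, Multiset.card_zero]
      exact B3_R.refl _

/-- transition of all triples -/
theorem B3_R.all (ht : t < T) : ∀ (ρ : List LT) (R : Multiset Pos),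
    B3_R P e M n T t X ((ρ.map (B3_zc e (t + 1) t X)).sum + R)
      ((ρ.map (B3_zc e (t + 1) (t + 1) X)).sum + R)
      (ρ.map (B3_zc e (t + 1) t X)).sum.card
      ((ρ.map (B3_cc e T (t + 1) (t + 1) X)).sum - (ρ.map (B3_cc e T (t + 1) t X)).sum) := by
  intro ρ
  induction ρ with
  | nil =>
    intro R
    simpa using B3_R.refl (P := P) R
  | cons u ρ ih =>
    intro R
    simp only [List.map_cons, List.sum_cons, Multiset.card_add]
    have h1 := B3_R.triple (P := P) (e := e) (M := M) (n := n) (X := X) ht u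
      ((ρ.map (B3_zc e (t + 1) t X)).sum + R)
    have h2 := ih (B3_zc e (t + 1) (t + 1) X u + R)
    have e1 : (ρ.map (B3_zc e (t + 1) t X)).sum + (B3_zc e (t + 1) (t + 1) X u + R)
        = B3_zc e (t + 1) (t + 1) X u + ((ρ.map (B3_zc e (t + 1) t X)).sum + R) := by
      rw [← add_assoc, ← add_assoc, add_comm (ρ.map (B3_zc e (t + 1) t X)).sum]
    rw [e1] at h2
    have h3 := h1.trans h2
    have e2 : (ρ.map (B3_zc e (t + 1) (t + 1) X)).sum + (B3_zc e (t + 1) (t + 1) X u + R)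
        = B3_zc e (t + 1) (t + 1) X u + (ρ.map (B3_zc e (t + 1) (t + 1) X)).sum + R := by
      rw [← add_assoc, add_comm (ρ.map (B3_zc e (t + 1) (t + 1) X)).sum]
    rw [e2, ← add_assoc] at h3
    exact h3.cost (le_of_eq (by ring))

end

/-! ## children -/

/-- the four children of a cell -/
def B3_ch (X : Pos) : List Pos :=
  [⟨2 * X.x, 2 * X.y⟩, ⟨2 * X.x + 1, 2 * X.y⟩, ⟨2 * X.x, 2 * X.y + 1⟩, ⟨2 * X.x + 1, 2 * X.y + 1⟩]

/-- counting in the children -/
theorem B3_child {N : Type} [AddCommMonoid N] (t : ℕ) (X p : Pos) (a : N) :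
    ((B3_ch X).map fun Y => if cell (2 ^ t) p = Y then a else 0).sum
      = if cell (2 ^ (t + 1)) p = X then a else 0 := by
  rw [B3_cell_succ]
  generalize cell (2 ^ t) p = q
  unfold B3_ch
  simp only [List.map_cons, List.map_nil, List.sum_cons, List.sum_nil, add_zero]
  obtain ⟨a1, b1⟩ := q
  obtain ⟨c1, d1⟩ := X
  simp only [cell, Pos.mk.injEq]
  by_cases h : a1 / 2 = c1 ∧ b1 / 2 = d1
  · rw [if_pos h]
    have h1 : a1 = 2 * c1 ∨ a1 = 2 * c1 + 1 := by omega
    have h2 : b1 = 2 * d1 ∨ b1 = 2 * d1 + 1 := by omega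
    rcases h1 with rfl | rfl <;> rcases h2 with rfl | rfl <;> simp
  · rw [if_neg h, if_neg (by omega), if_neg (by omega), if_neg (by omega), if_neg (by omega)]
    simp

theorem B3_child_sum {N : Type} [AddCommMonoid N] (t : ℕ) (X : Pos) (f : Pos → N) : ∀ L : List Pos,
    ((B3_ch X).map fun Y => ((L.filter fun p => decide (cell (2 ^ t) p = Y)).map f).sum).sum
      = ((L.filter fun p => decide (cell (2 ^ (t + 1)) p = X)).map f).sum := by
  intro L
  induction L with
  | nil => simp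
  | cons p L ih =>
    have h1 : ∀ (s : ℕ) (Y : Pos), (((p :: L).filter fun p => decide (cell (2 ^ s) p = Y)).map f).sum
        = (if cell (2 ^ s) p = Y then f p else 0)
          + ((L.filter fun p => decide (cell (2 ^ s) p = Y)).map f).sum := by
      intro s Y
      rw [List.filter_cons]
      by_cases h : cell (2 ^ s) p = Y
      · simp [h]
      · simp [h]
    simp only [h1]
    rw [List.sum_map_add, B3_child, ih]

theorem B3_sum_comm {N : Type} [AddCommMonoid N] (C : List Pos) (ρ : List LT) (g : Pos → LT → N) :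
    (C.map fun Y => (ρ.map (g Y)).sum).sum = (ρ.map fun u => (C.map fun Y => g Y u).sum).sum := by
  induction ρ with
  | nil => simp
  | cons u ρ ih =>
    simp only [List.map_cons, List.sum_cons]
    rw [List.sum_map_add, ih]

theorem B3_sum_single (L : List Pos) (f : Pos → Pos) :
    (L.map fun p => ({f p} : Multiset Pos)).sum = ((L.map f : List Pos) : Multiset Pos) := by
  induction L with
  | nil => simp
  | cons p L ih =>
    rw [List.map_cons, List.sum_cons, ih, List.map_cons, Multiset.singleton_add, Multiset.cons_coe]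

theorem B3_zc_child (e t : ℕ) (X : Pos) (u : LT) :
    ((B3_ch X).map fun Y => B3_zc e t t Y u).sum = B3_zc e (t + 1) t X u := by
  unfold B3_zc
  by_cases h : B3_sp t u
  · simp only [if_pos h, B3_pt, ← B3_sum_single]
    exact B3_child_sum t X _ _
  · simp only [if_neg h]
    simp [B3_ch]

theorem B3_cc_child (e T t : ℕ) (X : Pos) (u : LT) :
    ((B3_ch X).map fun Y => B3_cc e T t t Y u).sum = B3_cc e T (t + 1) t X u := by
  unfold B3_cc
  by_cases h : B3_sp t u
  · simp only [if_pos h, B3_pt]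
    have h1 : ∀ L : List Pos, (L.length : ℝ) * B3_mb e u.2 t = (L.map fun _ => B3_mb e u.2 t).sum := by
      intro L
      simp
    simp only [h1]
    exact B3_child_sum t X _ _
  · simp only [if_neg h]
    exact B3_child t X u.1.1 _

/-- tokens of the cell `X` of level `t` -/
def B3_Z (e t : ℕ) (ρ : List LT) (X : Pos) : Multiset Pos := (ρ.map (B3_zc e t t X)).sum

theorem B3_Z_child (e t : ℕ) (ρ : List LT) (X : Pos) :
    ((B3_ch X).map (B3_Z e t ρ)).sum = (ρ.map (B3_zc e (t + 1) t X)).sum := by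
  unfold B3_Z
  rw [B3_sum_comm (B3_ch X) ρ (fun Y => B3_zc e t t Y)]
  simp only [B3_zc_child]

theorem B3_C_child (e T t : ℕ) (ρ : List LT) (X : Pos) :
    ((B3_ch X).map fun Y => (ρ.map (B3_cc e T t t Y)).sum).sum = (ρ.map (B3_cc e T (t + 1) t X)).sum := by
  rw [B3_sum_comm (B3_ch X) ρ (fun Y => B3_cc e T t t Y)]
  simp only [B3_cc_child]

theorem B3_exc_cons (u : LT) (ρ : List LT) (t : ℕ) (X : Pos) :
    exc (u :: ρ) t X = (if u.2 ≤ t ∧ ¬ In (2 ^ t) u.1 then (B3_pt t X u).length else 0) + exc ρ t X := by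
  unfold exc B3_pt
  rw [List.filter_cons]
  by_cases h : u.2 ≤ t ∧ ¬ In (2 ^ t) u.1
  · rw [if_pos (by simpa using h), if_pos h, List.flatMap_cons, List.length_append]
  · rw [if_neg (by simpa using h), if_neg h, zero_add]

theorem B3_non_le (e t : ℕ) (Y : Pos) : ∀ ρ : List LT,
    ((B3_Z e t ρ Y).filter fun z => tr (B3_w e t) z ≠ z).card ≤ exc ρ t Y := by
  intro ρ
  induction ρ with
  | nil => simp [B3_Z]
  | cons u ρ ih =>
    rw [B3_exc_cons]
    unfold B3_Z at ih ⊢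
    rw [List.map_cons, List.sum_cons, Multiset.filter_add, Multiset.card_add]
    refine Nat.add_le_add ?_ ih
    unfold B3_zc
    by_cases h : B3_sp t u
    · rw [if_pos h]
      by_cases h2 : t = 0 ∨ t < u.2
      · have h3 : (((((B3_pt t Y u).map fun p => B3_z e u.2 p t : List Pos) : Multiset Pos)).filter
            fun z => tr (B3_w e t) z ≠ z) = 0 := by
          rw [Multiset.filter_eq_nil]
          intro z hz
          rw [Multiset.mem_coe, List.mem_map] at hz
          obtain ⟨p, _, rfl⟩ := hz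
          rw [not_not]
          exact B3_z_aligned e u.2 p t h2
        rw [h3]
        simp
      · have h3 : u.2 ≤ t ∧ ¬ In (2 ^ t) u.1 := by
          refine ⟨by omega, ?_⟩
          rcases h with h | h
          · omega
          · exact h
        rw [if_pos h3]
        refine (Multiset.card_le_card (Multiset.filter_le _ _)).trans ?_
        rw [Multiset.coe_card, List.length_map]
    · rw [if_neg h]
      simp

theorem B3_mem_sum (F : LT → Multiset Pos) (z : Pos) : ∀ ρ : List LT,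
    z ∈ (ρ.map F).sum → ∃ u ∈ ρ, z ∈ F u := by
  intro ρ
  induction ρ with
  | nil => simp
  | cons u ρ ih =>
    rw [List.map_cons, List.sum_cons, Multiset.mem_add]
    rintro (h | h)
    · exact ⟨u, by simp, h⟩
    · obtain ⟨v, hv, hz⟩ := ih h
      exact ⟨v, by simp [hv], hz⟩

theorem B3_card_sum (e s t : ℕ) (X : Pos) : ∀ ρ : List LT,
    (ρ.map (B3_zc e s t X)).sum.card ≤ (pl (ρ.map Prod.fst)).length := by
  intro ρ
  induction ρ with
  | nil => simp
  | cons u ρ ih =>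
    rw [List.map_cons, List.sum_cons, Multiset.card_add]
    unfold pl at ih ⊢
    rw [List.map_cons, List.flatMap_cons, List.length_append]
    refine Nat.add_le_add ?_ ih
    unfold B3_zc
    split_ifs
    · rw [Multiset.coe_card, List.length_map]
      exact List.length_filter_le _ _
    · simp

/-- the tokens before the operations are admissible -/
theorem B3_big_ok {e M n T t : ℕ} {X : Pos} {ρ : List LT}
    (hpos : ∀ u ∈ ρ, ∀ p ∈ pts u.1, p.x < 2 ^ T ∧ p.y < 2 ^ T)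
    (hlen : (pl (ρ.map Prod.fst)).length ≤ n) (hM : ∀ X, exc ρ t X ≤ M) :
    B3_Ok e M n T t X (ρ.map (B3_zc e (t + 1) t X)).sum := by
  refine ⟨?_, (B3_card_sum e (t + 1) t X ρ).trans hlen, ?_⟩
  · intro z hz
    obtain ⟨u, hu, hz⟩ := B3_mem_sum _ z ρ hz
    unfold B3_zc at hz
    split_ifs at hz
    · rw [Multiset.mem_coe, List.mem_map] at hz
      obtain ⟨p, hp, rfl⟩ := hz
      unfold B3_pt at hp
      rw [List.mem_filter, decide_eq_true_eq] at hp
      have hle := B3_z_le e u.2 p t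
      have hb := hpos u hu p hp.1
      refine ⟨?_, hle.1.trans_lt hb.1, hle.2.trans_lt hb.2⟩
      rw [B3_z_cell e u.2 p t (t + 1) (by omega)]
      exact hp.2
    · simp at hz
  · rw [← B3_Z_child]
    unfold B3_ch
    simp only [List.map_cons, List.map_nil, List.sum_cons, List.sum_nil, add_zero, Multiset.filter_add,
      Multiset.card_add]
    have h := fun Y => (B3_non_le e t Y ρ).trans (hM Y)
    have h1 := h ⟨2 * X.x, 2 * X.y⟩
    have h2 := h ⟨2 * X.x + 1, 2 * X.y⟩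
    have h3 := h ⟨2 * X.x, 2 * X.y + 1⟩
    have h4 := h ⟨2 * X.x + 1, 2 * X.y + 1⟩
    omega

theorem B3_In_top {T : ℕ} {ρ : List LT} (hpos : ∀ u ∈ ρ, ∀ p ∈ pts u.1, p.x < 2 ^ T ∧ p.y < 2 ^ T)
    {u : LT} (hu : u ∈ ρ) : In (2 ^ T) u.1 ∧ cell (2 ^ T) u.1.1 = ⟨0, 0⟩ := by
  have h : ∀ p ∈ pts u.1, cell (2 ^ T) p = ⟨0, 0⟩ := by
    intro p hp
    have := hpos u hu p hp
    unfold cell
    rw [Nat.div_eq_of_lt this.1, Nat.div_eq_of_lt this.2]
  have h1 := h u.1.1 (by simp [pts])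
  have h2 := h u.1.2.1 (by simp [pts])
  have h3 := h u.1.2.2 (by simp [pts])
  exact ⟨⟨by rw [h1, h2], by rw [h2, h3]⟩, h1⟩

theorem B3_not_sp {T : ℕ} (hT : 1 ≤ T) {ρ : List LT}
    (hpos : ∀ u ∈ ρ, ∀ p ∈ pts u.1, p.x < 2 ^ T ∧ p.y < 2 ^ T) {u : LT} (hu : u ∈ ρ) : ¬ B3_sp T u := by
  rintro (h | h)
  · omega
  · exact h (B3_In_top hpos hu).1

theorem B3_Z_top {e T : ℕ} (hT : 1 ≤ T) {ρ : List LT}
    (hpos : ∀ u ∈ ρ, ∀ p ∈ pts u.1, p.x < 2 ^ T ∧ p.y < 2 ^ T) (X : Pos) : B3_Z e T ρ X = 0 := by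
  unfold B3_Z
  have : ρ.map (B3_zc e T T X) = ρ.map fun _ => (0 : Multiset Pos) := by
    refine List.map_congr_left fun u hu => ?_
    unfold B3_zc
    rw [if_neg (B3_not_sp hT hpos hu)]
  rw [this]
  simp

section
variable {P : Type}

/-- the invariant of the dynamic program -/
theorem B3_dp (e M n T : ℕ) (g : List (P × Pos)) (hn : g.length ≤ n) (hT : 1 ≤ T)
    (hg : ∀ a ∈ g, a.2.x < 2 ^ T ∧ a.2.y < 2 ^ T) (ρ : List LT)
    (hp : (pl (ρ.map Prod.fst)).Perm (g.map Prod.snd)) (hM : ∀ t < T, ∀ X, exc ρ t X ≤ M) :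
    ∀ t ≤ T, ∀ X, Cv (dp e M n (2 ^ T) g t X) (B3_Z e t ρ X) (ρ.map (B3_cc e T t t X)).sum := by
  have hpos : ∀ u ∈ ρ, ∀ p ∈ pts u.1, p.x < 2 ^ T ∧ p.y < 2 ^ T := by
    intro u hu p hpp
    have h1 : p ∈ pl (ρ.map Prod.fst) := by
      unfold pl
      rw [List.mem_flatMap]
      exact ⟨u.1, List.mem_map_of_mem hu, hpp⟩
    have h2 := hp.mem_iff.1 h1
    rw [List.mem_map] at h2
    obtain ⟨a, ha, rfl⟩ := h2
    exact hg a ha
  have hlen : (pl (ρ.map Prod.fst)).length ≤ n := by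
    rw [hp.length_eq, List.length_map]
    exact hn
  intro t
  induction t with
  | zero =>
    intro _ X
    refine ⟨⟨0, g.filter fun a => decide (a.2 = X), []⟩, by simp [dp], ?_, ?_⟩
    · have h1 : B3_Z e 0 ρ X = (((pl (ρ.map Prod.fst)).filter fun p => decide (p = X) : List Pos) : Multiset Pos) := by
        clear hp hM hpos hlen
        unfold B3_Z pl
        induction ρ with
        | nil => simp
        | cons u ρ ih =>
          rw [List.map_cons, List.sum_cons, ih, List.map_cons, List.flatMap_cons, List.filter_append,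
            ← Multiset.coe_add]
          congr 1
          unfold B3_zc B3_pt
          rw [if_pos (show B3_sp 0 u from Or.inl rfl)]
          simp only [B3_z, List.map_id', pow_zero, cell, Nat.div_one]
      rw [h1, B2_ms]
      rw [Multiset.coe_eq_coe]
      refine List.Perm.trans ?_ (hp.filter _).symm
      rw [List.filter_map]
      refine List.Perm.of_eq ?_
      rfl
    · have h1 : (ρ.map (B3_cc e T 0 0 X)).sum = 0 := by
        have : ρ.map (B3_cc e T 0 0 X) = ρ.map fun _ => (0 : ℝ) := by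
          refine List.map_congr_left fun u _ => ?_
          unfold B3_cc
          rw [if_pos (show B3_sp 0 u from Or.inl rfl)]
          simp [B3_mb]
        rw [this]; simp
      rw [h1]
      simp
  | succ t ih =>
    intro ht X
    have ht' : t < T := by omega
    have ih' := ih ht'.le
    have hbig : B3_Ok e M n T t X (ρ.map (B3_zc e (t + 1) t X)).sum :=
      B3_big_ok hpos hlen (hM t ht')
    set Za := B3_Z e t ρ ⟨2 * X.x, 2 * X.y⟩ with hZa
    set Zb := B3_Z e t ρ ⟨2 * X.x + 1, 2 * X.y⟩ with hZb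
    set Zc := B3_Z e t ρ ⟨2 * X.x, 2 * X.y + 1⟩ with hZc
    set Zd := B3_Z e t ρ ⟨2 * X.x + 1, 2 * X.y + 1⟩ with hZd
    have hZ : Za + Zb + Zc + Zd = (ρ.map (B3_zc e (t + 1) t X)).sum := by
      rw [← B3_Z_child]
      unfold B3_ch
      simp only [List.map_cons, List.map_nil, List.sum_cons, List.sum_nil, add_zero]
      rw [hZa, hZb, hZc, hZd, add_assoc, add_assoc]
    rw [← hZ] at hbig
    have hK1 : B3_Ok e M n T t X (Za + Zb) :=
      hbig.mono ((Multiset.le_add_right _ _).trans (Multiset.le_add_right _ _))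
    have hK2 : B3_Ok e M n T t X (Za + Zb + Zc) := hbig.mono (Multiset.le_add_right _ _)
    have h1 := Cv.mergeT hK1.key (ih' ⟨2 * X.x, 2 * X.y⟩) (ih' ⟨2 * X.x + 1, 2 * X.y⟩)
    have h2 := Cv.mergeT hK2.key h1 (ih' ⟨2 * X.x, 2 * X.y + 1⟩)
    have h3 := Cv.mergeT hbig.key h2 (ih' ⟨2 * X.x + 1, 2 * X.y + 1⟩)
    have hC := B3_C_child e T t ρ X
    unfold B3_ch at hC
    simp only [List.map_cons, List.map_nil, List.sum_cons, List.sum_nil, add_zero] at hC
    have hR := (B3_R.all (P := P) (e := e) (M := M) (n := n) (X := X) ht' ρ 0).pad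
      ((B3_card_sum e (t + 1) t X ρ).trans hlen)
    rw [add_zero, add_zero, ← hZ] at hR
    obtain ⟨_, hR2⟩ := hR hbig
    have h4 := hR2 _ _ h3
    obtain ⟨s, hs, hsZ, hsc⟩ := h4
    have hsZ' : B2_ms s = B3_Z e (t + 1) ρ X := hsZ
    refine ⟨s, ?_, hsZ', ?_⟩
    · show s ∈ proc e M n (2 ^ T) (2 ^ t) X _ _ _ _
      unfold proc
      simp only
      rw [List.mem_filter]
      have e1 : 2 * 2 ^ t = 2 ^ (t + 1) := by rw [pow_succ]; ring
      rw [e1, B3_w_eq, B3_w_eq]
      refine ⟨hs, ?_⟩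
      rw [decide_eq_true_eq]
      have h5 : (non (B3_w e (t + 1)) (s.tk.map fun a => a.2)).length
          = ((B3_Z e (t + 1) ρ X).filter fun z => tr (B3_w e (t + 1)) z ≠ z).card := by
        rw [← hsZ']
        unfold non B2_ms
        rw [Multiset.filter_coe, Multiset.coe_card]
      rw [h5]
      rcases Nat.lt_or_ge (t + 1) T with h6 | h6
      · exact (B3_non_le e (t + 1) X ρ).trans (hM (t + 1) h6 X)
      · have h7 : t + 1 = T := by omega
        rw [h7, B3_Z_top hT hpos]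
        simp
    · refine hsc.trans (le_of_eq ?_)
      rw [← hC]
      ring

theorem dp_complete {P : Type} (e M n T : ℕ) (g : List (P × Pos)) (hn : g.length ≤ n)
    (hT : 1 ≤ T) (hg : ∀ a ∈ g, a.2.x < 2 ^ T ∧ a.2.y < 2 ^ T) (ρ : List LT)
    (hp : (pl (ρ.map Prod.fst)).Perm (g.map Prod.snd))
    (hM : ∀ t < T, ∀ X, exc ρ t X ≤ M) :
    ∃ s ∈ solve e M n T g, s.tk = [] ∧
      (s.c : ℝ) ≤ (ρ.map fun u => per u.1 + 24 / 2 ^ e * 2 ^ u.2 + (30 * T + 21)).sum := by
  have hpos : ∀ u ∈ ρ, ∀ p ∈ pts u.1, p.x < 2 ^ T ∧ p.y < 2 ^ T := by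
    intro u hu p hpp
    have h1 : p ∈ pl (ρ.map Prod.fst) := by
      unfold pl
      rw [List.mem_flatMap]
      exact ⟨u.1, List.mem_map_of_mem hu, hpp⟩
    have h2 := hp.mem_iff.1 h1
    rw [List.mem_map] at h2
    obtain ⟨a, ha, rfl⟩ := h2
    exact hg a ha
  obtain ⟨s, hs, hsZ, hsc⟩ := B3_dp e M n T g hn hT hg ρ hp hM T le_rfl ⟨0, 0⟩
  rw [B3_Z_top hT hpos] at hsZ
  have htk : s.tk = [] := by
    unfold B2_ms at hsZ
    rw [Multiset.coe_eq_zero, List.map_eq_nil_iff] at hsZ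
    exact hsZ
  have hmem : s ∈ (dp e M n (2 ^ T) g T ⟨0, 0⟩).filter fun s => s.tk.isEmpty := by
    rw [List.mem_filter]
    exact ⟨hs, by rw [htk]; rfl⟩
  obtain ⟨b, hb, hbs⟩ := B2_best1_le hmem
  have hb2 := B2_best1_mem hb
  rw [List.mem_filter] at hb2
  refine ⟨b, hb, List.isEmpty_iff.1 hb2.2, ?_⟩
  have h1 : (b.c : ℝ) ≤ s.c := by exact_mod_cast hbs
  refine h1.trans (hsc.trans (le_of_eq ?_))
  congr 1
  refine List.map_congr_left fun u hu => ?_
  unfold B3_cc
  rw [if_neg (B3_not_sp hT hpos hu), if_pos (B3_In_top hpos hu).2]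
  rfl

end

end Pool.Agent.M3
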