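import Pool.Agent.M3.Geo

/-!
# Module C3: integer coordinates
-/

namespace Pool.Agent.M3

open Pool.Agent.TM2Lib

/-- Euclidean distance of two points with rational coordinates -/
noncomputable def edist (p q : QP) : ℝ := √(((p.1 : ℝ) - q.1) ^ 2 + ((p.2 : ℝ) - q.2) ^ 2)

/-- perimeter of a triple of points with rational coordinates -/
noncomputable def perQ (t : QP × (QP × QP)) : ℝ :=
  edist t.1 t.2.1 + edist t.2.1 t.2.2 + edist t.2.2 t.1

/-- the integer position -/
def ipos (l : List QP) (p : QP) : Pos := ⟨cx l p, cy l p⟩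

/-- common denominator -/
def dnm (l : List QP) : ℕ := (l.map fun q => q.1.den * q.2.den).prod

theorem C3_prod (f g : QP → ℕ) (c : ℕ) (p : QP) (h : c * g p = f p) :
    ∀ l : List QP, l.Nodup → p ∈ l →
      c * (l.map fun q => if q = p then g q else f q).prod = (l.map f).prod := by
  intro l
  induction l with
  | nil => intro _ hp; simp at hp
  | cons a l ih =>
    intro hl hp
    rw [List.nodup_cons] at hl
    rw [List.map_cons, List.prod_cons, List.map_cons, List.prod_cons]
    by_cases hap : a = p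
    · subst hap
      rw [if_pos rfl]
      have : (l.map fun q => if q = a then g q else f q) = l.map f := by
        apply List.map_congr_left
        intro q hq
        rw [if_neg]
        rintro rfl
        exact hl.1 hq
      rw [this, ← mul_assoc, h]
    · rw [if_neg hap]
      have hpl : p ∈ l := by
        rcases List.mem_cons.mp hp with h1 | h1
        · exact absurd h1.symm hap
        · exact h1
      rw [mul_left_comm, ih hl.2 hpl]

theorem C3_dnx (l : List QP) (hl : l.Nodup) (p : QP) (hp : p ∈ l) :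
    p.1.den * dnx l p = dnm l :=
  C3_prod (fun q => q.1.den * q.2.den) (fun q => q.2.den) p.1.den p rfl l hl hp

theorem C3_dny (l : List QP) (hl : l.Nodup) (p : QP) (hp : p ∈ l) :
    p.2.den * dny l p = dnm l :=
  C3_prod (fun q => q.1.den * q.2.den) (fun q => q.1.den) p.2.den p (mul_comm _ _) l hl hp

theorem C3_dnm_pos (l : List QP) : 0 < dnm l := by
  unfold dnm
  apply List.prod_pos
  intro a ha
  rw [List.mem_map] at ha
  obtain ⟨q, -, rfl⟩ := ha
  exact Nat.mul_pos q.1.den_pos q.2.den_pos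

theorem C3_off (l : List QP) (p : QP) (hp : p ∈ l) :
    p.1.num.natAbs * dnx l p + p.2.num.natAbs * dny l p ≤ off l := by
  unfold off
  exact List.single_le_sum (by simp) _ (List.mem_map.mpr ⟨p, hp, rfl⟩)

theorem C3_cast (o D d : ℕ) (x : ℚ) (hd : x.den * d = D) (h : x.num.natAbs * d ≤ o) :
    (((if x.num < 0 then o - x.num.natAbs * d else o + x.num.natAbs * d : ℕ)) : ℝ) =
      o + D * (x : ℝ) := by
  have hx : (D : ℝ) * (x : ℝ) = x.num * d := by
    have h1 : (x : ℝ) = x.num / x.den := by
      exact_mod_cast congrArg (Rat.cast : ℚ → ℝ) (Rat.num_div_den x).symm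
    have h2 : (x.den : ℝ) ≠ 0 := by
      have := x.den_pos
      positivity
    rw [← hd, h1]
    push_cast
    field_simp
  rw [hx]
  split_ifs with hneg
  · rw [Nat.cast_sub h]
    push_cast
    have : (x.num.natAbs : ℝ) = -x.num := by
      have h3 : (x.num.natAbs : ℤ) = -x.num := by omega
      rw [← Int.cast_natCast, h3, Int.cast_neg]
    rw [this]
    ring
  · push_cast
    have : (x.num.natAbs : ℝ) = x.num := by
      have h3 : (x.num.natAbs : ℤ) = x.num := by omega
      rw [← Int.cast_natCast, h3]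
    rw [this]

theorem C3_cx (l : List QP) (hl : l.Nodup) (p : QP) (hp : p ∈ l) :
    (cx l p : ℝ) = off l + dnm l * (p.1 : ℝ) := by
  have := C3_off l p hp
  exact C3_cast (off l) (dnm l) (dnx l p) p.1 (C3_dnx l hl p hp) (by omega)

theorem C3_cy (l : List QP) (hl : l.Nodup) (p : QP) (hp : p ∈ l) :
    (cy l p : ℝ) = off l + dnm l * (p.2 : ℝ) := by
  have := C3_off l p hp
  exact C3_cast (off l) (dnm l) (dny l p) p.2 (C3_dny l hl p hp) (by omega)

theorem scaling (l : List QP) (hl : l.Nodup) :
    0 < dnm l ∧ (∀ p ∈ l, cx l p ≤ 2 * off l ∧ cy l p ≤ 2 * off l) ∧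
      (∀ p ∈ l, ∀ q ∈ l, ed (ipos l p) (ipos l q) = dnm l * edist p q) ∧
      (∀ p ∈ l, ∀ q ∈ l, ipos l p = ipos l q → p = q) := by
  have hpos := C3_dnm_pos l
  refine ⟨hpos, ?_, ?_, ?_⟩
  · intro p hp
    have := C3_off l p hp
    unfold cx cy
    constructor
    · split_ifs <;> omega
    · split_ifs <;> omega
  · intro p hp q hq
    unfold ed edist ipos
    simp only
    rw [C3_cx l hl p hp, C3_cx l hl q hq, C3_cy l hl p hp, C3_cy l hl q hq]
    have e : ((off l : ℝ) + dnm l * (p.1 : ℝ) - (off l + dnm l * (q.1 : ℝ))) ^ 2 +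
        ((off l : ℝ) + dnm l * (p.2 : ℝ) - (off l + dnm l * (q.2 : ℝ))) ^ 2 =
        (dnm l : ℝ) ^ 2 * (((p.1 : ℝ) - q.1) ^ 2 + ((p.2 : ℝ) - q.2) ^ 2) := by ring
    rw [e, Real.sqrt_mul (by positivity), Real.sqrt_sq (by positivity)]
  · intro p hp q hq h
    have hD : (dnm l : ℝ) ≠ 0 := by positivity
    unfold ipos at h
    rw [Pos.mk.injEq] at h
    have h1 : (cx l p : ℝ) = cx l q := by rw [h.1]
    have h2 : (cy l p : ℝ) = cy l q := by rw [h.2]
    rw [C3_cx l hl p hp, C3_cx l hl q hq] at h1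
    rw [C3_cy l hl p hp, C3_cy l hl q hq] at h2
    have h3 : (p.1 : ℝ) = q.1 := mul_left_cancel₀ hD (add_left_cancel h1)
    have h4 : (p.2 : ℝ) = q.2 := mul_left_cancel₀ hD (add_left_cancel h2)
    exact Prod.ext (by exact_mod_cast h3) (by exact_mod_cast h4)

end Pool.Agent.M3
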