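import Pool.Agent.M3.Compl
import Pool.Agent.M3.Apos

/-!
# Module C2: completeness for one scale and shift
-/

namespace Pool.Agent.M3

open Pool.Agent.TM2Lib

/-- position relative to the cell of side `s` -/
def C2_rp (s : ℕ) (p : Pos) : Pos := ⟨p.x % s, p.y % s⟩

/-- relative labelled triple -/
def C2_rt (s : ℕ) (u : LT) : LT := ((C2_rp s u.1.1, (C2_rp s u.1.2.1, C2_rp s u.1.2.2)), u.2)

/-- the cell as a pair -/
def C2_key (s : ℕ) (p : Pos) : ℕ × ℕ := (p.x / s, p.y / s)

theorem C2_key_eq {s : ℕ} {p p' : Pos} : C2_key s p = C2_key s p' ↔ cell s p = cell s p' := by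
  unfold C2_key cell
  rw [Prod.mk.injEq, Pos.mk.injEq]

theorem C2_pts (s : ℕ) (u : LT) : pts (C2_rt s u).1 = (pts u.1).map (C2_rp s) := rfl

/-! ### representatives -/

theorem C2_heads_aux (f : QP → ℕ × ℕ) (l : List QP) : ∀ s : List QP, (s.map f).Nodup →
    ((l.foldl (fun s p => if s.any (fun q => decide (f q = f p)) then s else p :: s) s).map
      f).Nodup ∧
    (∀ q ∈ s, q ∈ l.foldl (fun s p => if s.any (fun q => decide (f q = f p)) then s
      else p :: s) s) ∧
    (∀ p ∈ l, ∃ q ∈ l.foldl (fun s p => if s.any (fun q => decide (f q = f p)) then s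
      else p :: s) s, f q = f p) := by
  induction l with
  | nil =>
    intro s hs
    exact ⟨hs, fun q hq => hq, fun p hp => by simp at hp⟩
  | cons a l ih =>
    intro s hs
    rw [List.foldl_cons]
    by_cases h : (s.any fun q => decide (f q = f a)) = true
    · rw [if_pos h]
      obtain ⟨h1, h2, h3⟩ := ih s hs
      refine ⟨h1, h2, ?_⟩
      intro p hp
      rcases List.mem_cons.mp hp with rfl | hp
      · rw [List.any_eq_true] at h
        obtain ⟨q, hq, hqp⟩ := h
        exact ⟨q, h2 q hq, by simpa using hqp⟩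
      · exact h3 p hp
    · rw [if_neg h]
      have hs' : ((a :: s).map f).Nodup := by
        rw [List.map_cons, List.nodup_cons]
        refine ⟨?_, hs⟩
        intro hmem
        rw [List.mem_map] at hmem
        obtain ⟨q, hq, hqa⟩ := hmem
        apply h
        rw [List.any_eq_true]
        exact ⟨q, hq, by simpa using hqa⟩
      obtain ⟨h1, h2, h3⟩ := ih (a :: s) hs'
      refine ⟨h1, fun q hq => h2 q (List.mem_cons_of_mem _ hq), ?_⟩
      intro p hp
      rcases List.mem_cons.mp hp with rfl | hp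
      · exact ⟨p, h2 p List.mem_cons_self, rfl⟩
      · exact h3 p hp

theorem C2_heads (f : QP → ℕ × ℕ) (l : List QP) : ((heads f l).map f).Nodup ∧
    ∀ p ∈ l, ∃ q ∈ heads f l, f q = f p := by
  obtain ⟨h1, -, h3⟩ := C2_heads_aux f l [] (by simp)
  exact ⟨h1, h3⟩

/-! ### the fold -/

theorem C2_fold {P Q : Type} (sv : Q → List (Ent P)) (C : Q → ℝ) (hs : List Q)
    (h : ∀ q ∈ hs, ∃ s ∈ sv q, (s.c : ℝ) ≤ C q) :
    ∀ (S : List (Ent P)) (s0 : Ent P), s0 ∈ S →
      ∃ s ∈ hs.foldl (fun S q => (prod S (sv q)).map merge) S,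
        (s.c : ℝ) ≤ s0.c + (hs.map C).sum := by
  induction hs with
  | nil =>
    intro S s0 h0
    exact ⟨s0, h0, by simp⟩
  | cons q hs ih =>
    intro S s0 h0
    rw [List.foldl_cons]
    obtain ⟨s1, h1, h1c⟩ := h q List.mem_cons_self
    have hmem : merge (s0, s1) ∈ (prod S (sv q)).map merge := by
      apply List.mem_map_of_mem
      unfold prod
      rw [List.mem_flatMap]
      exact ⟨s0, h0, List.mem_map_of_mem h1⟩
    obtain ⟨s, hs1, hs2⟩ := ih (fun q' hq' => h q' (List.mem_cons_of_mem _ hq')) _ _ hmem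
    refine ⟨s, hs1, hs2.trans ?_⟩
    rw [List.map_cons, List.sum_cons]
    have : ((merge (s0, s1)).c : ℝ) = s0.c + s1.c := by
      unfold merge
      push_cast
      rfl
    rw [this]
    linarith

/-! ### splitting a sum by keys -/

theorem C2_ite_sum {κ : Type} [DecidableEq κ] (ks : List κ) (k0 : κ) (w : ℝ) (hk : ks.Nodup)
    (h0 : k0 ∈ ks) : (ks.map fun k => if k0 = k then w else 0).sum = w := by
  rw [← List.sum_toFinset _ hk, Finset.sum_ite_eq]
  rw [if_pos (by simpa using h0)]

theorem C2_split {κ α : Type} [DecidableEq κ] (ks : List κ) (hk : ks.Nodup) (key : α → κ)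
    (W : α → ℝ) (ρ : List α) (h : ∀ u ∈ ρ, key u ∈ ks) :
    (ks.map fun k => ((ρ.filter fun u => decide (key u = k)).map W).sum).sum =
      (ρ.map W).sum := by
  induction ρ with
  | nil => simp
  | cons u ρ ih =>
    have h1 := ih fun u' hu' => h u' (List.mem_cons_of_mem _ hu')
    have h2 : (ks.map fun k => (((u :: ρ).filter fun u => decide (key u = k)).map W).sum) =
        ks.map fun k => (if key u = k then W u else 0) +
          ((ρ.filter fun u => decide (key u = k)).map W).sum := by
      apply List.map_congr_left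
      intro k _
      by_cases hku : key u = k
      · rw [List.filter_cons_of_pos (by simpa using hku), List.map_cons, List.sum_cons,
          if_pos hku]
      · rw [List.filter_cons_of_neg (by simpa using hku), if_neg hku, zero_add]
    rw [h2, List.sum_map_add, h1, C2_ite_sum ks (key u) (W u) hk (h u List.mem_cons_self),
      List.map_cons, List.sum_cons]

/-! ### one group -/

theorem C2_pl (s : ℕ) (K : ℕ × ℕ) (ρ : List LT) (hin : ∀ u ∈ ρ, In s u.1) :
    pl (((ρ.filter fun u => decide (C2_key s u.1.1 = K)).map (C2_rt s)).map Prod.fst) =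
      ((pl (ρ.map Prod.fst)).filter fun p => decide (C2_key s p = K)).map (C2_rp s) := by
  induction ρ with
  | nil => rfl
  | cons u ρ ih =>
    have h1 := ih fun u' hu' => hin u' (List.mem_cons_of_mem _ hu')
    obtain ⟨h2, h3⟩ := hin u List.mem_cons_self
    rw [← C2_key_eq] at h2 h3
    have e1 : pl ((u :: ρ).map Prod.fst) = pts u.1 ++ pl (ρ.map Prod.fst) := by
      unfold pl
      rw [List.map_cons, List.flatMap_cons]
    rw [e1, List.filter_append, List.map_append, ← h1]
    by_cases hk : C2_key s u.1.1 = K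
    · have hk2 : C2_key s u.1.2.1 = K := by rw [← h2, hk]
      have hk3 : C2_key s u.1.2.2 = K := by rw [← h3, hk2]
      rw [List.filter_cons_of_pos (by simpa using hk), List.map_cons, List.map_cons]
      have e2 : pl ((C2_rt s u).1 :: ((ρ.filter fun u => decide (C2_key s u.1.1 = K)).map
          (C2_rt s)).map Prod.fst) = pts (C2_rt s u).1 ++
          pl (((ρ.filter fun u => decide (C2_key s u.1.1 = K)).map (C2_rt s)).map Prod.fst) := by
        unfold pl
        rw [List.flatMap_cons]
      rw [e2, C2_pts]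
      congr 2
      unfold pts
      simp [hk, hk2, hk3]
    · have hk2 : ¬ C2_key s u.1.2.1 = K := by rw [← h2]; exact hk
      have hk3 : ¬ C2_key s u.1.2.2 = K := by rw [← h3]; exact hk2
      rw [List.filter_cons_of_neg (by simpa using hk)]
      have : (pts u.1).filter (fun p => decide (C2_key s p = K)) = [] := by
        unfold pts
        simp [hk, hk2, hk3]
      rw [this, List.map_nil, List.nil_append]

theorem C2_exc_cons (u : LT) (ρ : List LT) (t : ℕ) (X : Pos) : exc (u :: ρ) t X =
    (if u.2 ≤ t ∧ ¬ In (2 ^ t) u.1 then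
      ((pts u.1).filter fun p => decide (cell (2 ^ t) p = X)).length else 0) + exc ρ t X := by
  unfold exc
  by_cases h : u.2 ≤ t ∧ ¬ In (2 ^ t) u.1
  · rw [List.filter_cons_of_pos (by simpa using h), if_pos h, List.flatMap_cons,
      List.length_append]
  · rw [List.filter_cons_of_neg (by simpa using h), if_neg h, zero_add]

theorem C2_mod_div (T t x : ℕ) (h : t ≤ T) : x % 2 ^ T / 2 ^ t = x / 2 ^ t % 2 ^ (T - t) := by
  have : 2 ^ T = 2 ^ t * 2 ^ (T - t) := by rw [← pow_add]; congr 1; omega
  rw [this, Nat.mod_mul_right_div_self]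

theorem C2_div (T t x : ℕ) (h : t ≤ T) :
    x / 2 ^ t = x / 2 ^ T * 2 ^ (T - t) + x % 2 ^ T / 2 ^ t := by
  have h1 : 2 ^ T = 2 ^ t * 2 ^ (T - t) := by rw [← pow_add]; congr 1; omega
  rw [C2_mod_div T t x h, h1, ← Nat.div_div_eq_div_mul]
  exact (Nat.div_add_mod' _ _).symm

theorem C2_exc (T t : ℕ) (h : t ≤ T) (K : ℕ × ℕ) (X : Pos) (ρ : List LT)
    (hin : ∀ u ∈ ρ, In (2 ^ T) u.1) :
    exc ((ρ.filter fun u => decide (C2_key (2 ^ T) u.1.1 = K)).map (C2_rt (2 ^ T))) t X ≤
      exc ρ t ⟨K.1 * 2 ^ (T - t) + X.x, K.2 * 2 ^ (T - t) + X.y⟩ := by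
  induction ρ with
  | nil => exact le_refl _
  | cons u ρ ih =>
    have h1 := ih fun u' hu' => hin u' (List.mem_cons_of_mem _ hu')
    obtain ⟨h2, h3⟩ := hin u List.mem_cons_self
    rw [← C2_key_eq] at h2 h3
    rw [C2_exc_cons u ρ]
    by_cases hk : C2_key (2 ^ T) u.1.1 = K
    · have hk2 : C2_key (2 ^ T) u.1.2.1 = K := by rw [← h2, hk]
      have hk3 : C2_key (2 ^ T) u.1.2.2 = K := by rw [← h3, hk2]
      rw [List.filter_cons_of_pos (by simpa using hk), List.map_cons, C2_exc_cons]
      refine Nat.add_le_add ?_ h1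
      by_cases hc : (C2_rt (2 ^ T) u).2 ≤ t ∧ ¬ In (2 ^ t) (C2_rt (2 ^ T) u).1
      · have hc' : u.2 ≤ t ∧ ¬ In (2 ^ t) u.1 := by
          refine ⟨hc.1, fun hI => hc.2 ?_⟩
          have key : ∀ p p' : Pos, cell (2 ^ t) p = cell (2 ^ t) p' →
              cell (2 ^ t) (C2_rp (2 ^ T) p) = cell (2 ^ t) (C2_rp (2 ^ T) p') := by
            intro p p' hpp
            unfold cell at hpp ⊢
            rw [Pos.mk.injEq] at hpp
            unfold C2_rp
            simp only
            rw [C2_mod_div T t _ h, C2_mod_div T t _ h, C2_mod_div T t _ h, C2_mod_div T t _ h,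
              hpp.1, hpp.2]
          exact ⟨key _ _ hI.1, key _ _ hI.2⟩
        rw [if_pos hc, if_pos hc', C2_pts, List.filter_map, List.length_map]
        rw [← List.countP_eq_length_filter, ← List.countP_eq_length_filter]
        apply List.countP_mono_left
        intro p hp hpX
        have hpK : C2_key (2 ^ T) p = K := by
          unfold pts at hp
          simp only [List.mem_cons, List.not_mem_nil, or_false] at hp
          rcases hp with rfl | rfl | rfl
          · exact hk
          · exact hk2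
          · exact hk3
        have hpX' : cell (2 ^ t) (C2_rp (2 ^ T) p) = X := by simpa using hpX
        have hgoal : cell (2 ^ t) p = ⟨K.1 * 2 ^ (T - t) + X.x, K.2 * 2 ^ (T - t) + X.y⟩ := by
          rw [← hpK, ← hpX']
          unfold cell C2_rp C2_key
          simp only
          rw [← C2_div T t _ h, ← C2_div T t _ h]
        simpa using hgoal
      · rw [if_neg hc]
        exact Nat.zero_le _
    · rw [List.filter_cons_of_neg (by simpa using hk)]
      exact h1.trans (Nat.le_add_left _ _)

/-! ### perimeters -/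

theorem C2_ed (s : ℕ) {p p' : Pos} (h : cell s p = cell s p') :
    ed (C2_rp s p) (C2_rp s p') = ed p p' := by
  unfold cell at h
  rw [Pos.mk.injEq] at h
  have key : ∀ x : ℕ, ((x % s : ℕ) : ℝ) = x - s * ((x / s : ℕ) : ℝ) := by
    intro x
    have h1 : x % s + s * (x / s) = x := Nat.mod_add_div x s
    have h2 : ((x % s : ℕ) : ℝ) + s * ((x / s : ℕ) : ℝ) = x := by exact_mod_cast h1
    linarith
  unfold ed C2_rp
  simp only
  rw [key, key, key, key, h.1, h.2]
  congr 1
  ring

theorem C2_per (s : ℕ) (u : LT) (h : In s u.1) : per (C2_rt s u).1 = per u.1 := by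
  unfold per C2_rt
  simp only
  rw [C2_ed s h.1, C2_ed s h.2, C2_ed s (h.1.trans h.2).symm]

theorem shiftSol_complete (c : Cst) (l : List QP) (k a b : ℕ) (ρ : List LT)
    (hp : (pl (ρ.map Prod.fst)).Perm (l.map (apos c l k a b)))
    (hin : ∀ u ∈ ρ, In (2 ^ lev c l) u.1)
    (hM : ∀ t < lev c l, ∀ X, exc ρ t X ≤ c.M) :
    ∃ s ∈ shiftSol c l k a b,
      (s.c : ℝ) ≤ (ρ.map fun u => per u.1 + 24 / 2 ^ c.e * 2 ^ u.2 + (30 * lev c l + 21)).sum := by
  set T := lev c l with hT
  set f := top c l k a b with hf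
  have hkey : ∀ p : QP, C2_key (2 ^ T) (apos c l k a b p) = f p := fun p => rfl
  have hrel : ∀ p : QP, C2_rp (2 ^ T) (apos c l k a b p) = rel c l k a b p := fun p => rfl
  obtain ⟨hnd, hcov⟩ := C2_heads f l
  set W : LT → ℝ := fun u => per u.1 + 24 / 2 ^ c.e * 2 ^ u.2 + (30 * T + 21) with hW
  have hsum := C2_split ((heads f l).map f) hnd (fun u : LT => C2_key (2 ^ T) u.1.1) W ρ (by
    intro u hu
    have h1 : u.1.1 ∈ pl (ρ.map Prod.fst) := by
      unfold pl
      rw [List.mem_flatMap]
      exact ⟨u.1, List.mem_map_of_mem hu, by unfold pts; simp⟩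
    have h2 := hp.subset h1
    rw [List.mem_map] at h2
    obtain ⟨p, hpl, hpu⟩ := h2
    obtain ⟨q, hq, hqp⟩ := hcov p hpl
    rw [List.mem_map]
    refine ⟨q, hq, ?_⟩
    show f q = C2_key (2 ^ T) u.1.1
    rw [← hpu, hkey, hqp])
  rw [List.map_map] at hsum
  have hstep : ∀ q ∈ heads f l, ∃ s ∈ solve c.e c.M l.length T (group c l k a b q),
      (s.c : ℝ) ≤ ((ρ.filter fun u => decide (C2_key (2 ^ T) u.1.1 = f q)).map W).sum := by
    intro q _
    have hmain := dp_complete c.e c.M l.length T (group c l k a b q) (by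
        unfold group
        rw [List.length_map]
        exact List.length_filter_le _ _) (by rw [hT]; unfold lev; omega) (by
        intro x hx
        unfold group at hx
        rw [List.mem_map] at hx
        obtain ⟨p, -, rfl⟩ := hx
        exact ⟨Nat.mod_lt _ (by positivity), Nat.mod_lt _ (by positivity)⟩)
      ((ρ.filter fun u => decide (C2_key (2 ^ T) u.1.1 = f q)).map (C2_rt (2 ^ T))) (by
        rw [C2_pl (2 ^ T) (f q) ρ hin]
        have h1 := (hp.filter fun p => decide (C2_key (2 ^ T) p = f q)).map (C2_rp (2 ^ T))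
        refine h1.trans ?_
        rw [List.filter_map, List.map_map]
        unfold group
        rw [List.map_map]
        exact List.Perm.refl _) (by
        intro t ht X
        exact (C2_exc T t ht.le (f q) X ρ hin).trans (hM t ht _))
    obtain ⟨s, hs, -, hsc⟩ := hmain
    refine ⟨s, hs, hsc.trans (le_of_eq ?_)⟩
    rw [List.map_map]
    congr 1
    apply List.map_congr_left
    intro u hu
    have hu' : u ∈ ρ := List.mem_of_mem_filter hu
    rw [hW]
    show per (C2_rt (2 ^ T) u).1 + 24 / 2 ^ c.e * 2 ^ (C2_rt (2 ^ T) u).2 + (30 * (T : ℝ) + 21) = _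
    rw [C2_per _ u (hin u hu')]
    rfl
  obtain ⟨s, hs, hsc⟩ := C2_fold (fun q => solve c.e c.M l.length T (group c l k a b q))
    (fun q => ((ρ.filter fun u => decide (C2_key (2 ^ T) u.1.1 = f q)).map W).sum)
    (heads f l) hstep [⟨0, [], []⟩] ⟨0, [], []⟩ (by simp)
  refine ⟨s, hs, hsc.trans (le_of_eq ?_)⟩
  rw [← hsum]
  simp [Function.comp_def]

end Pool.Agent.M3
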