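import Pool.Agent.M3.Sound
import Pool.Agent.M3.Apos

/-!
# Euclidean minimum three-dimensional matching in the plane: soundness for one scale and shift
-/

namespace Pool.Agent.M3

open Pool.Agent.TM2Lib

/-! ### representatives -/

theorem C1_heads_aux (f : QP → ℕ × ℕ) (l : List QP) : ∀ s0 : List QP, (s0.map f).Nodup →
    ((l.foldl (fun s p => if s.any (fun q => decide (f q = f p)) then s else p :: s) s0).map
      f).Nodup ∧
    (∀ p ∈ s0, ∃ q ∈ l.foldl (fun s p => if s.any (fun q => decide (f q = f p)) then s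
      else p :: s) s0, f q = f p) ∧
    (∀ p ∈ l, ∃ q ∈ l.foldl (fun s p => if s.any (fun q => decide (f q = f p)) then s
      else p :: s) s0, f q = f p) := by
  induction l with
  | nil =>
    intro s0 h
    refine ⟨h, fun p hp => ⟨p, hp, rfl⟩, fun p hp => absurd hp List.not_mem_nil⟩
  | cons x l ih =>
    intro s0 h
    rw [List.foldl_cons]
    by_cases hx : s0.any (fun q => decide (f q = f x)) = true
    · rw [if_pos hx]
      obtain ⟨h1, h2, h3⟩ := ih s0 h
      refine ⟨h1, h2, fun p hp => ?_⟩
      rcases List.mem_cons.mp hp with rfl | hp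
      · obtain ⟨y, hy, hyx⟩ := List.any_eq_true.mp hx
        obtain ⟨q, hq, hqy⟩ := h2 y hy
        exact ⟨q, hq, hqy.trans (of_decide_eq_true hyx)⟩
      · exact h3 p hp
    · rw [if_neg hx]
      have hnd : ((x :: s0).map f).Nodup := by
        rw [List.map_cons, List.nodup_cons]
        refine ⟨fun hmem => hx ?_, h⟩
        obtain ⟨y, hy, hyx⟩ := List.mem_map.mp hmem
        exact List.any_eq_true.mpr ⟨y, hy, decide_eq_true hyx⟩
      obtain ⟨h1, h2, h3⟩ := ih (x :: s0) hnd
      refine ⟨h1, fun p hp => h2 p (List.mem_cons_of_mem _ hp), fun p hp => ?_⟩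
      rcases List.mem_cons.mp hp with rfl | hp
      · exact h2 p List.mem_cons_self
      · exact h3 p hp

theorem C1_heads_nodup (f : QP → ℕ × ℕ) (l : List QP) : ((heads f l).map f).Nodup :=
  (C1_heads_aux f l [] (by simp)).1

theorem C1_heads_cover (f : QP → ℕ × ℕ) (l : List QP) : ∀ p ∈ l, ∃ q ∈ heads f l, f q = f p :=
  (C1_heads_aux f l [] (by simp)).2.2

theorem C1_flatMap_filter (f : QP → ℕ × ℕ) (l : List QP) : ∀ h : List QP, (h.map f).Nodup →
    (h.flatMap fun q => l.filter fun p => decide (f p = f q)).Perm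
      (l.filter fun p => h.any fun q => decide (f p = f q)) := by
  intro h
  induction h with
  | nil => intro _; simp
  | cons x h ih =>
    intro hnd
    rw [List.map_cons, List.nodup_cons] at hnd
    rw [List.flatMap_cons]
    refine ((ih hnd.2).append_left _).trans (B1_filter_or _ _ _ ?_ ?_ l)
    · intro p; rw [List.any_cons]
    · intro p
      rintro ⟨h1, h2⟩
      obtain ⟨y, hy, hyx⟩ := List.any_eq_true.mp h2
      exact hnd.1 (List.mem_map.mpr ⟨y, hy,
        (of_decide_eq_true hyx).symm.trans (of_decide_eq_true h1)⟩)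

theorem C1_groups (f : QP → ℕ × ℕ) (l : List QP) :
    ((heads f l).flatMap fun q => l.filter fun p => decide (f p = f q)).Perm l := by
  refine (C1_flatMap_filter f l _ (C1_heads_nodup f l)).trans (List.Perm.of_eq ?_)
  refine List.filter_eq_self.mpr (fun p hp => ?_)
  obtain ⟨q, hq, hqp⟩ := C1_heads_cover f l p hp
  exact List.any_eq_true.mpr ⟨q, hq, decide_eq_true hqp.symm⟩

/-! ### positions -/

theorem C1_mod_sub {T a b : ℕ} (h : a / T = b / T) :
    ((a % T : ℕ) : ℝ) - ((b % T : ℕ) : ℝ) = (a : ℝ) - b := by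
  have h1 := Nat.div_add_mod a T
  have h2 := Nat.div_add_mod b T
  rw [h] at h1
  have h3 : ((T * (b / T) + a % T : ℕ) : ℝ) = a := by rw [h1]
  have h4 : ((T * (b / T) + b % T : ℕ) : ℝ) = b := by rw [h2]
  push_cast at h3 h4
  linarith

theorem C1_ed_rel (c : Cst) (l : List QP) (k a b : ℕ) {p q : QP}
    (h : top c l k a b p = top c l k a b q) :
    ed (rel c l k a b p) (rel c l k a b q) = ed (apos c l k a b p) (apos c l k a b q) := by
  unfold top at h
  rw [Prod.mk.injEq] at h
  unfold ed rel apos
  simp only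
  rw [C1_mod_sub h.1, C1_mod_sub h.2]

/-! ### the invariant -/

/-- the invariant for one scale and shift -/
def C1_Good (c : Cst) (l : List QP) (k a b : ℕ) (L : List QP) (s : Ent QP) : Prop :=
  s.tk = [] ∧ (s.sol.flatMap fun u => [u.1, u.2.1, u.2.2]).Perm L ∧
    (s.sol.map fun u => per (apos c l k a b u.1, (apos c l k a b u.2.1,
        apos c l k a b u.2.2)) + 6).sum ≤ s.c

theorem C1_solve (c : Cst) (l : List QP) (k a b : ℕ) (q : QP) :
    ∀ s ∈ solve c.e c.M l.length (lev c l) (group c l k a b q),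
      C1_Good c l k a b (l.filter fun p => decide (top c l k a b p = top c l k a b q)) s := by
  intro s hs
  unfold solve at hs
  obtain ⟨hs1, hs2⟩ := List.mem_filter.mp (B1_mem_best1 hs)
  have htk : s.tk = [] := List.isEmpty_iff.mp hs2
  unfold group at hs1
  set L := l.filter fun p => decide (top c l k a b p = top c l k a b q) with hL
  obtain ⟨h1, h2⟩ := dp_sound c.e c.M l.length (2 ^ lev c l) L (rel c l k a b) (lev c l) ⟨0, 0⟩
    s hs1
  rw [htk, List.map_nil, List.nil_append] at h1
  rw [htk, List.map_nil, List.sum_nil, add_zero] at h2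
  have h3 : (L.filter fun p => decide (cell (2 ^ lev c l) (rel c l k a b p) = ⟨0, 0⟩)) = L := by
    refine List.filter_eq_self.mpr (fun p _ => decide_eq_true ?_)
    unfold cell rel
    simp only [Pos.mk.injEq]
    have hpos : 0 < 2 ^ lev c l := by positivity
    exact ⟨Nat.div_eq_of_lt (Nat.mod_lt _ hpos), Nat.div_eq_of_lt (Nat.mod_lt _ hpos)⟩
  rw [h3] at h1
  refine ⟨htk, h1, le_trans (le_of_eq ?_) h2⟩
  congr 1
  refine List.map_congr_left (fun u hu => ?_)
  have hmem : ∀ p ∈ [u.1, u.2.1, u.2.2], top c l k a b p = top c l k a b q := by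
    intro p hp
    have : p ∈ L := h1.mem_iff.mp (List.mem_flatMap.mpr ⟨u, hu, hp⟩)
    exact of_decide_eq_true (List.mem_filter.mp this).2
  have t1 := hmem u.1 (by simp)
  have t2 := hmem u.2.1 (by simp)
  have t3 := hmem u.2.2 (by simp)
  unfold per
  simp only
  rw [C1_ed_rel c l k a b (t1.trans t2.symm), C1_ed_rel c l k a b (t2.trans t3.symm),
    C1_ed_rel c l k a b (t3.trans t1.symm)]

theorem C1_merge (c : Cst) (l : List QP) (k a b : ℕ) {L L' : List QP} {s s' : Ent QP}
    (h : C1_Good c l k a b L s) (h' : C1_Good c l k a b L' s') :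
    C1_Good c l k a b (L ++ L') (merge (s, s')) := by
  obtain ⟨h1, h2, h3⟩ := h
  obtain ⟨h1', h2', h3'⟩ := h'
  refine ⟨?_, ?_, ?_⟩
  · unfold merge; simp only [h1, h1', List.append_nil]
  · unfold merge
    simp only [List.flatMap_append]
    exact h2.append h2'
  · unfold merge
    simp only [List.map_append, List.sum_append]
    push_cast
    linarith

theorem C1_fold (c : Cst) (l : List QP) (k a b : ℕ) (hs : List QP) :
    ∀ (S : List (Ent QP)) (L : List QP), (∀ s ∈ S, C1_Good c l k a b L s) →
      ∀ s ∈ hs.foldl (fun S q =>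
        (prod S (solve c.e c.M l.length (lev c l) (group c l k a b q))).map merge) S,
        C1_Good c l k a b (L ++ hs.flatMap fun q =>
          l.filter fun p => decide (top c l k a b p = top c l k a b q)) s := by
  induction hs with
  | nil =>
    intro S L h s hs
    rw [List.flatMap_nil, List.append_nil]
    exact h s hs
  | cons q hs ih =>
    intro S L h s hsm
    rw [List.foldl_cons] at hsm
    rw [List.flatMap_cons, ← List.append_assoc]
    refine ih _ _ ?_ s hsm
    intro x hx
    obtain ⟨y, hy, rfl⟩ := List.mem_map.mp hx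
    obtain ⟨h1, h2⟩ := B1_mem_prod hy
    exact C1_merge c l k a b (h y.1 h1) (C1_solve c l k a b q y.2 h2)

theorem shiftSol_sound (c : Cst) (l : List QP) (k a b : ℕ) :
    ∀ s ∈ shiftSol c l k a b, s.tk = [] ∧
      (s.sol.flatMap fun u => [u.1, u.2.1, u.2.2]).Perm l ∧
      (s.sol.map fun u => per (apos c l k a b u.1, (apos c l k a b u.2.1,
        apos c l k a b u.2.2)) + 6).sum ≤ s.c := by
  intro s hs
  unfold shiftSol at hs
  obtain ⟨h1, h2, h3⟩ := C1_fold c l k a b (heads (top c l k a b) l) [⟨0, [], []⟩] [] (by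
    intro x hx
    rw [List.mem_singleton] at hx
    subst hx
    exact ⟨rfl, by simp, by simp⟩) s hs
  rw [List.nil_append] at h2
  exact ⟨h1, h2.trans (C1_groups _ l), h3⟩

end Pool.Agent.M3
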