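import Pool.Agent.M3.Struct
import Pool.Agent.M3.ShiftSound
import Pool.Agent.M3.ShiftCompl
import Pool.Agent.M3.Scaling

/-!
# Euclidean minimum three-dimensional matching in the plane: correctness of the algorithm
-/

namespace Pool.Agent.M3

open Pool.Agent.TM2Lib

/-- the three points -/
def ptsQ (t : QP × (QP × QP)) : List QP := [t.1, t.2.1, t.2.2]

/-! ## least candidates -/

theorem C4_argmin_aux {β : Type} (l : List (ℕ × β)) : ∀ b : ℕ × β, ∃ z,
    l.foldl (fun s a => if s.any (fun b => decide (b.1 ≤ a.1)) then s else [a]) [b] = [z] ∧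
      z ∈ b :: l ∧ ∀ w ∈ b :: l, z.1 ≤ w.1 := by
  induction l with
  | nil => intro b; exact ⟨b, rfl, by simp, by simp⟩
  | cons a l ih =>
    intro b
    by_cases h : b.1 ≤ a.1
    · obtain ⟨z, h1, h2, h3⟩ := ih b
      refine ⟨z, ?_, ?_, ?_⟩
      · rw [List.foldl_cons]
        have : (if ([b] : List (ℕ × β)).any (fun b => decide (b.1 ≤ a.1)) then [b] else [a]) = [b] := by
          simp [h]
        rw [this]
        exact h1
      · rcases List.mem_cons.1 h2 with h2 | h2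
        · simp [h2]
        · simp [h2]
      · intro w hw
        rcases List.mem_cons.1 hw with hw | hw
        · exact h3 w (by simp [hw])
        · rcases List.mem_cons.1 hw with hw | hw
          · subst hw
            exact le_trans (h3 b (by simp)) h
          · exact h3 w (by simp [hw])
    · obtain ⟨z, h1, h2, h3⟩ := ih a
      refine ⟨z, ?_, ?_, ?_⟩
      · rw [List.foldl_cons]
        have : (if ([b] : List (ℕ × β)).any (fun b => decide (b.1 ≤ a.1)) then [b] else [a]) = [a] := by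
          simp [h]
        rw [this]
        exact h1
      · exact List.mem_cons_of_mem _ h2
      · intro w hw
        rcases List.mem_cons.1 hw with hw | hw
        · subst hw
          exact le_trans (h3 a (by simp)) (le_of_lt (not_le.1 h))
        · exact h3 w hw

theorem C4_argmin {β : Type} (l : List (ℕ × β)) (hl : l ≠ []) : ∃ z ∈ l,
    argmin l = [z] ∧ ∀ w ∈ l, z.1 ≤ w.1 := by
  cases l with
  | nil => exact absurd rfl hl
  | cons a l =>
    obtain ⟨z, h1, h2, h3⟩ := C4_argmin_aux l a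
    refine ⟨z, h2, ?_, h3⟩
    unfold argmin
    rw [List.foldl_cons]
    simpa using h1

/-! ## geometry of the rounding -/

theorem C4_sqrt (a b c d r : ℝ) (hr : 0 ≤ r) (h : (a - c) ^ 2 + (b - d) ^ 2 ≤ r ^ 2) :
    √(a ^ 2 + b ^ 2) ≤ √(c ^ 2 + d ^ 2) + r := by
  rw [← Complex.norm_add_mul_I a b, ← Complex.norm_add_mul_I c d]
  have e : (a : ℂ) + b * Complex.I = ((c : ℂ) + d * Complex.I) +
      (((a - c : ℝ) : ℂ) + ((b - d : ℝ) : ℂ) * Complex.I) := by
    push_cast
    ring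
  rw [e]
  refine le_trans (norm_add_le _ _) ?_
  rw [Complex.norm_add_mul_I (a - c) (b - d)]
  have : √((a - c) ^ 2 + (b - d) ^ 2) ≤ r := Real.sqrt_le_iff.2 ⟨hr, h⟩
  linarith

/-- rounding -/
def rnd (K : ℕ) (p : Pos) : Pos := ⟨p.x / K, p.y / K⟩

/-- scaling -/
def scl (N : ℕ) (p : Pos) : Pos := ⟨p.x * N, p.y * N⟩

theorem C4_div (K a : ℕ) (hK : 0 < K) : (K : ℝ) * ((a / K : ℕ) : ℝ) ≤ a ∧
    (a : ℝ) < K * ((a / K : ℕ) : ℝ) + K := by
  have h1 : K * (a / K) ≤ a := Nat.mul_div_le a K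
  have h2 : a < K * (a / K) + K := by
    have := Nat.lt_mul_div_succ a hK
    linarith [this]
  exact ⟨by exact_mod_cast h1, by exact_mod_cast h2⟩

theorem C4_ed_round (K : ℕ) (hK : 0 < K) (A B : Pos) :
    K * ed (rnd K A) (rnd K B) ≤ ed A B + 3 / 2 * K ∧
      ed A B ≤ K * ed (rnd K A) (rnd K B) + 3 / 2 * K := by
  have hK' : (0 : ℝ) < K := by exact_mod_cast hK
  have e : (K : ℝ) * ed (rnd K A) (rnd K B) =
      √(((K : ℝ) * (((A.x / K : ℕ) : ℝ) - ((B.x / K : ℕ) : ℝ))) ^ 2 +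
        ((K : ℝ) * (((A.y / K : ℕ) : ℝ) - ((B.y / K : ℕ) : ℝ))) ^ 2) := by
    unfold ed rnd
    rw [mul_pow, mul_pow, ← mul_add, Real.sqrt_mul (by positivity), Real.sqrt_sq hK'.le]
  obtain ⟨a1, a2⟩ := C4_div K A.x hK
  obtain ⟨a3, a4⟩ := C4_div K A.y hK
  obtain ⟨b1, b2⟩ := C4_div K B.x hK
  obtain ⟨b3, b4⟩ := C4_div K B.y hK
  have hx : ((K : ℝ) * (((A.x / K : ℕ) : ℝ) - ((B.x / K : ℕ) : ℝ)) - ((A.x : ℝ) - B.x)) ^ 2 ≤
      (K : ℝ) ^ 2 := by
    rw [sq_le_sq, abs_of_pos hK', abs_le]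
    constructor <;> nlinarith
  have hy : ((K : ℝ) * (((A.y / K : ℕ) : ℝ) - ((B.y / K : ℕ) : ℝ)) - ((A.y : ℝ) - B.y)) ^ 2 ≤
      (K : ℝ) ^ 2 := by
    rw [sq_le_sq, abs_of_pos hK', abs_le]
    constructor <;> nlinarith
  rw [e]
  constructor
  · apply C4_sqrt
    · positivity
    · nlinarith
  · apply C4_sqrt
    · positivity
    · nlinarith

/-- a map applied to the three points -/
def tmap {α β : Type} (f : α → β) (t : α × (α × α)) : β × (β × β) := (f t.1, (f t.2.1, f t.2.2))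

theorem C4_per_round (K : ℕ) (hK : 0 < K) (t : Tri) :
    K * per (tmap (rnd K) t) ≤ per t + 5 * K ∧ per t ≤ K * per (tmap (rnd K) t) + 5 * K := by
  have hK' : (0 : ℝ) < K := by exact_mod_cast hK
  obtain ⟨a1, a2⟩ := C4_ed_round K hK t.1 t.2.1
  obtain ⟨b1, b2⟩ := C4_ed_round K hK t.2.1 t.2.2
  obtain ⟨c1, c2⟩ := C4_ed_round K hK t.2.2 t.1
  unfold per tmap
  simp only
  constructor <;> nlinarith

theorem C4_ed_scl (N : ℕ) (A B : Pos) : ed (scl N A) (scl N B) = N * ed A B := by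
  unfold ed scl
  have hN : (0 : ℝ) ≤ N := Nat.cast_nonneg N
  simp only
  push_cast
  rw [← sub_mul, ← sub_mul, mul_pow, mul_pow, ← add_mul, Real.sqrt_mul' _ (by positivity),
    Real.sqrt_sq hN, mul_comm]

theorem C4_per_scl (N : ℕ) (t : Tri) : per (tmap (scl N) t) = N * per t := by
  unfold per tmap
  simp only [C4_ed_scl]
  ring

theorem C4_per_sh (a b : ℕ) (t : Tri) : per (tmap (sh a b) t) = per t := by
  have h : ∀ A B : Pos, ed (sh a b A) (sh a b B) = ed A B := by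
    intro A B
    unfold ed sh
    simp only
    push_cast
    congr 1
    ring
  unfold per tmap
  simp only [h]

theorem C4_abs_ed (A B : Pos) : |(A.x : ℝ) - B.x| ≤ ed A B ∧ |(A.y : ℝ) - B.y| ≤ ed A B ∧
    ed A B ≤ |(A.x : ℝ) - B.x| + |(A.y : ℝ) - B.y| := by
  unfold ed
  refine ⟨?_, ?_, ?_⟩
  · apply Real.le_sqrt_of_sq_le
    rw [sq_abs]
    nlinarith [sq_nonneg ((A.y : ℝ) - B.y)]
  · apply Real.le_sqrt_of_sq_le
    rw [sq_abs]
    nlinarith [sq_nonneg ((A.x : ℝ) - B.x)]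
  · rw [Real.sqrt_le_iff]
    refine ⟨by positivity, ?_⟩
    nlinarith [sq_abs ((A.x : ℝ) - B.x), sq_abs ((A.y : ℝ) - B.y),
      abs_nonneg ((A.x : ℝ) - B.x), abs_nonneg ((A.y : ℝ) - B.y)]

theorem C4_three (a b c : ℕ) : |(a : ℝ) - b| + |(b : ℝ) - c| + |(c : ℝ) - a| =
    2 * ((max a (max b c) - min a (min b c) : ℕ) : ℝ) := by
  have key : ∀ x y z : ℕ, x ≤ y → y ≤ z → |(x : ℝ) - y| + |(y : ℝ) - z| + |(z : ℝ) - x| =
      2 * ((z - x : ℕ) : ℝ) := by
    intro x y z h1 h2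
    have h1' : (x : ℝ) ≤ y := by exact_mod_cast h1
    have h2' : (y : ℝ) ≤ z := by exact_mod_cast h2
    rw [abs_of_nonpos (by linarith), abs_of_nonpos (by linarith), abs_of_nonneg (by linarith),
      Nat.cast_sub (by omega)]
    ring
  have hmm : ∀ x y z : ℕ, x ≤ y → y ≤ z → (max a (max b c) = z ∧ min a (min b c) = x) →
      (|(a : ℝ) - b| + |(b : ℝ) - c| + |(c : ℝ) - a| = |(x : ℝ) - y| + |(y : ℝ) - z| + |(z : ℝ) - x|) →
      |(a : ℝ) - b| + |(b : ℝ) - c| + |(c : ℝ) - a| =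
        2 * ((max a (max b c) - min a (min b c) : ℕ) : ℝ) := by
    intro x y z h1 h2 h3 h4
    rw [h3.1, h3.2, h4, key x y z h1 h2]
  rcases le_total a b with h1 | h1 <;> rcases le_total b c with h2 | h2 <;>
    rcases le_total a c with h3 | h3
  · exact hmm a b c h1 h2 (by omega) rfl
  · exact hmm a b c h1 h2 (by omega) rfl
  · exact hmm a c b h3 h2 (by omega) (by
      rw [abs_sub_comm (a : ℝ) b, abs_sub_comm (b : ℝ) c, abs_sub_comm (c : ℝ) a]; ring)
  · exact hmm c a b h3 h1 (by omega) (by ring)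
  · exact hmm b a c h1 h3 (by omega) (by
      rw [abs_sub_comm (a : ℝ) b, abs_sub_comm (b : ℝ) c, abs_sub_comm (c : ℝ) a]; ring)
  · exact hmm b c a h2 h3 (by omega) (by ring)
  · exact hmm c b a h2 h1 (by omega) (by
      rw [abs_sub_comm (a : ℝ) b, abs_sub_comm (b : ℝ) c, abs_sub_comm (c : ℝ) a]; ring)
  · exact hmm c b a h2 h1 (by omega) (by
      rw [abs_sub_comm (a : ℝ) b, abs_sub_comm (b : ℝ) c, abs_sub_comm (c : ℝ) a]; ring)

theorem C4_per_ge (t : Tri) : 2 * (ss t : ℝ) ≤ per t := by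
  obtain ⟨a1, a2, _⟩ := C4_abs_ed t.1 t.2.1
  obtain ⟨b1, b2, _⟩ := C4_abs_ed t.2.1 t.2.2
  obtain ⟨c1, c2, _⟩ := C4_abs_ed t.2.2 t.1
  have hx : 2 * (ex t : ℝ) ≤ per t := by
    have := C4_three t.1.x t.2.1.x t.2.2.x
    unfold ex hx lx per
    linarith
  have hy : 2 * (ey t : ℝ) ≤ per t := by
    have := C4_three t.1.y t.2.1.y t.2.2.y
    unfold ey hy ly per
    linarith
  unfold ss
  rcases le_total (ex t) (ey t) with h | h
  · rw [max_eq_right h]; exact hy
  · rw [max_eq_left h]; exact hx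

theorem C4_per_le (t : Tri) : per t ≤ 4 * (ss t : ℝ) := by
  obtain ⟨_, _, a1⟩ := C4_abs_ed t.1 t.2.1
  obtain ⟨_, _, b1⟩ := C4_abs_ed t.2.1 t.2.2
  obtain ⟨_, _, c1⟩ := C4_abs_ed t.2.2 t.1
  have hx := C4_three t.1.x t.2.1.x t.2.2.x
  have hy := C4_three t.1.y t.2.1.y t.2.2.y
  have h1 : (ex t : ℝ) ≤ ss t := by
    unfold ss; exact_mod_cast le_max_left _ _
  have h2 : (ey t : ℝ) ≤ ss t := by
    unfold ss; exact_mod_cast le_max_right _ _
  have hx' : |(t.1.x : ℝ) - t.2.1.x| + |(t.2.1.x : ℝ) - t.2.2.x| + |(t.2.2.x : ℝ) - t.1.x| =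
      2 * (ex t : ℝ) := hx
  have hy' : |(t.1.y : ℝ) - t.2.1.y| + |(t.2.1.y : ℝ) - t.2.2.y| + |(t.2.2.y : ℝ) - t.1.y| =
      2 * (ey t : ℝ) := hy
  unfold per
  linarith

/-! ## soundness -/

theorem C4_perQ (l : List QP) (hl : l.Nodup) (u : QP × (QP × QP)) (hu : ∀ p ∈ ptsQ u, p ∈ l) :
    per (tmap (ipos l) u) = dnm l * perQ u := by
  obtain ⟨_, _, h, _⟩ := scaling l hl
  have h1 : u.1 ∈ l := hu _ (by simp [ptsQ])
  have h2 : u.2.1 ∈ l := hu _ (by simp [ptsQ])
  have h3 : u.2.2 ∈ l := hu _ (by simp [ptsQ])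
  unfold per tmap perQ
  simp only
  rw [h _ h1 _ h2, h _ h2 _ h3, h _ h3 _ h1]
  ring

theorem C4_mem {L : List (QP × (QP × QP))} {l : List QP} (h : (L.flatMap ptsQ).Perm l)
    {u : QP × (QP × QP)} (hu : u ∈ L) : ∀ p ∈ ptsQ u, p ∈ l := by
  intro p hp
  exact h.subset (List.mem_flatMap.2 ⟨u, hu, hp⟩)

/-- scaled position -/
def C4_X (c : Cst) (l : List QP) (u : QP × (QP × QP)) : Tri :=
  tmap (scl (2 ^ nu c l)) (tmap (ipos l) u)

theorem C4_X_per (c : Cst) (l : List QP) (hl : l.Nodup) (u : QP × (QP × QP))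
    (hu : ∀ p ∈ ptsQ u, p ∈ l) : per (C4_X c l u) = 2 ^ nu c l * dnm l * perQ u := by
  unfold C4_X
  rw [C4_per_scl, C4_perQ l hl u hu]
  push_cast
  ring

theorem C4_sum_le {α : Type} (L : List α) (f g : α → ℝ) (h : ∀ x ∈ L, f x ≤ g x) :
    (L.map f).sum ≤ (L.map g).sum := List.sum_le_sum h

theorem C4_sum_mul {α : Type} (L : List α) (f : α → ℝ) (c : ℝ) :
    (L.map fun x => c * f x).sum = c * (L.map f).sum := by
  induction L with
  | nil => simp
  | cons a L ih => simp only [List.map_cons, List.sum_cons, ih]; ring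

theorem C4_sum_add {α : Type} (L : List α) (f : α → ℝ) (c : ℝ) :
    (L.map fun x => f x + c).sum = (L.map f).sum + L.length * c := by
  induction L with
  | nil => simp
  | cons a L ih =>
    simp only [List.map_cons, List.sum_cons, ih, List.length_cons]
    push_cast
    ring

theorem C4_sound (c : Cst) (l : List QP) (hl : l.Nodup) (z : ℕ × List (QP × (QP × QP)))
    (hz : z ∈ cands c l) : (z.2.flatMap ptsQ).Perm l ∧
      2 ^ nu c l * dnm l * (z.2.map perQ).sum ≤ z.1 := by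
  unfold cands at hz
  simp only [List.mem_flatMap, List.mem_map, List.mem_range] at hz
  obtain ⟨k, _, a, _, b, _, s, hs, rfl⟩ := hz
  obtain ⟨_, h1, h2⟩ := shiftSol_sound c l k a b s hs
  have h1' : (s.sol.flatMap ptsQ).Perm l := h1
  refine ⟨h1', ?_⟩
  have hK : 0 < 2 ^ k := by positivity
  have key : (s.sol.map fun u => 2 ^ nu c l * dnm l * perQ u).sum ≤
      (s.sol.map fun u => (2 : ℝ) ^ k * (per (apos c l k a b u.1, (apos c l k a b u.2.1,
        apos c l k a b u.2.2)) + 6)).sum := by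
    apply C4_sum_le
    intro u hu
    rw [← C4_X_per c l hl u (C4_mem h1' hu)]
    have e : ((apos c l k a b u.1, (apos c l k a b u.2.1, apos c l k a b u.2.2)) : Tri) =
        tmap (sh a b) (tmap (rnd (2 ^ k)) (C4_X c l u)) := rfl
    rw [e, C4_per_sh]
    have := (C4_per_round (2 ^ k) hK (C4_X c l u)).2
    push_cast at this
    have hK' : (0 : ℝ) < 2 ^ k := by positivity
    nlinarith
  rw [C4_sum_mul, C4_sum_mul] at key
  refine le_trans key ?_
  push_cast
  exact mul_le_mul_of_nonneg_left h2 (by positivity)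

/-! ## completeness -/

theorem C4_len_pl (L : List Tri) : (pl L).length = 3 * L.length := by
  induction L with
  | nil => simp [pl]
  | cons a L ih =>
    unfold pl at ih ⊢
    rw [List.flatMap_cons, List.length_append, ih]
    simp [pts]
    ring

theorem C4_len_Q (L : List (QP × (QP × QP))) : (L.flatMap ptsQ).length = 3 * L.length := by
  induction L with
  | nil => simp
  | cons a L ih =>
    rw [List.flatMap_cons, List.length_append, ih]
    simp [ptsQ]
    ring

theorem C4_pl_map (f : QP → Pos) (L : List (QP × (QP × QP))) :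
    pl (L.map (tmap f)) = (L.flatMap ptsQ).map f := by
  induction L with
  | nil => simp [pl]
  | cons a L ih =>
    unfold pl at ih ⊢
    rw [List.map_cons, List.flatMap_cons, List.flatMap_cons, List.map_append, ih]
    simp [pts, ptsQ, tmap]

theorem C4_ss_pos (l : List QP) (hl : l.Nodup) (π : List (QP × (QP × QP)))
    (hπ : (π.flatMap ptsQ).Perm l) (u : QP × (QP × QP)) (hu : u ∈ π) :
    1 ≤ ss (tmap (ipos l) u) := by
  obtain ⟨_, _, _, hinj⟩ := scaling l hl
  have hm := C4_mem hπ hu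
  have h1 : u.1 ∈ l := hm _ (by simp [ptsQ])
  have h2 : u.2.1 ∈ l := hm _ (by simp [ptsQ])
  by_contra hcon
  have h0 : ss (tmap (ipos l) u) = 0 := by omega
  have hex : ex (tmap (ipos l) u) = 0 := by
    have : ex (tmap (ipos l) u) ≤ ss (tmap (ipos l) u) := le_max_left _ _
    omega
  have hey : ey (tmap (ipos l) u) = 0 := by
    have : ey (tmap (ipos l) u) ≤ ss (tmap (ipos l) u) := le_max_right _ _
    omega
  have hx : (ipos l u.1).x = (ipos l u.2.1).x := by
    have h : max (ipos l u.1).x (max (ipos l u.2.1).x (ipos l u.2.2).x) -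
      min (ipos l u.1).x (min (ipos l u.2.1).x (ipos l u.2.2).x) = 0 := hex
    omega
  have hy : (ipos l u.1).y = (ipos l u.2.1).y := by
    have h : max (ipos l u.1).y (max (ipos l u.2.1).y (ipos l u.2.2).y) -
      min (ipos l u.1).y (min (ipos l u.2.1).y (ipos l u.2.2).y) = 0 := hey
    omega
  have heq : u.1 = u.2.1 := by
    apply hinj _ h1 _ h2
    show (⟨_, _⟩ : Pos) = ⟨_, _⟩
    rw [Pos.mk.injEq]
    exact ⟨hx, hy⟩
  have hnd : (π.flatMap ptsQ).Nodup := hπ.nodup_iff.2 hl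
  have hnd' : (ptsQ u).Nodup := (List.nodup_flatMap.1 hnd).1 u hu
  simp [ptsQ, heq] at hnd'

theorem C4_ss_le (l : List QP) (hl : l.Nodup) (u : QP × (QP × QP)) (hu : ∀ p ∈ ptsQ u, p ∈ l) :
    ss (tmap (ipos l) u) ≤ 2 * off l := by
  obtain ⟨_, hb, _, _⟩ := scaling l hl
  have h1 := hb _ (hu u.1 (by simp [ptsQ]))
  have h2 := hb _ (hu u.2.1 (by simp [ptsQ]))
  have h3 := hb _ (hu u.2.2 (by simp [ptsQ]))
  show max (max (cx l u.1) (max (cx l u.2.1) (cx l u.2.2)) -
      min (cx l u.1) (min (cx l u.2.1) (cx l u.2.2)))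
    (max (cy l u.1) (max (cy l u.2.1) (cy l u.2.2)) -
      min (cy l u.1) (min (cy l u.2.1) (cy l u.2.2))) ≤ 2 * off l
  omega

theorem C4_real (K N Pr S δ α β κ q T s : ℝ) (hK0 : 0 < K) (hPr0 : 0 ≤ Pr) (hS0 : 0 ≤ S)
    (hδ0 : 0 < δ) (hδ1 : δ ≤ 1) (hα0 : 0 ≤ α) (hα : α ≤ δ) (_hβ0 : 0 ≤ β) (hβ : β ≤ δ)
    (hκ1 : κ ≤ 1) (hq0 : 0 ≤ q) (hKS : K * S ≤ Pr + q * (5 * K))
    (hs : s ≤ (1 + α) * ((1 + β) * S + κ * q) + q * (30 * T + 21))
    (hadd : q * (30 * T + 43) ≤ 2 * δ * N) (hPrge : 2 * N * K ≤ Pr) :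
    K * s ≤ (1 + 4 * δ) * Pr := by
  have hadd2 : K * (q * (30 * T + 43)) ≤ δ * Pr := by
    calc K * (q * (30 * T + 43)) ≤ K * (2 * δ * N) :=
          mul_le_mul_of_nonneg_left hadd hK0.le
      _ = δ * (2 * N * K) := by ring
      _ ≤ δ * Pr := mul_le_mul_of_nonneg_left hPrge hδ0.le
  have h1 : K * ((1 + α) * ((1 + β) * S + κ * q)) ≤
      (1 + δ) * ((1 + δ) * (Pr + q * (5 * K)) + K * q) := by
    have h11 : K * ((1 + β) * S + κ * q) ≤ (1 + δ) * (Pr + q * (5 * K)) + K * q := by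
      have h12 : (1 + β) * (K * S) ≤ (1 + δ) * (Pr + q * (5 * K)) :=
        mul_le_mul (by linarith) hKS (by positivity) (by linarith)
      have h13 : κ * (q * K) ≤ 1 * (q * K) := mul_le_mul_of_nonneg_right hκ1 (by positivity)
      linarith
    have h14 : 0 ≤ (1 + δ) * (Pr + q * (5 * K)) + K * q := by positivity
    calc K * ((1 + α) * ((1 + β) * S + κ * q)) =
          (1 + α) * (K * ((1 + β) * S + κ * q)) := by ring
      _ ≤ (1 + α) * ((1 + δ) * (Pr + q * (5 * K)) + K * q) :=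
          mul_le_mul_of_nonneg_left h11 (by linarith)
      _ ≤ (1 + δ) * ((1 + δ) * (Pr + q * (5 * K)) + K * q) :=
          mul_le_mul_of_nonneg_right (by linarith) h14
  have h2 : K * s ≤ (1 + δ) * ((1 + δ) * (Pr + q * (5 * K)) + K * q) +
      K * (q * (30 * T + 21)) := by
    have h22 := mul_le_mul_of_nonneg_left hs hK0.le
    linarith
  have h3 : (1 + δ) * ((1 + δ) * (Pr + q * (5 * K)) + K * q) ≤
      (1 + 3 * δ) * Pr + 22 * (q * K) := by
    have hqK : 0 ≤ q * K := by positivity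
    have hδ2 : δ ^ 2 ≤ δ := by nlinarith
    have e : (1 + δ) * ((1 + δ) * (Pr + q * (5 * K)) + K * q) =
        (1 + 2 * δ + δ ^ 2) * Pr + (5 * (1 + 2 * δ + δ ^ 2) + (1 + δ)) * (q * K) := by ring
    rw [e]
    have e1 : (1 + 2 * δ + δ ^ 2) * Pr ≤ (1 + 3 * δ) * Pr :=
      mul_le_mul_of_nonneg_right (by linarith) hPr0
    have e2 : (5 * (1 + 2 * δ + δ ^ 2) + (1 + δ)) * (q * K) ≤ 22 * (q * K) :=
      mul_le_mul_of_nonneg_right (by linarith) hqK
    linarith
  have h4 : K * s ≤ (1 + 3 * δ) * Pr + K * (q * (30 * T + 43)) := by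
    have : K * (q * (30 * T + 43)) = 22 * (q * K) + K * (q * (30 * T + 21)) := by ring
    linarith
  linarith

theorem C4_compl (c : Cst) (m : ℕ) (δ : ℝ) (hδ0 : 0 < δ) (hδ1 : δ ≤ 1) (hm : 54 ≤ m)
    (hmδ : 68 / (m : ℝ) ≤ δ) (hκ : 2 * (24 / 2 ^ c.e) * (m : ℝ) ≤ δ) (hM : c.M = 24 * m)
    (hc : (30 * c.c + 343 : ℝ) ≤ 2 * δ * 2 ^ c.c) (l : List QP) (hl : l.Nodup) (hne : l ≠ [])
    (π : List (QP × (QP × QP))) (hπ : (π.flatMap ptsQ).Perm l) :
    ∃ z ∈ cands c l, (z.1 : ℝ) ≤ (1 + 4 * δ) * (2 ^ nu c l * dnm l * (π.map perQ).sum) := by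
  have hπne : π ≠ [] := by
    rintro rfl
    simp at hπ
    exact hne hπ
  obtain ⟨τ, hτ, hmax⟩ := Set.exists_max_image {u | u ∈ π} (fun u => ss (tmap (ipos l) u))
    (List.finite_toSet π) (by
      obtain ⟨a, ha⟩ := List.exists_mem_of_ne_nil π hπne
      exact ⟨a, ha⟩)
  have hτ' : τ ∈ π := hτ
  set L0 := ss (tmap (ipos l) τ) with hL0
  have hL1 : 1 ≤ L0 := C4_ss_pos l hl π hπ τ hτ'
  set k := Nat.log 2 L0 with hk
  have hk1 : 2 ^ k ≤ L0 := Nat.pow_log_le_self 2 (by omega)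
  have hk2 : L0 < 2 ^ (k + 1) := Nat.lt_pow_succ_log_self (by norm_num) L0
  set N : ℝ := 2 ^ nu c l with hN
  have hN1 : (1 : ℝ) ≤ N := one_le_pow₀ (by norm_num)
  set K : ℝ := 2 ^ k with hK
  have hK0 : (0 : ℝ) < K := by positivity
  have hk1' : K ≤ L0 := by
    rw [hK]
    exact_mod_cast hk1
  have hk2' : (L0 : ℝ) < 2 * K := by
    have : (L0 : ℝ) < 2 ^ (k + 1) := by exact_mod_cast hk2
    rw [pow_succ] at this
    linarith
  -- the rounded triples
  set Q : List Tri := π.map (tmap fun p => rnd (2 ^ k) (scl (2 ^ nu c l) (ipos l p))) with hQ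
  have hQe : ∀ u, tmap (fun p => rnd (2 ^ k) (scl (2 ^ nu c l) (ipos l p))) u =
      tmap (rnd (2 ^ k)) (C4_X c l u) := fun u => rfl
  have hQl : Q.length = π.length := by simp [hQ]
  have hperX : ∀ u ∈ π, per (C4_X c l u) = N * dnm l * perQ u := fun u hu =>
    C4_X_per c l hl u (C4_mem hπ hu)
  have hX8 : ∀ u ∈ π, per (C4_X c l u) ≤ 8 * N * K := by
    intro u hu
    have h1 : per (C4_X c l u) = N * per (tmap (ipos l) u) := by
      unfold C4_X
      rw [C4_per_scl]
      push_cast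
      rfl
    have h2 := C4_per_le (tmap (ipos l) u)
    have h3 : (ss (tmap (ipos l) u) : ℝ) ≤ L0 := by exact_mod_cast hmax u hu
    have h4 : per (tmap (ipos l) u) ≤ 8 * K := by linarith
    rw [h1]
    nlinarith
  have hQ13 : ∀ t ∈ Q, per t ≤ 13 * N := by
    intro t ht
    rw [hQ, List.mem_map] at ht
    obtain ⟨u, hu, rfl⟩ := ht
    rw [hQe]
    have h1 := (C4_per_round (2 ^ k) (by positivity) (C4_X c l u)).1
    push_cast at h1
    have h2 := hX8 u hu
    have h3 : K * per (tmap (rnd (2 ^ k)) (C4_X c l u)) ≤ K * (13 * N) := by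
      have : K * per (tmap (rnd (2 ^ k)) (C4_X c l u)) ≤ 8 * N * K + 5 * K := by
        linarith
      nlinarith
    exact le_of_mul_le_mul_left h3 hK0
  have hsumQ : (Q.map per).sum ≤ Q.length * (13 * N) := by
    have h := C4_sum_le Q per (fun _ => 13 * N) hQ13
    have h2 : (Q.map fun _ : Tri => 13 * N).sum = Q.length * (13 * N) := by
      rw [List.map_const', List.sum_replicate, nsmul_eq_mul]
    linarith
  -- numbers
  set q : ℕ := π.length with hq
  have hn3 : l.length = 3 * q := by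
    rw [← hπ.length_eq, C4_len_Q]
  set E : ℝ := 2 ^ len l with hE
  have hE1 : (1 : ℝ) ≤ E := one_le_pow₀ (by norm_num)
  have hqE : (q : ℝ) ≤ E := by
    have h1 : l.length < 2 ^ len l := Nat.lt_size_self _
    have h2 : q < 2 ^ len l := by omega
    have h3 : (q : ℝ) < 2 ^ len l := by exact_mod_cast h2
    exact h3.le
  have hlenE : (len l : ℝ) ≤ E := by
    have h1 : len l < 2 ^ len l := Nat.lt_two_pow_self
    have h3 : (len l : ℝ) < 2 ^ len l := by exact_mod_cast h1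
    exact h3.le
  have hNE : N = E ^ 2 * 2 ^ c.c := by
    rw [hN, hE, nu, pow_add, pow_mul']
  have hlevE : (2 : ℝ) ^ lev c l = 128 * E ^ 3 * 2 ^ c.c := by
    rw [lev, hE, pow_add, pow_add, pow_mul']
    norm_num
    ring
  have hT : 4 * (2 * (Q.map per).sum + Q.length) ≤ (2 : ℝ) ^ lev c l := by
    rw [hlevE]
    have h1 : 4 * (2 * (Q.map per).sum + Q.length) ≤ q * (108 * N) := by
      rw [hQl] at hsumQ ⊢
      have hq0 : (0 : ℝ) ≤ q := Nat.cast_nonneg q
      have : (q : ℝ) * 1 ≤ q * N := mul_le_mul_of_nonneg_left hN1 hq0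
      linarith
    have h2 : (q : ℝ) * (108 * N) ≤ E * (128 * N) := by
      have hN0 : (0 : ℝ) ≤ N := by linarith
      have : (q : ℝ) * (108 * N) ≤ E * (108 * N) := mul_le_mul_of_nonneg_right hqE (by positivity)
      have h3 : E * (108 * N) ≤ E * (128 * N) := by
        apply mul_le_mul_of_nonneg_left _ (by linarith)
        linarith
      linarith
    have h3 : E * (128 * N) = 128 * E ^ 3 * 2 ^ c.c := by
      rw [hNE]
      ring
    linarith
  -- the structure theorem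
  have hm0 : (0 : ℝ) < m := by
    have : 0 < m := by omega
    exact_mod_cast this
  have hm54 : (54 : ℝ) ≤ m := by exact_mod_cast hm
  set κ : ℝ := 24 / 2 ^ c.e with hκd
  have hκ0 : 0 ≤ κ := by positivity
  have hκm : κ * m ≤ 1 := by linarith
  obtain ⟨a, ha, b, hb, ρ, hρ1, hρ2, hρ3, hρ4⟩ := structure_thm m (lev c l) κ hm hκ0 hκm Q hT
  have hρl : ρ.length = q := by
    have h := hρ1.length_eq
    rw [C4_len_pl, List.length_map, List.length_map, C4_len_pl, hQl] at h
    omega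
  have hp : (pl (ρ.map Prod.fst)).Perm (l.map (apos c l k a b)) := by
    refine hρ1.trans ?_
    rw [hQ, C4_pl_map, List.map_map]
    exact hπ.map _
  obtain ⟨s, hs, hsc⟩ := shiftSol_complete c l k a b ρ hp hρ2 (by rw [hM]; exact hρ3)
  refine ⟨(2 ^ k * s.c, s.sol), ?_, ?_⟩
  · unfold cands
    simp only [List.mem_flatMap, List.mem_map, List.mem_range]
    refine ⟨k, ?_, a, ha, b, hb, s, hs, rfl⟩
    have h1 := C4_ss_le l hl τ (C4_mem hπ hτ')
    have h2 : 2 ^ k ≤ off l * 2 ^ (nu c l + 1) := by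
      have h3 : 2 ^ (nu c l + 1) = 2 * 2 ^ nu c l := by ring
      have h4 : 1 ≤ 2 ^ nu c l := Nat.one_le_two_pow
      rw [h3]
      have h5 : off l * 2 ≤ off l * (2 * 2 ^ nu c l) := Nat.mul_le_mul_left _ (by omega)
      omega
    have h3 := Nat.lt_size.2 h2
    omega
  · -- the final estimate
    have hsplit : (ρ.map fun u => per u.1 + 24 / 2 ^ c.e * 2 ^ u.2 + (30 * (lev c l : ℝ) + 21)).sum =
        (ρ.map (wt κ)).sum + q * (30 * (lev c l : ℝ) + 21) := by
      rw [C4_sum_add ρ (fun u => per u.1 + 24 / 2 ^ c.e * 2 ^ u.2), hρl]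
      rfl
    rw [hsplit] at hsc
    set S := (Q.map per).sum with hS
    set Pr := (π.map fun u => per (C4_X c l u)).sum with hPr
    have hPre : N * dnm l * (π.map perQ).sum = Pr := by
      rw [← C4_sum_mul, hPr]
      congr 1
      apply List.map_congr_left
      intro u hu
      exact (hperX u hu).symm
    rw [hPre]
    have hKS : K * S ≤ Pr + q * (5 * K) := by
      rw [hS, hQ, List.map_map, ← C4_sum_mul, hPr, hq, ← C4_sum_add]
      apply C4_sum_le
      intro u hu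
      have h1 := (C4_per_round (2 ^ k) (by positivity) (C4_X c l u)).1
      push_cast at h1
      exact h1
    have hper0 : ∀ t : Tri, 0 ≤ per t := by
      intro t
      unfold per ed
      positivity
    have hPrge : 2 * N * K ≤ Pr := by
      have h1 : per (C4_X c l τ) ≤ Pr := by
        rw [hPr]
        apply List.single_le_sum
        · intro x hx
          rw [List.mem_map] at hx
          obtain ⟨u, _, rfl⟩ := hx
          exact hper0 _
        · exact List.mem_map.2 ⟨τ, hτ', rfl⟩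
      have h2 : per (C4_X c l τ) = N * per (tmap (ipos l) τ) := by
        unfold C4_X
        rw [C4_per_scl]
        push_cast
        rfl
      have h3 := C4_per_ge (tmap (ipos l) τ)
      have h4 : N * (2 * K) ≤ N * per (tmap (ipos l) τ) := by
        apply mul_le_mul_of_nonneg_left _ (by linarith)
        linarith
      linarith
    have hPr0 : 0 ≤ Pr := by
      have : (0 : ℝ) ≤ 2 * N * K := by positivity
      linarith
    have hq0 : (0 : ℝ) ≤ q := Nat.cast_nonneg q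
    -- the additive error
    have hadd : (q : ℝ) * (30 * (lev c l : ℝ) + 43) ≤ 2 * δ * N := by
      have h1 : (lev c l : ℝ) = 3 * len l + c.c + 7 := by
        unfold lev
        push_cast
        ring
      have h2 : (30 * (lev c l : ℝ) + 43) ≤ E * (30 * c.c + 343) := by
        rw [h1]
        have hcc0 : (0 : ℝ) ≤ c.c := Nat.cast_nonneg _
        have : (30 * (c.c : ℝ) + 253) * 1 ≤ (30 * c.c + 253) * E :=
          mul_le_mul_of_nonneg_left hE1 (by linarith only [hcc0])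
        linarith
      have hlv0 : (0 : ℝ) ≤ lev c l := Nat.cast_nonneg _
      have h3 : (0 : ℝ) ≤ 30 * (lev c l : ℝ) + 43 := by linarith only [hlv0]
      calc (q : ℝ) * (30 * (lev c l : ℝ) + 43) ≤ E * (E * (30 * c.c + 343)) :=
            mul_le_mul hqE h2 h3 (by linarith)
        _ = E ^ 2 * (30 * c.c + 343) := by ring
        _ ≤ E ^ 2 * (2 * δ * 2 ^ c.c) := mul_le_mul_of_nonneg_left hc (by positivity)
        _ = 2 * δ * N := by rw [hNE]; ring
    have hS0 : 0 ≤ S := by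
      rw [hS]
      apply List.sum_nonneg
      intro x hx
      rw [List.mem_map] at hx
      obtain ⟨u, _, rfl⟩ := hx
      exact hper0 _
    have hα0 : 0 ≤ 68 / (m : ℝ) := by positivity
    have hβ0 : 0 ≤ 2 * κ * m := by positivity
    have hκ1 : κ ≤ 1 := by nlinarith only [hκm, hm54, hκ0]
    rw [hQl] at hρ4
    have hs' : (s.c : ℝ) ≤ (1 + 68 / (m : ℝ)) * ((1 + 2 * κ * m) * S + κ * q) +
        q * (30 * (lev c l : ℝ) + 21) := by linarith only [hsc, hρ4]
    have hfin := C4_real K N Pr S δ (68 / (m : ℝ)) (2 * κ * m) κ q (lev c l) s.c hK0 hPr0 hS0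
      hδ0 hδ1 hα0 hmδ hβ0 hκ hκ1 hq0 hKS hs' hadd hPrge
    show ((2 ^ k * s.c : ℕ) : ℝ) ≤ (1 + 4 * δ) * Pr
    rw [Nat.cast_mul, Nat.cast_pow]
    exact hfin

/-- grouping into threes -/
theorem C4_exists (q : ℕ) : ∀ l : List QP, l.length = 3 * q →
    ∃ π : List (QP × (QP × QP)), (π.flatMap ptsQ).Perm l := by
  induction q with
  | zero =>
    intro l h
    refine ⟨[], ?_⟩
    have : l = [] := List.length_eq_zero_iff.1 (by omega)
    simp [this]
  | succ q ih =>
    intro l h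
    match l, h with
    | a :: b :: d :: l', h =>
      obtain ⟨π, hπ⟩ := ih l' (by simp at h; omega)
      refine ⟨(a, (b, d)) :: π, ?_⟩
      simp only [List.flatMap_cons, ptsQ, List.cons_append, List.nil_append]
      exact ((hπ.cons d).cons b).cons a

theorem alg_correct (ε : ℝ) (hε : 0 < ε) : ∃ c : Cst, ∀ l : List QP, l.Nodup → 3 ∣ l.length →
    ((alg c l).flatMap ptsQ).Perm l ∧
      ∀ π : List (QP × (QP × QP)), (π.flatMap ptsQ).Perm l →
        ((alg c l).map perQ).sum ≤ (1 + ε) * (π.map perQ).sum := by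
  -- the constants
  set δ : ℝ := min (ε / 4) 1 with hδ
  have hδ0 : 0 < δ := by positivity
  have hδ1 : δ ≤ 1 := min_le_right _ _
  have hδε : 4 * δ ≤ ε := by
    have : δ ≤ ε / 4 := min_le_left _ _
    linarith
  obtain ⟨m0, hm0⟩ := exists_nat_gt (68 / δ)
  set m : ℕ := m0 + 54 with hm
  have hm54 : 54 ≤ m := by omega
  have hmpos : (0 : ℝ) < m := by
    have : 0 < m := by omega
    exact_mod_cast this
  have hmδ : 68 / (m : ℝ) ≤ δ := by
    rw [div_le_iff₀ hmpos]
    rw [div_lt_iff₀ hδ0] at hm0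
    have : (m0 : ℝ) ≤ m := by exact_mod_cast (by omega : m0 ≤ m)
    nlinarith
  obtain ⟨e, he⟩ := pow_unbounded_of_one_lt (48 * (m : ℝ) / δ) (by norm_num : (1 : ℝ) < 2)
  have hκ : 2 * (24 / 2 ^ e) * (m : ℝ) ≤ δ := by
    rw [div_lt_iff₀ hδ0] at he
    have h2 : (0 : ℝ) < 2 ^ e := by positivity
    have : 2 * (24 / 2 ^ e) * (m : ℝ) = 48 * m / 2 ^ e := by ring
    rw [this, div_le_iff₀ h2]
    linarith
  obtain ⟨d, hd⟩ := pow_unbounded_of_one_lt (343 / (2 * δ)) (by norm_num : (1 : ℝ) < 2)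
  have hcc : (30 * ((2 * d : ℕ) : ℝ) + 343 : ℝ) ≤ 2 * δ * 2 ^ (2 * d) := by
    rw [div_lt_iff₀ (by positivity)] at hd
    have h1 : (d : ℝ) + 1 ≤ 2 ^ d := by
      have : d < 2 ^ d := Nat.lt_two_pow_self
      exact_mod_cast this
    have h2 : (2 : ℝ) ^ (2 * d) = 2 ^ d * 2 ^ d := by rw [two_mul, pow_add]
    rw [h2]
    push_cast
    have h3 : (343 : ℝ) * 2 ^ d ≤ (2 ^ d * (2 * δ)) * 2 ^ d :=
      mul_le_mul_of_nonneg_right hd.le (by positivity)
    have h4 : (0 : ℝ) ≤ d := Nat.cast_nonneg d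
    nlinarith
  refine ⟨⟨e, 24 * m, 2 * d⟩, ?_⟩
  intro l hl h3
  set c : Cst := ⟨e, 24 * m, 2 * d⟩ with hc
  by_cases hne : l = []
  · subst hne
    have hempty : ((alg c []).flatMap ptsQ).Perm [] := by
      unfold alg
      by_cases hcd : cands c [] = []
      · rw [hcd]
        simp [argmin]
      · obtain ⟨z, hz, he, _⟩ := C4_argmin _ hcd
        rw [he]
        have := (C4_sound c [] hl z hz).1
        simpa using this
    refine ⟨hempty, ?_⟩
    intro π hπ
    have h1 : alg c [] = [] := by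
      have h := hempty.length_eq
      rw [C4_len_Q] at h
      apply List.length_eq_zero_iff.1
      simp at h
      simp [h]
    have h2 : π = [] := by
      have h := hπ.length_eq
      rw [C4_len_Q] at h
      apply List.length_eq_zero_iff.1
      simp at h
      simp [h]
    rw [h1, h2]
    simp
  · obtain ⟨q, hq⟩ := h3
    obtain ⟨π0, hπ0⟩ := C4_exists q l hq
    have hcompl := fun π hπ => C4_compl c m δ hδ0 hδ1 hm54 hmδ hκ rfl hcc l hl hne π hπ
    obtain ⟨z0, hz0, _⟩ := hcompl π0 hπ0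
    have hcd : cands c l ≠ [] := List.ne_nil_of_mem hz0
    obtain ⟨z, hz, he, hmin⟩ := C4_argmin _ hcd
    have halg : alg c l = z.2 := by
      unfold alg
      rw [he]
      simp
    obtain ⟨hs1, hs2⟩ := C4_sound c l hl z hz
    rw [halg]
    refine ⟨hs1, ?_⟩
    intro π hπ
    obtain ⟨w, hw, hw2⟩ := hcompl π hπ
    have hzw : (z.1 : ℝ) ≤ w.1 := by exact_mod_cast hmin w hw
    have hd0 : (0 : ℝ) < dnm l := by exact_mod_cast (scaling l hl).1
    have hN0 : (0 : ℝ) < 2 ^ nu c l := by positivity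
    have hpos : (0 : ℝ) < 2 ^ nu c l * dnm l := by positivity
    have h0 : 0 ≤ (π.map perQ).sum := by
      apply List.sum_nonneg
      intro x hx
      rw [List.mem_map] at hx
      obtain ⟨u, _, rfl⟩ := hx
      unfold perQ edist
      positivity
    have h1 : (2 ^ nu c l * dnm l) * (z.2.map perQ).sum ≤
        (2 ^ nu c l * dnm l) * ((1 + ε) * (π.map perQ).sum) := by
      have h2 : (1 + 4 * δ) * (π.map perQ).sum ≤ (1 + ε) * (π.map perQ).sum :=
        mul_le_mul_of_nonneg_right (by linarith) h0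
      have h3 := mul_le_mul_of_nonneg_left h2 hpos.le
      calc (2 ^ nu c l * dnm l) * (z.2.map perQ).sum ≤ z.1 := hs2
        _ ≤ w.1 := hzw
        _ ≤ (1 + 4 * δ) * (2 ^ nu c l * dnm l * (π.map perQ).sum) := hw2
        _ = (2 ^ nu c l * dnm l) * ((1 + 4 * δ) * (π.map perQ).sum) := by ring
        _ ≤ _ := h3
    exact le_of_mul_le_mul_left h1 hpos

end Pool.Agent.M3
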