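import Pool.Agent.TM2Lib.Unary2
import Pool.Agent.TM2Lib.NP

/-!
# Euclidean minimum three-dimensional matching in the plane: the algorithm

`P` is the type of the points of the instance (in the end `ℚ × ℚ`); the dynamic program only uses
rounded positions `Pos` (pairs of natural numbers, coded in unary).
-/

namespace Pool.Agent.M3

open Pool.Agent.TM2Lib

/-! ## positions -/

/-- points of the integer grid -/
structure Pos where
  /-- first coordinate -/
  x : ℕ
  /-- second coordinate -/
  y : ℕ
deriving DecidableEq

instance : Enc Pos := ⟨fun p => enc ((⟨p.x⟩ : Un), (⟨p.y⟩ : Un))⟩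

/-- a partial solution: cost, exported points with their current positions, finished triples -/
structure Ent (P : Type) where
  /-- cost so far -/
  c : ℕ
  /-- exported points (tokens) with their current positions -/
  tk : List (P × Pos)
  /-- finished triples -/
  sol : List (P × (P × P))

instance {P : Type} [Enc P] : Enc (Ent P) := ⟨fun s => enc ((⟨s.c⟩ : Un), (s.tk, s.sol))⟩

/-- absolute difference -/
def ad (a b : ℕ) : ℕ := (a - b) + (b - a)

/-- integer upper bound for the Euclidean distance (plus 2) -/
def dh (z w : Pos) : ℕ := Nat.sqrt (ad z.x w.x ^ 2 + ad z.y w.y ^ 2) + 3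

/-- cost of a triple of positions -/
def tri (z₁ z₂ z₃ : Pos) : ℕ := dh z₁ z₂ + dh z₂ z₃ + dh z₃ z₁

/-- rounding down to the grid of spacing `w` -/
def tr (w : ℕ) (z : Pos) : Pos := ⟨z.x / w * w, z.y / w * w⟩

/-- all ways to remove one element from a list -/
def picks {α : Type} : List α → List (α × List α)
  | [] => []
  | a :: l => (a, l) :: (picks l).map fun q => (q.1, a :: q.2)

section dp
variable {P : Type}

/-- match three tokens -/
def form (s : Ent P) : List (Ent P) :=
  (picks s.tk).flatMap fun a => (picks a.2).flatMap fun b => (picks b.2).map fun d =>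
    ⟨s.c + tri a.1.2 b.1.2 d.1.2, d.2, (a.1.1, (b.1.1, d.1.1)) :: s.sol⟩

/-- round one token -/
def trunc (w : ℕ) (s : Ent P) : List (Ent P) :=
  (picks s.tk).map fun a => ⟨s.c + 2 * dh a.1.2 (tr w a.1.2), (a.1.1, tr w a.1.2) :: a.2, s.sol⟩

/-- all elementary operations, including doing nothing -/
def ops (w : ℕ) (s : Ent P) : List (Ent P) := s :: (form s ++ trunc w s)

/-- union of two partial solutions -/
def merge (z : Ent P × Ent P) : Ent P := ⟨z.1.c + z.2.c, z.1.tk ++ z.2.tk, z.1.sol ++ z.2.sol⟩

/-- equality of lists of positions up to a permutation -/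
def same (l k : List Pos) : Bool :=
  (l ++ k).all fun z => decide ((l.filter fun u => decide (u = z)).length =
    (k.filter fun u => decide (u = z)).length)

/-- a cheapest entry (a list with at most one element) -/
def best1 (l : List (Ent P)) : List (Ent P) :=
  l.foldl (fun s a => if s.any (fun b => decide (b.c ≤ a.c)) then s else [a]) []

/-- for every key a cheapest entry with this key -/
def best (K : List (List Pos)) (A : List (Ent P)) : List (Ent P) :=
  K.flatMap fun k => best1 (A.filter fun s => same (s.tk.map fun a => a.2) k)

/-- all pairs -/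
def prod {α β : Type} (A : List α) (B : List β) : List (α × β) :=
  A.flatMap fun a => B.map fun b => (a, b)

/-- merging of tables -/
def mergeT (K : List (List Pos)) (A B : List (Ent P)) : List (Ent P) :=
  best K ((prod A B).map merge)

/-- one round of elementary operations -/
def stepT (K : List (List Pos)) (w : ℕ) (A : List (Ent P)) : List (Ent P) :=
  best K (A.flatMap (ops w))

/-- all lists (up to order) with at most `n` copies of every member of the list -/
def cntL (n : ℕ) : List Pos → List (List Pos)
  | [] => [[]]
  | z :: l => (List.range (n + 1)).flatMap fun k => (cntL n l).map fun r =>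
      List.replicate k z ++ r

/-- all lists of length at most `M` -/
def lisL (AP : List Pos) : ℕ → List (List Pos)
  | 0 => [[]]
  | M + 1 => [] :: AP.flatMap fun z => (lisL AP M).map fun r => z :: r

/-- the square of side `W` -/
def grid (W : ℕ) : List Pos :=
  (List.range W).flatMap fun x => (List.range W).map fun y => ⟨x, y⟩

/-- the coarse positions of a square with corner `(x0, y0)`: `2 ^ (e + 1)` per side, with
spacing `w` -/
def coarse (e w x0 y0 : ℕ) : List Pos :=
  (grid (2 ^ (e + 1))).map fun z => ⟨x0 + z.x * w, y0 + z.y * w⟩

/-- the keys: at most `n` tokens at every coarse position, and at most `4 * M` tokens anywhere in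
the square of side `W` -/
def keys (e M n W w x0 y0 : ℕ) : List (List Pos) :=
  (cntL n (coarse e w x0 y0)).flatMap fun a => (lisL (grid W) (4 * M)).map fun b => a ++ b

/-- tokens that are not at a multiple of `w` -/
def non (w : ℕ) (l : List Pos) : List Pos := l.filter fun z => decide (tr w z ≠ z)

/-- the table of a cell from the tables of its four subcells; `s` is the side of the subcells -/
def proc (e M n W s : ℕ) (z : Pos) (A B C D : List (Ent P)) : List (Ent P) :=
  let w := max 1 (s / 2 ^ e)
  let w' := max 1 (2 * s / 2 ^ e)
  let K := keys e M n W w (z.x * (2 * s)) (z.y * (2 * s))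
  ((stepT K w')^[n] (mergeT K (mergeT K (mergeT K A B) C) D)).filter fun s =>
    decide ((non w' (s.tk.map fun a => a.2)).length ≤ M)

/-- The dynamic program: table of the cell `z` of level `t` (side `2 ^ t`); `g` lists the points
with their rounded positions, `n` is a bound for the number of points, and `W` for the
coordinates. -/
def dp (e M n W : ℕ) (g : List (P × Pos)) : ℕ → Pos → List (Ent P)
  | 0, z => [⟨0, g.filter fun a => decide (a.2 = z), []⟩]
  | t + 1, z => proc e M n W (2 ^ t) z
      (dp e M n W g t ⟨2 * z.x, 2 * z.y⟩) (dp e M n W g t ⟨2 * z.x + 1, 2 * z.y⟩)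
      (dp e M n W g t ⟨2 * z.x, 2 * z.y + 1⟩) (dp e M n W g t ⟨2 * z.x + 1, 2 * z.y + 1⟩)

/-- a cheapest complete solution -/
def solve (e M n T : ℕ) (g : List (P × Pos)) : List (Ent P) :=
  best1 ((dp e M n (2 ^ T) g T ⟨0, 0⟩).filter fun s => s.tk.isEmpty)

end dp

/-! ## the algorithm for rational points -/

/-- points of the plane with rational coordinates -/
abbrev QP : Type := ℚ × ℚ

instance : Enc ℤ := ⟨fun z => enc (decide (z < 0), z.natAbs)⟩
instance : Enc ℚ := ⟨fun q => enc (q.num, q.den)⟩

/-- the constants of the algorithm -/
structure Cst where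
  /-- coarse grids have `2 ^ e` positions per side -/
  e : ℕ
  /-- number of exact tokens -/
  M : ℕ
  /-- precision -/
  c : ℕ

/-- product of the denominators, except that of the first coordinate of `p` -/
def dnx (l : List QP) (p : QP) : ℕ :=
  (l.map fun q => if q = p then q.2.den else q.1.den * q.2.den).prod

/-- product of the denominators, except that of the second coordinate of `p` -/
def dny (l : List QP) (p : QP) : ℕ :=
  (l.map fun q => if q = p then q.1.den else q.1.den * q.2.den).prod

/-- offset making all coordinates nonnegative -/
def off (l : List QP) : ℕ :=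
  (l.map fun q => q.1.num.natAbs * dnx l q + q.2.num.natAbs * dny l q).sum

/-- integer first coordinate -/
def cx (l : List QP) (p : QP) : ℕ :=
  if p.1.num < 0 then off l - p.1.num.natAbs * dnx l p else off l + p.1.num.natAbs * dnx l p

/-- integer second coordinate -/
def cy (l : List QP) (p : QP) : ℕ :=
  if p.2.num < 0 then off l - p.2.num.natAbs * dny l p else off l + p.2.num.natAbs * dny l p

/-- binary length of the number of points -/
def len (l : List QP) : ℕ := Nat.size l.length

/-- exponent of the refinement -/
def nu (c : Cst) (l : List QP) : ℕ := 2 * len l + c.c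

/-- number of levels -/
def lev (c : Cst) (l : List QP) : ℕ := 3 * len l + c.c + 7

/-- rounded first coordinate at scale `2 ^ k`, shifted by `a` -/
def ux (c : Cst) (l : List QP) (k a : ℕ) (p : QP) : ℕ := cx l p * 2 ^ nu c l / 2 ^ k + a

/-- rounded second coordinate at scale `2 ^ k`, shifted by `b` -/
def uy (c : Cst) (l : List QP) (k b : ℕ) (p : QP) : ℕ := cy l p * 2 ^ nu c l / 2 ^ k + b

/-- the cell of the top level containing the point -/
def top (c : Cst) (l : List QP) (k a b : ℕ) (p : QP) : ℕ × ℕ :=
  (ux c l k a p / 2 ^ lev c l, uy c l k b p / 2 ^ lev c l)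

/-- position in the cell of the top level -/
def rel (c : Cst) (l : List QP) (k a b : ℕ) (p : QP) : Pos :=
  ⟨ux c l k a p % 2 ^ lev c l, uy c l k b p % 2 ^ lev c l⟩

/-- representatives for the values of `f` on `l` -/
def heads (f : QP → ℕ × ℕ) (l : List QP) : List QP :=
  l.foldl (fun s p => if s.any (fun q => decide (f q = f p)) then s else p :: s) []

/-- the points in the same cell of the top level as `q`, with their positions -/
def group (c : Cst) (l : List QP) (k a b : ℕ) (q : QP) : List (QP × Pos) :=
  (l.filter fun p => decide (top c l k a b p = top c l k a b q)).map fun p =>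
    (p, rel c l k a b p)

/-- cheapest solution found for the scale `2 ^ k` and the shift `(a, b)` (a list with at most one
element) -/
def shiftSol (c : Cst) (l : List QP) (k a b : ℕ) : List (Ent QP) :=
  (heads (top c l k a b) l).foldl (fun S q =>
    (prod S (solve c.e c.M l.length (lev c l) (group c l k a b q))).map merge) [⟨0, [], []⟩]

/-- all candidates, with their values -/
def cands (c : Cst) (l : List QP) : List (ℕ × List (QP × (QP × QP))) :=
  (List.range (Nat.size (off l * 2 ^ (nu c l + 1)) + 1)).flatMap fun k =>
    (List.range (2 ^ lev c l)).flatMap fun a => (List.range (2 ^ lev c l)).flatMap fun b =>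
      (shiftSol c l k a b).map fun s => (2 ^ k * s.c, s.sol)

/-- a pair with the least first component (a list with at most one element) -/
def argmin {β : Type} (l : List (ℕ × β)) : List (ℕ × β) :=
  l.foldl (fun s a => if s.any (fun b => decide (b.1 ≤ a.1)) then s else [a]) []

/-- the algorithm -/
def alg (c : Cst) (l : List QP) : List (QP × (QP × QP)) :=
  (argmin (cands c l)).flatMap fun z => z.2

end Pool.Agent.M3
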