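import Pool.Agent.M3.Defs

/-!
# Euclidean minimum three-dimensional matching in the plane: geometric definitions
-/

namespace Pool.Agent.M3

/-- triples of positions -/
abbrev Tri : Type := Pos × (Pos × Pos)

/-- labelled triples: at the levels below the label the tokens are rounded -/
abbrev LT : Type := Tri × ℕ

/-- the three points -/
def pts (t : Tri) : List Pos := [t.1, t.2.1, t.2.2]

/-- the points of a list of triples -/
def pl (L : List Tri) : List Pos := L.flatMap pts

/-- Euclidean distance -/
noncomputable def ed (p q : Pos) : ℝ := √(((p.x : ℝ) - q.x) ^ 2 + ((p.y : ℝ) - q.y) ^ 2)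

/-- perimeter -/
noncomputable def per (t : Tri) : ℝ := ed t.1 t.2.1 + ed t.2.1 t.2.2 + ed t.2.2 t.1

/-- least first coordinate -/
def lx (t : Tri) : ℕ := min t.1.x (min t.2.1.x t.2.2.x)
/-- greatest first coordinate -/
def hx (t : Tri) : ℕ := max t.1.x (max t.2.1.x t.2.2.x)
/-- least second coordinate -/
def ly (t : Tri) : ℕ := min t.1.y (min t.2.1.y t.2.2.y)
/-- greatest second coordinate -/
def hy (t : Tri) : ℕ := max t.1.y (max t.2.1.y t.2.2.y)
/-- horizontal extent -/
def ex (t : Tri) : ℕ := hx t - lx t
/-- vertical extent -/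
def ey (t : Tri) : ℕ := hy t - ly t
/-- size -/
def ss (t : Tri) : ℕ := max (ex t) (ey t)

/-- swap of the coordinates -/
def sw (p : Pos) : Pos := ⟨p.y, p.x⟩
/-- swap of the coordinates -/
def swt (t : Tri) : Tri := (sw t.1, (sw t.2.1, sw t.2.2))

/-- translation -/
def sh (a b : ℕ) (p : Pos) : Pos := ⟨p.x + a, p.y + b⟩

/-- the cell of side `s` containing a point -/
def cell (s : ℕ) (p : Pos) : Pos := ⟨p.x / s, p.y / s⟩

/-- the triple lies in one cell of side `s` -/
def In (s : ℕ) (t : Tri) : Prop := cell s t.1 = cell s t.2.1 ∧ cell s t.2.1 = cell s t.2.2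

instance (s : ℕ) (t : Tri) : Decidable (In s t) := by unfold In; infer_instance

/-- the triple crosses the line between the first coordinates `g - 1` and `g` -/
def Cr (g : ℕ) (t : Tri) : Prop := lx t < g ∧ g ≤ hx t

instance (g : ℕ) (t : Tri) : Decidable (Cr g t) := by unfold Cr; infer_instance

/-- weight of a labelled triple -/
noncomputable def wt (κ : ℝ) (v : LT) : ℝ := per v.1 + κ * 2 ^ v.2

/-- number of the points, in the cell `X` of level `t`, of the triples of label at most `t` that
are not contained in a cell of level `t` -/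
def exc (ρ : List LT) (t : ℕ) (X : Pos) : ℕ :=
  ((ρ.filter fun u => decide (u.2 ≤ t ∧ ¬ In (2 ^ t) u.1)).flatMap fun u =>
    (pts u.1).filter fun p => decide (cell (2 ^ t) p = X)).length

/-- classes of triples (used for the vertical lines), for every level -/
structure Cls where
  /-- the class of a triple -/
  cls : ℕ → Tri → Option ℕ
  /-- region of a class -/
  reg : ℕ → ℕ → Pos → Prop
  /-- the least second coordinate of the points of the triples of a class -/
  base : ℕ → ℕ → ℕ
  hreg : ∀ j t c, cls j t = some c → ∀ p ∈ pts t, reg j c p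
  hbase : ∀ j t c, ey t < 2 ^ j → cls j t = some c →
    ∀ p ∈ pts t, base j c ≤ p.y ∧ p.y ≤ base j c + 2 * 2 ^ j

/-- the points are on the same side of the line `g`, at distance less than `2 ^ j` -/
def Near (g j : ℕ) (t : Tri) : Prop :=
  (∀ p ∈ pts t, p.x < g ∧ g < p.x + 2 ^ j) ∨ (∀ p ∈ pts t, g ≤ p.x ∧ p.x < g + 2 ^ j)

end Pool.Agent.M3
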