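import Pool.Agent.M3.Geo

/-!
# Grouping sorted points
-/

namespace Pool.Agent.M3

lemma A1_sorted (w c : ℕ) : ∀ (q : ℕ) (L : List Pos) (b : ℕ), L.length = 3 * q → b ≤ c →
    L.Pairwise (fun p p' => p.y ≤ p'.y) →
    (∀ p ∈ L, ∀ p' ∈ L, p.x ≤ p'.x + w) → (∀ p ∈ L, b ≤ p.y ∧ p.y ≤ c) →
    ∃ B : List Tri, B.length = q ∧ pl B = L ∧
      (B.map fun t => ex t + ey t).sum ≤ q * w + (c - b) := by
  intro q
  induction q with
  | zero =>
    intro L b hl hbc hs hx hy
    have : L = [] := List.length_eq_zero_iff.mp (by omega)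
    subst this
    exact ⟨[], rfl, rfl, by simp⟩
  | succ q ih =>
    intro L b hl hbc hs hx hy
    match L, hl, hs, hx, hy with
    | [], hl, _, _, _ => simp at hl
    | [_], hl, _, _, _ => simp at hl; omega
    | [_, _], hl, _, _, _ => simp at hl; omega
    | p1 :: p2 :: p3 :: R, hl, hs, hx, hy =>
      simp only [List.length_cons] at hl
      simp only [List.pairwise_cons, List.mem_cons] at hs
      obtain ⟨h1, h2, h3, hsR⟩ := hs
      have h12 : p1.y ≤ p2.y := h1 p2 (Or.inl rfl)
      have h23 : p2.y ≤ p3.y := h2 p3 (Or.inl rfl)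
      have m1 : p1 ∈ p1 :: p2 :: p3 :: R := by simp
      have m2 : p2 ∈ p1 :: p2 :: p3 :: R := by simp
      have m3 : p3 ∈ p1 :: p2 :: p3 :: R := by simp
      have y1 := hy p1 m1
      have y3 := hy p3 m3
      obtain ⟨B, hB1, hB2, hB3⟩ := ih R p3.y (by omega) y3.2 hsR
        (fun p hp p' hp' => hx p (by simp [hp]) p' (by simp [hp']))
        (fun p hp => ⟨h3 p hp, (hy p (by simp [hp])).2⟩)
      refine ⟨(p1, (p2, p3)) :: B, by simp [hB1], ?_, ?_⟩
      · unfold pl at hB2 ⊢
        rw [List.flatMap_cons, hB2]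
        rfl
      · rw [List.map_cons, List.sum_cons]
        have e1 : ex (p1, (p2, p3)) ≤ w := by
          have a11 := hx p1 m1 p1 m1
          have a12 := hx p1 m1 p2 m2
          have a13 := hx p1 m1 p3 m3
          have a21 := hx p2 m2 p1 m1
          have a22 := hx p2 m2 p2 m2
          have a23 := hx p2 m2 p3 m3
          have a31 := hx p3 m3 p1 m1
          have a32 := hx p3 m3 p2 m2
          have a33 := hx p3 m3 p3 m3
          unfold ex M3.hx M3.lx
          simp only
          omega
        have e2 : ey (p1, (p2, p3)) ≤ p3.y - b := by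
          unfold ey M3.hy M3.ly
          simp only
          omega
        have e3 : (q + 1) * w = q * w + w := by ring
        rw [e3]
        omega

theorem group_points (L : List Pos) (q w h b : ℕ) (hl : L.length = 3 * q)
    (hx : ∀ p ∈ L, ∀ p' ∈ L, p.x ≤ p'.x + w) (hy : ∀ p ∈ L, b ≤ p.y ∧ p.y ≤ b + h) :
    ∃ B : List Tri, B.length = q ∧ (pl B).Perm L ∧
      (B.map fun t => ex t + ey t).sum ≤ q * w + h := by
  have hperm := List.mergeSort_perm L (fun p p' => decide (p.y ≤ p'.y))
  have hsort : (L.mergeSort (fun p p' => decide (p.y ≤ p'.y))).Pairwise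
      (fun p p' => p.y ≤ p'.y) := by
    have := List.pairwise_mergeSort (le := fun p p' : Pos => decide (p.y ≤ p'.y))
      (fun a b c h1 h2 => by simp at h1 h2 ⊢; omega)
      (fun a b => by simp; omega) L
    exact this.imp (fun h => by simpa using h)
  obtain ⟨B, h1, h2, h3⟩ := A1_sorted w (b + h) q _ b (by rw [hperm.length_eq, hl])
    (Nat.le_add_right b h) hsort
    (fun p hp p' hp' => hx p (hperm.mem_iff.mp hp) p' (hperm.mem_iff.mp hp'))
    (fun p hp => hy p (hperm.mem_iff.mp hp))
  refine ⟨B, h1, ?_, ?_⟩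
  · rw [h2]; exact hperm
  · have : b + h - b = h := by omega
    rw [this] at h3
    exact h3

end Pool.Agent.M3
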