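import Pool.Agent.M3.Geo

/-!
# Keys and covering lemmas (module B2)
-/

namespace Pool.Agent.M3

open Pool.Agent.TM2Lib

/-! ## enumeration of the keys -/

theorem B2_mem_grid {W : ℕ} {z : Pos} : z ∈ grid W ↔ z.x < W ∧ z.y < W := by
  unfold grid
  simp only [List.mem_flatMap, List.mem_map, List.mem_range]
  constructor
  · rintro ⟨x, hx, y, hy, rfl⟩; exact ⟨hx, hy⟩
  · rintro ⟨hx, hy⟩; exact ⟨z.x, hx, z.y, hy, rfl⟩

theorem B2_mem_lisL (AP : List Pos) : ∀ (M : ℕ) (Y : List Pos), (∀ z ∈ Y, z ∈ AP) → Y.length ≤ M →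
    Y ∈ lisL AP M := by
  intro M
  induction M with
  | zero =>
    intro Y _ hl
    have : Y = [] := List.length_eq_zero_iff.1 (by omega)
    subst this
    simp [lisL]
  | succ M ih =>
    intro Y hY hl
    cases Y with
    | nil => simp [lisL]
    | cons z Y =>
      simp only [lisL, List.mem_cons, List.mem_flatMap, List.mem_map]
      right
      exact ⟨z, hY z (by simp), Y, ih Y (fun a ha => hY a (by simp [ha])) (by simpa using hl), rfl⟩

theorem B2_mem_cntL (n : ℕ) : ∀ (AP : List Pos) (Y : List Pos), (∀ z ∈ Y, z ∈ AP) → Y.length ≤ n →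
    ∃ a ∈ cntL n AP, a.Perm Y := by
  intro AP
  induction AP with
  | nil =>
    intro Y hY _
    refine ⟨[], by simp [cntL], ?_⟩
    have : Y = [] := List.eq_nil_iff_forall_not_mem.2 fun z hz => by simpa using hY z hz
    rw [this]
  | cons z l ih =>
    intro Y hY hl
    obtain ⟨r, hr, hrp⟩ := ih (Y.filter fun u => decide (u ≠ z)) (by
      intro u hu
      simp only [List.mem_filter, decide_eq_true_eq] at hu
      have := hY u hu.1
      simp only [List.mem_cons] at this
      rcases this with h | h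
      · exact absurd h hu.2
      · exact h) ((List.length_filter_le _ _).trans hl)
    refine ⟨List.replicate (Y.count z) z ++ r, ?_, ?_⟩
    · simp only [cntL, List.mem_flatMap, List.mem_range, List.mem_map]
      exact ⟨Y.count z, by have := List.count_le_length (a := z) (l := Y); omega, r, hr, rfl⟩
    · refine (List.Perm.append_left _ hrp).trans ?_
      rw [List.perm_iff_count]
      intro a
      rw [List.count_append, List.count_replicate]
      by_cases h : z = a
      · subst h
        simp only [ne_eq, decide_not, BEq.rfl, ite_true]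
        have : List.count z (List.filter (fun u => !decide (u = z)) Y) = 0 := by
          rw [List.count_eq_zero]
          simp [List.mem_filter]
        rw [this, add_zero]
      · have h' : a ≠ z := fun h2 => h h2.symm
        rw [List.count_filter (by simpa using h')]
        simp [h]

/-- keys: every admissible list of positions is enumerated up to order -/
theorem mem_keys (e M n W w x0 y0 : ℕ) (hw : 1 ≤ w) (Z : List Pos) (hn : Z.length ≤ n)
    (hW : ∀ z ∈ Z, z.x < W ∧ z.y < W)
    (hc : ∀ z ∈ Z, tr w z = z → ∃ i < 2 ^ (e + 1), ∃ j < 2 ^ (e + 1), z = ⟨x0 + i * w, y0 + j * w⟩)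
    (hM : (non w Z).length ≤ 4 * M) :
    ∃ k ∈ keys e M n W w x0 y0, k.Perm Z := by
  obtain ⟨a, ha, hap⟩ := B2_mem_cntL n (coarse e w x0 y0) (Z.filter fun z => !decide (tr w z ≠ z)) (by
    intro z hz
    simp only [List.mem_filter, ne_eq, decide_not, Bool.not_not, decide_eq_true_eq] at hz
    obtain ⟨i, hi, j, hj, hz2⟩ := hc z hz.1 hz.2
    unfold coarse
    rw [List.mem_map]
    exact ⟨⟨i, j⟩, B2_mem_grid.2 ⟨hi, hj⟩, hz2.symm⟩) ((List.length_filter_le _ _).trans hn)
  have hb : non w Z ∈ lisL (grid W) (4 * M) := by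
    refine B2_mem_lisL _ _ _ ?_ hM
    intro z hz
    exact B2_mem_grid.2 (hW z (List.mem_of_mem_filter hz))
  refine ⟨a ++ non w Z, ?_, ?_⟩
  · unfold keys
    simp only [List.mem_flatMap, List.mem_map]
    exact ⟨a, ha, non w Z, hb, rfl⟩
  · refine (List.Perm.append_right _ hap).trans ?_
    refine List.perm_append_comm.trans ?_
    exact List.filter_append_perm _ _

/-! ## elementary lemmas on the operations -/

theorem B2_count (l : List Pos) (z : Pos) :
    (l.filter fun u => decide (u = z)).length = l.count z := by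
  rw [List.count, List.countP_eq_length_filter]
  congr 1

theorem B2_same_iff (l k : List Pos) : same l k = true ↔ l.Perm k := by
  unfold same
  rw [List.all_eq_true, List.perm_iff_count]
  simp only [decide_eq_true_eq, B2_count]
  constructor
  · intro h z
    by_cases hz : z ∈ l ++ k
    · exact h z hz
    · rw [List.mem_append, not_or] at hz
      rw [List.count_eq_zero_of_not_mem hz.1, List.count_eq_zero_of_not_mem hz.2]
  · intro h z _
    exact h z

section
variable {P : Type}

/-- the folding step of `best1` -/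
def B2_f (s : List (Ent P)) (a : Ent P) : List (Ent P) :=
  if s.any (fun b => decide (b.c ≤ a.c)) then s else [a]

theorem B2_foldl_le : ∀ (l s : List (Ent P)) (x : Ent P), x ∈ s ∨ x ∈ l →
    ∃ b ∈ l.foldl B2_f s, b.c ≤ x.c := by
  intro l
  induction l with
  | nil => intro s x hx; exact ⟨x, by simpa using hx, le_rfl⟩
  | cons a l ih =>
    intro s x hx
    rw [List.foldl_cons]
    have key : ∀ y, y ∈ s ∨ y = a → ∃ b ∈ B2_f s a, b.c ≤ y.c := by
      intro y hy
      unfold B2_f
      by_cases h : s.any (fun b => decide (b.c ≤ a.c)) = true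
      · rw [if_pos h]
        rcases hy with hy | rfl
        · exact ⟨y, hy, le_rfl⟩
        · rw [List.any_eq_true] at h
          obtain ⟨b, hb, hba⟩ := h
          exact ⟨b, hb, by simpa using hba⟩
      · rw [if_neg h]
        refine ⟨a, by simp, ?_⟩
        rcases hy with hy | rfl
        · rw [Bool.not_eq_true, List.any_eq_false] at h
          have := h y hy
          simp only [decide_eq_true_eq, not_le] at this
          exact this.le
        · exact le_rfl
    rcases hx with hx | hx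
    · obtain ⟨b, hb, hbx⟩ := key x (Or.inl hx)
      obtain ⟨b', hb', hb'x⟩ := ih (B2_f s a) b (Or.inl hb)
      exact ⟨b', hb', hb'x.trans hbx⟩
    · rw [List.mem_cons] at hx
      rcases hx with rfl | hx
      · obtain ⟨b, hb, hbx⟩ := key x (Or.inr rfl)
        obtain ⟨b', hb', hb'x⟩ := ih (B2_f s x) b (Or.inl hb)
        exact ⟨b', hb', hb'x.trans hbx⟩
      · exact ih _ x (Or.inr hx)

theorem B2_foldl_mem : ∀ (l s : List (Ent P)) (x : Ent P), x ∈ l.foldl B2_f s → x ∈ s ∨ x ∈ l := by
  intro l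
  induction l with
  | nil => intro s x hx; exact Or.inl (by simpa using hx)
  | cons a l ih =>
    intro s x hx
    rw [List.foldl_cons] at hx
    rcases ih _ x hx with h | h
    · unfold B2_f at h
      split_ifs at h
      · exact Or.inl h
      · simp only [List.mem_singleton] at h
        right; simp [h]
    · right; simp [h]

theorem B2_best1_le {l : List (Ent P)} {x : Ent P} (hx : x ∈ l) : ∃ b ∈ best1 l, b.c ≤ x.c :=
  B2_foldl_le l [] x (Or.inr hx)

theorem B2_best1_mem {l : List (Ent P)} {x : Ent P} (hx : x ∈ best1 l) : x ∈ l := by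
  rcases B2_foldl_mem l [] x hx with h | h
  · simp at h
  · exact h

theorem B2_best_mem {K : List (List Pos)} {A : List (Ent P)} {x : Ent P} (hx : x ∈ best K A) :
    x ∈ A := by
  unfold best at hx
  rw [List.mem_flatMap] at hx
  obtain ⟨k, _, hk⟩ := hx
  exact List.mem_of_mem_filter (B2_best1_mem hk)

theorem B2_picks_perm {α : Type} : ∀ {l : List α} {a : α} {r : List α}, (a, r) ∈ picks l →
    l.Perm (a :: r) := by
  intro l
  induction l with
  | nil => intro a r h; simp [picks] at h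
  | cons b l ih =>
    intro a r h
    simp only [picks, List.mem_cons, List.mem_map, Prod.mk.injEq] at h
    rcases h with ⟨rfl, rfl⟩ | ⟨q, hq, rfl, rfl⟩
    · exact List.Perm.refl _
    · exact (List.Perm.cons b (ih (a := q.1) (r := q.2) hq)).trans (List.Perm.swap _ _ _)

theorem B2_exists_picks {α : Type} : ∀ {l : List α} {a : α}, a ∈ l → ∃ r, (a, r) ∈ picks l := by
  intro l
  induction l with
  | nil => intro a h; simp at h
  | cons b l ih =>
    intro a h
    rw [List.mem_cons] at h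
    rcases h with rfl | h
    · exact ⟨l, by simp [picks]⟩
    · obtain ⟨r, hr⟩ := ih h
      refine ⟨b :: r, ?_⟩
      simp only [picks, List.mem_cons, List.mem_map]
      right
      exact ⟨(a, r), hr, rfl⟩

/-- the multiset of the positions of the tokens -/
def B2_ms (s : Ent P) : Multiset Pos := ((s.tk.map Prod.snd : List Pos) : Multiset Pos)

/-- `A` contains an entry with token positions `Z` and cost at most `c` -/
def Cv (A : List (Ent P)) (Z : Multiset Pos) (c : ℝ) : Prop :=
  ∃ s ∈ A, B2_ms s = Z ∧ (s.c : ℝ) ≤ c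

theorem Cv.mono {A : List (Ent P)} {Z : Multiset Pos} {c c' : ℝ} (h : Cv A Z c) (hc : c ≤ c') :
    Cv A Z c' := by
  obtain ⟨s, hs, hZ, hsc⟩ := h
  exact ⟨s, hs, hZ, hsc.trans hc⟩

theorem Cv.best {K : List (List Pos)} {A : List (Ent P)} {Z : Multiset Pos} {c : ℝ}
    (hK : ∃ k ∈ K, (k : Multiset Pos) = Z) (h : Cv A Z c) : Cv (best K A) Z c := by
  obtain ⟨k, hk, hkZ⟩ := hK
  obtain ⟨s, hs, hZ, hsc⟩ := h
  have h1 : s ∈ A.filter fun s => same (s.tk.map fun a => a.2) k := by
    rw [List.mem_filter]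
    refine ⟨hs, ?_⟩
    rw [B2_same_iff, ← Multiset.coe_eq_coe, hkZ]
    exact hZ
  obtain ⟨b, hb, hbs⟩ := B2_best1_le h1
  have hb2 := B2_best1_mem hb
  rw [List.mem_filter, B2_same_iff, ← Multiset.coe_eq_coe, hkZ] at hb2
  refine ⟨b, ?_, hb2.2, ?_⟩
  · unfold M3.best
    rw [List.mem_flatMap]
    exact ⟨k, hk, hb⟩
  · have : (b.c : ℝ) ≤ s.c := by exact_mod_cast hbs
    linarith

theorem Cv.mergeT {K : List (List Pos)} {A B : List (Ent P)} {Z₁ Z₂ : Multiset Pos} {c₁ c₂ : ℝ}
    (hK : ∃ k ∈ K, (k : Multiset Pos) = Z₁ + Z₂) (hA : Cv A Z₁ c₁) (hB : Cv B Z₂ c₂) :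
    Cv (mergeT K A B) (Z₁ + Z₂) (c₁ + c₂) := by
  refine Cv.best hK ?_
  obtain ⟨s, hs, hZ, hsc⟩ := hA
  obtain ⟨s', hs', hZ', hsc'⟩ := hB
  refine ⟨merge (s, s'), ?_, ?_, ?_⟩
  · rw [List.mem_map]
    refine ⟨(s, s'), ?_, rfl⟩
    unfold prod
    simp only [List.mem_flatMap, List.mem_map]
    exact ⟨s, hs, s', hs', rfl⟩
  · rw [← hZ, ← hZ']
    simp [B2_ms, merge]
  · simp only [merge]
    push_cast
    linarith

theorem Cv.idle {K : List (List Pos)} {w : ℕ} {A : List (Ent P)} {Z : Multiset Pos} {c : ℝ}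
    (hK : ∃ k ∈ K, (k : Multiset Pos) = Z) (h : Cv A Z c) : Cv (stepT K w A) Z c := by
  refine Cv.best hK ?_
  obtain ⟨s, hs, hZ, hsc⟩ := h
  refine ⟨s, ?_, hZ, hsc⟩
  rw [List.mem_flatMap]
  exact ⟨s, hs, by simp [ops]⟩

/-- extraction of a token -/
theorem B2_extract {s : List (P × Pos)} {z : Pos} {Z : Multiset Pos}
    (h : ((s.map Prod.snd : List Pos) : Multiset Pos) = z ::ₘ Z) :
    ∃ a r, (a, r) ∈ picks s ∧ a.2 = z ∧ ((r.map Prod.snd : List Pos) : Multiset Pos) = Z := by
  have hz : z ∈ s.map Prod.snd := by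
    rw [← Multiset.mem_coe, h]; exact Multiset.mem_cons_self z Z
  rw [List.mem_map] at hz
  obtain ⟨a, ha, haz⟩ := hz
  obtain ⟨r, hr⟩ := B2_exists_picks ha
  refine ⟨a, r, hr, haz, ?_⟩
  have h1 := (B2_picks_perm hr).map Prod.snd
  rw [← Multiset.coe_eq_coe, h, List.map_cons, haz, ← Multiset.cons_coe, Multiset.cons_inj_right] at h1
  exact h1.symm

theorem Cv.form {K : List (List Pos)} {w : ℕ} {A : List (Ent P)} {Z : Multiset Pos} {c : ℝ}
    {z₁ z₂ z₃ : Pos} (hK : ∃ k ∈ K, (k : Multiset Pos) = Z)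
    (h : Cv A (z₁ ::ₘ z₂ ::ₘ z₃ ::ₘ Z) c) : Cv (stepT K w A) Z (c + tri z₁ z₂ z₃) := by
  refine Cv.best hK ?_
  obtain ⟨s, hs, hZ, hsc⟩ := h
  obtain ⟨a, r, har, ha, hr⟩ := B2_extract hZ
  obtain ⟨b, r', hbr, hb, hr'⟩ := B2_extract hr
  obtain ⟨d, r'', hdr, hd, hr''⟩ := B2_extract hr'
  refine ⟨⟨s.c + tri a.2 b.2 d.2, r'', (a.1, (b.1, d.1)) :: s.sol⟩, ?_, hr'', ?_⟩
  · rw [List.mem_flatMap]
    refine ⟨s, hs, ?_⟩
    simp only [ops, M3.form, List.mem_cons, List.mem_append, List.mem_flatMap, List.mem_map]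
    right; left
    exact ⟨(a, r), har, (b, r'), hbr, (d, r''), hdr, rfl⟩
  · simp only [ha, hb, hd]
    push_cast
    linarith

theorem Cv.trunc {K : List (List Pos)} {w : ℕ} {A : List (Ent P)} {Z : Multiset Pos} {c : ℝ}
    {z : Pos} (hK : ∃ k ∈ K, (k : Multiset Pos) = tr w z ::ₘ Z)
    (h : Cv A (z ::ₘ Z) c) : Cv (stepT K w A) (tr w z ::ₘ Z) (c + 2 * dh z (tr w z)) := by
  refine Cv.best hK ?_
  obtain ⟨s, hs, hZ, hsc⟩ := h
  obtain ⟨a, r, har, ha, hr⟩ := B2_extract hZ
  refine ⟨⟨s.c + 2 * dh a.2 (tr w a.2), (a.1, tr w a.2) :: r, s.sol⟩, ?_, ?_, ?_⟩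
  · rw [List.mem_flatMap]
    refine ⟨s, hs, ?_⟩
    simp only [ops, M3.trunc, List.mem_cons, List.mem_append, List.mem_map]
    right; right
    exact ⟨(a, r), har, rfl⟩
  · simp only [B2_ms, List.map_cons, ha]
    rw [← Multiset.cons_coe, hr]
  · simp only [ha]
    push_cast
    linarith

end

end Pool.Agent.M3
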