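import Pool.Agent.M3.Group

/-!
# One level for one line
-/

namespace Pool.Agent.M3

lemma A2_abs (a b : ℕ) : |(a : ℝ) - b| = (((a - b) + (b - a) : ℕ) : ℝ) := by
  rcases le_total a b with h | h
  · rw [Nat.sub_eq_zero_of_le h, zero_add, Nat.cast_sub h, abs_sub_comm,
      abs_of_nonneg (by rw [sub_nonneg]; exact_mod_cast h)]
  · rw [Nat.sub_eq_zero_of_le h, add_zero, Nat.cast_sub h,
      abs_of_nonneg (by rw [sub_nonneg]; exact_mod_cast h)]

lemma A2_ed (p q : Pos) : ed p q ≤ |(p.x : ℝ) - q.x| + |(p.y : ℝ) - q.y| := by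
  unfold ed
  apply Real.sqrt_le_iff.mpr
  constructor
  · positivity
  · have h1 := sq_abs ((p.x : ℝ) - q.x)
    have h2 := sq_abs ((p.y : ℝ) - q.y)
    have h3 := abs_nonneg ((p.x : ℝ) - q.x)
    have h4 := abs_nonneg ((p.y : ℝ) - q.y)
    nlinarith

lemma A2_tri (a b c : ℕ) : |(a : ℝ) - b| + |(b : ℝ) - c| + |(c : ℝ) - a| ≤
    2 * ((max a (max b c) - min a (min b c) : ℕ) : ℝ) := by
  rw [A2_abs, A2_abs, A2_abs]
  have : (a - b + (b - a)) + (b - c + (c - b)) + (c - a + (a - c)) ≤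
      2 * (max a (max b c) - min a (min b c)) := by omega
  exact_mod_cast this

lemma A2_per (t : Tri) : per t ≤ 2 * ((ex t : ℝ) + ey t) := by
  unfold per
  have h1 := A2_ed t.1 t.2.1
  have h2 := A2_ed t.2.1 t.2.2
  have h3 := A2_ed t.2.2 t.1
  have h4 := A2_tri t.1.x t.2.1.x t.2.2.x
  have h5 := A2_tri t.1.y t.2.1.y t.2.2.y
  unfold ex ey hx lx hy ly
  linarith

/-- number of points on the left of the line `g` -/
def A2_lam (g : ℕ) (t : Tri) : ℕ := ((pts t).filter fun p => decide (p.x < g)).length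

lemma A2_lam_cases {g : ℕ} {t : Tri} (h : Cr g t) : A2_lam g t = 1 ∨ A2_lam g t = 2 := by
  unfold Cr lx hx at h
  unfold A2_lam pts
  obtain ⟨p1, p2, p3⟩ := t
  simp only at h
  simp only [List.filter_cons, List.filter_nil]
  by_cases h1 : p1.x < g <;> by_cases h2 : p2.x < g <;> by_cases h3 : p3.x < g <;>
    simp [h1, h2, h3] <;> omega

lemma A2_mod {ι : Type} [DecidableEq ι] (S : Finset ι) (lam : ι → ℕ) {m : ℕ} (hm : 2 ≤ m)
    (hS : m + 1 ≤ S.card) (hlam : ∀ i ∈ S, lam i = 1 ∨ lam i = 2) :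
    ∃ K ⊆ S, m ≤ K.card + 1 ∧ 3 ∣ ∑ i ∈ K, lam i := by
  have h0 : 0 < S.card := by omega
  obtain ⟨i1, hi1⟩ := Finset.card_pos.mp h0
  have h1 : 0 < (S.erase i1).card := by
    rw [Finset.card_erase_of_mem hi1]; omega
  obtain ⟨i2, hi2⟩ := Finset.card_pos.mp h1
  have hi2' : i2 ∈ S := Finset.mem_of_mem_erase hi2
  have hne : i2 ≠ i1 := Finset.ne_of_mem_erase hi2
  have c1 : (S.erase i1).card = S.card - 1 := Finset.card_erase_of_mem hi1
  have c2 : (S.erase i2).card = S.card - 1 := Finset.card_erase_of_mem hi2'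
  have c3 : ((S.erase i1).erase i2).card = S.card - 1 - 1 := by
    rw [Finset.card_erase_of_mem hi2, c1]
  set s := ∑ i ∈ (S.erase i1).erase i2, lam i with hs
  have e1 : ∑ i ∈ S.erase i1, lam i = lam i2 + s := (Finset.add_sum_erase _ lam hi2).symm
  have e0 : ∑ i ∈ S, lam i = lam i1 + (lam i2 + s) := by
    rw [← Finset.add_sum_erase S lam hi1, e1]
  have e2 : ∑ i ∈ S.erase i2, lam i = lam i1 + s := by
    have := Finset.add_sum_erase S lam hi2'
    omega
  have l1 := hlam i1 hi1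
  have l2 := hlam i2 hi2'
  have key : 3 ∣ s ∨ 3 ∣ lam i2 + s ∨ 3 ∣ lam i1 + s ∨ 3 ∣ lam i1 + (lam i2 + s) := by omega
  rcases key with h | h | h | h
  · exact ⟨_, (Finset.erase_subset _ _).trans (Finset.erase_subset _ _), by omega, h⟩
  · exact ⟨_, Finset.erase_subset i1 S, by omega, by rw [e1]; exact h⟩
  · exact ⟨_, Finset.erase_subset i2 S, by omega, by rw [e2]; exact h⟩
  · exact ⟨S, le_rfl, by omega, by rw [e0]; exact h⟩

lemma A2_flat {ι : Type} (l : List ι) (F : ι → List Pos) :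
    ((l.flatMap F : List Pos) : Multiset Pos) = (l.map fun i => (F i : Multiset Pos)).sum := by
  induction l with
  | nil => rfl
  | cons a l ih =>
    rw [List.flatMap_cons, List.map_cons, List.sum_cons, ← ih, Multiset.coe_add]

lemma A2_flat' {ι : Type} (K : Finset ι) (F : ι → List Pos) :
    ((K.toList.flatMap F : List Pos) : Multiset Pos) = ∑ i ∈ K, (F i : Multiset Pos) := by
  rw [A2_flat, Finset.sum_map_toList]

lemma A2_ex_le {t : Tri} {p : Pos} (hp : p ∈ pts t) : lx t ≤ p.x ∧ p.x ≤ hx t := by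
  unfold pts at hp
  unfold lx hx
  simp only [List.mem_cons, List.not_mem_nil, or_false] at hp
  rcases hp with rfl | rfl | rfl <;> omega

/-- labels of the new triples -/
def A2_lab (m j : ℕ) (t : Tri) : ℕ := max j (Nat.size (m * ss t))

lemma A2_wt {m j : ℕ} {κ : ℝ} (hm : 2 ≤ m) (hκ0 : 0 ≤ κ) (hκ : κ * m ≤ 1) (t : Tri) :
    wt κ (t, A2_lab m j t) ≤ 4 * ((ex t : ℝ) + ey t) + 2 ^ j / m := by
  have hm0 : (0:ℝ) < m := by
    have : 0 < m := by omega
    exact_mod_cast this
  have h1 := A2_per t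
  have h2 : (2:ℝ) ^ A2_lab m j t ≤ 2 ^ j + 2 * (m * ss t : ℕ) := by
    unfold A2_lab
    rcases le_total (Nat.size (m * ss t)) j with h | h
    · rw [max_eq_left h]
      have : (0:ℝ) ≤ 2 * ((m * ss t : ℕ) : ℝ) := by positivity
      linarith
    · rw [max_eq_right h]
      have h3 : (2:ℝ) ^ Nat.size (m * ss t) ≤ 2 ^ j + 2 * (m * ss t : ℕ) := by
        rcases Nat.eq_zero_or_pos (m * ss t) with h0 | h0
        · rw [h0, Nat.size_zero, pow_zero]
          have : (1:ℝ) ≤ 2 ^ j := one_le_pow₀ (by norm_num)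
          push_cast
          linarith
        · have hs : 0 < Nat.size (m * ss t) := Nat.size_pos.mpr h0
          obtain ⟨k, hk⟩ : ∃ k, Nat.size (m * ss t) = k + 1 := ⟨_, (Nat.succ_pred_eq_of_pos hs).symm⟩
          have h4 : 2 ^ k ≤ m * ss t := by
            by_contra hcon
            have := Nat.size_le.mpr (not_le.mp hcon)
            omega
          rw [hk]
          have h5 : ((2 ^ k : ℕ) : ℝ) ≤ (m * ss t : ℕ) := by exact_mod_cast h4
          push_cast at h5 ⊢
          have : (0:ℝ) ≤ 2 ^ j := by positivity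
          rw [pow_succ]
          linarith
      exact h3
  have h3 : κ * 2 ^ A2_lab m j t ≤ 2 ^ j / m + 2 * ((ex t : ℝ) + ey t) := by
    calc κ * 2 ^ A2_lab m j t ≤ κ * (2 ^ j + 2 * (m * ss t : ℕ)) := by gcongr
      _ = κ * 2 ^ j + 2 * ((κ * m) * ss t) := by push_cast; ring
      _ ≤ 1 / m * 2 ^ j + 2 * (1 * ss t) := by
          gcongr
          rw [le_div_iff₀ hm0]
          exact hκ
      _ ≤ _ := by
          have h4 : (ss t : ℝ) ≤ ex t + ey t := by
            have : ss t ≤ ex t + ey t := by unfold ss; omega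
            exact_mod_cast this
          have e : 1 / (m:ℝ) * 2 ^ j = 2 ^ j / m := by ring
          rw [e]
          linarith
  unfold wt
  simp only
  linarith

lemma A2_wt_sum {m j : ℕ} {κ : ℝ} (hm : 2 ≤ m) (hκ0 : 0 ≤ κ) (hκ : κ * m ≤ 1) (B : List Tri) :
    ((B.map fun t => (t, A2_lab m j t)).map (wt κ)).sum ≤
      4 * ((B.map fun t => ex t + ey t).sum : ℕ) + 2 ^ j / m * B.length := by
  induction B with
  | nil => simp
  | cons t B ih =>
    simp only [List.map_cons, List.sum_cons, List.length_cons] at ih ⊢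
    have h1 := A2_wt (j := j) hm hκ0 hκ t
    push_cast at ih ⊢
    linarith

lemma A2_class {ι : Type} [DecidableEq ι] (u : ι → LT) (m j g c : ℕ) (κ : ℝ) (C : Cls)
    (S : Finset ι) (hm : 2 ≤ m) (hκ0 : 0 ≤ κ) (hκ : κ * m ≤ 1)
    (hS : ∀ i ∈ S, Cr g (u i).1 ∧ m * ss (u i).1 < 2 ^ (u i).2 ∧ (u i).2 ≤ j ∧
      C.cls j (u i).1 = some c) (hcard : m + 1 ≤ S.card) :
    ∃ K ⊆ S, K.Nonempty ∧ ∃ B : List LT,
      ((pl (B.map Prod.fst) : List Pos) : Multiset Pos) = ∑ i ∈ K, (pts (u i).1 : Multiset Pos) ∧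
      (∀ v ∈ B, j ≤ v.2 ∧ m * ss v.1 < 2 ^ v.2 ∧ Near g j v.1 ∧ ∃ c, ∀ p ∈ pts v.1, C.reg j c p) ∧
      (B.map (wt κ)).sum ≤ 40 / m * 2 ^ j * K.card := by
  obtain ⟨K, hKS, hKc, hK3⟩ := A2_mod S (fun i => A2_lam g (u i).1) hm hcard
    (fun i hi => A2_lam_cases (hS i hi).1)
  have hm0 : (0:ℝ) < m := by
    have : 0 < m := by omega
    exact_mod_cast this
  -- left and right points
  set FL : ι → List Pos := fun i => (pts (u i).1).filter fun p => decide (p.x < g) with hFL
  set FR : ι → List Pos := fun i => (pts (u i).1).filter fun p => decide (¬ p.x < g) with hFR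
  set L1 := K.toList.flatMap FL with hL1
  set L2 := K.toList.flatMap FR with hL2
  have hlen1 : L1.length = ∑ i ∈ K, A2_lam g (u i).1 := by
    rw [hL1, List.length_flatMap, Finset.sum_map_toList]
    rfl
  have hFLR : ∀ i, (FL i).length + (FR i).length = 3 := by
    intro i
    have h1 : (pts (u i).1).length = 3 := rfl
    rw [← h1]
    simp only [hFL, hFR]
    have h2 := List.length_eq_length_filter_add (l := pts (u i).1) (fun p => decide (p.x < g))
    rw [h2]
    congr 2
    apply List.filter_congr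
    intro p _
    exact decide_not
  have hlen12 : L1.length + L2.length = 3 * K.card := by
    rw [hL1, hL2, List.length_flatMap, Finset.sum_map_toList, List.length_flatMap,
      Finset.sum_map_toList, ← Finset.sum_add_distrib, Finset.sum_congr rfl (fun i _ => hFLR i)]
    simp [mul_comm]
  obtain ⟨q1, hq1⟩ := hK3
  have hq1' : L1.length = 3 * q1 := by rw [hlen1, hq1]
  obtain ⟨q2, hq2⟩ : ∃ q2, L2.length = 3 * q2 := ⟨K.card - q1, by omega⟩
  have hq : q1 + q2 = K.card := by omega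
  -- widths
  set w0 : ℕ := (2 ^ j - 1) / m with hw0
  have h2j : 0 < 2 ^ j := by positivity
  have hw0j : w0 < 2 ^ j := by
    have : w0 ≤ 2 ^ j - 1 := Nat.div_le_self _ _
    omega
  have hss : ∀ i ∈ S, ss (u i).1 ≤ w0 := by
    intro i hi
    obtain ⟨_, h1, h2, _⟩ := hS i hi
    rw [hw0, Nat.le_div_iff_mul_le (by omega)]
    have h3 : 2 ^ (u i).2 ≤ 2 ^ j := Nat.pow_le_pow_right (by norm_num) h2
    have h4 : ss (u i).1 * m = m * ss (u i).1 := mul_comm _ _
    omega
  have hex : ∀ i ∈ S, hx (u i).1 ≤ lx (u i).1 + w0 := by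
    intro i hi
    have h1 := hss i hi
    unfold ss ex at h1
    have h2 := (hS i hi).1
    unfold Cr at h2
    omega
  have hmem1 : ∀ p ∈ L1, ∃ i ∈ K, p ∈ pts (u i).1 ∧ p.x < g := by
    intro p hp
    rw [hL1, List.mem_flatMap] at hp
    obtain ⟨i, hi, hp⟩ := hp
    simp only [hFL, List.mem_filter, decide_eq_true_eq] at hp
    exact ⟨i, Finset.mem_toList.mp hi, hp.1, hp.2⟩
  have hmem2 : ∀ p ∈ L2, ∃ i ∈ K, p ∈ pts (u i).1 ∧ g ≤ p.x := by
    intro p hp
    rw [hL2, List.mem_flatMap] at hp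
    obtain ⟨i, hi, hp⟩ := hp
    simp only [hFR, List.mem_filter, decide_eq_true_eq] at hp
    exact ⟨i, Finset.mem_toList.mp hi, hp.1, not_lt.mp hp.2⟩
  have hleft : ∀ p ∈ L1, p.x < g ∧ g ≤ p.x + w0 := by
    intro p hp
    obtain ⟨i, hi, h1, h2⟩ := hmem1 p hp
    have h3 := A2_ex_le h1
    have h4 := hex i (hKS hi)
    have h5 := (hS i (hKS hi)).1
    unfold Cr at h5
    omega
  have hright : ∀ p ∈ L2, g ≤ p.x ∧ p.x < g + w0 := by
    intro p hp
    obtain ⟨i, hi, h1, h2⟩ := hmem2 p hp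
    have h3 := A2_ex_le h1
    have h4 := hex i (hKS hi)
    have h5 := (hS i (hKS hi)).1
    unfold Cr at h5
    omega
  have hyb : ∀ i ∈ K, ∀ p ∈ pts (u i).1, C.base j c ≤ p.y ∧ p.y ≤ C.base j c + 2 * 2 ^ j := by
    intro i hi p hp
    apply C.hbase j (u i).1 c _ (hS i (hKS hi)).2.2.2 p hp
    have h1 := hss i (hKS hi)
    unfold ss at h1
    omega
  have hreg : ∀ i ∈ K, ∀ p ∈ pts (u i).1, C.reg j c p := fun i hi =>
    C.hreg j (u i).1 c (hS i (hKS hi)).2.2.2
  obtain ⟨B1, b11, b12, b13⟩ := group_points L1 q1 w0 (2 * 2 ^ j) (C.base j c) hq1'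
    (fun p hp p' hp' => by
      have := hleft p hp
      have := hleft p' hp'
      omega)
    (fun p hp => by
      obtain ⟨i, hi, h1, -⟩ := hmem1 p hp
      exact hyb i hi p h1)
  obtain ⟨B2, b21, b22, b23⟩ := group_points L2 q2 w0 (2 * 2 ^ j) (C.base j c) hq2
    (fun p hp p' hp' => by
      have := hright p hp
      have := hright p' hp'
      omega)
    (fun p hp => by
      obtain ⟨i, hi, h1, -⟩ := hmem2 p hp
      exact hyb i hi p h1)
  have hmemB : ∀ (B : List Tri) (t : Tri), t ∈ B → ∀ p ∈ pts t, p ∈ pl B := by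
    intro B t ht p hp
    unfold pl
    rw [List.mem_flatMap]
    exact ⟨t, ht, hp⟩
  refine ⟨K, hKS, ?_, (B1 ++ B2).map (fun t => (t, A2_lab m j t)), ?_, ?_, ?_⟩
  · apply Finset.card_pos.mp
    omega
  · rw [List.map_map]
    have e1 : (Prod.fst ∘ fun t : Tri => ((t, A2_lab m j t) : LT)) = id := rfl
    rw [e1, List.map_id]
    have e2 : pl (B1 ++ B2) = pl B1 ++ pl B2 := by
      unfold pl
      rw [List.flatMap_append]
    rw [e2, ← Multiset.coe_add, Multiset.coe_eq_coe.mpr b12, Multiset.coe_eq_coe.mpr b22, hL1, hL2,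
      A2_flat', A2_flat', ← Finset.sum_add_distrib]
    apply Finset.sum_congr rfl
    intro i _
    simp only [hFL, hFR]
    rw [← Multiset.filter_coe, ← Multiset.filter_coe]
    exact Multiset.filter_add_not _ _
  · intro v hv
    rw [List.mem_map] at hv
    obtain ⟨t, ht, rfl⟩ := hv
    simp only
    refine ⟨le_max_left _ _, ?_, ?_⟩
    · refine lt_of_lt_of_le (Nat.lt_size_self (m * ss t)) ?_
      exact Nat.pow_le_pow_right (by norm_num) (le_max_right _ _)
    · rw [List.mem_append] at ht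
      rcases ht with ht | ht
      · have hp : ∀ p ∈ pts t, p ∈ L1 := fun p hp => b12.mem_iff.mp (hmemB B1 t ht p hp)
        refine ⟨Or.inl (fun p hp' => ?_), c, fun p hp' => ?_⟩
        · have := hleft p (hp p hp')
          omega
        · obtain ⟨i, hi, h1, -⟩ := hmem1 p (hp p hp')
          exact hreg i hi p h1
      · have hp : ∀ p ∈ pts t, p ∈ L2 := fun p hp => b22.mem_iff.mp (hmemB B2 t ht p hp)
        refine ⟨Or.inr (fun p hp' => ?_), c, fun p hp' => ?_⟩
        · have := hright p (hp p hp')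
          omega
        · obtain ⟨i, hi, h1, -⟩ := hmem2 p (hp p hp')
          exact hreg i hi p h1
  · refine (A2_wt_sum hm hκ0 hκ (B1 ++ B2)).trans ?_
    rw [List.map_append, List.sum_append, List.length_append, b11, b21, hq]
    have h1 : (((B1.map fun t => ex t + ey t).sum + (B2.map fun t => ex t + ey t).sum : ℕ) : ℝ) ≤
        K.card * (2 ^ j / m) + 4 * 2 ^ j := by
      have h2 : (B1.map fun t => ex t + ey t).sum + (B2.map fun t => ex t + ey t).sum ≤
          K.card * w0 + 4 * 2 ^ j := by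
        rw [← hq]
        have : (q1 + q2) * w0 = q1 * w0 + q2 * w0 := by ring
        rw [this]
        omega
      have h3 : (w0 : ℝ) ≤ 2 ^ j / m := by
        rw [le_div_iff₀ hm0]
        have h4 : w0 * m ≤ 2 ^ j := by
          have := Nat.div_mul_le_self (2 ^ j - 1) m
          rw [← hw0] at this
          omega
        exact_mod_cast h4
      calc (((B1.map fun t => ex t + ey t).sum + (B2.map fun t => ex t + ey t).sum : ℕ) : ℝ)
          ≤ ((K.card * w0 + 4 * 2 ^ j : ℕ) : ℝ) := by exact_mod_cast h2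
        _ = K.card * w0 + 4 * 2 ^ j := by push_cast; ring
        _ ≤ _ := by gcongr
    have h5 : (m : ℝ) ≤ 2 * K.card := by
      have : m ≤ 2 * K.card := by omega
      exact_mod_cast this
    have h6 : (2:ℝ) ^ j ≤ 2 * (K.card * (2 ^ j / m)) := by
      have e1 : 2 * ((K.card : ℝ) * (2 ^ j / m)) = (2 * K.card) / m * 2 ^ j := by ring
      rw [e1]
      have h7 : 1 ≤ (2 * (K.card : ℝ)) / m := by rw [one_le_div₀ hm0]; exact h5
      have : (0:ℝ) < 2 ^ j := by positivity
      nlinarith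
    have h8 : (0:ℝ) ≤ K.card * (2 ^ j / m) := by positivity
    calc 4 * (((B1.map fun t => ex t + ey t).sum + (B2.map fun t => ex t + ey t).sum : ℕ) : ℝ) +
          2 ^ j / m * (K.card : ℕ)
        ≤ 4 * (K.card * (2 ^ j / m) + 4 * 2 ^ j) + 2 ^ j / m * K.card := by gcongr
      _ ≤ 40 * (K.card * (2 ^ j / m)) := by linarith
      _ = _ := by ring

theorem level_step {ι : Type} [DecidableEq ι] (u : ι → LT) (m j g : ℕ) (κ : ℝ) (C : Cls)
    (R : Finset ι) (hm : 2 ≤ m) (hκ0 : 0 ≤ κ) (hκ : κ * m ≤ 1)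
    (hR : ∀ i ∈ R, Cr g (u i).1 ∧ m * ss (u i).1 < 2 ^ (u i).2) :
    ∃ K ⊆ R, ∃ B : List LT,
      (∀ i ∈ K, (u i).2 ≤ j) ∧
      (∀ c, ((R \ K).filter fun i => (u i).2 ≤ j ∧ C.cls j (u i).1 = some c).card ≤ m) ∧
      ((pl (B.map Prod.fst) : List Pos) : Multiset Pos) = ∑ i ∈ K, (pts (u i).1 : Multiset Pos) ∧
      (∀ v ∈ B, j ≤ v.2 ∧ m * ss v.1 < 2 ^ v.2 ∧ Near g j v.1 ∧ ∃ c, ∀ p ∈ pts v.1, C.reg j c p) ∧
      (B.map (wt κ)).sum ≤ 40 / m * 2 ^ j * K.card := by
  induction hn : R.card using Nat.strong_induction_on generalizing R with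
  | _ n ih =>
    by_cases hall : ∀ c, (R.filter fun i => (u i).2 ≤ j ∧ C.cls j (u i).1 = some c).card ≤ m
    · refine ⟨∅, Finset.empty_subset _, [], by simp, ?_, ?_, by simp, by simp⟩
      · rw [Finset.sdiff_empty]; exact hall
      · rfl
    · push Not at hall
      obtain ⟨c, hc⟩ := hall
      set S := R.filter fun i => (u i).2 ≤ j ∧ C.cls j (u i).1 = some c with hS
      have hSR : S ⊆ R := Finset.filter_subset _ _
      obtain ⟨K1, hK1, hK1n, B1, b11, b12, b13⟩ := A2_class u m j g c κ C S hm hκ0 hκ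
        (fun i hi => by
          have h1 := (Finset.mem_filter.mp hi)
          exact ⟨(hR i h1.1).1, (hR i h1.1).2, h1.2.1, h1.2.2⟩) hc
      have hK1R : K1 ⊆ R := hK1.trans hSR
      have hcard : (R \ K1).card < n := by
        rw [← hn]
        apply Finset.card_lt_card
        exact Finset.sdiff_ssubset hK1R hK1n
      obtain ⟨K2, hK2, B2, b20, b21, b22, b23, b24⟩ := ih _ hcard (R \ K1)
        (fun i hi => hR i (Finset.sdiff_subset hi)) rfl
      have hdisj : Disjoint K1 K2 := by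
        rw [Finset.disjoint_left]
        intro i h1 h2
        exact (Finset.mem_sdiff.mp (hK2 h2)).2 h1
      refine ⟨K1 ∪ K2, ?_, B1 ++ B2, ?_, ?_, ?_, ?_, ?_⟩
      · exact Finset.union_subset hK1R (hK2.trans Finset.sdiff_subset)
      · intro i hi
        rcases Finset.mem_union.mp hi with h | h
        · exact (Finset.mem_filter.mp (hK1 h)).2.1
        · exact b20 i h
      · intro c'
        have e : R \ (K1 ∪ K2) = (R \ K1) \ K2 := by
          ext i
          simp only [Finset.mem_sdiff, Finset.mem_union]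
          tauto
        rw [e]
        exact b21 c'
      · have e2 : pl ((B1 ++ B2).map Prod.fst) = pl (B1.map Prod.fst) ++ pl (B2.map Prod.fst) := by
          unfold pl
          rw [List.map_append, List.flatMap_append]
        rw [e2, ← Multiset.coe_add, b11, b22, Finset.sum_union hdisj]
      · intro v hv
        rcases List.mem_append.mp hv with h | h
        · exact b12 v h
        · exact b23 v h
      · rw [List.map_append, List.sum_append, Finset.card_union_of_disjoint hdisj]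
        push_cast
        calc _ ≤ 40 / (m:ℝ) * 2 ^ j * K1.card + 40 / m * 2 ^ j * K2.card := add_le_add b13 b24
          _ = _ := by ring

end Pool.Agent.M3
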