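import Pool.Agent.TM2Lib.Unary2

/-!
# Binary arithmetic in polynomial time
-/

namespace Pool.Agent.M3

open Pool.Agent.TM2Lib

/-! ### digits -/

/-- one step of a ripple: the state is (carry, (digits of the second number, output)) -/
def D1_step (φ : Bool → Bool → Bool → Bool) (s : Bool × (List Bool × List Bool)) (b : Bool) :
    Bool × (List Bool × List Bool) :=
  (φ s.1 b (s.2.1.headD false), (s.2.1.tail,
    xor (xor b (s.2.1.headD false)) s.1 :: s.2.2))

/-- carry of the addition -/
def D1_ca (c b d : Bool) : Bool := (b && d) || (c && xor b d)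

/-- borrow of the subtraction -/
def D1_bo (c b d : Bool) : Bool := (!b && (d || c)) || (d && c)

/-- value with a carry -/
def D1_val (s : Bool × (List Bool × List Bool)) : ℕ :=
  bval s.2.2.reverse + 2 ^ s.2.2.length * (bval s.2.1 + s.1.toNat)

theorem D1_bval_append (l l' : List Bool) :
    bval (l ++ l') = bval l + 2 ^ l.length * bval l' := by
  induction l with
  | nil =>
    have : bval ([] : List Bool) = 0 := rfl
    simp [this]
  | cons b l ih =>
    have h1 : bval ((b :: l) ++ l') = Nat.bit b (bval (l ++ l')) := rfl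
    have h2 : bval (b :: l) = Nat.bit b (bval l) := rfl
    rw [h1, h2, ih, List.length_cons, pow_succ]
    cases b <;> simp <;> ring

theorem D1_bval_drop (l : List Bool) : ∀ k, bval (l.drop k) = bval l / 2 ^ k := by
  induction l with
  | nil =>
    intro k
    have : bval ([] : List Bool) = 0 := rfl
    simp [this]
  | cons b l ih =>
    intro k
    rcases k with _ | k
    · simp
    · rw [List.drop_succ_cons, ih]
      have h2 : bval (b :: l) = Nat.bit b (bval l) := rfl
      rw [h2, pow_succ', ← Nat.div_div_eq_div_mul]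
      congr 1
      cases b <;> simp <;> omega

theorem D1_ca_iter (l : List Bool) : ∀ s : Bool × (List Bool × List Bool),
    D1_val (l.foldl (D1_step D1_ca) s) = D1_val s + 2 ^ s.2.2.length * bval l := by
  induction l with
  | nil =>
    intro s
    have : bval ([] : List Bool) = 0 := rfl
    simp [this]
  | cons b l ih =>
    rintro ⟨c, l2, out⟩
    rw [List.foldl_cons, ih]
    have h2 : bval (b :: l) = Nat.bit b (bval l) := rfl
    rw [h2]
    unfold D1_val D1_step D1_ca
    simp only [List.reverse_cons, D1_bval_append, List.length_reverse, List.length_cons, pow_succ]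
    rcases l2 with _ | ⟨d, l2⟩
    · have h0 : bval ([] : List Bool) = 0 := rfl
      have h3 : ∀ x : Bool, bval [x] = x.toNat := by decide
      simp only [List.headD_nil, List.tail_nil, h0, h3]
      cases b <;> cases c <;> simp <;> ring
    · have h0 : bval (d :: l2) = Nat.bit d (bval l2) := rfl
      have h3 : ∀ x : Bool, bval [x] = x.toNat := by decide
      simp only [List.headD_cons, List.tail_cons, h0, h3]
      cases b <;> cases c <;> cases d <;> simp <;> ring

theorem D1_bo_iter (l : List Bool) : ∀ s : Bool × (List Bool × List Bool),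
    bval s.2.1 + s.1.toNat ≤ bval l →
    bval (l.foldl (D1_step D1_bo) s).2.2.reverse +
      2 ^ s.2.2.length * (bval s.2.1 + s.1.toNat) =
      bval s.2.2.reverse + 2 ^ s.2.2.length * bval l := by
  induction l with
  | nil =>
    rintro ⟨c, l2, out⟩ h
    have h0 : bval ([] : List Bool) = 0 := rfl
    rw [h0] at h ⊢
    simp only at h ⊢
    have h1 : bval l2 + c.toNat = 0 := by omega
    rw [List.foldl_nil, h1]
  | cons b l ih =>
    rintro ⟨c, l2, out⟩ h
    rw [List.foldl_cons]
    have h2 : bval (b :: l) = Nat.bit b (bval l) := rfl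
    rw [h2] at h ⊢
    have h3 : ∀ x : Bool, bval [x] = x.toNat := by decide
    have ih' := ih (D1_step D1_bo (c, (l2, out)) b)
    obtain ⟨d, hd⟩ : ∃ d, d = l2.headD false := ⟨_, rfl⟩
    obtain ⟨v, hv⟩ : ∃ v, v = bval l2.tail := ⟨_, rfl⟩
    have h4 : bval l2 = Nat.bit d v := by
      rcases l2 with _ | ⟨d', l2⟩
      · subst hd; subst hv; rfl
      · subst hd; subst hv; rfl
    have h5 : (D1_step D1_bo (c, (l2, out)) b) =
        (D1_bo c b d, (l2.tail, xor (xor b d) c :: out)) := by rw [hd]; rfl
    rw [h5] at ih' ⊢
    simp only [← hv, List.reverse_cons, D1_bval_append, List.length_reverse, List.length_cons,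
      pow_succ, h3] at ih'
    simp only [h4] at h ⊢
    obtain ⟨w, hw⟩ : ∃ w, w = bval l := ⟨_, rfl⟩
    obtain ⟨P, hP⟩ : ∃ P, P = 2 ^ out.length := ⟨_, rfl⟩
    rw [← hw] at h ih' ⊢
    rw [← hP] at ih' ⊢
    generalize bval (List.foldl (D1_step D1_bo) _ l).2.2.reverse = X at ih' ⊢
    have h6 : v + (D1_bo c b d).toNat ≤ w := by
      revert h
      cases b <;> cases c <;> cases d <;> simp [D1_bo] <;> omega
    have h7 := ih' h6
    revert h h7
    cases b <;> cases c <;> cases d <;> simp [D1_bo] <;> intro h7 h8 <;> nlinarith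

/-- size of a number -/
theorem D1_sz_nat (n : ℕ) : sz n ≤ 4 * Nat.size n + 1 := by
  have h1 : sz n = sz n.bits := rfl
  have h2 : ∀ l : List Bool, sz l ≤ 4 * l.length + 1 := by
    intro l
    induction l with
    | nil => simp
    | cons b l ih =>
      rw [sz_cons, List.length_cons]
      have := Poly.sz_bool_le b
      omega
  have h3 := h2 n.bits
  rw [← Nat.size_eq_bits_len]
  omega

theorem D1_size_le_sz (n : ℕ) : Nat.size n ≤ sz n := by
  rw [← Nat.size_eq_bits_len]
  exact (length_lt_sz n.bits).le

theorem D1_size_mul (x y : ℕ) : Nat.size (x * y) ≤ Nat.size x + Nat.size y := by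
  rw [Nat.size_le, pow_add]
  exact Nat.mul_lt_mul'' (Nat.lt_size_self x) (Nat.lt_size_self y)

theorem D1_size_add (x y : ℕ) : Nat.size (x + y) ≤ Nat.size x + Nat.size y + 1 := by
  rw [Nat.size_le, pow_succ, pow_add]
  have h1 := Nat.lt_size_self x
  have h2 := Nat.lt_size_self y
  have h3 : 1 ≤ 2 ^ Nat.size x := Nat.one_le_two_pow
  have h4 : 1 ≤ 2 ^ Nat.size y := Nat.one_le_two_pow
  nlinarith

theorem D1_size_sum (l : List ℕ) : Nat.size l.sum ≤ 2 * sz l := by
  induction l with
  | nil => simp
  | cons x l ih =>
    rw [List.sum_cons, sz_cons]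
    have h1 := D1_size_add x l.sum
    have h2 := D1_size_le_sz x
    omega

theorem D1_size_prod (l : List ℕ) : Nat.size l.prod ≤ sz l := by
  induction l with
  | nil =>
    have : Nat.size 1 = 1 := by decide
    simp [this]
  | cons x l ih =>
    rw [List.prod_cons, sz_cons]
    have h1 := D1_size_mul x l.prod
    have h2 := D1_size_le_sz x
    omega

section D
variable {α β : Type} [Enc α] [Enc β]

/-- functions on three truth values -/
theorem D1_poly3 (φ : Bool → Bool → Bool → Bool) {f g h : α → Bool} (hf : Poly f) (hg : Poly g)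
    (hh : Poly h) : Poly (fun a => φ (f a) (g a) (h a)) :=
  (Poly.ite hf
    (Poly.ite hg (Poly.ite hh (TM2Lib.Poly.const (φ true true true)) (TM2Lib.Poly.const (φ true true false)))
      (Poly.ite hh (TM2Lib.Poly.const (φ true false true)) (TM2Lib.Poly.const (φ true false false))))
    (Poly.ite hg (Poly.ite hh (TM2Lib.Poly.const (φ false true true)) (TM2Lib.Poly.const (φ false true false)))
      (Poly.ite hh (TM2Lib.Poly.const (φ false false true))
        (TM2Lib.Poly.const (φ false false false))))).of_eq fun a => by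
    cases f a <;> cases g a <;> cases h a <;> rfl

theorem D1_ripple (φ : Bool → Bool → Bool → Bool) {f g : α → List Bool} (c : Bool)
    (hf : Poly f) (hg : Poly g) :
    Poly (fun a => (f a).foldl (D1_step φ) (c, (g a, []))) := by
  refine Poly.foldl_add (f := f) (g := fun a => (c, (g a, ([] : List Bool))))
    (h := fun p : α × ((Bool × (List Bool × List Bool)) × Bool) => D1_step φ p.2.1 p.2.2)
    hf ((TM2Lib.Poly.const _).pair (hg.pair (TM2Lib.Poly.const _))) ?_ (Polynomial.C 10) ?_
  · have h1 : Poly (fun p : α × ((Bool × (List Bool × List Bool)) × Bool) =>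
        p.2.1.2.1.headD false) := Poly.headD Poly.id.snd'.fst'.snd'.fst' (TM2Lib.Poly.const _)
    exact (D1_poly3 φ Poly.id.snd'.fst'.fst' Poly.id.snd'.snd' h1).pair
      ((Poly.tail Poly.id.snd'.fst'.snd'.fst').pair
        (Poly.cons ((Poly.id.snd'.snd'.bne h1).bne Poly.id.snd'.fst'.fst')
          Poly.id.snd'.fst'.snd'.snd'))
  · rintro a ⟨c', l2, out⟩ b _
    unfold D1_step
    simp only [sz_pair, sz_cons, Polynomial.eval_C]
    have h1 := Poly.sz_bool_le (φ c' b (l2.headD false))
    have h2 := Poly.sz_bool_le (xor (xor b (l2.headD false)) c')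
    have h3 := Poly.sz_drop_le l2 1
    rw [List.drop_one] at h3
    omega

theorem poly_nat_add {f g : α → ℕ} (hf : Poly f) (hg : Poly g) : Poly (fun a => f a + g a) := by
  -- pad the first number
  have hl : Poly (fun a => (f a).bits ++ ((g a).bits ++ [true]).map (fun _ => false)) :=
    Poly.append hf.bits (TM2Lib.Poly.map (h := fun _ : α × Bool => false)
      (Poly.append hg.bits (TM2Lib.Poly.const [true])) (TM2Lib.Poly.const _))
  have h1 := D1_ripple D1_ca false hl hg.bits
  refine (Poly.bval (Poly.reverse h1.snd'.snd')).of_eq fun a => ?_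
  have h2 := D1_ca_iter ((f a).bits ++ ((g a).bits ++ [true]).map (fun _ => false))
    (false, ((g a).bits, []))
  set l := (f a).bits ++ ((g a).bits ++ [true]).map (fun _ => false) with hlq
  have hzero : ∀ l : List Bool, bval (l.map fun _ => false) = 0 := by
    intro l
    induction l with
    | nil => rfl
    | cons b l ih =>
      have : bval ((b :: l).map fun _ => false) = Nat.bit false (bval (l.map fun _ => false)) :=
        rfl
      rw [this, ih]; rfl
  have hbl : bval l = f a := by
    rw [hlq, D1_bval_append, hzero, bval_bits]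
    ring
  have hlen : (f a).bits.length + ((g a).bits.length + 1) = l.length := by
    simp [hlq]
  have hnil : bval ([] : List Bool) = 0 := rfl
  have h3 : D1_val (false, ((g a).bits, ([] : List Bool))) = g a := by
    unfold D1_val
    simp [bval_bits, hnil]
  rw [h3, hbl] at h2
  simp only [List.length_nil, pow_zero, one_mul] at h2
  have hout : ∀ (l : List Bool) (s : Bool × (List Bool × List Bool)),
      (l.foldl (D1_step D1_ca) s).2.2.length = s.2.2.length + l.length := by
    intro l
    induction l with
    | nil => intro s; rfl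
    | cons b l ih =>
      intro s
      rw [List.foldl_cons, ih]
      unfold D1_step
      simp only [List.length_cons]
      omega
  have h4 := hout l (false, ((g a).bits, []))
  simp only [List.length_nil, zero_add] at h4
  unfold D1_val at h2
  rw [h4] at h2
  show bval (l.foldl (D1_step D1_ca) (false, ((g a).bits, []))).2.2.reverse = f a + g a
  have h5 : g a + f a < 2 ^ l.length := by
    have e1 : (f a).bits.length = Nat.size (f a) := Nat.size_eq_bits_len _
    have e2 : (g a).bits.length = Nat.size (g a) := Nat.size_eq_bits_len _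
    rw [e1, e2] at hlen
    rw [← hlen, pow_add, pow_succ]
    have h1 := Nat.lt_size_self (f a)
    have h2 := Nat.lt_size_self (g a)
    have h3 : 1 ≤ 2 ^ Nat.size (f a) := Nat.one_le_two_pow
    have h4 : 1 ≤ 2 ^ Nat.size (g a) := Nat.one_le_two_pow
    nlinarith
  generalize (l.foldl (D1_step D1_ca) (false, ((g a).bits, []))) = S at h2 ⊢
  rcases Nat.eq_zero_or_pos (bval S.2.1 + S.1.toNat) with h6 | h6
  · rw [h6, mul_zero, add_zero] at h2
    rw [h2]; ring
  · have := Nat.mul_le_mul_left (2 ^ l.length) h6
    omega

theorem poly_nat_sub {f g : α → ℕ} (hf : Poly f) (hg : Poly g) : Poly (fun a => f a - g a) := by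
  have h1 := D1_ripple D1_bo false hf.bits hg.bits
  refine (Poly.ite (Poly.nat_le hg hf) (Poly.bval (Poly.reverse h1.snd'.snd'))
    (TM2Lib.Poly.const 0)).of_eq fun a => ?_
  by_cases h : g a ≤ f a
  · rw [if_pos (by simpa using h)]
    have h2 := D1_bo_iter (f a).bits (false, ((g a).bits, [])) (by
      simpa [bval_bits] using h)
    have hnil : bval ([] : List Bool) = 0 := rfl
    simp only [List.reverse_nil, hnil, List.length_nil, pow_zero, one_mul, bval_bits,
      Bool.toNat_false, add_zero, zero_add] at h2
    omega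
  · rw [if_neg (by simpa using h)]
    omega

theorem poly_nat_mul {f g : α → ℕ} (hf : Poly f) (hg : Poly g) : Poly (fun a => f a * g a) := by
  obtain ⟨F, hF⟩ := hf.size
  obtain ⟨G, hG⟩ := hg.size
  have key : ∀ (a : α) (l : List Bool),
      l.foldr (fun b s => s + s + if b then g a else 0) 0 = bval l * g a := by
    intro a l
    induction l with
    | nil =>
      have hnil : bval ([] : List Bool) = 0 := rfl
      rw [hnil, List.foldr_nil, zero_mul]
    | cons b l ih =>
      have h2 : bval (b :: l) = Nat.bit b (bval l) := rfl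
      rw [List.foldr_cons, ih, h2]
      cases b <;> simp <;> ring
  have h1 := Poly.foldr (f := fun a => (f a).bits) (g := fun _ => 0)
    (h := fun p : α × (ℕ × Bool) => p.2.1 + p.2.1 + if p.2.2 then g p.1 else 0) hf.bits
    (TM2Lib.Poly.const 0) (poly_nat_add (poly_nat_add Poly.id.snd'.fst' Poly.id.snd'.fst')
      (Poly.ite Poly.id.snd'.snd' (hg.comp Poly.fst) (TM2Lib.Poly.const 0)))
    (4 * F + 4 * G + 1) (by
      intro a k
      simp only
      rw [key, D1_bval_drop, bval_bits]
      have h2 := D1_sz_nat (f a / 2 ^ k * g a)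
      have h3 := D1_size_mul (f a / 2 ^ k) (g a)
      have h4 : Nat.size (f a / 2 ^ k) ≤ Nat.size (f a) := Nat.size_le_size (Nat.div_le_self _ _)
      have h5 := D1_size_le_sz (f a)
      have h6 := D1_size_le_sz (g a)
      have h7 := hF a
      have h8 := hG a
      simp only [Polynomial.eval_add, Polynomial.eval_mul, Polynomial.eval_ofNat,
        Polynomial.eval_one]
      omega)
  refine h1.of_eq fun a => ?_
  simp only
  rw [key, bval_bits]

theorem poly_nat_lt {f g : α → ℕ} (hf : Poly f) (hg : Poly g) :
    Poly (fun a => decide (f a < g a)) :=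
  (Poly.not (Poly.nat_le hg hf)).of_eq fun a => by
    rw [Bool.eq_iff_iff]
    simp only [Bool.not_eq_true', decide_eq_false_iff_not, decide_eq_true_eq]
    omega

theorem poly_pow2 {g : α → ℕ} (hg : UPoly g) : Poly (fun a => 2 ^ g a) := by
  refine (Poly.bval (Poly.append (TM2Lib.Poly.map (h := fun _ : α × Unit => false) hg.list
    (TM2Lib.Poly.const false)) (TM2Lib.Poly.const [true]))).of_eq fun a => ?_
  rw [D1_bval_append]
  have hzero : ∀ l : List Unit, bval (l.map fun _ => false) = 0 := by
    intro l
    induction l with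
    | nil => rfl
    | cons b l ih =>
      have : bval ((b :: l).map fun _ => false) = Nat.bit false (bval (l.map fun _ => false)) :=
        rfl
      rw [this, ih]; rfl
  have h1 : bval [true] = 1 := rfl
  rw [hzero, h1]
  simp [un]

theorem poly_div_pow2 {f g : α → ℕ} (hf : Poly f) (hg : UPoly g) :
    Poly (fun a => f a / 2 ^ g a) :=
  (Poly.bval (Poly.dropU hf.bits hg)).of_eq fun a => by
    rw [D1_bval_drop, bval_bits]

theorem poly_mod_pow2 {f g : α → ℕ} (hf : Poly f) (hg : UPoly g) :
    Poly (fun a => f a % 2 ^ g a) :=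
  (poly_nat_sub hf (poly_nat_mul (poly_pow2 hg) (poly_div_pow2 hf hg))).of_eq fun a =>
    (Nat.mod_eq_sub_mul_div).symm

/-- from binary to unary, for bounded numbers -/
theorem upoly_min {f g : α → ℕ} (hf : Poly f) (hg : UPoly g) :
    UPoly (fun a => min (f a) (g a)) := by
  have key : ∀ (a : α) (l : List Bool),
      l.foldr (fun b (s : Un) => (⟨if decide (s.n + s.n + (if b then 1 else 0) ≤ g a) then
        s.n + s.n + (if b then 1 else 0) else g a⟩ : Un)) ⟨0⟩ = ⟨min (bval l) (g a)⟩ := by
    intro a l
    induction l with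
    | nil =>
      have hnil : bval ([] : List Bool) = 0 := rfl
      rw [hnil, List.foldr_nil, Nat.zero_min]
    | cons b l ih =>
      have h2 : bval (b :: l) = Nat.bit b (bval l) := rfl
      rw [List.foldr_cons, ih, h2]
      congr 1
      simp only [decide_eq_true_eq]
      cases b
      · simp only [Nat.bit_false, Bool.false_eq_true, if_false]
        split_ifs <;> omega
      · simp only [Nat.bit_true, if_true]
        split_ifs <;> omega
  have hs : UPoly (fun p : α × (Un × Bool) => p.2.1.n + p.2.1.n + (if p.2.2 then 1 else 0)) :=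
    ((UPoly.n.comp Poly.id.snd'.fst').add (UPoly.n.comp Poly.id.snd'.fst')).add
      (UPoly.ite Poly.id.snd'.snd' (UPoly.const 1) (UPoly.const 0))
  have hg' : UPoly (fun p : α × (Un × Bool) => g p.1) := UPoly.comp hg Poly.fst
  obtain ⟨G, hG⟩ := Poly.size hg
  have h1 := Poly.foldr (f := fun a => (f a).bits) (g := fun _ => (⟨0⟩ : Un))
    (h := fun p : α × (Un × Bool) => (⟨if decide (p.2.1.n + p.2.1.n +
      (if p.2.2 then 1 else 0) ≤ g p.1) then p.2.1.n + p.2.1.n + (if p.2.2 then 1 else 0)
        else g p.1⟩ : Un)) hf.bits (TM2Lib.Poly.const _) (UPoly.ite (UPoly.le hs hg') hs hg')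
    G (by
      intro a k
      simp only
      rw [key, sz_Un]
      have h2 := hG a
      rw [sz_Un] at h2
      simp only at h2 ⊢
      omega)
  exact Poly.of_eq h1 fun a => by
    simp only
    rw [key, bval_bits]

/-- length of the binary representation, in unary -/
theorem upoly_size {f : α → ℕ} (hf : Poly f) : UPoly (fun a => Nat.size (f a)) :=
  (UPoly.length hf.bits).of_eq fun a => Nat.size_eq_bits_len _

theorem D1_sum {L : α → List ℕ} (hL : Poly L) : Poly (fun a => (L a).sum) := by
  obtain ⟨F, hF⟩ := hL.size
  have h1 := Poly.foldr (f := L) (g := fun _ => 0)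
    (h := fun p : α × (ℕ × ℕ) => p.2.2 + p.2.1) hL (TM2Lib.Poly.const 0)
    (poly_nat_add Poly.id.snd'.snd' Poly.id.snd'.fst') (8 * F + 1) (by
      intro a k
      have h2 := D1_sz_nat ((L a).drop k).sum
      have h3 := D1_size_sum ((L a).drop k)
      have h4 := Poly.sz_drop_le (L a) k
      have h5 := hF a
      have h6 : ((L a).drop k).foldr (fun b s => b + s) 0 = ((L a).drop k).sum := rfl
      simp only [Polynomial.eval_add, Polynomial.eval_mul, Polynomial.eval_ofNat,
        Polynomial.eval_one]
      rw [h6]
      omega)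
  exact h1.of_eq fun a => rfl

theorem D1_prod {L : α → List ℕ} (hL : Poly L) : Poly (fun a => (L a).prod) := by
  obtain ⟨F, hF⟩ := hL.size
  have h1 := Poly.foldr (f := L) (g := fun _ => 1)
    (h := fun p : α × (ℕ × ℕ) => p.2.2 * p.2.1) hL (TM2Lib.Poly.const 1)
    (poly_nat_mul Poly.id.snd'.snd' Poly.id.snd'.fst') (4 * F + 1) (by
      intro a k
      have h2 := D1_sz_nat ((L a).drop k).prod
      have h3 := D1_size_prod ((L a).drop k)
      have h4 := Poly.sz_drop_le (L a) k
      have h5 := hF a
      have h6 : ((L a).drop k).foldr (fun b s => b * s) 1 = ((L a).drop k).prod := rfl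
      simp only [Polynomial.eval_add, Polynomial.eval_mul, Polynomial.eval_ofNat,
        Polynomial.eval_one]
      rw [h6]
      omega)
  exact h1.of_eq fun a => rfl

/-- sums -/
theorem poly_sum {f : α → List β} {h : α × β → ℕ} (hf : Poly f) (hh : Poly h) :
    Poly (fun a => ((f a).map fun b => h (a, b)).sum) :=
  D1_sum (TM2Lib.Poly.map hf hh)

/-- products -/
theorem poly_prod {f : α → List β} {h : α × β → ℕ} (hf : Poly f) (hh : Poly h) :
    Poly (fun a => ((f a).map fun b => h (a, b)).prod) :=
  D1_prod (TM2Lib.Poly.map hf hh)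

theorem upoly_sqrt {f : α → ℕ} (hf : UPoly f) : UPoly (fun a => Nat.sqrt (f a)) := by
  have h1 := Poly.filter (h := fun p : α × Un =>
    decide ((p.2.n + 1) * (p.2.n + 1) ≤ f p.1)) (Poly.range hf)
    (UPoly.le (((UPoly.n.comp Poly.id.snd').add (UPoly.const 1)).mul
      ((UPoly.n.comp Poly.id.snd').add (UPoly.const 1))) (UPoly.comp hf Poly.fst))
  refine (UPoly.length h1).of_eq fun a => ?_
  have key : ∀ (n m : ℕ), ((List.range n).map Un.mk |>.filter fun u =>
      decide ((u.n + 1) * (u.n + 1) ≤ m)).length = min n (Nat.sqrt m) := by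
    intro n m
    induction n with
    | zero => simp
    | succ n ih =>
      rw [List.range_succ, List.map_append, List.filter_append, List.length_append, ih]
      simp only [List.map_cons, List.map_nil, List.filter_cons, List.filter_nil]
      by_cases h : (n + 1) * (n + 1) ≤ m
      · have h2 : n + 1 ≤ Nat.sqrt m := Nat.le_sqrt.2 h
        rw [if_pos (by simpa using h)]
        simp only [List.length_cons, List.length_nil]
        omega
      · have h2 : ¬ n + 1 ≤ Nat.sqrt m := fun h' => h (Nat.le_sqrt.1 h')
        rw [if_neg (by simpa using h)]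
        simp only [List.length_nil]
        omega
  simp only
  rw [key]
  exact min_eq_right (Nat.sqrt_le_self _)

theorem upoly_pow2_size {f : α → ℕ} (hf : UPoly f) : UPoly (fun a => 2 ^ Nat.size (f a)) := by
  refine (upoly_min (poly_pow2 (UPoly.size hf))
    (((UPoly.const 2).mul hf).add (UPoly.const 1))).of_eq fun a => ?_
  apply min_eq_left
  rcases Nat.eq_zero_or_pos (f a) with h | h
  · rw [h]; simp
  · have h1 : Nat.size (f a) = Nat.size (f a) - 1 + 1 := by
      have := Nat.size_pos.2 h
      omega
    have h2 : 2 ^ (Nat.size (f a) - 1) ≤ f a := Nat.lt_size.1 (by omega)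
    rw [h1, pow_succ]
    omega

end D

end Pool.Agent.M3
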