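import Pool.Agent.M3.Level

/-!
# One phase of the regrouping: all vertical lines
-/

namespace Pool.Agent.M3

open Finset

/-! ### processing of the lines -/

/-- The result of the processing of every line through all levels; it does not depend on the
shift. -/
theorem A3_lines (n : ℕ) (u : Fin n → LT) (m : ℕ) (κ : ℝ) (C : Cls) (hm : 2 ≤ m)
    (hκ0 : 0 ≤ κ) (hκ : κ * m ≤ 1) (hQ : ∀ i, m * ss (u i).1 < 2 ^ (u i).2) :
    ∃ (K : ℕ → ℕ → Finset (Fin n)) (B : ℕ → ℕ → List LT),
      (∀ g j, ∀ i ∈ K g j, Cr g (u i).1 ∧ (u i).2 ≤ j) ∧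
      (∀ g j j', j < j' → Disjoint (K g j) (K g j')) ∧
      (∀ g j c, (univ.filter fun i => Cr g (u i).1 ∧ (∀ j' ≤ j, i ∉ K g j') ∧ (u i).2 ≤ j ∧
        C.cls j (u i).1 = some c).card ≤ m) ∧
      (∀ g j, ((pl ((B g j).map Prod.fst) : List Pos) : Multiset Pos) =
        ∑ i ∈ K g j, (pts (u i).1 : Multiset Pos)) ∧
      (∀ g j, ∀ v ∈ B g j, j ≤ v.2 ∧ m * ss v.1 < 2 ^ v.2 ∧ Near g j v.1 ∧
        ∃ c, ∀ p ∈ pts v.1, C.reg j c p) ∧
      (∀ g j, ((B g j).map (wt κ)).sum ≤ 40 / m * 2 ^ j * (K g j).card) := by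
  classical
  have hstep : ∀ (g j : ℕ) (R : Finset (Fin n)),
      R ⊆ univ.filter (fun i => Cr g (u i).1) → ∃ (K : Finset (Fin n)) (B : List LT), K ⊆ R ∧
      (∀ i ∈ K, (u i).2 ≤ j) ∧
      (∀ c, ((R \ K).filter fun i => (u i).2 ≤ j ∧ C.cls j (u i).1 = some c).card ≤ m) ∧
      ((pl (B.map Prod.fst) : List Pos) : Multiset Pos) = ∑ i ∈ K, (pts (u i).1 : Multiset Pos) ∧
      (∀ v ∈ B, j ≤ v.2 ∧ m * ss v.1 < 2 ^ v.2 ∧ Near g j v.1 ∧ ∃ c, ∀ p ∈ pts v.1, C.reg j c p) ∧
      (B.map (wt κ)).sum ≤ 40 / m * 2 ^ j * K.card := by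
    intro g j R hR
    obtain ⟨K, hK, B, h⟩ := level_step u m j g κ C R hm hκ0 hκ
      (fun i hi => ⟨(mem_filter.1 (hR hi)).2, hQ i⟩)
    exact ⟨K, B, hK, h⟩
  choose! K B hK h1 h2 h3 h4 h5 using hstep
  let R : ℕ → ℕ → Finset (Fin n) := fun g j =>
    Nat.rec (univ.filter (fun i => Cr g (u i).1)) (fun j R => R \ K g j R) j
  have R0 : ∀ g, R g 0 = univ.filter (fun i => Cr g (u i).1) := fun g => rfl
  have RS : ∀ g j, R g (j + 1) = R g j \ K g j (R g j) := fun g j => rfl
  have hR : ∀ g j, R g j ⊆ univ.filter (fun i => Cr g (u i).1) := by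
    intro g j
    induction j with
    | zero => rw [R0]
    | succ j ih => rw [RS]; exact sdiff_subset.trans ih
  have hanti : ∀ g j j', j ≤ j' → R g j' ⊆ R g j := by
    intro g j j' h
    induction j', h using Nat.le_induction with
    | base => exact subset_rfl
    | succ j' _ ih => rw [RS]; exact sdiff_subset.trans ih
  have hmem : ∀ g j i, i ∈ R g j ↔ Cr g (u i).1 ∧ ∀ j' < j, i ∉ K g j' (R g j') := by
    intro g j
    induction j with
    | zero =>
      intro i
      rw [R0]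
      simp
    | succ j ih =>
      intro i
      rw [RS, mem_sdiff, ih]
      constructor
      · rintro ⟨⟨a, b⟩, c⟩
        refine ⟨a, fun j' hj' => ?_⟩
        rcases Nat.lt_succ_iff_lt_or_eq.1 hj' with h | h
        · exact b j' h
        · subst h; exact c
      · rintro ⟨a, b⟩
        exact ⟨⟨a, fun j' hj' => b j' (Nat.lt_succ_of_lt hj')⟩, b j (Nat.lt_succ_self j)⟩
  refine ⟨fun g j => K g j (R g j), fun g j => B g j (R g j), ?_, ?_, ?_, ?_, ?_, ?_⟩
  · intro g j i hi
    exact ⟨(mem_filter.1 (hR g j (hK g j _ (hR g j) hi))).2, h1 g j _ (hR g j) i hi⟩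
  · intro g j j' hjj
    rw [Finset.disjoint_left]
    intro i hi hi'
    have : i ∈ R g j' := hK g j' _ (hR g j') hi'
    exact ((hmem g j' i).1 this).2 j hjj hi
  · intro g j c
    refine le_trans (card_le_card ?_) (h2 g j _ (hR g j) c)
    intro i hi
    obtain ⟨-, h1, h2, h3, h4⟩ := mem_filter.1 hi
    refine mem_filter.2 ⟨?_, h3, h4⟩
    rw [← RS]
    exact (hmem g (j + 1) i).2 ⟨h1, fun j' hj' => h2 j' (Nat.lt_succ_iff.1 hj')⟩
  · intro g j; exact h3 g j _ (hR g j)
  · intro g j; exact h4 g j _ (hR g j)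
  · intro g j; exact h5 g j _ (hR g j)

/-! ### counting shifts -/

theorem A3_count (T j g : ℕ) (hj : j ≤ T) :
    ((range (2 ^ T)).filter fun a => 2 ^ j ∣ g + a).card ≤ 2 ^ (T - j) := by
  rw [← card_range (2 ^ (T - j))]
  apply card_le_card_of_injOn (fun a => a / 2 ^ j)
  · intro a ha
    rw [Finset.mem_coe, mem_filter, mem_range] at ha
    rw [Finset.mem_coe, mem_range, Nat.div_lt_iff_lt_mul (by positivity), ← pow_add,
      Nat.sub_add_cancel hj]
    exact ha.1
  · intro a ha b hb hab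
    rw [Finset.mem_coe, mem_filter, mem_range] at ha hb
    simp only at hab
    have h1 : a % 2 ^ j = b % 2 ^ j := by
      have : g + a ≡ g + b [MOD 2 ^ j] :=
        ((Nat.modEq_zero_iff_dvd).2 ha.2).trans ((Nat.modEq_zero_iff_dvd).2 hb.2).symm
      exact Nat.ModEq.add_left_cancel' g this
    rw [← Nat.div_add_mod a (2 ^ j), ← Nat.div_add_mod b (2 ^ j), hab, h1]

theorem A3_lx_le_hx (t : Tri) : lx t ≤ hx t :=
  (min_le_left _ _).trans (le_max_left _ _)

theorem A3_ex_le_ss (t : Tri) : ex t ≤ ss t := le_max_left _ _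

/-- triples near a line of the dissection do not cross lines of the dissection -/
theorem A3_near {g j a : ℕ} {t : Tri} (h : Near g j t) (hg : 2 ^ j ∣ g + a) :
    ∀ g', 2 ^ j ∣ g' + a → ¬ Cr g' t := by
  intro g' hg' hc
  have hlx : ∃ p ∈ pts t, p.x = lx t := by
    unfold lx pts
    rcases le_total t.2.1.x t.2.2.x with h1 | h1
    · rcases le_total t.1.x t.2.1.x with h2 | h2
      · exact ⟨t.1, by simp, by rw [min_eq_left h1, min_eq_left h2]⟩
      · exact ⟨t.2.1, by simp, by rw [min_eq_left h1, min_eq_right h2]⟩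
    · rcases le_total t.1.x t.2.2.x with h2 | h2
      · exact ⟨t.1, by simp, by rw [min_eq_right h1, min_eq_left h2]⟩
      · exact ⟨t.2.2, by simp, by rw [min_eq_right h1, min_eq_right h2]⟩
  have hhx : ∃ p ∈ pts t, p.x = hx t := by
    unfold hx pts
    rcases le_total t.2.1.x t.2.2.x with h1 | h1
    · rcases le_total t.1.x t.2.2.x with h2 | h2
      · exact ⟨t.2.2, by simp, by rw [max_eq_right h1, max_eq_right h2]⟩
      · exact ⟨t.1, by simp, by rw [max_eq_right h1, max_eq_left h2]⟩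
    · rcases le_total t.1.x t.2.1.x with h2 | h2
      · exact ⟨t.2.1, by simp, by rw [max_eq_left h1, max_eq_right h2]⟩
      · exact ⟨t.1, by simp, by rw [max_eq_left h1, max_eq_left h2]⟩
  obtain ⟨p, hp, hpx⟩ := hlx
  obtain ⟨q, hq, hqx⟩ := hhx
  obtain ⟨hc1, hc2⟩ := hc
  rw [← hpx] at hc1
  rw [← hqx] at hc2
  have h2 : (2 ^ j : ℕ) ∣ g' - g ∧ (2 ^ j : ℕ) ∣ g - g' := by
    constructor
    · have := Nat.dvd_sub hg' hg
      rwa [Nat.add_sub_add_right] at this
    · have := Nat.dvd_sub hg hg'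
      rwa [Nat.add_sub_add_right] at this
  rcases h with h | h
  · have h3 := h p hp
    have h4 := h q hq
    have h5 := Nat.le_of_dvd (by omega) h2.2
    omega
  · have h3 := h p hp
    have h4 := h q hq
    have h5 := Nat.le_of_dvd (by omega) h2.1
    omega

theorem A3_per_nonneg (t : Tri) : 0 ≤ per t := by
  unfold per ed
  positivity

theorem A3_wt_nonneg {κ : ℝ} (hκ0 : 0 ≤ κ) (v : LT) : 0 ≤ wt κ v := by
  unfold wt
  have := A3_per_nonneg v.1
  positivity

/-- points of a list of labelled triples, as a multiset -/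
theorem A3_pl_coe (L : List LT) : ((pl (L.map Prod.fst) : List Pos) : Multiset Pos) =
    (L.map fun v => ((pts v.1 : List Pos) : Multiset Pos)).sum := by
  induction L with
  | nil => rfl
  | cons v L ih =>
    rw [List.map_cons, List.map_cons, List.sum_cons, ← ih]
    rfl

theorem A3_card {n : ℕ} (q : Fin n → Bool) :
    ((List.finRange n).filter q).length = (univ.filter fun i => q i = true).card := by
  rw [← List.toFinset_card_of_nodup ((List.nodup_finRange n).filter _)]
  congr 1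
  ext i
  simp

/-! ### the phase -/

theorem phase (Q : List LT) (m T : ℕ) (κ : ℝ) (C : Cls) (hm : 2 ≤ m) (hκ0 : 0 ≤ κ)
    (hκ : κ * m ≤ 1) (hQ : ∀ v ∈ Q, m * ss v.1 < 2 ^ v.2)
    (hT : 4 * (Q.map fun v => ex v.1).sum ≤ 2 ^ T) :
    ∃ a < 2 ^ T, ∃ S B : List LT, S.Subperm Q ∧
      (pl ((S ++ B).map Prod.fst)).Perm (pl (Q.map Prod.fst)) ∧
      (∀ v ∈ B, ∃ j < T, j ≤ v.2 ∧ m * ss v.1 < 2 ^ v.2 ∧ (∀ g, 2 ^ j ∣ g + a → ¬ Cr g v.1) ∧
        ∃ c, ∀ p ∈ pts v.1, C.reg j c p) ∧
      (∀ j < T, ∀ g, 2 ^ j ∣ g + a → ∀ c,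
        (S.filter fun v => decide (v.2 ≤ j ∧ Cr g v.1 ∧ C.cls j v.1 = some c)).length ≤ m) ∧
      (∀ v ∈ S, ∀ g, 2 ^ T ∣ g + a → ¬ Cr g v.1) ∧
      (B.map (wt κ)).sum ≤ 54 / m * (Q.map fun v => (ex v.1 : ℝ)).sum := by
  classical
  set n := Q.length with hn
  let u : Fin n → LT := fun i => Q.get i
  have hu : ∀ i, u i ∈ Q := fun i => List.get_mem _ _
  have hQu : (List.finRange n).map u = Q := by
    rw [← List.ofFn_eq_map]
    exact List.ofFn_get Q
  have hm0 : (0 : ℝ) < m := by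
    have : (2 : ℝ) ≤ m := by exact_mod_cast hm
    linarith
  obtain ⟨K, B, k1, k2, k3, k4, k5, k6⟩ := A3_lines n u m κ C hm hκ0 hκ (fun i => hQ _ (hu i))
  -- bound for the lines
  obtain ⟨G, hG⟩ : ∃ G, ∀ i, hx (u i).1 < G := by
    refine ⟨(∑ i, hx (u i).1) + 1, fun i => Nat.lt_succ_of_le ?_⟩
    exact Finset.single_le_sum (f := fun i => hx (u i).1) (fun _ _ => Nat.zero_le _) (mem_univ i)
  let A : ℕ → Finset (ℕ × ℕ) := fun a =>
    ((range G) ×ˢ (range T)).filter fun z => 2 ^ z.2 ∣ z.1 + a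
  have hA : ∀ a g j, (g, j) ∈ A a ↔ (g < G ∧ j < T) ∧ 2 ^ j ∣ g + a := by
    intro a g j
    simp only [A, mem_filter, mem_product, mem_range]
  -- disjointness
  have hdis : ∀ a, (A a : Set (ℕ × ℕ)).PairwiseDisjoint (fun z => K z.1 z.2) := by
    intro a z hz z' hz' hne
    obtain ⟨g, j⟩ := z
    obtain ⟨g', j'⟩ := z'
    have ha := (hA a g j).1 hz
    have ha' := (hA a g' j').1 hz'
    simp only [Function.onFun]
    rw [Finset.disjoint_left]
    intro i hi hi'
    obtain ⟨c1, c2⟩ := k1 g j i hi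
    obtain ⟨c1', c2'⟩ := k1 g' j' i hi'
    have d1 : 2 ^ (u i).2 ∣ g + a := (pow_dvd_pow 2 c2).trans ha.2
    have d2 : 2 ^ (u i).2 ∣ g' + a := (pow_dvd_pow 2 c2').trans ha'.2
    have d3 := hQ _ (hu i)
    have d4 := A3_ex_le_ss (u i).1
    have d5 : ss (u i).1 ≤ m * ss (u i).1 := Nat.le_mul_of_pos_left _ (by omega)
    have d6 : (2 ^ (u i).2 : ℕ) ∣ g' - g ∧ (2 ^ (u i).2 : ℕ) ∣ g - g' := by
      constructor
      · have := Nat.dvd_sub d2 d1
        rwa [Nat.add_sub_add_right] at this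
      · have := Nat.dvd_sub d1 d2
        rwa [Nat.add_sub_add_right] at this
    obtain ⟨e1, e2⟩ := c1
    obtain ⟨e3, e4⟩ := c1'
    unfold ex at d4
    have hgg : g = g' := by
      by_contra hgg
      rcases Nat.lt_or_gt_of_ne hgg with h | h
      · have := Nat.le_of_dvd (by omega) d6.1
        omega
      · have := Nat.le_of_dvd (by omega) d6.2
        omega
    subst hgg
    have hjj : j ≠ j' := fun h => hne (by rw [h])
    rcases Nat.lt_or_gt_of_ne hjj with h | h
    · exact Finset.disjoint_left.1 (k2 g j j' h) hi hi'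
    · exact Finset.disjoint_left.1 (k2 g j' j h) hi' hi
  let El : ℕ → Finset (Fin n) := fun a => (A a).biUnion fun z => K z.1 z.2
  let w : ℕ × ℕ → ℝ := fun z => ((B z.1 z.2).map (wt κ)).sum
  have hw0 : ∀ z, 0 ≤ w z := fun z =>
    List.sum_nonneg (by
      intro x hx
      obtain ⟨v, -, rfl⟩ := List.mem_map.1 hx
      exact A3_wt_nonneg hκ0 v)
  -- total extent
  have hsum : ((Q.map fun v => ex v.1).sum : ℕ) = ∑ i, ex (u i).1 := by
    conv_lhs => rw [← hQu, List.map_map]
    rw [← List.sum_ofFn, List.ofFn_eq_map]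
    rfl
  have hsumR : ((Q.map fun v => (ex v.1 : ℝ)).sum : ℝ) = ∑ i, (ex (u i).1 : ℝ) := by
    conv_lhs => rw [← hQu, List.map_map]
    rw [← List.sum_ofFn, List.ofFn_eq_map]
    rfl
  -- sum of the costs over all shifts
  have hcost : ∑ a ∈ range (2 ^ T), ∑ z ∈ A a, w z ≤ 40 / m * 2 ^ T * ∑ i, (ex (u i).1 : ℝ) := by
    have s1 : ∑ a ∈ range (2 ^ T), ∑ z ∈ A a, w z =
        ∑ z ∈ (range G) ×ˢ (range T),
          (((range (2 ^ T)).filter fun a => 2 ^ z.2 ∣ z.1 + a).card : ℝ) * w z := by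
      simp only [A, Finset.sum_filter]
      rw [Finset.sum_comm]
      apply Finset.sum_congr rfl
      intro z _
      rw [← Finset.sum_filter, Finset.sum_const, nsmul_eq_mul]
    rw [s1]
    have s2 : ∀ z ∈ (range G) ×ˢ (range T),
        (((range (2 ^ T)).filter fun a => 2 ^ z.2 ∣ z.1 + a).card : ℝ) * w z ≤
          40 / m * 2 ^ T * (K z.1 z.2).card := by
      intro z hz
      have hj : z.2 ≤ T := (mem_range.1 (mem_product.1 hz).2).le
      have c1 : (((range (2 ^ T)).filter fun a => 2 ^ z.2 ∣ z.1 + a).card : ℝ) ≤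
          2 ^ (T - z.2) := by
        exact_mod_cast A3_count T z.2 z.1 hj
      have c2 : w z ≤ 40 / m * 2 ^ z.2 * (K z.1 z.2).card := k6 z.1 z.2
      calc _ ≤ (2 : ℝ) ^ (T - z.2) * (40 / m * 2 ^ z.2 * (K z.1 z.2).card) :=
            mul_le_mul c1 c2 (hw0 z) (by positivity)
        _ = 40 / m * (2 ^ (T - z.2) * 2 ^ z.2) * (K z.1 z.2).card := by ring
        _ = 40 / m * 2 ^ T * (K z.1 z.2).card := by
            rw [← pow_add, Nat.sub_add_cancel hj]
    refine (Finset.sum_le_sum s2).trans ?_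
    rw [← Finset.mul_sum]
    refine mul_le_mul_of_nonneg_left ?_ (by positivity)
    have s3 : ∑ z ∈ (range G) ×ˢ (range T), (K z.1 z.2).card ≤ ∑ i, ex (u i).1 := by
      rw [Finset.sum_product]
      have s4 : ∀ g ∈ range G, ∑ j ∈ range T, (K g j).card ≤
          (univ.filter fun i => Cr g (u i).1).card := by
        intro g _
        rw [← Finset.card_biUnion]
        · apply card_le_card
          intro i hi
          obtain ⟨j, -, hj⟩ := mem_biUnion.1 hi
          exact mem_filter.2 ⟨mem_univ _, (k1 g j i hj).1⟩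
        · intro j _ j' _ hjj
          rcases Nat.lt_or_gt_of_ne hjj with h | h
          · exact k2 g j j' h
          · exact (k2 g j' j h).symm
      refine (Finset.sum_le_sum s4).trans ?_
      simp only [Finset.card_filter]
      rw [Finset.sum_comm]
      apply Finset.sum_le_sum
      intro i _
      rw [← Finset.card_filter]
      calc _ ≤ (Finset.Ioc (lx (u i).1) (hx (u i).1)).card := by
            apply card_le_card
            intro g hg
            obtain ⟨-, h1, h2⟩ := mem_filter.1 hg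
            exact Finset.mem_Ioc.2 ⟨h1, h2⟩
        _ = ex (u i).1 := by rw [Nat.card_Ioc]; rfl
    exact_mod_cast s3
  -- bad shifts
  let bad : Finset ℕ := (range (2 ^ T)).filter fun a => ∃ i, ∃ g, 2 ^ T ∣ g + a ∧ Cr g (u i).1
  have hbad : 4 * bad.card ≤ 2 ^ T := by
    have b1 : bad ⊆ univ.biUnion fun i => (Finset.Ioc (lx (u i).1) (hx (u i).1)).biUnion
        fun g => (range (2 ^ T)).filter fun a => 2 ^ T ∣ g + a := by
      intro a ha
      obtain ⟨h1, i, g, h2, h3⟩ := mem_filter.1 ha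
      refine mem_biUnion.2 ⟨i, mem_univ _, mem_biUnion.2 ⟨g, ?_, mem_filter.2 ⟨h1, h2⟩⟩⟩
      exact Finset.mem_Ioc.2 h3
    have b2 : bad.card ≤ ∑ i, ex (u i).1 := by
      refine (card_le_card b1).trans (card_biUnion_le.trans ?_)
      apply Finset.sum_le_sum
      intro i _
      refine card_biUnion_le.trans ?_
      calc _ ≤ ∑ g ∈ Finset.Ioc (lx (u i).1) (hx (u i).1), 1 := by
            apply Finset.sum_le_sum
            intro g _
            have := A3_count T T g le_rfl
            simpa using this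
        _ = ex (u i).1 := by
            rw [Finset.sum_const, Nat.card_Ioc]
            simp [ex]
    rw [hsum] at hT
    omega
  -- a good shift
  obtain ⟨a, haT, hab, hac⟩ : ∃ a < 2 ^ T, a ∉ bad ∧
      ∑ z ∈ A a, w z ≤ 54 / m * ∑ i, (ex (u i).1 : ℝ) := by
    by_contra hcon
    push Not at hcon
    set X : ℝ := 54 / m * ∑ i, (ex (u i).1 : ℝ) with hX
    have hX0 : 0 ≤ X := by positivity
    let good : Finset ℕ := (range (2 ^ T)).filter fun a => a ∉ bad
    have g1 : good.card + bad.card = 2 ^ T := by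
      have := Finset.card_filter_add_card_filter_not (s := range (2 ^ T)) (fun a => a ∈ bad)
      rw [card_range] at this
      have e : (range (2 ^ T)).filter (fun a => a ∈ bad) = bad := by
        ext a
        simp only [mem_filter, bad]
        tauto
      rw [e] at this
      rw [add_comm]
      exact this
    have g2 : (3 : ℝ) / 4 * 2 ^ T ≤ good.card := by
      have h3 : 3 * 2 ^ T ≤ 4 * good.card := by omega
      have h4 : (3 : ℝ) * 2 ^ T ≤ 4 * good.card := by exact_mod_cast h3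
      linarith
    have g3 : good.Nonempty := by
      rw [← Finset.card_pos]
      have : (0 : ℝ) < good.card := lt_of_lt_of_le (by positivity) g2
      exact_mod_cast this
    have g4 : (good.card : ℝ) * X < ∑ a ∈ good, ∑ z ∈ A a, w z := by
      rw [← nsmul_eq_mul, ← Finset.sum_const]
      apply Finset.sum_lt_sum_of_nonempty g3
      intro a ha
      obtain ⟨h1, h2⟩ := mem_filter.1 ha
      exact hcon a (mem_range.1 h1) h2
    have g5 : ∑ a ∈ good, ∑ z ∈ A a, w z ≤ ∑ a ∈ range (2 ^ T), ∑ z ∈ A a, w z :=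
      Finset.sum_le_sum_of_subset_of_nonneg (Finset.filter_subset _ _)
        (fun a _ _ => Finset.sum_nonneg fun z _ => hw0 z)
    have g6 : (3 : ℝ) / 4 * 2 ^ T * X ≤ good.card * X := mul_le_mul_of_nonneg_right g2 hX0
    have g7 : 40 / m * 2 ^ T * ∑ i, (ex (u i).1 : ℝ) ≤ (3 : ℝ) / 4 * 2 ^ T * X := by
      rw [hX]
      have h1 : 0 ≤ ∑ i, (ex (u i).1 : ℝ) := by positivity
      have h2 : (0 : ℝ) ≤ 1 / m * 2 ^ T * ∑ i, (ex (u i).1 : ℝ) := by positivity
      have h3 : 40 / m * 2 ^ T * ∑ i, (ex (u i).1 : ℝ) =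
          40 * (1 / m * 2 ^ T * ∑ i, (ex (u i).1 : ℝ)) := by ring
      have h4 : (3 : ℝ) / 4 * 2 ^ T * (54 / m * ∑ i, (ex (u i).1 : ℝ)) =
          40.5 * (1 / m * 2 ^ T * ∑ i, (ex (u i).1 : ℝ)) := by ring
      rw [h3, h4]
      linarith
    linarith
  have hS : ∀ i : Fin n, i ∉ El a ↔ ∀ z ∈ A a, i ∉ K z.1 z.2 := by
    intro i
    simp only [El, mem_biUnion, not_exists, not_and]
  refine ⟨a, haT, ((List.finRange n).filter fun i => decide (i ∉ El a)).map u,
    (A a).toList.flatMap fun z => B z.1 z.2, ?_, ?_, ?_, ?_, ?_, ?_⟩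
  · have : (((List.finRange n).filter fun i => decide (i ∉ El a)).map u).Sublist
        ((List.finRange n).map u) := List.Sublist.map u List.filter_sublist
    rw [hQu] at this
    exact this.subperm
  · rw [← Multiset.coe_eq_coe, A3_pl_coe, A3_pl_coe, List.map_append, List.sum_append]
    have e1 : ((((List.finRange n).filter fun i => decide (i ∉ El a)).map u).map
        fun v => ((pts v.1 : List Pos) : Multiset Pos)).sum =
        ∑ i ∈ univ.filter (fun i => i ∉ El a), (pts (u i).1 : Multiset Pos) := by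
      rw [List.map_map]
      rfl
    have e2 : (((A a).toList.flatMap fun z => B z.1 z.2).map
        fun v => ((pts v.1 : List Pos) : Multiset Pos)).sum =
        ∑ z ∈ A a, ∑ i ∈ K z.1 z.2, (pts (u i).1 : Multiset Pos) := by
      rw [← Finset.sum_map_toList (A a) (fun z => ∑ i ∈ K z.1 z.2, (pts (u i).1 : Multiset Pos))]
      induction (A a).toList with
      | nil => rfl
      | cons z L ih =>
        rw [List.flatMap_cons, List.map_append, List.sum_append, ih, List.map_cons, List.sum_cons,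
          ← A3_pl_coe, k4]
    have e3 : (Q.map fun v => ((pts v.1 : List Pos) : Multiset Pos)).sum =
        ∑ i, (pts (u i).1 : Multiset Pos) := by
      conv_lhs => rw [← hQu, List.map_map]
      rfl
    rw [e1, e2, e3, ← Finset.sum_biUnion (hdis a)]
    rw [← Finset.sum_filter_add_sum_filter_not univ (fun i => i ∉ El a)]
    congr 1
    apply Finset.sum_congr _ fun _ _ => rfl
    ext i
    simp [El]
  · intro v hv
    obtain ⟨z, hz, hvz⟩ := List.mem_flatMap.1 hv
    obtain ⟨⟨-, hj⟩, hd⟩ := (hA a z.1 z.2).1 (Finset.mem_toList.1 hz)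
    obtain ⟨h1, h2, h3, h4⟩ := k5 z.1 z.2 v hvz
    exact ⟨z.2, hj, h1, h2, A3_near h3 hd, h4⟩
  · intro j hj g hg c
    rw [List.filter_map, List.length_map, List.filter_filter]
    refine le_trans ?_ (k3 g j c)
    rw [A3_card]
    apply card_le_card
    intro i hi
    obtain ⟨-, h⟩ := mem_filter.1 hi
    simp only [Function.comp_apply, Bool.and_eq_true, decide_eq_true_eq] at h
    obtain ⟨⟨h1, h2, h3⟩, h4⟩ := h
    refine mem_filter.2 ⟨mem_univ _, h2, ?_, h1, h3⟩
    intro j' hj'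
    exact (hS i).1 h4 (g, j') ((hA a g j').2 ⟨⟨lt_of_le_of_lt h2.2 (hG i), by omega⟩,
      (pow_dvd_pow 2 hj').trans hg⟩)
  · intro v hv g hg hc
    obtain ⟨i, -, rfl⟩ := List.mem_map.1 hv
    exact hab (mem_filter.2 ⟨mem_range.2 haT, i, g, hg, hc⟩)
  · rw [hsumR]
    refine le_trans (le_of_eq ?_) hac
    rw [← Finset.sum_map_toList (A a) w]
    induction (A a).toList with
    | nil => rfl
    | cons z L ih =>
      rw [List.flatMap_cons, List.map_append, List.sum_append, ih, List.map_cons, List.sum_cons]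

end Pool.Agent.M3
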