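import Pool.Agent.M3.Geo

/-!
# Euclidean minimum three-dimensional matching in the plane: soundness of the dynamic program
-/

namespace Pool.Agent.M3

open Pool.Agent.TM2Lib

/-! ### geometry -/

/-- the position as a complex number -/
noncomputable def B1_toC (p : Pos) : ℂ := ⟨(p.x : ℝ), (p.y : ℝ)⟩

theorem B1_ed_eq (p q : Pos) : ed p q = dist (B1_toC p) (B1_toC q) := by
  rw [Complex.dist_eq_re_im]; rfl

theorem B1_ed_nonneg (p q : Pos) : 0 ≤ ed p q := Real.sqrt_nonneg _

theorem B1_ed_self (p : Pos) : ed p p = 0 := by rw [B1_ed_eq, dist_self]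

theorem B1_ed_comm (p q : Pos) : ed p q = ed q p := by rw [B1_ed_eq, B1_ed_eq, dist_comm]

theorem B1_ed_triangle (p q r : Pos) : ed p r ≤ ed p q + ed q r := by
  rw [B1_ed_eq, B1_ed_eq, B1_ed_eq]; exact dist_triangle _ _ _

theorem B1_ad_sq (a b : ℕ) : ((ad a b : ℕ) : ℝ) ^ 2 = ((a : ℝ) - b) ^ 2 := by
  unfold ad
  rcases le_total a b with h | h
  · rw [Nat.sub_eq_zero_of_le h, zero_add, Nat.cast_sub h]; ring
  · rw [Nat.sub_eq_zero_of_le h, add_zero, Nat.cast_sub h]

theorem B1_ed_le_dh (p q : Pos) : ed p q + 2 ≤ dh p q := by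
  unfold ed dh
  set N := ad p.x q.x ^ 2 + ad p.y q.y ^ 2 with hN
  have h1 : ((p.x : ℝ) - q.x) ^ 2 + ((p.y : ℝ) - q.y) ^ 2 = (N : ℝ) := by
    rw [hN]; push_cast; rw [B1_ad_sq, B1_ad_sq]
  rw [h1]
  have h2 : √(N : ℝ) ≤ (Nat.sqrt N : ℝ) + 1 := by
    rw [Real.sqrt_le_left (by positivity)]
    have h3 := Nat.lt_succ_sqrt N
    have h4 : N ≤ (Nat.sqrt N + 1) * (Nat.sqrt N + 1) := h3.le
    have h5 : (N : ℝ) ≤ ((Nat.sqrt N : ℝ) + 1) * ((Nat.sqrt N : ℝ) + 1) := by exact_mod_cast h4
    nlinarith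
  push_cast
  linarith

theorem B1_per_le (x y z x' y' z' : Pos) :
    per (x, (y, z)) ≤ per (x', (y', z')) + (2 * ed x x' + 2 * ed y y' + 2 * ed z z') := by
  unfold per
  simp only
  have a1 := B1_ed_triangle x x' y
  have a2 := B1_ed_triangle x' y' y
  have a3 := B1_ed_triangle y y' z
  have a4 := B1_ed_triangle y' z' z
  have a5 := B1_ed_triangle z z' x
  have a6 := B1_ed_triangle z' x' x
  have c1 := B1_ed_comm y' y
  have c2 := B1_ed_comm z' z
  have c3 := B1_ed_comm x' x
  linarith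

theorem B1_tri_ge (x y z : Pos) : per (x, (y, z)) + 6 ≤ tri x y z := by
  unfold per tri
  have a1 := B1_ed_le_dh x y
  have a2 := B1_ed_le_dh y z
  have a3 := B1_ed_le_dh z x
  push_cast
  linarith

/-! ### lists -/

theorem B1_picks {α : Type} {l : List α} {q : α × List α} (h : q ∈ picks l) :
    l.Perm (q.1 :: q.2) := by
  induction l generalizing q with
  | nil => simp [picks] at h
  | cons a l ih =>
    rw [picks, List.mem_cons] at h
    rcases h with rfl | h
    · exact List.Perm.refl _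
    · obtain ⟨q', hq', rfl⟩ := List.mem_map.mp h
      exact ((ih hq').cons a).trans (List.Perm.swap _ _ _)

theorem B1_mem_best1 {P : Type} {l : List (Ent P)} {s : Ent P} (h : s ∈ best1 l) : s ∈ l := by
  unfold best1 at h
  have key : ∀ (l : List (Ent P)) (s0 : List (Ent P)),
      s ∈ l.foldl (fun s a => if s.any (fun b => decide (b.c ≤ a.c)) then s else [a]) s0 →
        s ∈ s0 ∨ s ∈ l := by
    intro l
    induction l with
    | nil => intro s0 h; exact Or.inl h
    | cons a l ih =>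
      intro s0 h
      rw [List.foldl_cons] at h
      rcases ih _ h with h1 | h1
      · split_ifs at h1
        · exact Or.inl h1
        · right
          rw [List.mem_singleton] at h1
          rw [h1]; exact List.mem_cons_self
      · exact Or.inr (List.mem_cons_of_mem _ h1)
  rcases key l [] h with h | h
  · exact absurd h List.not_mem_nil
  · exact h

theorem B1_mem_best {P : Type} {K : List (List Pos)} {A : List (Ent P)} {s : Ent P}
    (h : s ∈ best K A) : s ∈ A := by
  unfold best at h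
  obtain ⟨k, _, hs⟩ := List.mem_flatMap.mp h
  exact (List.mem_filter.mp (B1_mem_best1 hs)).1

theorem B1_mem_prod {α β : Type} {A : List α} {B : List β} {x : α × β} (h : x ∈ prod A B) :
    x.1 ∈ A ∧ x.2 ∈ B := by
  unfold prod at h
  obtain ⟨a, ha, hb⟩ := List.mem_flatMap.mp h
  obtain ⟨b, hb', rfl⟩ := List.mem_map.mp hb
  exact ⟨ha, hb'⟩

theorem B1_mem_mergeT {P : Type} {K : List (List Pos)} {A B : List (Ent P)} {s : Ent P}
    (h : s ∈ mergeT K A B) : ∃ a ∈ A, ∃ b ∈ B, s = merge (a, b) := by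
  unfold mergeT at h
  obtain ⟨x, hx, rfl⟩ := List.mem_map.mp (B1_mem_best h)
  obtain ⟨h1, h2⟩ := B1_mem_prod hx
  exact ⟨x.1, h1, x.2, h2, rfl⟩

/-! ### the invariant -/

section inv

variable {P : Type} (r : P → Pos)

/-- all the points of a partial solution -/
def B1_pcs (s : Ent P) : List P :=
  (s.tk.map Prod.fst) ++ (s.sol.flatMap fun u => [u.1, u.2.1, u.2.2])

/-- lower bound for the cost -/
noncomputable def B1_val (s : Ent P) : ℝ :=
  (s.sol.map fun u => per (r u.1, (r u.2.1, r u.2.2)) + 6).sum +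
    (s.tk.map fun a => 2 * ed (r a.1) a.2).sum

/-- the invariant -/
def B1_Inv (S : List P) (s : Ent P) : Prop := (B1_pcs s).Perm S ∧ B1_val r s ≤ s.c

theorem B1_merge {S S' : List P} {s s' : Ent P} (h : B1_Inv r S s) (h' : B1_Inv r S' s') :
    B1_Inv r (S ++ S') (merge (s, s')) := by
  refine ⟨?_, ?_⟩
  · refine List.Perm.trans ?_ (h.1.append h'.1)
    unfold B1_pcs merge
    simp only [List.map_append, List.flatMap_append]
    rw [List.append_assoc, List.append_assoc]
    refine List.Perm.append_left _ ?_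
    rw [← List.append_assoc, ← List.append_assoc]
    exact List.Perm.append_right _ List.perm_append_comm
  · have h1 := h.2
    have h2 := h'.2
    unfold B1_val at h1 h2 ⊢
    unfold merge
    simp only [List.map_append, List.sum_append]
    push_cast
    linarith

theorem B1_form {S : List P} {s s' : Ent P} (h : B1_Inv r S s) (hs : s' ∈ form s) :
    B1_Inv r S s' := by
  unfold form at hs
  obtain ⟨a, ha, hs⟩ := List.mem_flatMap.mp hs
  obtain ⟨b, hb, hs⟩ := List.mem_flatMap.mp hs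
  obtain ⟨d, hd, rfl⟩ := List.mem_map.mp hs
  have p1 := B1_picks ha
  have p2 := B1_picks hb
  have p3 := B1_picks hd
  have hp : s.tk.Perm (a.1 :: b.1 :: d.1 :: d.2) :=
    p1.trans ((p2.trans (p3.cons b.1)).cons a.1)
  refine ⟨?_, ?_⟩
  · refine List.Perm.trans ?_ h.1
    unfold B1_pcs
    simp only [List.flatMap_cons]
    have h1 : (s.tk.map Prod.fst).Perm (a.1.1 :: b.1.1 :: d.1.1 :: d.2.map Prod.fst) := by
      have := hp.map Prod.fst
      simpa using this
    refine List.Perm.trans ?_ (h1.append_right _).symm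
    rw [← List.append_assoc]
    refine List.Perm.append_right _ ?_
    exact List.perm_append_comm
  · have h2 := h.2
    unfold B1_val at h2 ⊢
    simp only [List.map_cons, List.sum_cons]
    have h3 : (s.tk.map fun a => 2 * ed (r a.1) a.2).sum =
        2 * ed (r a.1.1) a.1.2 + (2 * ed (r b.1.1) b.1.2 + (2 * ed (r d.1.1) d.1.2 +
          (d.2.map fun a => 2 * ed (r a.1) a.2).sum)) := by
      rw [(hp.map fun a => 2 * ed (r a.1) a.2).sum_eq]
      simp
    rw [h3] at h2
    have h4 := B1_per_le (r a.1.1) (r b.1.1) (r d.1.1) a.1.2 b.1.2 d.1.2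
    have h5 := B1_tri_ge a.1.2 b.1.2 d.1.2
    push_cast
    linarith

theorem B1_trunc {S : List P} {s s' : Ent P} {w : ℕ} (h : B1_Inv r S s) (hs : s' ∈ trunc w s) :
    B1_Inv r S s' := by
  unfold trunc at hs
  obtain ⟨a, ha, rfl⟩ := List.mem_map.mp hs
  have hp := B1_picks ha
  refine ⟨?_, ?_⟩
  · refine List.Perm.trans ?_ h.1
    unfold B1_pcs
    simp only [List.map_cons]
    have h1 : (s.tk.map Prod.fst).Perm (a.1.1 :: a.2.map Prod.fst) := by
      have := hp.map Prod.fst
      simpa using this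
    exact (h1.append_right _).symm
  · have h2 := h.2
    unfold B1_val at h2 ⊢
    simp only [List.map_cons, List.sum_cons]
    have h3 : (s.tk.map fun a => 2 * ed (r a.1) a.2).sum =
        2 * ed (r a.1.1) a.1.2 + (a.2.map fun a => 2 * ed (r a.1) a.2).sum := by
      rw [(hp.map fun a => 2 * ed (r a.1) a.2).sum_eq]
      simp
    rw [h3] at h2
    have h4 := B1_ed_triangle (r a.1.1) a.1.2 (tr w a.1.2)
    have h5 := B1_ed_le_dh a.1.2 (tr w a.1.2)
    push_cast
    linarith

theorem B1_ops {S : List P} {s s' : Ent P} {w : ℕ} (h : B1_Inv r S s) (hs : s' ∈ ops w s) :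
    B1_Inv r S s' := by
  unfold ops at hs
  rw [List.mem_cons, List.mem_append] at hs
  rcases hs with rfl | hs | hs
  · exact h
  · exact B1_form r h hs
  · exact B1_trunc r h hs

theorem B1_stepT {S : List P} {A : List (Ent P)} {K : List (List Pos)} {w : ℕ}
    (h : ∀ s ∈ A, B1_Inv r S s) : ∀ s ∈ stepT K w A, B1_Inv r S s := by
  intro s hs
  unfold stepT at hs
  obtain ⟨s0, hs0, hs1⟩ := List.mem_flatMap.mp (B1_mem_best hs)
  exact B1_ops r (h s0 hs0) hs1

theorem B1_stepT_iter {S : List P} {K : List (List Pos)} {w : ℕ} (n : ℕ) :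
    ∀ {A : List (Ent P)}, (∀ s ∈ A, B1_Inv r S s) → ∀ s ∈ (stepT K w)^[n] A, B1_Inv r S s := by
  induction n with
  | zero => intro A h; exact h
  | succ n ih =>
    intro A h
    rw [Function.iterate_succ_apply]
    exact ih (B1_stepT r h)

theorem B1_mergeT {S S' : List P} {K : List (List Pos)} {A B : List (Ent P)}
    (h : ∀ s ∈ A, B1_Inv r S s) (h' : ∀ s ∈ B, B1_Inv r S' s) :
    ∀ s ∈ mergeT K A B, B1_Inv r (S ++ S') s := by
  intro s hs
  obtain ⟨a, ha, b, hb, rfl⟩ := B1_mem_mergeT hs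
  exact B1_merge r (h a ha) (h' b hb)

theorem B1_proc {e M n W s : ℕ} {z : Pos} {A B C D : List (Ent P)} {S1 S2 S3 S4 : List P}
    (hA : ∀ s ∈ A, B1_Inv r S1 s) (hB : ∀ s ∈ B, B1_Inv r S2 s) (hC : ∀ s ∈ C, B1_Inv r S3 s)
    (hD : ∀ s ∈ D, B1_Inv r S4 s) :
    ∀ x ∈ proc e M n W s z A B C D, B1_Inv r (S1 ++ S2 ++ S3 ++ S4) x := by
  intro x hx
  unfold proc at hx
  exact B1_stepT_iter r n (B1_mergeT r (B1_mergeT r (B1_mergeT r hA hB) hC) hD) x
    (List.mem_filter.mp hx).1

theorem B1_Inv_perm {S S' : List P} {s : Ent P} (h : B1_Inv r S s) (hp : S.Perm S') :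
    B1_Inv r S' s := ⟨h.1.trans hp, h.2⟩

end inv

/-! ### cells -/

theorem B1_filter_or {α : Type} (f f1 f2 : α → Bool) (h : ∀ x, f x = (f1 x || f2 x))
    (hd : ∀ x, ¬ (f1 x = true ∧ f2 x = true)) (L : List α) :
    (L.filter f1 ++ L.filter f2).Perm (L.filter f) := by
  induction L with
  | nil => simp
  | cons a L ih =>
    have ha := h a
    have hda := hd a
    rw [List.filter_cons, List.filter_cons, List.filter_cons]
    cases h1 : f1 a <;> cases h2 : f2 a <;> simp only [h1, h2] at ha hda <;> simp [ha]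
    · exact ih
    · exact List.perm_middle.trans (ih.cons a)
    · exact ih
    · simp at hda

theorem B1_cells {P : Type} (L : List P) (r : P → Pos) (t : ℕ) (z : Pos) :
    (L.filter (fun p => decide (cell (2 ^ t) (r p) = ⟨2 * z.x, 2 * z.y⟩)) ++
      L.filter (fun p => decide (cell (2 ^ t) (r p) = ⟨2 * z.x + 1, 2 * z.y⟩)) ++
      L.filter (fun p => decide (cell (2 ^ t) (r p) = ⟨2 * z.x, 2 * z.y + 1⟩)) ++
      L.filter (fun p => decide (cell (2 ^ t) (r p) = ⟨2 * z.x + 1, 2 * z.y + 1⟩))).Perm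
      (L.filter fun p => decide (cell (2 ^ (t + 1)) (r p) = z)) := by
  have key : ∀ q : Pos, (cell (2 ^ (t + 1)) q = z ↔ (((cell (2 ^ t) q = ⟨2 * z.x, 2 * z.y⟩ ∨
      cell (2 ^ t) q = ⟨2 * z.x + 1, 2 * z.y⟩) ∨ cell (2 ^ t) q = ⟨2 * z.x, 2 * z.y + 1⟩) ∨
      cell (2 ^ t) q = ⟨2 * z.x + 1, 2 * z.y + 1⟩)) := by
    intro q
    obtain ⟨zx, zy⟩ := z
    unfold cell
    simp only [Pos.mk.injEq, pow_succ, ← Nat.div_div_eq_div_mul]
    omega
  refine ((((B1_filter_or (fun p => decide (cell (2 ^ t) (r p) = ⟨2 * z.x, 2 * z.y⟩ ∨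
      cell (2 ^ t) (r p) = ⟨2 * z.x + 1, 2 * z.y⟩)) _ _ ?_ ?_ L).append_right _).append_right _).trans
    (((B1_filter_or (fun p => decide ((cell (2 ^ t) (r p) = ⟨2 * z.x, 2 * z.y⟩ ∨
      cell (2 ^ t) (r p) = ⟨2 * z.x + 1, 2 * z.y⟩) ∨ cell (2 ^ t) (r p) = ⟨2 * z.x, 2 * z.y + 1⟩))
      _ _ ?_ ?_ L).append_right _).trans (B1_filter_or _ _ _ ?_ ?_ L)))
  · intro x; simp
  · intro x
    simp only [decide_eq_true_eq]
    rintro ⟨h1, h2⟩
    rw [h1] at h2
    simp at h2
  · intro x; simp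
  · intro x
    simp only [decide_eq_true_eq]
    rintro ⟨h1 | h1, h2⟩ <;> rw [h1] at h2 <;> simp at h2
  · intro x
    rw [Bool.eq_iff_iff]
    simp only [Bool.or_eq_true, decide_eq_true_eq]
    exact key (r x)
  · intro x
    simp only [decide_eq_true_eq]
    rintro ⟨(h1 | h1) | h1, h2⟩ <;> rw [h1] at h2 <;> simp at h2

theorem B1_dp {P : Type} (e M n W : ℕ) (L : List P) (r : P → Pos) (t : ℕ) :
    ∀ z : Pos, ∀ s ∈ dp e M n W (L.map fun p => (p, r p)) t z,
      B1_Inv r (L.filter fun p => decide (cell (2 ^ t) (r p) = z)) s := by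
  induction t with
  | zero =>
    intro z s hs
    rw [dp, List.mem_singleton] at hs
    subst hs
    have h1 : ((L.map fun p => (p, r p)).filter fun a => decide (a.2 = z)) =
        (L.filter fun p => decide (r p = z)).map fun p => (p, r p) := by
      rw [List.filter_map]; rfl
    have h2 : ∀ p, cell (2 ^ 0) (r p) = r p := by
      intro p
      unfold cell
      simp
    refine ⟨?_, ?_⟩
    · unfold B1_pcs
      simp only [h1, h2, List.map_map, List.flatMap_nil, List.append_nil]
      have : (Prod.fst ∘ fun p => (p, r p)) = (id : P → P) := rfl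
      rw [this, List.map_id]
    · unfold B1_val
      simp only [h1, List.map_nil, List.sum_nil, List.map_map]
      have : ((fun a : P × Pos => 2 * ed (r a.1) a.2) ∘ fun p => (p, r p)) = fun _ => (0:ℝ) := by
        funext p
        simp [B1_ed_self]
      rw [this]
      simp
  | succ t ih =>
    intro z s hs
    rw [dp] at hs
    exact B1_Inv_perm r (B1_proc r (ih _) (ih _) (ih _) (ih _) s hs) (B1_cells L r t z)

theorem dp_sound {P : Type} (e M n W : ℕ) (L : List P) (r : P → Pos) (t : ℕ) (z : Pos) :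
    ∀ s ∈ dp e M n W (L.map fun p => (p, r p)) t z,
      ((s.tk.map Prod.fst) ++ (s.sol.flatMap fun u => [u.1, u.2.1, u.2.2])).Perm
        (L.filter fun p => decide (cell (2 ^ t) (r p) = z)) ∧
      (s.sol.map fun u => per (r u.1, (r u.2.1, r u.2.2)) + 6).sum +
        (s.tk.map fun a => 2 * ed (r a.1) a.2).sum ≤ s.c :=
  fun s hs => B1_dp e M n W L r t z s hs

end Pool.Agent.M3
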