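import Pool.Agent.M3.Phase

namespace Pool.Agent.M3

/-! ## elementary facts -/

/-- translation of a triple -/
def A4_sht (a b : ℕ) (t : Tri) : Tri := (sh a b t.1, (sh a b t.2.1, sh a b t.2.2))

theorem A4_ed_nonneg (p q : Pos) : 0 ≤ ed p q := Real.sqrt_nonneg _

theorem A4_per_nonneg (t : Tri) : 0 ≤ per t := by
  have h1 := A4_ed_nonneg t.1 t.2.1
  have h2 := A4_ed_nonneg t.2.1 t.2.2
  have h3 := A4_ed_nonneg t.2.2 t.1
  unfold per
  linarith

theorem A4_ed_sh (a b : ℕ) (p q : Pos) : ed (sh a b p) (sh a b q) = ed p q := by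
  unfold ed sh
  push_cast
  congr 1
  ring

theorem A4_ed_sw (p q : Pos) : ed (sw p) (sw q) = ed p q := by
  unfold ed sw
  simp only
  rw [add_comm]

theorem A4_per_sht (a b : ℕ) (t : Tri) : per (A4_sht a b t) = per t := by
  unfold per A4_sht
  simp only [A4_ed_sh]

theorem A4_per_swt (t : Tri) : per (swt t) = per t := by
  unfold per swt
  simp only [A4_ed_sw]

theorem A4_swt_swt (t : Tri) : swt (swt t) = t := rfl

theorem A4_ex_swt (t : Tri) : ex (swt t) = ey t := rfl
theorem A4_ey_swt (t : Tri) : ey (swt t) = ex t := rfl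
theorem A4_ss_swt (t : Tri) : ss (swt t) = ss t := by
  unfold ss
  rw [A4_ex_swt, A4_ey_swt, max_comm]

theorem A4_abs_le_ed (p q : Pos) : |(p.x : ℝ) - q.x| ≤ ed p q := by
  unfold ed
  apply Real.le_sqrt_of_sq_le
  rw [sq_abs]
  have := sq_nonneg ((p.y : ℝ) - q.y)
  linarith

theorem A4_lx_le (t : Tri) : lx t ≤ hx t := by
  unfold lx hx
  omega

theorem A4_ex_le (t : Tri) : 2 * (ex t : ℝ) ≤ per t := by
  have h1 := A4_abs_le_ed t.1 t.2.1
  have h2 := A4_abs_le_ed t.2.1 t.2.2
  have h3 := A4_abs_le_ed t.2.2 t.1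
  have h4 : 2 * (ex t : ℝ) ≤ |(t.1.x : ℝ) - t.2.1.x| + |(t.2.1.x : ℝ) - t.2.2.x| +
      |(t.2.2.x : ℝ) - t.1.x| := by
    unfold ex
    rw [Nat.cast_sub (A4_lx_le t)]
    unfold lx hx
    push_cast
    rcases le_total (t.1.x : ℝ) (t.2.1.x : ℝ) with h | h <;>
    rcases le_total (t.2.1.x : ℝ) (t.2.2.x : ℝ) with h' | h' <;>
    rcases le_total (t.1.x : ℝ) (t.2.2.x : ℝ) with h'' | h'' <;>
    simp only [max_eq_left, max_eq_right, min_eq_left, min_eq_right, h, h', h''] <;>
    cases abs_cases ((t.1.x : ℝ) - t.2.1.x) <;>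
    cases abs_cases ((t.2.1.x : ℝ) - t.2.2.x) <;>
    cases abs_cases ((t.2.2.x : ℝ) - t.1.x) <;>
    linarith
  unfold per
  linarith

theorem A4_ey_le (t : Tri) : 2 * (ey t : ℝ) ≤ per t := by
  have := A4_ex_le (swt t)
  rwa [A4_ex_swt, A4_per_swt] at this

theorem A4_ss_le (t : Tri) : 2 * (ss t : ℝ) ≤ per t := by
  unfold ss
  rcases max_choice (ex t) (ey t) with h | h
  · rw [h]; exact A4_ex_le t
  · rw [h]; exact A4_ey_le t

theorem A4_size_le (n : ℕ) : 2 ^ Nat.size n ≤ 2 * n + 1 := by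
  rcases Nat.eq_zero_or_pos n with h | h
  · subst h; simp
  · have h1 : 0 < Nat.size n := Nat.size_pos.mpr h
    have h2 : 2 ^ (Nat.size n - 1) ≤ n := Nat.lt_size.mp (by omega)
    have h3 : 2 ^ Nat.size n = 2 * 2 ^ (Nat.size n - 1) := by
      rw [← pow_succ']
      congr 1
      omega
    omega

theorem A4_wt_nonneg {κ : ℝ} (hκ : 0 ≤ κ) (v : LT) : 0 ≤ wt κ v := by
  unfold wt
  have := A4_per_nonneg v.1
  positivity

theorem A4_subperm_sum {α : Type} (f : α → ℝ) (hf : ∀ a, 0 ≤ f a) {S Q : List α}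
    (h : S.Subperm Q) : (S.map f).sum ≤ (Q.map f).sum := by
  obtain ⟨l, h1, h2⟩ := h
  rw [← (h1.map f).sum_eq]
  apply List.Sublist.sum_le_sum (h2.map f)
  intro a ha
  obtain ⟨b, -, rfl⟩ := List.mem_map.mp ha
  exact hf b

/-! ## cells and lines -/

/-- the triple crosses the line `k * s` after a shift by `a` -/
def A4_cr (a s k : ℕ) (t : Tri) : Prop := lx t + a < k * s ∧ k * s ≤ hx t + a

theorem A4_not_cr {a s : ℕ} {t : Tri} (h : ∀ g, s ∣ g + a → ¬ Cr g t) (k : ℕ) :
    ¬ A4_cr a s k t := by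
  rintro ⟨h1, h2⟩
  refine h (k * s - a) ?_ ⟨?_, ?_⟩
  · have : k * s - a + a = k * s := by omega
    rw [this]
    exact Dvd.intro_left k rfl
  · omega
  · omega

theorem A4_div_eq {a s : ℕ} (hs : 0 < s) {t : Tri} (h : ∀ k, ¬ A4_cr a s k t) :
    (lx t + a) / s = (hx t + a) / s := by
  by_contra hne
  have h1 : (lx t + a) / s ≤ (hx t + a) / s :=
    Nat.div_le_div_right (by have := A4_lx_le t; omega)
  have h2 : (lx t + a) / s < (hx t + a) / s := lt_of_le_of_ne h1 hne
  apply h ((hx t + a) / s)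
  refine ⟨(Nat.div_lt_iff_lt_mul hs).mp h2, Nat.div_mul_le_self _ _⟩

theorem A4_cr_of_ne {a s : ℕ} (hs : 0 < s) {t : Tri}
    (h : (lx t + a) / s ≠ (hx t + a) / s) : A4_cr a s ((hx t + a) / s) t := by
  have h1 : (lx t + a) / s ≤ (hx t + a) / s :=
    Nat.div_le_div_right (by have := A4_lx_le t; omega)
  have h2 : (lx t + a) / s < (hx t + a) / s := lt_of_le_of_ne h1 h
  exact ⟨(Nat.div_lt_iff_lt_mul hs).mp h2, Nat.div_mul_le_self _ _⟩

/-- containment in a cell, in terms of the extreme coordinates -/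
theorem A4_In_iff (a b s : ℕ) (t : Tri) : In s (A4_sht a b t) ↔
    (lx t + a) / s = (hx t + a) / s ∧ (ly t + b) / s = (hy t + b) / s := by
  have hmin : ∀ c x y : ℕ, (min x y + c) / s = min ((x + c) / s) ((y + c) / s) := by
    intro c x y
    have hm : Monotone fun n : ℕ => (n + c) / s := fun m n h =>
      Nat.div_le_div_right (by omega)
    exact hm.map_min
  have hmax : ∀ c x y : ℕ, (max x y + c) / s = max ((x + c) / s) ((y + c) / s) := by
    intro c x y
    have hm : Monotone fun n : ℕ => (n + c) / s := fun m n h =>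
      Nat.div_le_div_right (by omega)
    exact hm.map_max
  have e1 : (lx t + a) / s = min ((t.1.x + a) / s) (min ((t.2.1.x + a) / s)
      ((t.2.2.x + a) / s)) := by
    unfold lx
    rw [hmin, hmin]
  have e2 : (hx t + a) / s = max ((t.1.x + a) / s) (max ((t.2.1.x + a) / s)
      ((t.2.2.x + a) / s)) := by
    unfold hx
    rw [hmax, hmax]
  have e3 : (ly t + b) / s = min ((t.1.y + b) / s) (min ((t.2.1.y + b) / s)
      ((t.2.2.y + b) / s)) := by
    unfold ly
    rw [hmin, hmin]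
  have e4 : (hy t + b) / s = max ((t.1.y + b) / s) (max ((t.2.1.y + b) / s)
      ((t.2.2.y + b) / s)) := by
    unfold hy
    rw [hmax, hmax]
  rw [e1, e2, e3, e4]
  unfold In A4_sht cell sh
  simp only [Pos.mk.injEq]
  generalize (t.1.x + a) / s = x1
  generalize (t.2.1.x + a) / s = x2
  generalize (t.2.2.x + a) / s = x3
  generalize (t.1.y + b) / s = y1
  generalize (t.2.1.y + b) / s = y2
  generalize (t.2.2.y + b) / s = y3
  omega

theorem A4_lx_le_of_mem {t : Tri} {p : Pos} (hp : p ∈ pts t) : lx t ≤ p.x ∧ p.x ≤ hx t := by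
  unfold pts at hp
  unfold lx hx
  simp only [List.mem_cons, List.not_mem_nil, or_false] at hp
  rcases hp with h | h | h <;> subst h <;> omega

theorem A4_ly_le_of_mem {t : Tri} {p : Pos} (hp : p ∈ pts t) : ly t ≤ p.y ∧ p.y ≤ hy t := by
  unfold pts at hp
  unfold ly hy
  simp only [List.mem_cons, List.not_mem_nil, or_false] at hp
  rcases hp with h | h | h <;> subst h <;> omega

theorem A4_lx_mem (t : Tri) : ∃ p ∈ pts t, p.x = lx t := by
  unfold pts lx
  rcases min_choice t.1.x (min t.2.1.x t.2.2.x) with h | h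
  · exact ⟨t.1, by simp, h.symm⟩
  · rcases min_choice t.2.1.x t.2.2.x with h' | h'
    · exact ⟨t.2.1, by simp, by rw [h, h']⟩
    · exact ⟨t.2.2, by simp, by rw [h, h']⟩

theorem A4_hx_mem (t : Tri) : ∃ p ∈ pts t, p.x = hx t := by
  unfold pts hx
  rcases max_choice t.1.x (max t.2.1.x t.2.2.x) with h | h
  · exact ⟨t.1, by simp, h.symm⟩
  · rcases max_choice t.2.1.x t.2.2.x with h' | h'
    · exact ⟨t.2.1, by simp, by rw [h, h']⟩
    · exact ⟨t.2.2, by simp, by rw [h, h']⟩

theorem A4_mem_swt {t : Tri} {p : Pos} : p ∈ pts (swt t) ↔ sw p ∈ pts t := by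
  unfold pts swt
  simp only [List.mem_cons, List.not_mem_nil, or_false]
  have h : ∀ q : Pos, p = sw q ↔ sw p = q := by
    intro q
    constructor
    · rintro rfl; rfl
    · rintro rfl; rfl
  rw [h, h, h]

/-! ## the two class structures -/

/-- classes of phase one: dyadic segments -/
def A4_C1 : Cls where
  cls j t := some (ly t / 2 ^ j)
  reg _ _ _ := True
  base j c := c * 2 ^ j
  hreg := by intros; trivial
  hbase := by
    intro j t c hey hc p hp
    obtain ⟨h1, h2⟩ := A4_ly_le_of_mem hp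
    have hc' : ly t / 2 ^ j = c := by simpa using hc
    have h3 : c * 2 ^ j ≤ ly t := by rw [← hc']; exact Nat.div_mul_le_self _ _
    have h4 : ly t < (c + 1) * 2 ^ j := by
      rw [← hc']
      exact Nat.lt_mul_of_div_lt (Nat.lt_succ_self _) (by positivity)
    have h5 : ey t = hy t - ly t := rfl
    rw [h5] at hey
    rw [add_mul, one_mul] at h4
    omega

/-- classes of phase two: strips -/
def A4_C2 (a : ℕ) : Cls where
  cls j t := if (ly t + a) / 2 ^ j = (hy t + a) / 2 ^ j then some ((ly t + a) / 2 ^ j) else none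
  reg j c p := (p.y + a) / 2 ^ j = c
  base j c := c * 2 ^ j - a
  hreg := by
    intro j t c hc p hp
    obtain ⟨h1, h2⟩ := A4_ly_le_of_mem hp
    have hc' : (ly t + a) / 2 ^ j = (hy t + a) / 2 ^ j ∧ (ly t + a) / 2 ^ j = c := by
      simpa using hc
    have h3 : (ly t + a) / 2 ^ j ≤ (p.y + a) / 2 ^ j := Nat.div_le_div_right (by omega)
    have h4 : (p.y + a) / 2 ^ j ≤ (hy t + a) / 2 ^ j := Nat.div_le_div_right (by omega)
    omega
  hbase := by
    intro j t c _ hc p hp
    obtain ⟨h1, h2⟩ := A4_ly_le_of_mem hp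
    have hc' : (ly t + a) / 2 ^ j = (hy t + a) / 2 ^ j ∧ (ly t + a) / 2 ^ j = c := by
      simpa using hc
    have h3 : (ly t + a) / 2 ^ j ≤ (p.y + a) / 2 ^ j := Nat.div_le_div_right (by omega)
    have h4 : (p.y + a) / 2 ^ j ≤ (hy t + a) / 2 ^ j := Nat.div_le_div_right (by omega)
    have h5 : (p.y + a) / 2 ^ j = c := by omega
    have h6 : c * 2 ^ j ≤ p.y + a := by rw [← h5]; exact Nat.div_mul_le_self _ _
    have h7 : p.y + a < (c + 1) * 2 ^ j := by
      rw [← h5]
      exact Nat.lt_mul_of_div_lt (Nat.lt_succ_self _) (by positivity)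
    rw [add_mul, one_mul] at h7
    omega

/-! ## counting -/

instance (a s k : ℕ) (t : Tri) : Decidable (A4_cr a s k t) := by unfold A4_cr; infer_instance

theorem A4_countP_le {α ι : Type} (S : List α) (bad : α → Bool) (I : Finset ι)
    (P : ι → α → Bool) (m : ℕ) (h : ∀ v ∈ S, bad v = true → ∃ i ∈ I, P i v = true)
    (hm : ∀ i ∈ I, S.countP (P i) ≤ m) : S.countP bad ≤ I.card * m := by
  have h1 : S.countP bad ≤ ∑ i ∈ I, S.countP (P i) := by
    clear hm
    induction S with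
    | nil => simp
    | cons v S ih =>
      have ih' := ih (fun u hu => h u (List.mem_cons_of_mem _ hu))
      simp only [List.countP_cons]
      rw [Finset.sum_add_distrib]
      by_cases hv : bad v = true
      · obtain ⟨i, hi, hP⟩ := h v List.mem_cons_self hv
        have h2 : 1 ≤ ∑ i ∈ I, (if P i v = true then 1 else 0) := by
          have h3 := Finset.single_le_sum (f := fun i => if P i v = true then 1 else 0)
            (fun j _ => Nat.zero_le _) hi
          simp only [hP, if_true] at h3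
          exact h3
        rw [if_pos hv]
        omega
      · rw [if_neg hv]
        omega
  refine h1.trans ?_
  have := Finset.sum_le_card_nsmul I _ m hm
  simpa using this

theorem A4_cls_count (C : Cls) (S : List LT) (m T a t : ℕ) (ht : t < T)
    (hC : ∀ j < T, ∀ g, 2 ^ j ∣ g + a → ∀ c,
      (S.filter fun v => decide (v.2 ≤ j ∧ Cr g v.1 ∧ C.cls j v.1 = some c)).length ≤ m)
    (k c : ℕ) :
    S.countP (fun v => decide (v.2 ≤ t ∧ A4_cr a (2 ^ t) k v.1 ∧ C.cls t v.1 = some c)) ≤ m := by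
  by_cases hk : a ≤ k * 2 ^ t
  · have h1 := hC t ht (k * 2 ^ t - a) (by
      have : k * 2 ^ t - a + a = k * 2 ^ t := by omega
      rw [this]
      exact Dvd.intro_left k rfl) c
    rw [← List.countP_eq_length_filter] at h1
    refine le_trans (List.countP_mono_left ?_) h1
    intro v _ hv
    rw [decide_eq_true_eq] at hv ⊢
    obtain ⟨h2, ⟨h3, h4⟩, h5⟩ := hv
    exact ⟨h2, ⟨by omega, by omega⟩, h5⟩
  · have h0 : S.countP (fun v => decide (v.2 ≤ t ∧ A4_cr a (2 ^ t) k v.1 ∧
        C.cls t v.1 = some c)) = 0 := by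
      rw [List.countP_eq_zero]
      intro v _ hv
      rw [decide_eq_true_eq] at hv
      obtain ⟨h2, ⟨h3, h4⟩, h5⟩ := hv
      omega
    omega

theorem A4_exc_le (ρ : List LT) (t : ℕ) (X : Pos) :
    exc ρ t X ≤ 3 * ρ.countP (fun u => decide (u.2 ≤ t ∧ ¬ In (2 ^ t) u.1 ∧
      ∃ p ∈ pts u.1, cell (2 ^ t) p = X)) := by
  unfold exc
  induction ρ with
  | nil => simp
  | cons u ρ ih =>
    rw [List.countP_cons, List.filter_cons]
    by_cases h : u.2 ≤ t ∧ ¬ In (2 ^ t) u.1
    · rw [if_pos (by simpa using h), List.flatMap_cons, List.length_append]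
      by_cases h' : ∃ p ∈ pts u.1, cell (2 ^ t) p = X
      · rw [if_pos (by
          rw [decide_eq_true_eq]
          exact ⟨h.1, h.2, h'⟩)]
        have : ((pts u.1).filter fun p => decide (cell (2 ^ t) p = X)).length ≤ 3 :=
          (List.length_filter_le _ _).trans (by simp [pts])
        omega
      · have : ((pts u.1).filter fun p => decide (cell (2 ^ t) p = X)) = [] := by
          rw [List.filter_eq_nil_iff]
          intro p hp hc
          rw [decide_eq_true_eq] at hc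
          exact h' ⟨p, hp, hc⟩
        rw [this]
        simp only [List.length_nil]
        omega
    · rw [if_neg (by simpa using h)]
      omega

/-- the counting bound of the structure theorem -/
theorem A4_exc_bound (m T a b : ℕ) (hm : 1 ≤ m) (S1 B1 S2 B2 : List LT)
    (hS2 : S2.Subperm ((S1 ++ B1).map fun v => (swt v.1, v.2)))
    (hsz : ∀ v ∈ S2, m * ss v.1 < 2 ^ v.2)
    (hB1 : ∀ v ∈ B1, ∃ j < T, j ≤ v.2 ∧ ∀ g, 2 ^ j ∣ g + a → ¬ Cr g v.1)
    (hC1 : ∀ j < T, ∀ g, 2 ^ j ∣ g + a → ∀ c,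
      (S1.filter fun v => decide (v.2 ≤ j ∧ Cr g v.1 ∧ A4_C1.cls j v.1 = some c)).length ≤ m)
    (hB2 : ∀ v ∈ B2, ∃ j < T, j ≤ v.2 ∧ (∀ g, 2 ^ j ∣ g + b → ¬ Cr g v.1) ∧
      ∃ c, ∀ p ∈ pts v.1, (A4_C2 a).reg j c p)
    (hC2 : ∀ j < T, ∀ g, 2 ^ j ∣ g + b → ∀ c,
      (S2.filter fun v => decide (v.2 ≤ j ∧ Cr g v.1 ∧ (A4_C2 a).cls j v.1 = some c)).length ≤ m)
    (t : ℕ) (ht : t < T) (X : Pos) :
    exc ((S2 ++ B2).map fun v => (A4_sht a b (swt v.1), v.2)) t X ≤ 24 * m := by
  refine (A4_exc_le _ t X).trans ?_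
  rw [List.countP_map, List.countP_append]
  have hs : 0 < 2 ^ t := by positivity
  -- the new triples of phase two
  have hB : B2.countP ((fun u : LT => decide (u.2 ≤ t ∧ ¬ In (2 ^ t) u.1 ∧
      ∃ p ∈ pts u.1, cell (2 ^ t) p = X)) ∘ fun v => (A4_sht a b (swt v.1), v.2)) = 0 := by
    rw [List.countP_eq_zero]
    intro v hv hcon
    simp only [Function.comp, decide_eq_true_eq] at hcon
    obtain ⟨h1, h2, -⟩ := hcon
    apply h2
    rw [A4_In_iff]
    obtain ⟨j, hj, hjv, hcr, c, hreg⟩ := hB2 v hv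
    have hjt : j ≤ t := hjv.trans h1
    obtain ⟨d, rfl⟩ := Nat.exists_eq_add_of_le hjt
    constructor
    · -- strips
      obtain ⟨p, hp, hpe⟩ := A4_lx_mem (swt v.1)
      obtain ⟨q, hq, hqe⟩ := A4_hx_mem (swt v.1)
      rw [A4_mem_swt] at hp hq
      have h3 : ((sw p).y + a) / 2 ^ j = c := hreg _ hp
      have h4 : ((sw q).y + a) / 2 ^ j = c := hreg _ hq
      have h5 : (sw p).y = lx (swt v.1) := hpe
      have h6 : (sw q).y = hx (swt v.1) := hqe
      rw [h5] at h3
      rw [h6] at h4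
      rw [pow_add, ← Nat.div_div_eq_div_mul, ← Nat.div_div_eq_div_mul, h3, h4]
    · have h3 := A4_div_eq (a := b) (s := 2 ^ (j + d)) hs (t := v.1) (fun k => A4_not_cr
        (fun g hg => hcr g (dvd_trans (pow_dvd_pow 2 hjt) hg)) k)
      exact h3
  rw [hB, Nat.add_zero]
  -- the old triples of phase two
  set D := X.y * 2 ^ t - b with hD
  have hS : S2.countP ((fun u : LT => decide (u.2 ≤ t ∧ ¬ In (2 ^ t) u.1 ∧
      ∃ p ∈ pts u.1, cell (2 ^ t) p = X)) ∘ fun v => (A4_sht a b (swt v.1), v.2)) ≤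
      S2.countP (fun v => decide (∃ i ∈ ({X.x, X.x + 1} : Finset ℕ) ×ˢ
        ({D / 2 ^ t - 1, D / 2 ^ t, D / 2 ^ t + 1} : Finset ℕ),
        v.2 ≤ t ∧ A4_cr a (2 ^ t) i.1 (swt v.1) ∧ A4_C1.cls t (swt v.1) = some i.2)) +
      S2.countP (fun v => decide (∃ k ∈ ({X.y, X.y + 1} : Finset ℕ),
        v.2 ≤ t ∧ A4_cr b (2 ^ t) k v.1 ∧ (A4_C2 a).cls t v.1 = some X.x)) := by
    have hor : ∀ (S : List LT) (p q r : LT → Bool), (∀ v ∈ S, p v = true → q v = true ∨ r v = true) →
        S.countP p ≤ S.countP q + S.countP r := by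
      intro S p q r
      induction S with
      | nil => intro _; simp
      | cons v S ih =>
        intro h
        have ih' := ih (fun u hu => h u (List.mem_cons_of_mem _ hu))
        rw [List.countP_cons, List.countP_cons, List.countP_cons]
        by_cases hv : p v = true
        · rcases h v List.mem_cons_self hv with h1 | h1
          · rw [if_pos hv, if_pos h1]; omega
          · rw [if_pos hv, if_pos h1]; omega
        · rw [if_neg hv]; omega
    apply hor
    intro v hv hbad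
    simp only [Function.comp, decide_eq_true_eq] at hbad
    obtain ⟨h1, h2, q, hq, hqX⟩ := hbad
    rw [A4_In_iff] at h2
    -- the size
    have hsv : ss (swt v.1) < 2 ^ t := by
      rw [A4_ss_swt]
      have h3 := hsz v hv
      have h4 : 2 ^ v.2 ≤ 2 ^ t := Nat.pow_le_pow_right (by norm_num) h1
      have h5 : ss v.1 ≤ m * ss v.1 := Nat.le_mul_of_pos_left _ hm
      omega
    have hexv : ex (swt v.1) < 2 ^ t := lt_of_le_of_lt (le_max_left _ _) hsv
    have heyv : ey (swt v.1) < 2 ^ t := lt_of_le_of_lt (le_max_right _ _) hsv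
    have hexd : ex (swt v.1) = hx (swt v.1) - lx (swt v.1) := rfl
    have heyd : ey (swt v.1) = hy (swt v.1) - ly (swt v.1) := rfl
    -- the point
    obtain ⟨p, hp, hpq⟩ : ∃ p ∈ pts (swt v.1), q = sh a b p := by
      unfold A4_sht pts at hq
      simp only [List.mem_cons, List.not_mem_nil, or_false] at hq
      rcases hq with h | h | h
      · exact ⟨_, by simp [pts], h⟩
      · exact ⟨_, by simp [pts], h⟩
      · exact ⟨_, by simp [pts], h⟩
    subst hpq
    have hpx : (p.x + a) / 2 ^ t = X.x := by rw [← hqX]; rfl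
    have hpy : (p.y + b) / 2 ^ t = X.y := by rw [← hqX]; rfl
    obtain ⟨hx1, hx2⟩ := A4_lx_le_of_mem hp
    obtain ⟨hy1, hy2⟩ := A4_ly_le_of_mem hp
    by_cases hcx : (lx (swt v.1) + a) / 2 ^ t = (hx (swt v.1) + a) / 2 ^ t
    · -- horizontal line
      right
      have hcy : (ly (swt v.1) + b) / 2 ^ t ≠ (hy (swt v.1) + b) / 2 ^ t :=
        fun h => h2 ⟨hcx, h⟩
      have hcr : A4_cr b (2 ^ t) ((hx v.1 + b) / 2 ^ t) v.1 := A4_cr_of_ne hs hcy
      have hk1 : X.y ≤ (hx v.1 + b) / 2 ^ t := by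
        rw [← hpy]
        exact Nat.div_le_div_right (by
          have : hy (swt v.1) = hx v.1 := rfl
          omega)
      have hk2 : (hx v.1 + b) / 2 ^ t ≤ X.y + 1 := by
        rw [← hpy, ← Nat.add_div_right _ hs]
        exact Nat.div_le_div_right (by
          have : hy (swt v.1) = hx v.1 := rfl
          omega)
      rw [decide_eq_true_eq]
      refine ⟨(hx v.1 + b) / 2 ^ t, ?_, h1, hcr, ?_⟩
      · rw [Finset.mem_insert, Finset.mem_singleton]
        omega
      · have h3 : (ly v.1 + a) / 2 ^ t = (hy v.1 + a) / 2 ^ t := hcx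
        have h4 : (lx (swt v.1) + a) / 2 ^ t ≤ (p.x + a) / 2 ^ t :=
          Nat.div_le_div_right (by omega)
        have h5 : (p.x + a) / 2 ^ t ≤ (hx (swt v.1) + a) / 2 ^ t :=
          Nat.div_le_div_right (by omega)
        have h6 : (ly v.1 + a) / 2 ^ t = X.x := by
          have : (ly v.1 + a) / 2 ^ t = (lx (swt v.1) + a) / 2 ^ t := rfl
          omega
        show (if (ly v.1 + a) / 2 ^ t = (hy v.1 + a) / 2 ^ t then
          some ((ly v.1 + a) / 2 ^ t) else none) = some X.x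
        rw [if_pos h3, h6]
    · -- vertical line
      left
      have hcr : A4_cr a (2 ^ t) ((hx (swt v.1) + a) / 2 ^ t) (swt v.1) := A4_cr_of_ne hs hcx
      have hk1 : X.x ≤ (hx (swt v.1) + a) / 2 ^ t := by
        rw [← hpx]
        exact Nat.div_le_div_right (by omega)
      have hk2 : (hx (swt v.1) + a) / 2 ^ t ≤ X.x + 1 := by
        rw [← hpx, ← Nat.add_div_right _ hs]
        exact Nat.div_le_div_right (by omega)
      rw [decide_eq_true_eq]
      refine ⟨((hx (swt v.1) + a) / 2 ^ t, ly (swt v.1) / 2 ^ t), ?_, h1, hcr, rfl⟩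
      rw [Finset.mem_product]
      have h3 : X.y * 2 ^ t ≤ p.y + b := by rw [← hpy]; exact Nat.div_mul_le_self _ _
      have h4 : p.y + b < (X.y + 1) * 2 ^ t := by
        rw [← hpy]
        exact Nat.lt_mul_of_div_lt (Nat.lt_succ_self _) hs
      rw [add_mul, one_mul] at h4
      have h5 : D / 2 ^ t ≤ ly (swt v.1) / 2 ^ t + 1 := by
        rw [← Nat.add_div_right _ hs]
        exact Nat.div_le_div_right (by omega)
      have h6 : ly (swt v.1) / 2 ^ t ≤ D / 2 ^ t + 1 := by
        rw [← Nat.add_div_right _ hs]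
        exact Nat.div_le_div_right (by omega)
      constructor
      · rw [Finset.mem_insert, Finset.mem_singleton]
        show (hx (swt v.1) + a) / 2 ^ t = X.x ∨ (hx (swt v.1) + a) / 2 ^ t = X.x + 1
        omega
      · rw [Finset.mem_insert, Finset.mem_insert, Finset.mem_singleton]
        have h7 : ∀ c d : ℕ, d ≤ c + 1 → c ≤ d + 1 → c = d - 1 ∨ c = d ∨ c = d + 1 := by
          intro c d h8 h9
          omega
        exact h7 _ _ h5 h6
  have hV : S2.countP (fun v => decide (∃ i ∈ ({X.x, X.x + 1} : Finset ℕ) ×ˢ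
        ({D / 2 ^ t - 1, D / 2 ^ t, D / 2 ^ t + 1} : Finset ℕ),
        v.2 ≤ t ∧ A4_cr a (2 ^ t) i.1 (swt v.1) ∧ A4_C1.cls t (swt v.1) = some i.2)) ≤
      6 * m := by
    refine (A4_countP_le S2 _ (({X.x, X.x + 1} : Finset ℕ) ×ˢ
        ({D / 2 ^ t - 1, D / 2 ^ t, D / 2 ^ t + 1} : Finset ℕ))
      (fun i v => decide (v.2 ≤ t ∧ A4_cr a (2 ^ t) i.1 (swt v.1) ∧
        A4_C1.cls t (swt v.1) = some i.2)) m ?_ ?_).trans ?_
    · intro v _ hv
      rw [decide_eq_true_eq] at hv
      obtain ⟨i, hi, h⟩ := hv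
      exact ⟨i, hi, by rw [decide_eq_true_eq]; exact h⟩
    · rintro ⟨k, c⟩ -
      refine (hS2.countP_le _).trans ?_
      rw [List.countP_map, List.countP_append]
      have h1 := A4_cls_count A4_C1 S1 m T a t ht hC1 k c
      have h2 : B1.countP ((fun v : LT => decide (v.2 ≤ t ∧ A4_cr a (2 ^ t) k (swt v.1) ∧
          A4_C1.cls t (swt v.1) = some c)) ∘ fun v => (swt v.1, v.2)) = 0 := by
        rw [List.countP_eq_zero]
        intro v hv hcon
        simp only [Function.comp, decide_eq_true_eq, A4_swt_swt] at hcon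
        obtain ⟨h3, h4, -⟩ := hcon
        obtain ⟨j, hj, hjv, hcr⟩ := hB1 v hv
        exact A4_not_cr (fun g hg => hcr g (dvd_trans (pow_dvd_pow 2 (hjv.trans h3)) hg)) k h4
      have h3 : S1.countP ((fun v : LT => decide (v.2 ≤ t ∧ A4_cr a (2 ^ t) k (swt v.1) ∧
          A4_C1.cls t (swt v.1) = some c)) ∘ fun v => (swt v.1, v.2)) =
          S1.countP (fun v => decide (v.2 ≤ t ∧ A4_cr a (2 ^ t) k v.1 ∧
            A4_C1.cls t v.1 = some c)) := rfl
      rw [h2, h3]
      omega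
    · have hc1 : ({X.x, X.x + 1} : Finset ℕ).card ≤ 2 := Finset.card_le_two
      have hc2 : ({D / 2 ^ t - 1, D / 2 ^ t, D / 2 ^ t + 1} : Finset ℕ).card ≤ 3 :=
        Finset.card_le_three
      rw [Finset.card_product]
      exact Nat.mul_le_mul_right _ (Nat.mul_le_mul hc1 hc2)
  have hH : S2.countP (fun v => decide (∃ k ∈ ({X.y, X.y + 1} : Finset ℕ),
        v.2 ≤ t ∧ A4_cr b (2 ^ t) k v.1 ∧ (A4_C2 a).cls t v.1 = some X.x)) ≤ 2 * m := by
    refine (A4_countP_le S2 _ ({X.y, X.y + 1} : Finset ℕ)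
      (fun k v => decide (v.2 ≤ t ∧ A4_cr b (2 ^ t) k v.1 ∧
        (A4_C2 a).cls t v.1 = some X.x)) m ?_ ?_).trans ?_
    · intro v _ hv
      rw [decide_eq_true_eq] at hv
      obtain ⟨i, hi, h⟩ := hv
      exact ⟨i, hi, by rw [decide_eq_true_eq]; exact h⟩
    · intro k _
      exact A4_cls_count (A4_C2 a) S2 m T b t ht hC2 k X.x
    · exact Nat.mul_le_mul_right _ Finset.card_le_two
  omega

/-! ## the structure theorem -/

theorem A4_wt_swt (κ : ℝ) (v : LT) : wt κ (swt v.1, v.2) = wt κ v := by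
  unfold wt
  rw [A4_per_swt]

theorem A4_wt_out (κ : ℝ) (a b : ℕ) (v : LT) : wt κ (A4_sht a b (swt v.1), v.2) = wt κ v := by
  unfold wt
  rw [A4_per_sht, A4_per_swt]

theorem A4_pl_swt (L : List Tri) : pl (L.map swt) = (pl L).map sw := by
  unfold pl
  rw [List.flatMap_map, List.map_flatMap]
  rfl

theorem A4_pl_out (a b : ℕ) (L : List Tri) :
    pl (L.map fun t => A4_sht a b (swt t)) = (pl L).map fun p => sh a b (sw p) := by
  unfold pl
  rw [List.flatMap_map, List.map_flatMap]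
  rfl

theorem A4_wt_label {κ : ℝ} (hκ0 : 0 ≤ κ) (m : ℕ) (t : Tri) :
    wt κ (t, Nat.size (m * ss t)) ≤ (1 + κ * m) * per t + κ := by
  unfold wt
  simp only
  have h1 : ((2 ^ Nat.size (m * ss t) : ℕ) : ℝ) ≤ ((2 * (m * ss t) + 1 : ℕ) : ℝ) :=
    Nat.cast_le.mpr (A4_size_le _)
  push_cast at h1
  have h2 := A4_ss_le t
  have h3 : (m : ℝ) * (2 * (ss t : ℝ)) ≤ m * per t :=
    mul_le_mul_of_nonneg_left h2 (Nat.cast_nonneg _)
  have h4 : κ * (2 : ℝ) ^ Nat.size (m * ss t) ≤ κ * (m * per t + 1) := by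
    apply mul_le_mul_of_nonneg_left _ hκ0
    linarith
  linarith

theorem structure_thm (m T : ℕ) (κ : ℝ) (hm : 54 ≤ m) (hκ0 : 0 ≤ κ) (hκ : κ * m ≤ 1)
    (Q : List Tri) (hT : 4 * (2 * (Q.map per).sum + Q.length) ≤ (2 : ℝ) ^ T) :
    ∃ a < 2 ^ T, ∃ b < 2 ^ T, ∃ ρ : List LT,
      (pl (ρ.map Prod.fst)).Perm ((pl Q).map (sh a b)) ∧
      (∀ u ∈ ρ, In (2 ^ T) u.1) ∧
      (∀ t < T, ∀ X, exc ρ t X ≤ 24 * m) ∧
      (ρ.map (wt κ)).sum ≤
        (1 + 68 / m) * ((1 + 2 * κ * m) * (Q.map per).sum + κ * Q.length) := by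
  have hm0 : (54 : ℝ) ≤ m := by exact_mod_cast hm
  have hmpos : (0 : ℝ) < m := by linarith
  have hκ1 : κ ≤ 1 := by nlinarith
  set P := (Q.map per).sum with hP
  have hP0 : 0 ≤ P := List.sum_nonneg (by
    intro x hx
    obtain ⟨t, -, rfl⟩ := List.mem_map.mp hx
    exact A4_per_nonneg t)
  have hlen0 : (0 : ℝ) ≤ Q.length := Nat.cast_nonneg _
  -- phase one
  set Q1 : List LT := Q.map fun t => (t, Nat.size (m * ss t)) with hQ1
  have hQ1s : ∀ v ∈ Q1, m * ss v.1 < 2 ^ v.2 := by
    intro v hv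
    obtain ⟨t, -, rfl⟩ := List.mem_map.mp hv
    exact Nat.lt_size_self _
  have hW0 : (Q1.map (wt κ)).sum ≤ (1 + κ * m) * P + κ * Q.length := by
    rw [hQ1, List.map_map, hP]
    have : ∀ L : List Tri, (L.map (wt κ ∘ fun t => (t, Nat.size (m * ss t)))).sum ≤
        (1 + κ * m) * (L.map per).sum + κ * L.length := by
      intro L
      induction L with
      | nil => simp
      | cons t L ih =>
        simp only [List.map_cons, List.sum_cons, List.length_cons, Function.comp]
        have h1 := A4_wt_label hκ0 m t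
        rw [Nat.cast_add, Nat.cast_one]
        linarith
    exact this Q
  set W0 := (Q1.map (wt κ)).sum with hW0def
  have hex1 : 2 * (Q1.map fun v => (ex v.1 : ℝ)).sum ≤ P := by
    rw [hQ1, List.map_map, hP]
    have : ∀ L : List Tri, 2 * (L.map ((fun v : LT => (ex v.1 : ℝ)) ∘ fun t =>
        (t, Nat.size (m * ss t)))).sum ≤ (L.map per).sum := by
      intro L
      induction L with
      | nil => simp
      | cons t L ih =>
        simp only [List.map_cons, List.sum_cons, Function.comp]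
        have h1 := A4_ex_le t
        linarith
    exact this Q
  have hPW : P ≤ W0 := by
    rw [hW0def, hQ1, List.map_map, hP]
    apply List.sum_le_sum
    intro t _
    simp only [Function.comp]
    unfold wt
    have : 0 ≤ κ * (2 : ℝ) ^ Nat.size (m * ss t) := by positivity
    linarith
  have hcast : ∀ L : List LT, (((L.map fun v => ex v.1).sum : ℕ) : ℝ) =
      (L.map fun v => (ex v.1 : ℝ)).sum := by
    intro L
    induction L with
    | nil => simp
    | cons v L ih => rw [List.map_cons, List.sum_cons, Nat.cast_add, ih, List.map_cons,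
        List.sum_cons]
  have hT1 : 4 * (Q1.map fun v => ex v.1).sum ≤ 2 ^ T := by
    have : ((4 * (Q1.map fun v => ex v.1).sum : ℕ) : ℝ) ≤ ((2 ^ T : ℕ) : ℝ) := by
      rw [Nat.cast_mul, hcast, Nat.cast_pow, Nat.cast_ofNat, Nat.cast_ofNat]
      linarith
    exact Nat.cast_le.mp this
  obtain ⟨a, ha, S1, B1, hS1, hp1, hB1, hC1, hX1, hw1⟩ :=
    phase Q1 m T κ A4_C1 (by omega) hκ0 hκ hQ1s hT1
  -- phase two
  set Q2 : List LT := (S1 ++ B1).map fun v => (swt v.1, v.2) with hQ2
  have hs1 : ∀ v ∈ S1, m * ss v.1 < 2 ^ v.2 := fun v hv => hQ1s v (hS1.subset hv)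
  have hQ2s : ∀ v ∈ Q2, m * ss v.1 < 2 ^ v.2 := by
    intro v hv
    obtain ⟨w, hw, rfl⟩ := List.mem_map.mp hv
    simp only [A4_ss_swt]
    rcases List.mem_append.mp hw with h | h
    · exact hs1 w h
    · obtain ⟨j, -, -, h2, -⟩ := hB1 w h
      exact h2
  have hW1 : ((S1 ++ B1).map (wt κ)).sum ≤ (1 + 27 / m) * W0 := by
    rw [List.map_append, List.sum_append]
    have h1 : (S1.map (wt κ)).sum ≤ W0 := A4_subperm_sum _ (A4_wt_nonneg hκ0) hS1
    have h2 : 54 / (m : ℝ) * (Q1.map fun v => (ex v.1 : ℝ)).sum ≤ 27 / m * W0 := by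
      have h3 : 54 / (m : ℝ) * (Q1.map fun v => (ex v.1 : ℝ)).sum =
        27 / m * (2 * (Q1.map fun v => (ex v.1 : ℝ)).sum) := by ring
      rw [h3]
      apply mul_le_mul_of_nonneg_left _ (by positivity)
      linarith
    linarith
  set W1 := ((S1 ++ B1).map (wt κ)).sum with hW1def
  have hex2 : 2 * (Q2.map fun v => (ex v.1 : ℝ)).sum ≤ W1 := by
    rw [hQ2, List.map_map, hW1def]
    have : ∀ L : List LT, 2 * (L.map ((fun v : LT => (ex v.1 : ℝ)) ∘ fun v =>
        (swt v.1, v.2))).sum ≤ (L.map (wt κ)).sum := by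
      intro L
      induction L with
      | nil => simp
      | cons v L ih =>
        simp only [List.map_cons, List.sum_cons, Function.comp, A4_ex_swt]
        have h1 := A4_ey_le v.1
        have h2 : per v.1 ≤ wt κ v := by
          unfold wt
          have : 0 ≤ κ * (2 : ℝ) ^ v.2 := by positivity
          linarith
        linarith
    exact this _
  have h27 : 27 / (m : ℝ) ≤ 1 / 2 := by
    rw [div_le_div_iff₀ hmpos (by norm_num)]
    linarith
  have hW0nn : 0 ≤ W0 := hP0.trans hPW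
  have hW0b : W0 ≤ 2 * P + Q.length := by
    have h1 : κ * m * P ≤ 1 * P := mul_le_mul_of_nonneg_right hκ hP0
    have h2 : κ * Q.length ≤ 1 * Q.length := mul_le_mul_of_nonneg_right hκ1 hlen0
    linarith
  have hT2 : 4 * (Q2.map fun v => ex v.1).sum ≤ 2 ^ T := by
    have : ((4 * (Q2.map fun v => ex v.1).sum : ℕ) : ℝ) ≤ ((2 ^ T : ℕ) : ℝ) := by
      rw [Nat.cast_mul, hcast, Nat.cast_pow, Nat.cast_ofNat, Nat.cast_ofNat]
      have h1 : (1 + 27 / (m : ℝ)) * W0 ≤ (1 + 1 / 2) * W0 :=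
        mul_le_mul_of_nonneg_right (by linarith) hW0nn
      linarith
    exact Nat.cast_le.mp this
  obtain ⟨b, hb, S2, B2, hS2, hp2, hB2, hC2, hX2, hw2⟩ :=
    phase Q2 m T κ (A4_C2 a) (by omega) hκ0 hκ hQ2s hT2
  have hs : 0 < 2 ^ T := by positivity
  refine ⟨a, ha, b, hb, (S2 ++ B2).map fun v => (A4_sht a b (swt v.1), v.2), ?_, ?_, ?_, ?_⟩
  · -- the points
    have e1 : ((S2 ++ B2).map fun v : LT => ((A4_sht a b (swt v.1), v.2) : LT)).map Prod.fst =
        ((S2 ++ B2).map Prod.fst).map fun t => A4_sht a b (swt t) := by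
      rw [List.map_map, List.map_map]
      rfl
    have e2 : Q2.map Prod.fst = ((S1 ++ B1).map Prod.fst).map swt := by
      rw [hQ2, List.map_map, List.map_map]
      rfl
    have e3 : Q1.map Prod.fst = Q := by
      rw [hQ1, List.map_map]
      exact List.map_id'' (fun _ => rfl) Q
    rw [e1, A4_pl_out]
    rw [e2, A4_pl_swt] at hp2
    rw [e3] at hp1
    refine (hp2.map _).trans ?_
    rw [List.map_map]
    exact hp1.map (sh a b)
  · -- containment
    intro u hu
    obtain ⟨v, hv, rfl⟩ := List.mem_map.mp hu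
    show In (2 ^ T) (A4_sht a b (swt v.1))
    rw [A4_In_iff]
    rcases List.mem_append.mp hv with h | h
    · constructor
      · have h1 : v ∈ Q2 := hS2.subset h
        obtain ⟨w, hw, hwv⟩ := List.mem_map.mp h1
        have h2 : swt v.1 = w.1 := by rw [← hwv]; rfl
        rw [h2]
        rcases List.mem_append.mp hw with h' | h'
        · exact A4_div_eq hs (fun k => A4_not_cr (hX1 w h') k)
        · obtain ⟨j, hj, -, -, h3, -⟩ := hB1 w h'
          exact A4_div_eq hs (fun k => A4_not_cr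
            (fun g hg => h3 g (dvd_trans (pow_dvd_pow 2 hj.le) hg)) k)
      · exact A4_div_eq (t := v.1) hs (fun k => A4_not_cr (hX2 v h) k)
    · obtain ⟨j, hj, -, -, hcr, c, hreg⟩ := hB2 v h
      constructor
      · obtain ⟨p, hp, hpe⟩ := A4_lx_mem (swt v.1)
        obtain ⟨q, hq, hqe⟩ := A4_hx_mem (swt v.1)
        rw [A4_mem_swt] at hp hq
        have h3 : ((sw p).y + a) / 2 ^ j = c := hreg _ hp
        have h4 : ((sw q).y + a) / 2 ^ j = c := hreg _ hq
        have h5 : (sw p).y = lx (swt v.1) := hpe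
        have h6 : (sw q).y = hx (swt v.1) := hqe
        rw [h5] at h3
        rw [h6] at h4
        obtain ⟨d, hd⟩ := Nat.exists_eq_add_of_le hj.le
        rw [hd, pow_add, ← Nat.div_div_eq_div_mul, ← Nat.div_div_eq_div_mul, h3, h4]
      · exact A4_div_eq (t := v.1) hs (fun k => A4_not_cr
          (fun g hg => hcr g (dvd_trans (pow_dvd_pow 2 hj.le) hg)) k)
  · -- counting
    intro t ht X
    refine A4_exc_bound m T a b (by omega) S1 B1 S2 B2 hS2 (fun v hv => hQ2s v (hS2.subset hv))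
      ?_ hC1 ?_ hC2 t ht X
    · intro v hv
      obtain ⟨j, hj, h1, -, h2, -⟩ := hB1 v hv
      exact ⟨j, hj, h1, h2⟩
    · intro v hv
      obtain ⟨j, hj, h1, -, h2, h3⟩ := hB2 v hv
      exact ⟨j, hj, h1, h2, h3⟩
  · -- weight
    rw [List.map_map]
    have e1 : (wt κ ∘ fun v : LT => ((A4_sht a b (swt v.1), v.2) : LT)) = wt κ :=
      funext fun v => A4_wt_out κ a b v
    rw [e1, List.map_append, List.sum_append]
    have e2 : (Q2.map (wt κ)).sum = W1 := by
      rw [hQ2, List.map_map, hW1def]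
      have : (wt κ ∘ fun v : LT => ((swt v.1, v.2) : LT)) = wt κ :=
        funext fun v => A4_wt_swt κ v
      rw [this]
    have h1 : (S2.map (wt κ)).sum ≤ W1 := by
      rw [← e2]
      exact A4_subperm_sum _ (A4_wt_nonneg hκ0) hS2
    have hW1nn : 0 ≤ W1 := by
      rw [← e2]
      apply List.sum_nonneg
      intro x hx
      obtain ⟨t, -, rfl⟩ := List.mem_map.mp hx
      exact A4_wt_nonneg hκ0 t
    have h2 : 54 / (m : ℝ) * (Q2.map fun v => (ex v.1 : ℝ)).sum ≤ 27 / m * W1 := by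
      have h3 : 54 / (m : ℝ) * (Q2.map fun v => (ex v.1 : ℝ)).sum =
        27 / m * (2 * (Q2.map fun v => (ex v.1 : ℝ)).sum) := by ring
      rw [h3]
      exact mul_le_mul_of_nonneg_left hex2 (by positivity)
    have h3 : (S2.map (wt κ)).sum + (B2.map (wt κ)).sum ≤ (1 + 27 / m) * W1 := by linarith
    have h4 : (1 + 27 / (m : ℝ)) * W1 ≤ (1 + 27 / m) * ((1 + 27 / m) * W0) :=
      mul_le_mul_of_nonneg_left hW1 (by positivity)
    have h5 : (1 + 27 / (m : ℝ)) * (1 + 27 / m) ≤ 1 + 68 / m := by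
      have h6 : 27 / (m : ℝ) * (27 / m) ≤ 27 / m * (1 / 2) :=
        mul_le_mul_of_nonneg_left h27 (by positivity)
      have h7 : 68 / (m : ℝ) = 27 / m + 27 / m + 27 / m * (1 / 2) + 1 / 2 * (1 / m) := by ring
      have h8 : 0 ≤ 1 / 2 * (1 / (m : ℝ)) := by positivity
      rw [h7]
      ring_nf
      ring_nf at h6 h8
      linarith
    have h6 : (1 + 27 / (m : ℝ)) * ((1 + 27 / m) * W0) ≤ (1 + 68 / m) * W0 := by
      rw [← mul_assoc]
      exact mul_le_mul_of_nonneg_right h5 hW0nn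
    have h7 : W0 ≤ (1 + 2 * κ * m) * P + κ * Q.length := by
      have : 0 ≤ κ * m * P := by positivity
      linarith
    have h8 : (1 + 68 / (m : ℝ)) * W0 ≤ (1 + 68 / m) * ((1 + 2 * κ * m) * P + κ * Q.length) :=
      mul_le_mul_of_nonneg_left h7 (by positivity)
    linarith

end Pool.Agent.M3
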